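import Pool.Agent.Lib.MP_228259_lc.D.FD

/-!
XD-EVB: evaluation of a homomorphism into a field of germs at a point far out.

PROOF. `B` is of finite type: a surjection `π : MvPolynomial (Fin n) ℂ →ₐ[ℂ] B`
(`Algebra.FiniteType.iff_quotient_mvPolynomial''`). Put `a i = ψ (π (X i))`; `ψ (π f) = aeval a f`
(`MvPolynomial.algHom_ext` or `induction_on`). `ev_isPt a` gives `R₀`: for `u ∈ Om R₀` and all `f` with `aeval a f = 0`:
`eval (fun i => rep (a i) u) f = 0` (definition of `XA.IsPt`). So `aeval (fun i => rep (a i) u)` kills the kernel of `π` and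
factors through `π`: `σ : B →ₐ[ℂ] ℂ` with `σ (π f) = eval (fun i => rep (a i) u) f` (`Ideal.Quotient.liftₐ` and
`Ideal.quotientKerAlgEquivOfSurjective`, or `AlgHom.liftOfSurjective`-like). For each `b ∈ S` choose `f` with `π f = b`:
`rep (ψ b) =ᶠ[lom] fun u => eval (fun i => rep (a i) u) f` (`rep_aeval`), so the equality holds on some `Om R_b` (`ev_iff`); `R` = the
maximum of `R₀` and the `R_b`, `b ∈ S` (`Filter.eventually_all_finset`).
-/

set_option autoImplicit false

namespace XD

open Complex Filter Topology Metric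

theorem evB {L : Set (ℂ → ℂ)} {h : TF L} {B : Type} [CommRing B] [Algebra ℂ B]
    [Algebra.FiniteType ℂ B] (ψ : B →ₐ[ℂ] FF h) (S : Finset B) :
    ∀ᶠ u in lom, ∃ σ : B →ₐ[ℂ] ℂ, ∀ b ∈ S, σ b = rep (ψ b) u := by
  obtain ⟨n, π, hπ⟩ := (Algebra.FiniteType.iff_quotient_mvPolynomial'' (R := ℂ) (S := B)).1
    inferInstance
  have hψ : ∀ f, ψ (π f) = MvPolynomial.aeval (fun i => ψ (π (MvPolynomial.X i))) f := by
    intro f
    have h1 : ψ.comp π = MvPolynomial.aeval (fun i => ψ (π (MvPolynomial.X i))) := by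
      apply MvPolynomial.algHom_ext
      intro i
      rw [MvPolynomial.aeval_X]
      rfl
    exact DFunLike.congr_fun h1 f
  obtain ⟨R₀, hR₀⟩ := ev_isPt (fun i => ψ (π (MvPolynomial.X i)))
  choose F hF using hπ
  have h1 : ∀ b ∈ S, ∀ᶠ u in lom, rep (ψ b) u =
      MvPolynomial.eval (fun i => rep (ψ (π (MvPolynomial.X i))) u) (F b) := by
    intro b _
    have h2 := rep_aeval (fun i => ψ (π (MvPolynomial.X i))) (F b)
    rw [← hψ, hF] at h2
    exact h2
  filter_upwards [om_mem R₀, (Filter.eventually_all_finset _).2 h1] with u hu hS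
  have hker : ∀ f : MvPolynomial (Fin n) ℂ, f ∈ RingHom.ker π →
      MvPolynomial.aeval (fun i => rep (ψ (π (MvPolynomial.X i))) u) f = 0 := by
    intro f hf
    rw [RingHom.mem_ker] at hf
    exact hR₀ u hu f (by rw [← hψ, hf, map_zero])
  have hπ' : Function.Surjective π := fun b => ⟨F b, hF b⟩
  refine ⟨(Ideal.Quotient.liftₐ (RingHom.ker π)
    (MvPolynomial.aeval (fun i => rep (ψ (π (MvPolynomial.X i))) u)) hker).comp
    (Ideal.quotientKerAlgEquivOfSurjective hπ').symm.toAlgHom, ?_⟩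
  intro b hb
  rw [hS b hb]
  have h3 : (Ideal.quotientKerAlgEquivOfSurjective hπ').symm b =
      Ideal.Quotient.mk (RingHom.ker π) (F b) := by
    rw [AlgEquiv.symm_apply_eq]
    exact (hF b).symm
  change Ideal.Quotient.liftₐ (RingHom.ker π) _ hker
    ((Ideal.quotientKerAlgEquivOfSurjective hπ').symm b) = _
  rw [h3]
  rfl

end XD
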