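import Pool.Agent.Lib.MP_228259_lc.A.CL2

/-!
XD-ED (EXPDEP): exponentials which are algebraically dependent over a differential field `K`
satisfy a monomial relation.

PROOF. `hdep`: `E₂` is a root of a non-zero polynomial `q` with coefficients in
`adjoin ℂ (insert E₁ K) = {c(E₁) | c ∈ K[X]}` (induction on the adjoin). Choose `c_j ∈ K[X]` with `c_j(E₁) = q_j`,
`c_j = 0` if `q_j = 0`; some `q_j ≠ 0`, so some `c_j ≠ 0`. So there is a non-zero finitely supported family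
`a : ℕ × ℕ →₀ K` (`a_ij` the coefficients of the `c_j`) with `∑ a_ij E₁ ^ i E₂ ^ j = 0`. Choose such a family with support
`S` of minimal cardinality;
`card S ≥ 2` because `E₁, E₂ ≠ 0`. Fix `(i₀, j₀) ∈ S` and divide by its coefficient: `a_{i₀j₀} = 1`. Apply `D`:
`∑ (D a_ij + a_ij (i η₁ + j η₂)) E₁ ^ i E₂ ^ j = 0`, subtract `(i₀ η₁ + j₀ η₂)` times the relation: the
family `D a_ij + a_ij ((i - i₀) η₁ + (j - j₀) η₂)` has support in `S \ {(i₀, j₀)}`, so it vanishes by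
minimality. For another `(i, j) ∈ S`: `D (a_ij E₁ ^ (i - i₀) E₂ ^ (j - j₀)) = 0` (integer exponents,
`Derivation.leibniz`, `D (E ^ n) = n η E ^ n` for `n : ℤ`), so it is a constant `c ≠ 0` and
`E₁ ^ (i - i₀) E₂ ^ (j - j₀) = c a_ij⁻¹ ∈ K`.
-/

set_option autoImplicit false

namespace XD

theorem exp_dep {F : Type*} [Field F] [Algebra ℂ F] (D : Derivation ℂ F F)
    (hc : ∀ a : F, D a = 0 → ∃ c : ℂ, a = algebraMap ℂ F c) (K : IntermediateField ℂ F)
    (hK : ∀ a ∈ K, D a ∈ K) {E₁ E₂ η₁ η₂ : F} (h1 : E₁ ≠ 0) (h2 : E₂ ≠ 0) (hη1 : η₁ ∈ K)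
    (hη2 : η₂ ∈ K) (hd1 : D E₁ = η₁ * E₁) (hd2 : D E₂ = η₂ * E₂)
    (hdep : E₂ ∈ XA.cl (insert E₁ (K : Set F))) :
    ∃ k l : ℤ, (k ≠ 0 ∨ l ≠ 0) ∧ E₁ ^ k * E₂ ^ l ∈ K := by
  classical
  -- a non-trivial relation
  obtain ⟨q, hq, hqE⟩ := hdep
  have hrange : Algebra.adjoin ℂ (insert E₁ (K : Set F)) ≤
      ((Polynomial.aeval E₁ : Polynomial K →ₐ[K] F).restrictScalars ℂ).range := by
    rw [Algebra.adjoin_le_iff]
    rintro a (rfl | ha)
    · exact ⟨Polynomial.X, Polynomial.aeval_X _⟩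
    · exact ⟨Polynomial.C (⟨a, ha⟩ : K), Polynomial.aeval_C _ _⟩
  have hcoef : ∀ j, ∃ c : Polynomial K, Polynomial.aeval E₁ c =
      algebraMap (Algebra.adjoin ℂ (insert E₁ (K : Set F))) F (q.coeff j) := by
    intro j
    obtain ⟨c, hc⟩ := hrange (q.coeff j).2
    exact ⟨c, hc⟩
  choose c hcq using hcoef
  set N : ℕ := (q.support.sup fun j => (c j).natDegree) + 1 with hN
  have hNj : ∀ j ∈ q.support, (c j).natDegree < N := by
    intro j hj
    rw [hN, Nat.lt_succ_iff]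
    exact Finset.le_sup (f := fun j => (c j).natDegree) hj
  have hsum0 : ∑ p ∈ Finset.range N ×ˢ q.support,
      ((c p.2).coeff p.1 : F) * E₁ ^ p.1 * E₂ ^ p.2 = 0 := by
    rw [Polynomial.aeval_def, Polynomial.eval₂_eq_sum, Polynomial.sum_def] at hqE
    rw [Finset.sum_product_right, ← hqE]
    refine Finset.sum_congr rfl fun j hj => ?_
    rw [← hcq j, Polynomial.aeval_eq_sum_range' (hNj j hj), Finset.sum_mul]
    refine Finset.sum_congr rfl fun i _ => ?_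
    rw [Algebra.smul_def]
    rfl
  -- relations
  let R : ℕ → Prop := fun n => ∃ (S : Finset (ℕ × ℕ)) (a : ℕ × ℕ → F), S.card = n ∧ S.Nonempty ∧
    (∀ p ∈ S, a p ∈ K) ∧ (∀ p ∈ S, a p ≠ 0) ∧ ∑ p ∈ S, a p * E₁ ^ p.1 * E₂ ^ p.2 = 0
  have hR : ∃ n, R n := by
    refine ⟨_, (Finset.range N ×ˢ q.support).filter (fun p => ((c p.2).coeff p.1 : F) ≠ 0),
      fun p => ((c p.2).coeff p.1 : F), rfl, ?_, ?_, ?_, ?_⟩
    · obtain ⟨j, hj⟩ := Finset.nonempty_iff_ne_empty.2 (mt Polynomial.support_eq_empty.1 hq)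
      have hcj : c j ≠ 0 := by
        intro h0
        have h3 := hcq j
        rw [h0, map_zero] at h3
        apply Polynomial.mem_support_iff.1 hj
        exact Subtype.val_injective h3.symm
      refine ⟨((c j).natDegree, j), ?_⟩
      rw [Finset.mem_filter, Finset.mem_product, Finset.mem_range]
      refine ⟨⟨hNj j hj, hj⟩, ?_⟩
      intro h0
      apply hcj
      rw [← Polynomial.leadingCoeff_eq_zero]
      exact Subtype.val_injective h0
    · intro p _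
      exact ((c p.2).coeff p.1).2
    · intro p hp
      exact (Finset.mem_filter.1 hp).2
    · refine Eq.trans (Finset.sum_subset (Finset.filter_subset _ _) ?_) hsum0
      intro p hp hp'
      have h0 : ((c p.2).coeff p.1 : F) = 0 := by
        by_contra h3
        exact hp' (Finset.mem_filter.2 ⟨hp, h3⟩)
      simp only [h0, zero_mul]
  obtain ⟨S, a, hcard, hne, haK, ha0, hsum⟩ := Nat.find_spec hR
  have hmin : ∀ m, R m → S.card ≤ m := fun m hm => by
    rw [hcard]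
    exact Nat.find_min' hR hm
  -- two elements
  have hmono : ∀ p : ℕ × ℕ, E₁ ^ p.1 * E₂ ^ p.2 ≠ 0 := fun p =>
    mul_ne_zero (pow_ne_zero _ h1) (pow_ne_zero _ h2)
  have htwo : 1 < S.card := by
    by_contra hcon
    have h3 : S.card = 1 := by
      have h4 := hne.card_pos
      omega
    obtain ⟨p, hp⟩ := Finset.card_eq_one.1 h3
    rw [hp, Finset.sum_singleton, mul_assoc] at hsum
    rcases mul_eq_zero.1 hsum with h4 | h4
    · exact ha0 p (by rw [hp]; exact Finset.mem_singleton_self p) h4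
    · exact hmono p h4
  obtain ⟨p₀, hp₀, p₁, hp₁, hp01⟩ := Finset.one_lt_card.1 htwo
  -- normalise
  set b : ℕ × ℕ → F := fun p => a p / a p₀ with hb
  have hbK : ∀ p ∈ S, b p ∈ K := fun p hp => K.div_mem (haK p hp) (haK p₀ hp₀)
  have hb0 : ∀ p ∈ S, b p ≠ 0 := fun p hp => div_ne_zero (ha0 p hp) (ha0 p₀ hp₀)
  have hb1 : b p₀ = 1 := div_self (ha0 p₀ hp₀)
  have hbsum : ∑ p ∈ S, b p * (E₁ ^ p.1 * E₂ ^ p.2) = 0 := by
    have h3 : ∑ p ∈ S, b p * (E₁ ^ p.1 * E₂ ^ p.2) =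
        (∑ p ∈ S, a p * E₁ ^ p.1 * E₂ ^ p.2) / a p₀ := by
      rw [Finset.sum_div]
      refine Finset.sum_congr rfl fun p _ => ?_
      rw [hb]
      ring
    rw [h3, hsum, zero_div]
  -- derivatives
  have hDz : ∀ (E η : F), E ≠ 0 → D E = η * E → ∀ n : ℤ, D (E ^ n) = n * η * E ^ n := by
    intro E η hE hd n
    rw [Derivation.leibniz_zpow, hd, smul_eq_mul, zsmul_eq_mul, zpow_sub_one₀ hE]
    field_simp
  have hDE : ∀ p : ℤ × ℤ, D (E₁ ^ p.1 * E₂ ^ p.2) =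
      (p.1 * η₁ + p.2 * η₂) * (E₁ ^ p.1 * E₂ ^ p.2) := by
    intro p
    rw [Derivation.leibniz, hDz E₁ η₁ h1 hd1, hDz E₂ η₂ h2 hd2, smul_eq_mul, smul_eq_mul]
    ring
  have hDE' : ∀ p : ℕ × ℕ, D (E₁ ^ p.1 * E₂ ^ p.2) =
      (p.1 * η₁ + p.2 * η₂) * (E₁ ^ p.1 * E₂ ^ p.2) := by
    intro p
    have h3 := hDE ((p.1 : ℤ), (p.2 : ℤ))
    simpa using h3
  set b' : ℕ × ℕ → F := fun p => D (b p) + b p * (((p.1 : F) - p₀.1) * η₁ + ((p.2 : F) - p₀.2) * η₂)
    with hb'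
  have hb'sum : ∑ p ∈ S, b' p * E₁ ^ p.1 * E₂ ^ p.2 = 0 := by
    have h3 : D (∑ p ∈ S, b p * (E₁ ^ p.1 * E₂ ^ p.2)) = 0 := by
      rw [hbsum, map_zero]
    rw [map_sum] at h3
    have h4 : ∑ p ∈ S, b' p * E₁ ^ p.1 * E₂ ^ p.2 =
        ∑ p ∈ S, D (b p * (E₁ ^ p.1 * E₂ ^ p.2)) -
          ((p₀.1 : F) * η₁ + p₀.2 * η₂) * ∑ p ∈ S, b p * (E₁ ^ p.1 * E₂ ^ p.2) := by
      rw [Finset.mul_sum, ← Finset.sum_sub_distrib]
      refine Finset.sum_congr rfl fun p _ => ?_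
      rw [Derivation.leibniz, hDE', smul_eq_mul, smul_eq_mul, hb']
      ring
    rw [h4, h3, hbsum, mul_zero, sub_zero]
  have hb'K : ∀ p ∈ S, b' p ∈ K := by
    intro p hp
    have hnat : ∀ n : ℕ, (n : F) ∈ K := fun n => natCast_mem K n
    exact K.add_mem (hK _ (hbK p hp)) (K.mul_mem (hbK p hp) (K.add_mem
      (K.mul_mem (K.sub_mem (hnat _) (hnat _)) hη1) (K.mul_mem (K.sub_mem (hnat _) (hnat _)) hη2)))
  have hb'0 : ∀ p ∈ S, b' p = 0 := by
    by_contra hcon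
    push Not at hcon
    obtain ⟨p, hp, hpb⟩ := hcon
    have h3 : R (S.filter (fun p => b' p ≠ 0)).card := by
      refine ⟨_, b', rfl, ⟨p, Finset.mem_filter.2 ⟨hp, hpb⟩⟩, ?_, ?_, ?_⟩
      · intro r hr
        exact hb'K r (Finset.mem_filter.1 hr).1
      · intro r hr
        exact (Finset.mem_filter.1 hr).2
      · refine Eq.trans (Finset.sum_subset (Finset.filter_subset _ _) ?_) hb'sum
        intro r hr hr'
        have h0 : b' r = 0 := by
          by_contra h3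
          exact hr' (Finset.mem_filter.2 ⟨hr, h3⟩)
        rw [h0, zero_mul, zero_mul]
    have h4 := hmin _ h3
    have h5 : (S.filter (fun p => b' p ≠ 0)).card < S.card := by
      apply Finset.card_lt_card
      rw [Finset.filter_ssubset]
      refine ⟨p₀, hp₀, ?_⟩
      rw [not_not, hb']
      simp only [hb1, sub_self, zero_mul, add_zero, mul_zero]
      exact D.map_one_eq_zero
    omega
  -- the monomial relation
  set k : ℤ := (p₁.1 : ℤ) - p₀.1 with hk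
  set l : ℤ := (p₁.2 : ℤ) - p₀.2 with hl
  have hDm : D (b p₁ * (E₁ ^ k * E₂ ^ l)) = 0 := by
    have h3 := hb'0 p₁ hp₁
    rw [Derivation.leibniz, hDE (k, l), smul_eq_mul, smul_eq_mul]
    have h4 : b p₁ * (((k : F) * η₁ + (l : F) * η₂) * (E₁ ^ k * E₂ ^ l)) +
        E₁ ^ k * E₂ ^ l * D (b p₁) = b' p₁ * (E₁ ^ k * E₂ ^ l) := by
      rw [hb']
      simp only [hk, hl]
      push_cast
      ring
    rw [h4, h3, zero_mul]
  obtain ⟨c₀, hc₀⟩ := hc _ hDm
  refine ⟨k, l, ?_, ?_⟩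
  · by_contra hcon
    push Not at hcon
    apply hp01
    ext
    · have := hcon.1
      omega
    · have := hcon.2
      omega
  · have h3 : E₁ ^ k * E₂ ^ l = (b p₁)⁻¹ * algebraMap ℂ F c₀ := by
      rw [← hc₀, ← mul_assoc, inv_mul_cancel₀ (hb0 p₁ hp₁), one_mul]
    rw [h3]
    exact K.mul_mem (K.inv_mem (hbK p₁ hp₁)) (K.algebraMap_mem c₀)

end XD
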