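import Pool.Agent.Lib.MP_228259_lc.D.BS1

/-!
XD-BS2: sizes of polynomials in `w, e^w` near `w = a`, `w = a + e^{-u}`; algebraic independence of
`w, e^w`.

PROOF. `g w = p.evalEval w (exp w)` is an entire function, not identically zero (`sz_pos`: it is
non-zero far out). So near `a`: `g w = (w - a) ^ n * h w`, `h` analytic, `h a ≠ 0`
(`AnalyticAt.exists_eventuallyEq_pow_smul_nonzero_iff`, the order is finite by the identity theorem
`AnalyticOnNhd.eq_of_eventuallyEq`), `n = 0` iff `g a ≠ 0`. For `u → ∞` in the sector `e^{-u} → 0`, so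
`g (a + e^{-u}) / phi (-n) 0 u = h (a + e^{-u}) → h a`.
`expPoly_open`: if `p.evalEval z (κ * exp z) = 0` for all `z` in a non-empty open set then for all `z`
(identity theorem); replace `z` by `z` real and large: write `κ = exp κ'` and apply `sz_pos` to the
polynomial `p(X, κ Y)` (`Polynomial.scaleRoots`-like; or: the coefficients `(p.coeff k) κ ^ k`), or argue
directly with the largest `k` with `p.coeff k ≠ 0`.
-/

set_option autoImplicit false

namespace XD

open Complex Filter Topology Metric

private theorem xdB2ev (p : Polynomial (Polynomial ℂ)) (x y : ℂ) :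
    p.evalEval x y = ∑ k ∈ Finset.range (p.natDegree + 1), (p.coeff k).eval x * y ^ k := by
  rw [Polynomial.evalEval, Polynomial.eval_eq_sum_range (p := p), Polynomial.eval_finsetSum]
  refine Finset.sum_congr rfl fun k _ => ?_
  rw [Polynomial.eval_mul, Polynomial.eval_pow, Polynomial.eval_C]

private theorem xdB2diff (p : Polynomial (Polynomial ℂ)) :
    Differentiable ℂ fun w : ℂ => p.evalEval w (exp w) := by
  have h : (fun w : ℂ => p.evalEval w (exp w)) = fun w : ℂ =>
      ∑ k ∈ Finset.range (p.natDegree + 1), (p.coeff k).eval w * exp w ^ k := by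
    funext w
    exact xdB2ev p w (exp w)
  rw [h]
  refine Differentiable.fun_sum fun k _ => ?_
  exact (p.coeff k).differentiable.mul (Complex.differentiable_exp.pow k)

private theorem xdB2an (p : Polynomial (Polynomial ℂ)) :
    AnalyticOnNhd ℂ (fun w : ℂ => p.evalEval w (exp w)) Set.univ :=
  (xdB2diff p).differentiableOn.analyticOnNhd isOpen_univ

private theorem xdB2nz {p : Polynomial (Polynomial ℂ)} (hp : p ≠ 0) (a : ℂ) :
    ¬ ∀ᶠ z in 𝓝 a, p.evalEval z (exp z) = 0 := by
  intro h
  have h1 := (xdB2an p).eqOn_zero_of_preconnected_of_eventuallyEq_zero isPreconnected_univ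
    (Set.mem_univ a) h
  obtain ⟨s, c, hs⟩ := sz_pos hp
  obtain ⟨u, hu⟩ := hs.ne.exists
  exact hu (h1 (Set.mem_univ u))

private theorem xdB2exp : Tendsto (fun u : ℂ => exp (-u)) lom (𝓝 0) := by
  have h := phi_small (r := -1) (s := 0) (Or.inl (by norm_num))
  have h2 : phi (-1) 0 = fun u : ℂ => exp (-u) := by
    funext u
    simp [phi]
  rwa [h2] at h

theorem sz_pt (a : ℂ) {p : Polynomial (Polynomial ℂ)} (hp : p ≠ 0) :
    ∃ (n : ℕ) (c : ℂ), Sz (fun u => p.evalEval (a + exp (-u)) (exp (a + exp (-u)))) (-(n : ℝ)) 0 c ∧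
      (n = 0 ↔ p.evalEval a (exp a) ≠ 0) := by
  obtain ⟨n, h, hh, ha, hev⟩ := ((xdB2an p) a
    (Set.mem_univ a)).exists_eventuallyEq_pow_smul_nonzero_iff.2 (xdB2nz hp a)
  refine ⟨n, h a, ⟨ha, ?_⟩, ?_⟩
  · have h1 : Tendsto (fun u : ℂ => a + exp (-u)) lom (𝓝 a) := by
      have h2 := xdB2exp.const_add a
      rwa [add_zero] at h2
    have h3 : Tendsto (fun u : ℂ => h (a + exp (-u))) lom (𝓝 (h a)) :=
      hh.continuousAt.tendsto.comp h1
    refine h3.congr' ?_
    filter_upwards [h1.eventually hev] with u hu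
    have h4 : phi (-(n : ℝ)) 0 u = exp (-u) ^ n := by
      rw [← Complex.exp_nat_mul]
      simp [phi]
    rw [hu, h4, add_sub_cancel_left, smul_eq_mul]
    field_simp [Complex.exp_ne_zero]
  · have h5 := hev.self_of_nhds
    rw [sub_self, smul_eq_mul] at h5
    rw [h5]
    constructor
    · rintro rfl
      simpa using ha
    · intro h6
      by_contra hn
      rw [zero_pow hn, zero_mul] at h6
      exact h6 rfl

theorem expPoly_open {p : Polynomial (Polynomial ℂ)} {κ : ℂ} (hκ : κ ≠ 0) {S : Set ℂ}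
    (hS : IsOpen S) (hne : S.Nonempty) (h : ∀ z ∈ S, p.evalEval z (κ * exp z) = 0) : p = 0 := by
  by_contra hp
  obtain ⟨a, haS⟩ := hne
  have hq : p.comp (Polynomial.C (Polynomial.C κ) * Polynomial.X) ≠ 0 := by
    intro h0
    apply hp
    ext1 k
    have h1 := congrArg (fun q => Polynomial.coeff q k) h0
    simp only [Polynomial.comp_C_mul_X_coeff, Polynomial.coeff_zero] at h1
    rcases mul_eq_zero.1 h1 with h2 | h2
    · rw [h2, Polynomial.coeff_zero]
    · exact absurd (Polynomial.C_eq_zero.1 (pow_eq_zero_iff (M₀ := Polynomial ℂ) (n := k) (by rintro rfl; simp at h2) |>.1 h2)) hκ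
  refine xdB2nz hq a ?_
  filter_upwards [hS.mem_nhds haS] with z hz
  have h3 := h z hz
  rw [Polynomial.evalEval] at h3 ⊢
  rw [Polynomial.eval_comp, Polynomial.eval_mul, Polynomial.eval_C, Polynomial.eval_X,
    ← Polynomial.C_mul]
  exact h3

end XD
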