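import Pool.Agent.Lib.MP_228259_lc.D.FD
import Pool.Agent.Lib.MP_228259_lc.D.BS2
import Pool.Agent.Lib.MP_228259_lc.A.CL

/-!
XD-T0 (TR0): a function `v` with `v' = b' / b`, `v` and `b` algebraically dependent over `ℂ`, is
constant.

PROOF of `tr0a`. Let `V = rep v`, `Bf = rep b`. `Bf` has a size, so no zeros far out;
`(Bf * exp (-V))' = 0` near infinity (`rep_fder`, `rep_mul`), so `Bf = κ exp V` on some `Om R`
(`const_of_deriv`), `κ ≠ 0`. A non-zero `p ∈ ℂ[X₀, X₁]` with `aeval ![v, b] p = 0` gives
`p (V u, κ exp (V u)) = 0` on `Om R` (`rep_aeval`). If `V` is not constant near infinity then it is not constant on `Om R`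
(`fder_const`, `eqOn`), so `V '' Om R` contains a non-empty open set (open mapping:
`AnalyticOnNhd.is_constant_or_isOpen`, `Om R` preconnected and open), on which `p (z, κ exp z) = 0`.
`expPoly_open` for the corresponding element of `ℂ[X][Y]`: `p = 0`, a contradiction. So `V` is constant
near infinity, and `v` is the constant (`rep_inj`, `rep_cst`).
`tr0`: `rk (range ![v, b]) ≤ rk {w} ≤ 1 < 2` (`XA.rk_mono`, `XA.rk_eq_iff`, `XA.rk_range_le` for
`Fin 1`), so `![v, b]` is not algebraically independent.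
-/

set_option autoImplicit false

namespace XD

open Complex Filter Topology Metric

private theorem xdT0eval (P : MvPolynomial (Fin 2) ℂ) (x y : ℂ) :
    ((Polynomial.Bivariate.equivMvPolynomial ℂ).symm P).evalEval x y =
      MvPolynomial.eval ![x, y] P := by
  induction P using MvPolynomial.induction_on with
  | C c =>
    have h1 : (Polynomial.Bivariate.equivMvPolynomial ℂ).symm (MvPolynomial.C c) =
        Polynomial.C (Polynomial.C c) := by
      rw [AlgEquiv.symm_apply_eq, Polynomial.Bivariate.equivMvPolynomial_C_C]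
    rw [h1, MvPolynomial.eval_C]
    simp [Polynomial.evalEval]
  | add p q hp hq =>
    rw [map_add, map_add, Polynomial.evalEval_add, hp, hq]
  | mul_X p i hp =>
    rw [map_mul, map_mul, Polynomial.evalEval_mul, hp, MvPolynomial.eval_X]
    fin_cases i
    · simp [Polynomial.evalEval]
    · simp [Polynomial.evalEval]

theorem tr0a {L : Set (ℂ → ℂ)} {h : TF L} {v b : FF h} (hb : b ≠ 0)
    (hvb : fder h v * b = fder h b) (hdep : ¬ AlgebraicIndependent ℂ ![v, b]) :
    ∃ c : ℂ, v = algebraMap ℂ (FF h) c := by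
  have hV : EA (rep v) := h.ea _ (rep_mem v)
  have hB : EA (rep b) := h.ea _ (rep_mem b)
  obtain ⟨R, hR⟩ := hV
  -- the derivative relation
  have hder : ∀ᶠ u in lom, deriv (rep v) u * rep b u = deriv (rep b) u := by
    have h1 := rep_mul (fder h v) b
    rw [hvb] at h1
    filter_upwards [h1, rep_fder b, rep_fder v] with u h2 h3 h4
    rw [← h3, h2, h4]
  have hEd : DifferentiableOn ℂ (fun u => exp (-rep v u)) (Om R) := hR.neg.cexp
  have hE : EA (fun u => exp (-rep v u)) := ⟨R, hEd⟩
  have hdE : ∀ᶠ u in lom, deriv (fun u => exp (-rep v u)) u =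
      -deriv (rep v) u * exp (-rep v u) := by
    filter_upwards [om_mem R] with u hu
    have h5 : DifferentiableAt ℂ (rep v) u := hR.differentiableAt ((om_open R).mem_nhds hu)
    have h6 := h5.hasDerivAt.neg.cexp
    have h7 : deriv (fun u => exp (-rep v u)) u = exp (-rep v u) * -deriv (rep v) u := h6.deriv
    rw [h7]
    ring
  obtain ⟨κ, hκ⟩ := const_of_deriv (hB.mul hE) (by
    filter_upwards [deriv_mul hB hE, hder, hdE] with u h8 h9 h10
    rw [h8, h10, ← h9]
    simp only [Pi.zero_apply]
    ring)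
  have hBev : ∀ᶠ u in lom, rep b u = κ * exp (rep v u) := by
    filter_upwards [hκ] with u h11
    rw [← h11, mul_assoc, ← Complex.exp_add, neg_add_cancel, Complex.exp_zero, mul_one]
  have hκ0 : κ ≠ 0 := by
    rintro rfl
    obtain ⟨r, s, c, hs⟩ := rep_sz hb
    obtain ⟨u, hu1, hu2⟩ := (hs.ne.and hBev).exists
    rw [zero_mul] at hu2
    exact hu1 hu2
  -- the polynomial
  rw [algebraicIndependent_iff] at hdep
  push Not at hdep
  obtain ⟨P, hP, hP0⟩ := hdep
  have hPev : ∀ᶠ u in lom, ((Polynomial.Bivariate.equivMvPolynomial ℂ).symm P).evalEval (rep v u)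
      (κ * exp (rep v u)) = 0 := by
    have h12 := rep_aeval (![v, b] : Fin 2 → FF h) P
    rw [hP] at h12
    filter_upwards [h12, rep_zero.1 (rfl : (0 : FF h) = 0), hBev] with u h13 h14 h15
    rw [h14] at h13
    rw [xdT0eval, ← h15]
    have h16 : (fun i => rep ((![v, b] : Fin 2 → FF h) i) u) = ![rep v u, rep b u] := by
      funext i
      fin_cases i <;> rfl
    rw [h16] at h13
    exact h13.symm
  obtain ⟨R', hR'⟩ := ev_iff.1 hPev
  have hRR : DifferentiableOn ℂ (rep v) (Om (max R R')) := hR.mono (om_mono (le_max_left _ _))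
  have hne : (Om (max R R')).Nonempty := lom_neBot.nonempty_of_mem (om_mem _)
  rcases (hRR.analyticOnNhd (om_open _)).is_constant_or_isOpen
    (om_convex _).isPreconnected with ⟨w, hw⟩ | hop
  · refine ⟨w, rep_inj.2 ?_⟩
    filter_upwards [om_mem (max R R'), rep_cst (h := h) w] with u h17 h18
    rw [h18, hw u h17]
  · exfalso
    have h19 := expPoly_open hκ0 (hop _ subset_rfl (om_open _)) (hne.image _)
      (p := (Polynomial.Bivariate.equivMvPolynomial ℂ).symm P) (by
        rintro _ ⟨u, hu, rfl⟩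
        exact hR' u (om_mono (le_max_right _ _) hu))
    apply hP0
    have h20 := (map_eq_zero_iff _ (Polynomial.Bivariate.equivMvPolynomial ℂ).symm.injective).1 h19
    exact h20

theorem tr0 {L : Set (ℂ → ℂ)} {h : TF L} {v b w : FF h} (hb : b ≠ 0)
    (hvb : fder h v * b = fder h b) (hv : v ∈ XA.cl ({w} : Set (FF h)))
    (hbw : b ∈ XA.cl ({w} : Set (FF h))) : ∃ c : ℂ, v = algebraMap ℂ (FF h) c := by
  refine tr0a hb hvb ?_
  intro hi
  rw [← XA.rk_eq_iff] at hi
  have h1 : Set.range (![v, b] : Fin 2 → FF h) ⊆ XA.cl ({w} : Set (FF h)) := by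
    rintro _ ⟨i, rfl⟩
    fin_cases i
    · exact hv
    · exact hbw
  have h2 := XA.rk_mono h1
  have h3 := XA.rk_range_le (fun _ : Fin 1 => w)
  have h4 : Set.range (fun _ : Fin 1 => w) = {w} := by
    simp
  rw [h4] at h3
  rw [hi] at h2
  have h5 := h2.trans h3
  simp at h5

end XD
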