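import Pool.Agent.Lib.MP_228259_lc.D.TRb
import Pool.Agent.Lib.MP_228259_lc.D.T0
import Pool.Agent.Lib.MP_228259_lc.D.ED

/-!
XD-TR (TR2): in the field of a place, `v' = b' / b` implies `v = q kU + c` with `q` rational.

PROOF. `tr2`: `K` = the intermediate field with carrier `cl {kU}` (`XA.cl_field`); it is closed under `fder`
(for `a ∈ K` minimal polynomial argument as above: `Q'(a) fder a = - Q^D(a)`, `fder kU ∈ cl {kU}`: it is
`1`, `-1` or `-(kU - a)`). `exp_dep` with `E₁ = kY`, `η₁ = fder kU`, `E₂ = b`, `η₂ = fder v` (`fk_alg b`,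
`XA.cl_mono`): `E = kY ^ k' * b ^ l ∈ K`, `(k', l) ≠ 0`. `fder (k' kU + l v) * E = fder E`; `tr0` with `w = kU`:
`k' kU + l v` is a constant. `l ≠ 0` (otherwise `kU` is a constant, contradicting `fder_kU_ne`). So
`v = -(k' / l) kU + c`.
-/

set_option autoImplicit false

namespace XD

open Complex Filter Topology Metric

theorem trDer_zpow {F : Type*} [Field F] [Algebra ℂ F] (D : Derivation ℂ F F) {a η : F}
    (ha : a ≠ 0) (hD : D a = η * a) (n : ℤ) : D (a ^ n) = n * η * a ^ n := by
  have hnat : ∀ m : ℕ, D (a ^ m) = m * η * a ^ m := by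
    intro m
    induction m with
    | zero => simp
    | succ m ih =>
      rw [pow_succ, D.leibniz, ih, hD]
      simp only [smul_eq_mul]
      push_cast
      ring
  obtain ⟨m, hm⟩ := Int.eq_nat_or_neg n
  rcases hm with rfl | rfl
  · rw [zpow_natCast, hnat]
    push_cast
    ring
  · rw [zpow_neg, zpow_natCast, Derivation.leibniz_inv, hnat]
    simp only [smul_eq_mul]
    have h1 : a ^ m ≠ 0 := pow_ne_zero _ ha
    push_cast
    field_simp

theorem trDer_int {F : Type*} [Field F] [Algebra ℂ F] (D : Derivation ℂ F F) (m : ℤ) :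
    D (m : F) = 0 := by
  have h1 : (m : F) = algebraMap ℂ F (m : ℂ) := (map_intCast (algebraMap ℂ F) m).symm
  rw [h1, Derivation.map_algebraMap]

theorem trDer_lin {F : Type*} [Field F] [Algebra ℂ F] (D : Derivation ℂ F F) (m l : ℤ)
    (x v : F) : D ((m : F) * x + (l : F) * v) = (m : F) * D x + (l : F) * D v := by
  rw [map_add, D.leibniz, D.leibniz, trDer_int, trDer_int]
  simp only [smul_eq_mul, mul_zero, add_zero]

theorem trDer_aeval {F : Type*} [Field F] [Algebra ℂ F] (D : Derivation ℂ F F) {S : Set F}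
    (K : IntermediateField ℂ F) (hK : ∀ x ∈ Algebra.adjoin ℂ S, D x ∈ K) {a : F} (ha : a ∈ K)
    (q : Polynomial (Algebra.adjoin ℂ S)) : ∃ e ∈ K,
      D (Polynomial.aeval a q) = Polynomial.aeval a (Polynomial.derivative q) * D a + e := by
  induction q using Polynomial.induction_on' with
  | add p q hp hq =>
    obtain ⟨e, he, h1⟩ := hp
    obtain ⟨f, hf, h2⟩ := hq
    refine ⟨e + f, K.add_mem he hf, ?_⟩
    rw [map_add, map_add, h1, h2, map_add, map_add]
    ring
  | monomial n c =>
    refine ⟨a ^ n * D (c : F), K.mul_mem (pow_mem ha n) (hK _ c.2), ?_⟩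
    rw [Polynomial.derivative_monomial, Polynomial.aeval_monomial, Polynomial.aeval_monomial,
      D.leibniz, Derivation.leibniz_pow]
    simp only [smul_eq_mul, nsmul_eq_mul, map_mul, map_natCast]
    have h3 : algebraMap (Algebra.adjoin ℂ S) F c = (c : F) := rfl
    rw [h3]
    ring

/-- the algebraic closure of a field stable under a derivation is stable -/
theorem trDer_cl {F : Type*} [Field F] [Algebra ℂ F] (D : Derivation ℂ F F) {S : Set F}
    (hS : ∀ s ∈ S, D s ∈ XA.cl S) {a : F} (ha : a ∈ XA.cl S) : D a ∈ XA.cl S := by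
  have : CharZero F := charZero_of_injective_algebraMap (algebraMap ℂ F).injective
  obtain ⟨K, hK⟩ := XA.cl_field S
  have hmem : ∀ x : F, x ∈ K ↔ x ∈ XA.cl S := by
    intro x
    rw [← hK]
    rfl
  have hSK : S ⊆ (K : Set F) := by
    rw [hK]
    exact XA.subset_cl S
  have hadj : ∀ x ∈ Algebra.adjoin ℂ S, x ∈ K ∧ D x ∈ K := by
    intro x hx
    induction hx using Algebra.adjoin_induction with
    | mem x hx => exact ⟨hSK hx, (hmem _).2 (hS x hx)⟩
    | algebraMap c =>
      refine ⟨K.algebraMap_mem c, ?_⟩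
      rw [Derivation.map_algebraMap]
      exact K.zero_mem
    | add x y _ _ hx hy =>
      refine ⟨K.add_mem hx.1 hy.1, ?_⟩
      rw [map_add]
      exact K.add_mem hx.2 hy.2
    | mul x y _ _ hx hy =>
      refine ⟨K.mul_mem hx.1 hy.1, ?_⟩
      rw [D.leibniz]
      simp only [smul_eq_mul]
      exact K.add_mem (K.mul_mem hx.1 hy.2) (K.mul_mem hy.1 hx.2)
  have haK : a ∈ K := (hmem a).2 ha
  have hpol : ∀ q : Polynomial (Algebra.adjoin ℂ S), Polynomial.aeval a q ∈ K := by
    intro q
    rw [Polynomial.aeval_eq_sum_range]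
    refine K.sum_mem fun i _ => ?_
    rw [Algebra.smul_def]
    exact K.mul_mem (hadj _ (q.coeff i).2).1 (pow_mem haK i)
  have key : ∀ n : ℕ, ∀ q : Polynomial (Algebra.adjoin ℂ S), q ≠ 0 → q.natDegree ≤ n →
      Polynomial.aeval a q = 0 → D a ∈ K := by
    intro n
    induction n with
    | zero =>
      intro q hq hn h0
      exfalso
      have h1 : q = Polynomial.C (q.coeff 0) := Polynomial.eq_C_of_natDegree_le_zero hn
      rw [h1, Polynomial.aeval_C] at h0
      have h2 : (q.coeff 0 : F) = 0 := h0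
      have h3 : q.coeff 0 = 0 := Subtype.ext h2
      rw [h3, Polynomial.C_0] at h1
      exact hq h1
    | succ n ih =>
      intro q hq hn h0
      by_cases hn0 : q.natDegree = 0
      · exact ih q hq (by omega) h0
      by_cases h1 : Polynomial.aeval a (Polynomial.derivative q) = 0
      · refine ih (Polynomial.derivative q) ?_ ?_ h1
        · intro h2
          have : CharZero (Algebra.adjoin ℂ S) :=
            charZero_of_injective_algebraMap (FaithfulSMul.algebraMap_injective ℂ _)
          exact hn0 (Polynomial.derivative_eq_zero.1 h2)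
        · have h3 := Polynomial.natDegree_derivative_lt hn0
          omega
      · obtain ⟨e, he, h2⟩ := trDer_aeval D K (fun x hx => (hadj x hx).2) haK q
        rw [h0, map_zero] at h2
        have h3 : D a = -e / Polynomial.aeval a (Polynomial.derivative q) := by
          rw [eq_div_iff h1]
          linear_combination -h2
        rw [h3]
        exact K.div_mem (K.neg_mem he) (hpol _)
  obtain ⟨q, hq, h0⟩ := (ha : IsAlgebraic (Algebra.adjoin ℂ S) a)
  exact (hmem _).1 (key q.natDegree q hq le_rfl h0)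

theorem fder_kU_cl (k : Kd) : fder _ (kU k) ∈ XA.cl ({kU k} : Set (FK k)) := by
  have hmem : kU k ∈ XA.cl ({kU k} : Set (FK k)) := XA.subset_cl _ rfl
  obtain ⟨K, hK⟩ := XA.cl_field ({kU k} : Set (FK k))
  have h0 : rep (fder _ (kU k)) =ᶠ[lom] deriv (KU k) :=
    (rep_fder (kU k)).trans (deriv_congr (kU_rep k))
  rw [← hK] at hmem ⊢
  have hmem' : kU k ∈ K := hmem
  change fder _ (kU k) ∈ K
  cases k with
  | pos =>
    have h1 : fder _ (kU Kd.pos) = algebraMap ℂ (FK Kd.pos) 1 := by
      rw [rep_inj]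
      refine h0.trans (EventuallyEq.trans ?_ (rep_cst 1).symm)
      refine Filter.Eventually.of_forall fun u => ?_
      exact (hasDerivAt_id u).deriv
    rw [h1]
    exact K.algebraMap_mem _
  | neg =>
    have h1 : fder _ (kU Kd.neg) = algebraMap ℂ (FK Kd.neg) (-1) := by
      rw [rep_inj]
      refine h0.trans (EventuallyEq.trans ?_ (rep_cst (-1)).symm)
      refine Filter.Eventually.of_forall fun u => ?_
      exact (hasDerivAt_id u).neg.deriv
    rw [h1]
    exact K.algebraMap_mem _
  | pt a =>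
    have h1 : fder _ (kU (Kd.pt a)) = algebraMap ℂ (FK (Kd.pt a)) a - kU (Kd.pt a) := by
      rw [rep_inj]
      refine h0.trans (EventuallyEq.trans ?_ (rep_sub _ _).symm)
      filter_upwards [rep_cst (h := ll_tf (base_BK (Kd.pt a))) a, kU_rep (Kd.pt a)] with u h2 h3
      rw [h2, h3]
      have h4 : HasDerivAt (KU (Kd.pt a)) (exp (-u) * (-1)) u :=
        ((hasDerivAt_id u).neg.cexp).const_add a
      rw [h4.deriv]
      change exp (-u) * (-1) = a - (a + exp (-u))
      ring
    rw [h1]
    exact K.sub_mem (K.algebraMap_mem _) hmem'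

theorem tr2 {k : Kd} {v b : FK k} (hb : b ≠ 0) (h : fder _ v * b = fder _ b) :
    ∃ (q : ℚ) (c : ℂ), v = algebraMap ℂ _ (q : ℂ) * kU k + algebraMap ℂ _ c := by
  have : CharZero (FK k) := charZero_of_injective_algebraMap (algebraMap ℂ (FK k)).injective
  obtain ⟨K, hK⟩ := XA.cl_field ({kU k} : Set (FK k))
  have hmem : ∀ x : FK k, x ∈ K ↔ x ∈ XA.cl ({kU k} : Set (FK k)) := by
    intro x
    rw [← hK]
    rfl
  have hder : ∀ a ∈ XA.cl ({kU k} : Set (FK k)), fder _ a ∈ XA.cl ({kU k} : Set (FK k)) := by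
    intro a ha
    refine trDer_cl _ ?_ ha
    rintro s rfl
    exact fder_kU_cl k
  have hv : v ∈ XA.cl ({kU k} : Set (FK k)) := tr2a hb h
  have hu : kU k ∈ XA.cl ({kU k} : Set (FK k)) := XA.subset_cl _ rfl
  have hdep : b ∈ XA.cl (insert (kY k) (K : Set (FK k))) := by
    refine XA.cl_mono ?_ (fk_alg k b)
    rintro x (rfl | rfl)
    · exact Set.mem_insert_of_mem _ ((hmem _).2 hu)
    · exact Set.mem_insert _ _
  obtain ⟨m, l, hml, hE⟩ := exp_dep (fder _) (fun a ha => fder_const ha) K
    (fun a ha => (hmem _).2 (hder a ((hmem a).1 ha))) (kY_ne k) hb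
    ((hmem _).2 (fder_kU_cl k)) ((hmem _).2 (hder v hv)) (fder_kY k) h.symm hdep
  have hE0 : kY k ^ m * b ^ l ≠ 0 := mul_ne_zero (zpow_ne_zero _ (kY_ne k)) (zpow_ne_zero _ hb)
  have hw : fder _ ((m : FK k) * kU k + (l : FK k) * v) * (kY k ^ m * b ^ l)
      = fder _ (kY k ^ m * b ^ l) := by
    have e1 : fder _ ((m : FK k) * kU k + (l : FK k) * v)
        = (m : FK k) * fder _ (kU k) + (l : FK k) * fder _ v := trDer_lin _ m l _ _
    have e2 : fder _ (kY k ^ m * b ^ l) = kY k ^ m * ((l : FK k) * fder _ v * b ^ l)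
        + b ^ l * ((m : FK k) * fder _ (kU k) * kY k ^ m) := by
      rw [Derivation.leibniz, trDer_zpow _ hb h.symm, trDer_zpow _ (kY_ne k) (fder_kY k)]
      simp only [smul_eq_mul]
    rw [e1, e2]
    ring
  have hwK : (m : FK k) * kU k + (l : FK k) * v ∈ K :=
    K.add_mem (K.mul_mem (intCast_mem K m) ((hmem _).2 hu))
      (K.mul_mem (intCast_mem K l) ((hmem _).2 hv))
  obtain ⟨c, hc⟩ := tr0 hE0 hw ((hmem _).1 hwK) ((hmem _).1 hE)
  have hl : l ≠ 0 := by
    rintro rfl
    have hm : m ≠ 0 := by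
      rcases hml with h1 | h1
      · exact h1
      · exact absurd rfl h1
    have hm' : (m : FK k) ≠ 0 := by exact_mod_cast hm
    rw [Int.cast_zero, zero_mul, add_zero] at hc
    have h1 := congrArg (fder (ll_tf (base_BK k))) hc
    rw [Derivation.leibniz, trDer_int, Derivation.map_algebraMap] at h1
    simp only [smul_eq_mul, mul_zero, add_zero] at h1
    rcases mul_eq_zero.1 h1 with h2 | h2
    · exact hm' h2
    · exact fder_kU_ne k h2
  have hl' : (l : FK k) ≠ 0 := by exact_mod_cast hl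
  refine ⟨-((m : ℚ) / (l : ℚ)), c / (l : ℂ), ?_⟩
  have h1 : algebraMap ℂ (FK k) ((-((m : ℚ) / (l : ℚ)) : ℚ) : ℂ) = -((m : FK k) / (l : FK k)) := by
    have h3 : ((-((m : ℚ) / (l : ℚ)) : ℚ) : ℂ) = -((m : ℂ) / (l : ℂ)) := by
      push_cast
      rfl
    rw [h3, map_neg, map_div₀, map_intCast, map_intCast]
  have h2 : algebraMap ℂ (FK k) (c / (l : ℂ)) = algebraMap ℂ (FK k) c / (l : FK k) := by
    rw [map_div₀, map_intCast]
  rw [h1, h2, ← hc]
  field_simp
  ring

end XD
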