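import Pool.Agent.Lib.MP_228259_lc.D.W9
import Pool.Agent.Lib.MP_228259_lc.D.TR
import Pool.Agent.Lib.MP_228259_lc.D.EVB

/-!
XD-IF2: interface statement `lc_field` (exponential sums over a field algebraic over `ℂ(u, e^u)`).

PROOF. Let `ζ = ψ (P α) - ψ (P β) ∉ cl {u}` be the difference from `hGR`. `pole hind halg` gives `k`, `φ : L →ₐ[ℂ] FK k`,
`φ u = kU k`, `φ y = kY k`, and the size of `rep (φ ζ)` has `r > 0`. Apply `expsum_ff` to the index type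
`{α // α ∈ A}`, `P' α = φ (ψ (P α))`, `c' α = φ (ψ (c α))` (non-zero: `φ` injective). `ne`: if `α ≠ β`, `g ≠ 0` and
`fder g = fder (P' α - P' β) * g` then `tr2` gives `P' α - P' β = q kU + c = φ (q u + c)`, so by injectivity
`ψ (P α) - ψ (P β) = q u + c`, contradicting `hNE`. Let `R` be such that on `Om R`: `evB (φ.comp ψ) S` with
`S = {ub, yb} ∪ A.image c ∪ A.image P`, `rep (kU k) u = KU k u`, `rep (kY k) u = KY k u = exp (KU k u)` (`kU_rep`, `kY_rep`, `KY`).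
The zero `u ∈ Om R` gives `σ`: `σ yb = rep (φ y) u = exp (rep (φ u) u) = exp (σ ub)`.
-/

set_option autoImplicit false

namespace XD

open MvPolynomial XA

theorem lc_field {L : Type} [Field L] [Algebra ℂ L] {u y : L}
    (hind : AlgebraicIndependent ℂ ![u, y]) (halg : ∀ a : L, a ∈ cl {u, y})
    (B : Type) [CommRing B] [Algebra ℂ B] [Algebra.FiniteType ℂ B] (ψ : B →ₐ[ℂ] L) {ub yb : B}
    (hu : ψ ub = u) (hy : ψ yb = y) (ι : Type) (A : Finset ι) (c P : ι → B)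
    (hc : ∀ α ∈ A, ψ (c α) ≠ 0)
    (hNE : ∀ α ∈ A, ∀ β ∈ A, α ≠ β → ∀ (h : ℚ) (k : ℂ),
      ψ (P α) - ψ (P β) ≠ algebraMap ℂ L (h : ℂ) * u + algebraMap ℂ L k)
    (hGR : ∃ α ∈ A, ∃ β ∈ A, ψ (P α) - ψ (P β) ∉ cl {u}) :
    ∃ σ : B →ₐ[ℂ] ℂ, σ yb = Complex.exp (σ ub) ∧
      ∑ α ∈ A, σ (c α) * Complex.exp (σ (P α)) = 0 := by
  classical
  obtain ⟨α₀, hα₀, β₀, hβ₀, hζ⟩ := hGR
  obtain ⟨k, φ, hφu, hφy, r, s, c', hr, hSz⟩ := pole hind halg hζ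
  rw [map_sub] at hSz
  have hc0 : ∀ a : {α // α ∈ A}, φ (ψ (c a.1)) ≠ 0 := fun a =>
    (map_ne_zero φ).2 (hc a.1 a.2)
  have ne : ∀ a b : {α // α ∈ A}, a ≠ b → ∀ g : FK k, g ≠ 0 →
      fder _ g ≠ fder _ (φ (ψ (P a.1)) - φ (ψ (P b.1))) * g := by
    intro a b hab g hg h
    obtain ⟨q, c₀, h1⟩ := tr2 hg h.symm
    have h2 : φ (ψ (P a.1) - ψ (P b.1)) =
        φ (algebraMap ℂ L (q : ℂ) * u + algebraMap ℂ L c₀) := by
      rw [map_sub, h1, map_add, map_mul, hφu, AlgHom.commutes, AlgHom.commutes]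
    exact hNE a.1 a.2 b.1 b.2 (fun h3 => hab (Subtype.ext h3)) q c₀ (φ.injective h2)
  have hev : ∀ᶠ w in lom, (∃ σ : B →ₐ[ℂ] ℂ,
      ∀ b ∈ ({ub, yb} ∪ A.image c ∪ A.image P : Finset B), σ b = rep ((φ.comp ψ) b) w) ∧
      rep (kU k) w = KU k w ∧ rep (kY k) w = KY k w :=
    (evB (φ.comp ψ) _).and ((kU_rep k).and (kY_rep k))
  obtain ⟨R, hR⟩ := ev_iff.1 hev
  obtain ⟨w, hw, hsum⟩ := expsum_ff (fun a : {α // α ∈ A} => φ (ψ (P a.1)))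
    (fun a : {α // α ∈ A} => φ (ψ (c a.1))) hc0 ne (a := ⟨α₀, hα₀⟩) (b := ⟨β₀, hβ₀⟩) hr hSz R
  obtain ⟨⟨σ, hσ⟩, hU, hY⟩ := hR w hw
  have hσu : σ ub = KU k w := by
    rw [hσ ub (by simp), AlgHom.comp_apply, hu, hφu, hU]
  have hσy : σ yb = KY k w := by
    rw [hσ yb (by simp), AlgHom.comp_apply, hy, hφy, hY]
  refine ⟨σ, ?_, ?_⟩
  · rw [hσu, hσy]
    rfl
  · rw [← hsum, ← Finset.sum_coe_sort A (fun α => σ (c α) * Complex.exp (σ (P α)))]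
    refine Finset.sum_congr rfl (fun a _ => ?_)
    rw [hσ (c a.1) (Finset.mem_union_left _ (Finset.mem_union_right _
        (Finset.mem_image_of_mem c a.2))),
      hσ (P a.1) (Finset.mem_union_right _ (Finset.mem_image_of_mem P a.2))]
    rfl

end XD
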