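import Pool.Agent.Lib.MP_228259_lc.D.FD
import Pool.Agent.Lib.MP_228259_lc.A.BR2

/-!
XD-AC: the field of algebraic germs is algebraically closed.

PROOF. `IsAlgClosed.of_exists_root`: let `P` be monic irreducible over `FF (ll_tf hB)`, `d = natDegree P > 0`.
It is separable (characteristic `0`, `Irreducible.separable`): `U * P + W * derivative P = 1`. Let
`R` be such that the representatives `rep (P.coeff i)` (`i ≤ d`) are differentiable on `Om R`,
`rep (P.coeff d) = 1` there, and for all `u ∈ Om R` the identity `U_u * P_u + W_u * derivative P_u = 1` holds in `ℂ[X]`, where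
`P_u = ∑ C (rep (P.coeff i) u) * X ^ i` etc. (finitely many coefficient identities: `rep_add`,
`rep_mul`, `rep_sum`, `ev_iff`; or: both sides define ring homomorphisms; the coefficients of `U`, `P`,
`W` are finitely many elements `a i` and `ev_isPt` transports every polynomial identity between them).
So a root `T` of `P_u` is simple. `XA.branch` (`A/BR2.lean`, `E = ℂ`, `Ω = Om R`, `a i = rep (P.coeff i)`,
`T₀` a root of `P_{t₀}` by `IsAlgClosed.exists_root`) gives `θ`, differentiable on `Om R`,
with `P_u(θ u) = 0`. `ll_trans` (coefficients `rep_mem`) gives `θ ∈ LL B`, and `toF θ` is a root of `P`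
(`rep_poly`, `rep_zero`, `rep_toF`).
-/

set_option autoImplicit false

namespace XD

open Complex Filter Topology Metric

/-- transport of an identity between polynomials whose coefficients specialise -/
theorem ac_transport {F : Type*} [Field F] [Algebra ℂ F] {N : ℕ} (U P W : Polynomial F)
    (hU : U.natDegree < N) (hP : P.natDegree < N) (hW : W.natDegree < N)
    (h1 : U * P + W * Polynomial.derivative P = 1)
    (p : Fin 3 × Fin N → ℂ)
    (hp : XA.IsPt (fun q : Fin 3 × Fin N => (![U, P, W] q.1).coeff q.2) p) (T : ℂ)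
    (h0 : ∑ i : Fin N, p (1, i) * T ^ (i : ℕ) = 0) :
    ∑ i : Fin N, p (1, i) * ((i : ℕ) * T ^ ((i : ℕ) - 1)) ≠ 0 := by
  classical
  set a : Fin 3 × Fin N → F := fun q => (![U, P, W] q.1).coeff q.2 with ha
  -- generic polynomials
  let G : Fin 3 → Polynomial (MvPolynomial (Fin 3 × Fin N) ℂ) := fun k =>
    ∑ i : Fin N, Polynomial.C (MvPolynomial.X (k, i)) * Polynomial.X ^ (i : ℕ)
  have hG : ∀ k, (G k).map (MvPolynomial.aeval a : MvPolynomial (Fin 3 × Fin N) ℂ →ₐ[ℂ] F).toRingHom
      = ![U, P, W] k := by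
    intro k
    have hdeg : (![U, P, W] k).natDegree < N := by
      fin_cases k
      · exact hU
      · exact hP
      · exact hW
    simp only [G, Polynomial.map_sum, Polynomial.map_mul, Polynomial.map_C, Polynomial.map_pow,
      Polynomial.map_X]
    conv_rhs => rw [Polynomial.as_sum_range' _ N hdeg]
    rw [Finset.sum_range]
    refine Finset.sum_congr rfl fun i _ => ?_
    have : (MvPolynomial.aeval a : MvPolynomial (Fin 3 × Fin N) ℂ →ₐ[ℂ] F).toRingHom
        (MvPolynomial.X (k, i)) = (![U, P, W] k).coeff i := by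
      change MvPolynomial.aeval a (MvPolynomial.X (k, i)) = _
      rw [MvPolynomial.aeval_X]
    rw [this, Polynomial.C_mul_X_pow_eq_monomial]
  have hG' : ∀ k, (G k).map (MvPolynomial.eval p) = ∑ i : Fin N,
      Polynomial.C (p (k, i)) * Polynomial.X ^ (i : ℕ) := by
    intro k
    simp only [G, Polynomial.map_sum, Polynomial.map_mul, Polynomial.map_C, Polynomial.map_pow,
      Polynomial.map_X, MvPolynomial.eval_X]
  let Q : Polynomial (MvPolynomial (Fin 3 × Fin N) ℂ) :=
    G 0 * G 1 + G 2 * Polynomial.derivative (G 1) - 1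
  have hQ : Q.map (MvPolynomial.aeval a : MvPolynomial (Fin 3 × Fin N) ℂ →ₐ[ℂ] F).toRingHom = 0 := by
    simp only [Q, Polynomial.map_sub, Polynomial.map_add, Polynomial.map_mul,
      Polynomial.map_one, ← Polynomial.derivative_map]
    rw [hG 0, hG 1, hG 2]
    change U * P + W * Polynomial.derivative P - 1 = 0
    rw [h1, sub_self]
  have hQ' : Q.map (MvPolynomial.eval p) = 0 := by
    ext i
    rw [Polynomial.coeff_map, Polynomial.coeff_zero]
    apply hp
    have := congrArg (fun q => Polynomial.coeff q i) hQ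
    simp only [Polynomial.coeff_map, Polynomial.coeff_zero] at this
    exact this
  have hE := congrArg (Polynomial.eval T) hQ'
  simp only [Q, Polynomial.map_sub, Polynomial.map_add, Polynomial.map_mul,
      Polynomial.map_one, ← Polynomial.derivative_map, Polynomial.eval_sub, Polynomial.eval_add,
      Polynomial.eval_mul, Polynomial.eval_one, Polynomial.eval_zero] at hE
  have h2 : Polynomial.eval T ((G 1).map (MvPolynomial.eval p)) = 0 := by
    rw [hG', Polynomial.eval_finsetSum, ← h0]
    refine Finset.sum_congr rfl fun i _ => ?_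
    simp
  have h3 : Polynomial.eval T (Polynomial.derivative ((G 1).map (MvPolynomial.eval p))) =
      ∑ i : Fin N, p (1, i) * ((i : ℕ) * T ^ ((i : ℕ) - 1)) := by
    rw [hG', Polynomial.derivative_sum, Polynomial.eval_finsetSum]
    refine Finset.sum_congr rfl fun i _ => ?_
    rw [Polynomial.derivative_C_mul_X_pow]
    simp only [Polynomial.eval_mul, Polynomial.eval_C, Polynomial.eval_pow, Polynomial.eval_X]
    ring
  rw [h2, h3] at hE
  intro h4
  rw [h4] at hE
  norm_num at hE

theorem ff_closed {B : Subalgebra ℂ (ℂ → ℂ)} (hB : Base B) : IsAlgClosed (FF (ll_tf hB)) := by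
  classical
  have : CharZero (FF (ll_tf hB)) :=
    charZero_of_injective_algebraMap (algebraMap ℂ (FF (ll_tf hB))).injective
  refine IsAlgClosed.of_exists_root _ fun P hPm hPi => ?_
  have hsep : P.Separable := hPi.separable
  obtain ⟨U, W, hUW⟩ := hsep
  set d := P.natDegree with hd
  have hd0 : 0 < d := hPi.natDegree_pos
  -- a common bound
  set N := max (max U.natDegree W.natDegree) d + 1 with hN
  have hUN : U.natDegree < N := by omega
  have hPN : P.natDegree < N := by omega
  have hWN : W.natDegree < N := by omega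
  obtain ⟨R₁, hR₁⟩ := ev_isPt (L := LL B) (h := ll_tf hB)
    (fun q : Fin 3 × Fin N => (![U, P, W] q.1).coeff q.2)
  -- differentiability
  have hdiff : ∃ R : ℝ, ∀ i : Fin (d + 1), DifferentiableOn ℂ (rep (P.coeff i)) (Om R) := by
    have h1 : ∀ i : Fin (d + 1), ∃ R : ℝ, DifferentiableOn ℂ (rep (P.coeff i)) (Om R) :=
      fun i => (ll_tf hB).ea _ (rep_mem _)
    choose r hr using h1
    refine ⟨∑ i, |r i|, fun i => (hr i).mono (om_mono ?_)⟩
    exact (le_abs_self _).trans (Finset.single_le_sum (f := fun i => |r i|)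
      (fun j _ => abs_nonneg _) (Finset.mem_univ i))
  obtain ⟨R₂, hR₂⟩ := hdiff
  set R := max R₁ R₂ with hR
  have hm1 : Om R ⊆ Om R₁ := om_mono (le_max_left _ _)
  have hm2 : Om R ⊆ Om R₂ := om_mono (le_max_right _ _)
  -- the leading coefficient
  have hlead : ∀ u ∈ Om R, rep (P.coeff d) u = 1 := by
    intro u hu
    have h1 := hR₁ u (hm1 hu) (MvPolynomial.X (1, ⟨d, by omega⟩) - 1)
    have h2 := h1 (by
      rw [map_sub, map_one, MvPolynomial.aeval_X]
      change P.coeff d - 1 = 0
      rw [hd, hPm.coeff_natDegree, sub_self])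
    rw [map_sub, map_one, MvPolynomial.eval_X] at h2
    exact sub_eq_zero.mp h2
  have hhigh : ∀ u ∈ Om R, ∀ i : ℕ, ∀ hi : i < N, d < i → rep (P.coeff i) u = 0 := by
    intro u hu i hi hdi
    have h1 := hR₁ u (hm1 hu) (MvPolynomial.X (1, ⟨i, hi⟩))
    have h2 := h1 (by
      rw [MvPolynomial.aeval_X]
      change P.coeff i = 0
      exact Polynomial.coeff_eq_zero_of_natDegree_lt hdi)
    rw [MvPolynomial.eval_X] at h2
    exact h2
  -- sums over `Fin N`
  have hsum : ∀ u ∈ Om R, ∀ g : ℕ → ℂ, ∑ i : Fin N, rep (P.coeff (i : ℕ)) u * g i =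
      g d + ∑ i : Fin d, rep (P.coeff (i : ℕ)) u * g i := by
    intro u hu g
    rw [Fin.sum_univ_eq_sum_range (fun i => rep (P.coeff i) u * g i) N,
      Fin.sum_univ_eq_sum_range (fun i => rep (P.coeff i) u * g i) d]
    have hsub : Finset.range (d + 1) ⊆ Finset.range N := by
      intro i hi
      rw [Finset.mem_range] at hi ⊢
      omega
    rw [← Finset.sum_subset hsub]
    · rw [Finset.sum_range_succ, hlead u hu, one_mul, add_comm]
    · intro i hi hi'
      rw [Finset.mem_range] at hi hi'
      rw [hhigh u hu i hi (by omega), zero_mul]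
  let a : Fin d → ℂ → ℂ := fun i => rep (P.coeff (i : ℕ))
  have hmp : ∀ u ∈ Om R, ∀ T, ∑ i : Fin N, rep (P.coeff (i : ℕ)) u * T ^ (i : ℕ) = XA.mp a u T := by
    intro u hu T
    rw [hsum u hu (fun i => T ^ i)]
    rfl
  have hmp' : ∀ u ∈ Om R, ∀ T, ∑ i : Fin N, rep (P.coeff (i : ℕ)) u *
      ((i : ℕ) * T ^ ((i : ℕ) - 1)) = XA.mp' a u T := by
    intro u hu T
    rw [hsum u hu (fun i => (i : ℂ) * T ^ (i - 1))]
    rfl
  have hs : ∀ t ∈ Om R, ∀ T, XA.mp a t T = 0 → XA.mp' a t T ≠ 0 := by
    intro t ht T hT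
    have h1 := ac_transport U P W hUN hPN hWN hUW
      (fun q : Fin 3 × Fin N => rep ((![U, P, W] q.1).coeff q.2) t) (hR₁ t (hm1 ht)) T
      (by
        have := hmp t ht T
        rw [hT] at this
        exact this)
    have h2 := hmp' t ht T
    rw [← h2]
    exact h1
  have ha : ∀ i, ContDiffOn ℂ 1 (a i) (Om R) := by
    intro i
    exact DifferentiableOn.contDiffOn ((hR₂ ⟨i, by omega⟩).mono hm2) (om_open R)
  obtain ⟨t₀, ht₀⟩ := Filter.nonempty_of_mem (om_mem R)
  have hroot : ∃ T₀, XA.mp a t₀ T₀ = 0 := by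
    let q : Polynomial ℂ := Polynomial.X ^ d + ∑ i : Fin d, Polynomial.C (a i t₀) * Polynomial.X ^ (i : ℕ)
    have hlt : (∑ i : Fin d, Polynomial.C (a i t₀) * Polynomial.X ^ (i : ℕ) : Polynomial ℂ).degree
        < (d : WithBot ℕ) := by
      refine lt_of_le_of_lt (Polynomial.degree_sum_le _ _) ?_
      rw [Finset.sup_lt_iff (by exact WithBot.bot_lt_coe d)]
      intro i _
      refine lt_of_le_of_lt (Polynomial.degree_C_mul_X_pow_le _ _) ?_
      exact_mod_cast i.2
    have hq : q.degree = (d : WithBot ℕ) := by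
      have := Polynomial.degree_add_eq_left_of_degree_lt (p := (Polynomial.X ^ d : Polynomial ℂ))
        (q := ∑ i : Fin d, Polynomial.C (a i t₀) * Polynomial.X ^ (i : ℕ))
        (by rw [Polynomial.degree_X_pow]; exact hlt)
      rw [Polynomial.degree_X_pow] at this
      exact this
    obtain ⟨T₀, hT₀⟩ := IsAlgClosed.exists_root q (by
      rw [hq]
      exact_mod_cast hd0.ne')
    refine ⟨T₀, ?_⟩
    have h1 : Polynomial.eval T₀ q = 0 := hT₀
    have h2 : Polynomial.eval T₀ q = XA.mp a t₀ T₀ := by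
      simp only [q, XA.mp, Polynomial.eval_add, Polynomial.eval_pow, Polynomial.eval_X,
        Polynomial.eval_finsetSum, Polynomial.eval_mul, Polynomial.eval_C]
    rw [← h2, h1]
  obtain ⟨T₀, hT₀⟩ := hroot
  obtain ⟨θ, hθ, -, hθ0⟩ := XA.branch (om_open R) (om_convex R) hd0 ha hs ht₀ hT₀
  have hθE : EA θ := ⟨R, hθ.differentiableOn (by norm_num)⟩
  have hkey : ∀ u ∈ Om R, ∑ i ∈ Finset.range (d + 1), rep (P.coeff i) u * θ u ^ i = 0 := by
    intro u hu
    rw [Finset.sum_range_succ, hlead u hu, one_mul, add_comm,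
      ← Fin.sum_univ_eq_sum_range (fun i => rep (P.coeff i) u * θ u ^ i) d]
    exact hθ0 u hu
  have hθL : θ ∈ LL B := by
    refine ll_trans hB (d := d) (p := fun i => rep (P.coeff i)) (fun i _ => rep_mem _) ?_ hθE ?_
    · refine ⟨d, le_rfl, fun h => ?_⟩
      have h1 : P.coeff d = 0 := rep_zero.mpr h
      rw [hd, hPm.coeff_natDegree] at h1
      exact one_ne_zero h1
    · filter_upwards [om_mem R] with u hu
      exact hkey u hu
  refine ⟨toF (ll_tf hB) θ hθL, ?_⟩
  rw [rep_zero]
  have h1 := rep_poly P (toF (ll_tf hB) θ hθL)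
  have h2 := rep_toF (h := ll_tf hB) hθL
  refine h1.trans ?_
  filter_upwards [om_mem R, h2] with u hu h3
  rw [h3]
  exact hkey u hu

end XD
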