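import Pool.Agent.Lib.MP_228259_lc.A.EM

/-!
XD-EM: embeddings into algebraically closed fields, with a prescribed conjugate.

PROOF. (`emb` is `XA.exists_embedding`.) Let `E = IntermediateField.adjoin ℂ (range t)`; `A` is algebraic over `E`.
`P = (minpoly E ζ).map (algebraMap E A)`; its coefficients are in `E`, i.e. quotients of polynomials in
the `t i` (`IntermediateField.mem_adjoin_range_iff`), in lowest terms: `MvPolynomial (Fin m) ℂ` is a UFD, divide by a
common divisor (`UniqueFactorizationMonoid.exists_reduced_factors`). Given `φ₀ : A →ₐ[ℂ] M` make `M` an `E`-algebra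
by `φ₀` restricted to `E`; `z` is a root of `minpoly E ζ` in `M`, so there is an `E`-embedding `φ` with `φ ζ = z`:
`IntermediateField.exists_algHom_of_splits_of_aeval` (`A` is algebraic over `E`, `M` algebraically closed),
or `exists_algHom_adjoin_of_splits_of_aeval` followed by `IsAlgClosed.lift`. `φ` agrees with `φ₀` on `E ∋ t i`.
-/

set_option autoImplicit false

namespace XD

theorem emb {A M : Type*} [Field A] [Algebra ℂ A] [Field M] [Algebra ℂ M] [IsAlgClosed M] {m : ℕ}
    {t : Fin m → A} {τ : Fin m → M} (ht : AlgebraicIndependent ℂ t)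
    (hτ : AlgebraicIndependent ℂ τ) (hA : ∀ a : A, a ∈ XA.cl (Set.range t)) :
    ∃ φ : A →ₐ[ℂ] M, ∀ i, φ (t i) = τ i :=
  XA.exists_embedding ht hA hτ

theorem em_alg {A : Type*} [Field A] [Algebra ℂ A] {m : ℕ} {t : Fin m → A}
    (hA : ∀ a : A, a ∈ XA.cl (Set.range t)) (a : A) :
    IsAlgebraic (IntermediateField.adjoin ℂ (Set.range t)) a := by
  obtain ⟨p, hp, hpa⟩ := hA a
  have hle : Algebra.adjoin ℂ (Set.range t)
      ≤ (IntermediateField.adjoin ℂ (Set.range t)).toSubalgebra :=
    IntermediateField.algebra_adjoin_le_adjoin _ _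
  refine ⟨p.map (Subalgebra.inclusion hle).toRingHom, ?_, ?_⟩
  · intro h0
    apply hp
    have hinj : Function.Injective (Subalgebra.inclusion hle).toRingHom :=
      Subalgebra.inclusion_injective hle
    exact (Polynomial.map_eq_zero_iff hinj).1 h0
  · have h1 : Polynomial.eval₂ (algebraMap (Algebra.adjoin ℂ (Set.range t)) A) a p = 0 := hpa
    rw [Polynomial.aeval_def, Polynomial.eval₂_map]
    exact h1

theorem em_red {m : ℕ} {A : Type*} [Field A] [Algebra ℂ A] {t : Fin m → A} 
    (x : A) (hx : x ∈ IntermediateField.adjoin ℂ (Set.range t)) :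
    ∃ p q : MvPolynomial (Fin m) ℂ, IsRelPrime p q ∧ q ≠ 0 ∧
        x * MvPolynomial.aeval t q = MvPolynomial.aeval t p := by
  obtain ⟨r, s, e⟩ := (IntermediateField.mem_adjoin_range_iff ℂ t x).1 hx
  by_cases hs : MvPolynomial.aeval t s = 0
  · refine ⟨0, 1, isRelPrime_one_right, one_ne_zero, ?_⟩
    rw [e, hs]
    simp
  · have hs0 : s ≠ 0 := by
      rintro rfl
      exact hs (map_zero _)
    obtain ⟨s', r', c, h1, h2, h3⟩ := UniqueFactorizationMonoid.exists_reduced_factors s hs0 r
    have hs' : s' ≠ 0 := by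
      rintro rfl
      exact hs0 (by rw [← h2, mul_zero])
    refine ⟨r', s', h1.symm, hs', ?_⟩
    rw [← h2, map_mul] at hs
    have hc := left_ne_zero_of_mul hs
    have hs2 := right_ne_zero_of_mul hs
    rw [e, ← h2, ← h3, map_mul, map_mul]
    field_simp

/-- with prescribed conjugate of `ζ`: `P` is the minimal polynomial of `ζ` over `ℂ(t)` -/
theorem emb_root {A : Type*} [Field A] [Algebra ℂ A] {m : ℕ} {t : Fin m → A}
    (ht : AlgebraicIndependent ℂ t) (hA : ∀ a : A, a ∈ XA.cl (Set.range t)) (ζ : A) :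
    ∃ P : Polynomial A, P.Monic ∧ P.eval ζ = 0 ∧
      (∀ j, ∃ p q : MvPolynomial (Fin m) ℂ, IsRelPrime p q ∧ q ≠ 0 ∧
        P.coeff j * MvPolynomial.aeval t q = MvPolynomial.aeval t p) ∧
      ∀ (M : Type) [Field M] [Algebra ℂ M] [IsAlgClosed M] (φ₀ : A →ₐ[ℂ] M) (z : M),
        (P.map φ₀.toRingHom).eval z = 0 → ∃ φ : A →ₐ[ℂ] M, (∀ i, φ (t i) = φ₀ (t i)) ∧ φ ζ = z := by
  have hint : ∀ a : A, IsIntegral (IntermediateField.adjoin ℂ (Set.range t)) a := fun a =>
    (em_alg hA a).isIntegral
  refine ⟨(minpoly (IntermediateField.adjoin ℂ (Set.range t)) ζ).map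
    (algebraMap (IntermediateField.adjoin ℂ (Set.range t)) A), (minpoly.monic (hint ζ)).map _, ?_,
    ?_, ?_⟩
  · rw [Polynomial.eval_map_algebraMap]
    exact minpoly.aeval _ _
  · intro j
    rw [Polynomial.coeff_map]
    exact em_red _ (((minpoly (IntermediateField.adjoin ℂ (Set.range t)) ζ).coeff j).2)
  · intro M _ _ _ φ₀ z hz
    let algM : Algebra (IntermediateField.adjoin ℂ (Set.range t)) M :=
      (φ₀.toRingHom.comp (algebraMap (IntermediateField.adjoin ℂ (Set.range t)) A)).toAlgebra
    have hM : ∀ x : IntermediateField.adjoin ℂ (Set.range t),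
        algebraMap (IntermediateField.adjoin ℂ (Set.range t)) M x = φ₀ (x : A) := fun x => rfl
    have tow : IsScalarTower ℂ (IntermediateField.adjoin ℂ (Set.range t)) M := by
      refine IsScalarTower.of_algebraMap_eq fun c => ?_
      rw [hM]
      exact (φ₀.commutes c).symm
    have hz' : Polynomial.aeval z (minpoly (IntermediateField.adjoin ℂ (Set.range t)) ζ) = 0 := by
      rw [Polynomial.map_map] at hz
      rw [Polynomial.aeval_def, Polynomial.eval₂_eq_eval_map]
      exact hz
    obtain ⟨φ, hφ⟩ := IntermediateField.exists_algHom_of_splits_of_aeval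
      (F := IntermediateField.adjoin ℂ (Set.range t)) (E := A) (K := M)
      (fun s => ⟨hint s, IsAlgClosed.splits _⟩) hz'
    refine ⟨φ.restrictScalars ℂ, fun i => ?_, hφ⟩
    have hi : t i ∈ IntermediateField.adjoin ℂ (Set.range t) :=
      IntermediateField.subset_adjoin _ _ ⟨i, rfl⟩
    have := φ.commutes (⟨t i, hi⟩ : IntermediateField.adjoin ℂ (Set.range t))
    rw [hM] at this
    exact this

end XD
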