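import Pool.Agent.Lib.MP_228259_lc.D.EB4
import Pool.Agent.Lib.MP_228259_lc.D.EM
import Pool.Agent.Lib.MP_228259_lc.D.AC
import Pool.Agent.Lib.MP_228259_lc.A.CLI

/-!
XD-IF3: interface statement `exp_points`.

PROOF. `s` is transcendental over `ℂ` (an element algebraic over `ℂ` is a constant: `IsAlgClosed.algebraMap_bijective_of_isIntegral`-like,
`minpoly` has degree one). Let `K₀` be the intermediate field with carrier `cl {s}` (`XA.cl_field`; see `A/CL.lean`, `A/CL2.lean`), `s₀, y₀` the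
elements `s, y` of it. All elements of `K₀` are in `cl {s₀}` (`cl` inside the subfield; transport the algebraic relation: `K₀ → L` is injective).
`emb` with `m = 1`, `t = ![s₀]`, `τ = ![sh]` (`sh_trans`, `algebraicIndependent_unique_type_iff` or
`algebraicIndependent_of_finite`-like for `Fin 1`; `ff_closed base_Bt`) gives `φ : K₀ →ₐ[ℂ] Kt` with `φ s₀ = sh`; `φ y₀ ≠ 0`. `kt_pts` for `φ y₀`: for
infinitely many `b`: `IsPt ![sh, φ y₀] ![b, exp b]`, and this implies `IsPt ![s, y] ![b, exp b]`: if `aeval ![s, y] f = 0` then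
`aeval ![s₀, y₀] f = 0` (injectivity of `K₀ → L`), so `aeval ![sh, φ y₀] f = φ 0 = 0`.
-/

set_option autoImplicit false

namespace XD

open MvPolynomial XA

theorem exp_points {L : Type} [Field L] [Algebra ℂ L] {s y : L}
    (hs : ∀ k : ℂ, s ≠ algebraMap ℂ L k) (hy : y ∈ cl {s}) (hy0 : y ≠ 0) :
    {b : ℂ | IsPt ![s, y] ![b, Complex.exp b]}.Infinite := by
  obtain ⟨K, hK⟩ := cl_field ({s} : Set L)
  have hmem : ∀ a : L, a ∈ K ↔ a ∈ cl {s} := fun a => by rw [← hK]; rfl
  have hsK : s ∈ K := (hmem s).2 (subset_cl _ rfl)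
  have hyK : y ∈ K := (hmem y).2 hy
  obtain ⟨s₀, hs₀⟩ : ∃ s₀ : K, K.val s₀ = s := ⟨⟨s, hsK⟩, rfl⟩
  obtain ⟨y₀, hy₀⟩ : ∃ y₀ : K, K.val y₀ = y := ⟨⟨y, hyK⟩, rfl⟩
  have htr : Transcendental ℂ s := by
    intro halg
    have h3 : IsIntegral ℂ s := halg.isIntegral
    have h4 := IsAlgClosed.degree_eq_one_of_irreducible ℂ (minpoly.irreducible h3)
    obtain ⟨c, hc⟩ := minpoly.mem_range_of_degree_eq_one ℂ s h4
    exact hs c hc.symm
  have htr₀ : AlgebraicIndependent ℂ ![s₀] := by
    rw [← indep_map K.val]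
    rw [algebraicIndependent_unique_type_iff]
    have h1 : K.val (![s₀] default) = s := by rw [← hs₀]; rfl
    rw [h1]
    exact htr
  have hsh : AlgebraicIndependent ℂ ![sh] := by
    rw [algebraicIndependent_unique_type_iff]
    exact sh_trans
  have hA : ∀ a : K, a ∈ XA.cl (Set.range ![s₀]) := by
    intro a
    rw [← cl_map K.val]
    have h1 : K.val '' Set.range ![s₀] = {s} := by
      rw [Matrix.range_cons, Matrix.range_empty, Set.union_empty, Set.image_singleton, hs₀]
    rw [h1]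
    exact (hmem _).1 a.2
  have hclosed : IsAlgClosed Kt := ff_closed base_Bt
  obtain ⟨φ, hφ⟩ := emb htr₀ hsh hA
  have hφs : φ s₀ = sh := hφ 0
  have hφy : φ y₀ ≠ 0 := by
    intro h
    have h1 : y₀ = 0 := φ.toRingHom.injective (by rw [map_zero]; exact h)
    apply hy0
    rw [← hy₀, h1, map_zero]
  refine (kt_pts hφy).mono ?_
  intro b hb f hf
  have h1 : K.val (aeval ![s₀, y₀] f) = aeval ![s, y] f := by
    rw [MvPolynomial.comp_aeval_apply]
    congr 2
    funext i
    fin_cases i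
    · exact hs₀
    · exact hy₀
  have h2 : aeval ![s₀, y₀] f = 0 := by
    have h4 : Function.Injective K.val := K.val.injective
    apply h4
    rw [h1, hf, map_zero]
  apply hb
  have h3 : φ (aeval ![s₀, y₀] f) = aeval ![sh, φ y₀] f := by
    rw [MvPolynomial.comp_aeval_apply]
    congr 2
    funext i
    fin_cases i
    · exact hφs
    · rfl
  rw [← h3, h2, map_zero]

end XD
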