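import Pool.Agent.Lib.MP_228259_lc.D.IL
import Pool.Agent.Lib.MP_228259_lc.D.EM
import Pool.Agent.Lib.MP_228259_lc.D.EVB
import Pool.Agent.Lib.MP_228259_lc.D.AC

/-!
XD-IF4: interface statement `li_field` (lemma I').

PROOF. `s` is transcendental over `ℂ` (an element algebraic over `ℂ` is a constant). `emb` with `m = 1`, `t = ![s]`, `τ = ![sh]`
(`sh_trans`; `ff_closed base_Bt`) gives `φ : K →ₐ[ℂ] Kt` with `φ s = sh`. Put `y' = φ y`, `X' = φ X`; `y'` is not a constant,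
`m₁ sh + m₂ X'` is not a constant (`φ` injective). `exists_isLog` for `y'` and `inv_fun` give the data `ID y' ℓ κ c₀ M₀ W`. Let
`Q' = Q.map (φ.comp ψ) ≠ 0` (`hQ`). With `S = {sb, yb, Xb} ∪ Q.support.image Q.coeff` the following hold near infinity, so at `W m` for all large
natural `m` (`tend`, `ev_iff`): `evB (φ.comp ψ) S`, `rep sh w = I * exp w` (`sh_rep`), `exp (ℓ w) = rep y' w` (`IsLog.ex`),
`rep (0 : Kt) w = 0`. Let `N₀` be a bound for `large` (and `> M₀`); `lemma_I` gives `m ≥ N₀` with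
`∑ i ∈ range (Q'.natDegree + 1), rep (Q'.coeff i) (W m) * exp (rep X' (W m)) ^ i ≠ 0`. Take `σ` from `evB` at `w = W m`:
`σ yb = rep y' w = exp (ℓ w) = exp (I * exp w - 2 π I m) = exp (I * exp w) = exp (σ sb)` (`Mf ℓ w = m`), and
`(Q.map σ).eval (exp (σ Xb)) = ∑ i ∈ range (Q.natDegree + 1), σ (Q.coeff i) * exp (σ Xb) ^ i` (`Polynomial.eval_map`,
`eval₂_eq_sum_range`), where `σ (Q.coeff i) = rep (Q'.coeff i) w` (also if `Q.coeff i = 0`: `rep 0 w = 0`); the terms with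
`i > natDegree Q'` vanish; so it is the sum of `lemma_I`, not zero.
-/

set_option autoImplicit false

namespace XD

open MvPolynomial XA

private theorem IF4_trans {K : Type} [Field K] [Algebra ℂ K] {s : K}
    (hs : ∀ k : ℂ, s ≠ algebraMap ℂ K k) : Transcendental ℂ s := by
  intro h
  have h1 : (minpoly ℂ s).degree = 1 :=
    IsAlgClosed.degree_eq_one_of_irreducible ℂ (minpoly.irreducible h.isIntegral)
  obtain ⟨k, hk⟩ := minpoly.mem_range_of_degree_eq_one ℂ s h1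
  exact hs k hk.symm

theorem li_field {K : Type} [Field K] [Algebra ℂ K] {s y X : K}
    (hs : ∀ k : ℂ, s ≠ algebraMap ℂ K k) (halg : ∀ a : K, a ∈ cl {s})
    (hy : ∀ k : ℂ, y ≠ algebraMap ℂ K k)
    (hX : ∀ m₁ m₂ : ℤ, (m₁ ≠ 0 ∨ m₂ ≠ 0) → ∀ k : ℂ, (m₁ : K) * s + (m₂ : K) * X ≠ algebraMap ℂ K k)
    (B : Type) [CommRing B] [Algebra ℂ B] [Algebra.FiniteType ℂ B] (ψ : B →ₐ[ℂ] K) {sb yb Xb : B}
    (hsb : ψ sb = s) (hyb : ψ yb = y) (hXb : ψ Xb = X) (Q : Polynomial B)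
    (hQ : ∃ i, ψ (Q.coeff i) ≠ 0) :
    ∃ σ : B →ₐ[ℂ] ℂ, σ yb = Complex.exp (σ sb) ∧
      (Q.map (σ : B →+* ℂ)).eval (Complex.exp (σ Xb)) ≠ 0 := by
  classical
  have hclosed : IsAlgClosed Kt := ff_closed base_Bt
  -- the embedding
  have hst : AlgebraicIndependent ℂ ![s] := by
    rw [algebraicIndependent_unique_type_iff]
    exact IF4_trans hs
  have hsht : AlgebraicIndependent ℂ ![sh] := by
    rw [algebraicIndependent_unique_type_iff]
    exact sh_trans
  obtain ⟨φ, hφ⟩ := emb (M := Kt) hst hsht (by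
    intro a
    have h1 : Set.range ![s] = {s} := by
      rw [Matrix.range_cons, Matrix.range_empty, Set.union_empty]
    rw [h1]
    exact halg a)
  have hφs : φ s = sh := hφ 0
  have hinj : Function.Injective φ := φ.toRingHom.injective
  have hy' : ∀ c : ℂ, φ y ≠ algebraMap ℂ Kt c := by
    intro c hc
    apply hy c
    apply hinj
    rw [hc, φ.commutes]
  have hX' : ∀ m₁ m₂ : ℤ, (m₁ ≠ 0 ∨ m₂ ≠ 0) → ∀ c : ℂ,
      (m₁ : Kt) * sh + (m₂ : Kt) * φ X ≠ algebraMap ℂ Kt c := by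
    intro m₁ m₂ hm c hc
    apply hX m₁ m₂ hm c
    apply hinj
    rw [map_add, map_mul, map_mul, map_intCast, map_intCast, hφs, hc, φ.commutes]
  have hy0 : φ y ≠ 0 := by
    intro h0
    apply hy' 0
    rw [h0, map_zero]
  obtain ⟨ℓ, κ, c₀, hlog⟩ := exists_isLog hy0
  obtain ⟨M₀, W, hM₀, hW1, hW2, hW3, hW4⟩ := inv_fun hlog.ea hlog.lim hlog.dlim
  have hID : ID (φ y) ℓ κ c₀ M₀ W := ⟨hy0, hlog, hW1, hW2, hW3, hW4⟩
  set Q' : Polynomial Kt := Q.map ((φ.comp ψ : B →ₐ[ℂ] Kt) : B →+* Kt) with hQ'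
  have hcoef : ∀ i, Q'.coeff i = φ (ψ (Q.coeff i)) := by
    intro i
    rw [hQ', Polynomial.coeff_map]
    rfl
  have hQ'0 : Q' ≠ 0 := by
    obtain ⟨i, hi⟩ := hQ
    intro h0
    apply hi
    apply hinj
    rw [← hcoef, h0, Polynomial.coeff_zero, map_zero]
  have hev := evB (φ.comp ψ) (({sb, yb, Xb} : Finset B) ∪
    (Finset.range (Q.natDegree + 1)).image Q.coeff)
  have h0 : rep (0 : Kt) =ᶠ[lom] 0 := rep_zero.1 rfl
  have hall := (hev.and (sh_rep.and (hlog.ex.and h0)))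
  have hall' := hW1.eventually hall
  obtain ⟨x₀, hx₀⟩ := Filter.eventually_atTop.1 hall'
  obtain ⟨N₁, hN₁⟩ := exists_nat_gt (max x₀ M₀)
  obtain ⟨m, hm, hne⟩ := lemma_I hy' hX' hID hQ'0 N₁
  have hm' : max x₀ M₀ < (m : ℝ) := lt_of_lt_of_le hN₁ (by exact_mod_cast hm)
  obtain ⟨⟨σ, hσ⟩, e1, e2, e3⟩ := hx₀ m ((le_max_left _ _).trans hm'.le)
  have hMf := hW3 m (lt_of_le_of_lt (le_max_right _ _) hm')
  set w := W m with hw
  have hσs : σ sb = Complex.I * Complex.exp w := by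
    rw [hσ sb (by simp)]
    change rep (φ (ψ sb)) w = _
    rw [hsb, hφs]
    exact e1
  have hσy : σ yb = Complex.exp (ℓ w) := by
    rw [hσ yb (by simp), e2]
    change rep (φ (ψ yb)) w = _
    rw [hyb]
  have hσX : σ Xb = rep (φ X) w := by
    rw [hσ Xb (by simp)]
    change rep (φ (ψ Xb)) w = _
    rw [hXb]
  refine ⟨σ, ?_, ?_⟩
  · rw [hσy, hσs, Complex.exp_eq_exp_iff_exists_int]
    refine ⟨-(m : ℤ), ?_⟩
    unfold Mf at hMf
    have hpi : (2 * (Real.pi : ℂ) * Complex.I) ≠ 0 := Complex.two_pi_I_ne_zero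
    rw [div_eq_iff hpi] at hMf
    push_cast
    push_cast at hMf
    linear_combination -hMf
  · rw [Polynomial.eval_map, Polynomial.eval₂_eq_sum_range, hσX]
    have hle : Q'.natDegree ≤ Q.natDegree := Polynomial.natDegree_map_le
    have hsum : ∑ i ∈ Finset.range (Q.natDegree + 1), (σ : B →+* ℂ) (Q.coeff i) *
        Complex.exp (rep (φ X) w) ^ i =
        ∑ i ∈ Finset.range (Q'.natDegree + 1), rep (Q'.coeff i) w *
          Complex.exp (rep (φ X) w) ^ i := by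
      have h1 : ∀ i ∈ Finset.range (Q.natDegree + 1), (σ : B →+* ℂ) (Q.coeff i) *
          Complex.exp (rep (φ X) w) ^ i = rep (Q'.coeff i) w * Complex.exp (rep (φ X) w) ^ i := by
        intro i hi
        have h2 : (σ : B →+* ℂ) (Q.coeff i) = rep (Q'.coeff i) w := by
          change σ (Q.coeff i) = _
          rw [hσ (Q.coeff i) (Finset.mem_union_right _ (Finset.mem_image_of_mem _ hi)), hcoef]
          rfl
        rw [h2]
      rw [Finset.sum_congr rfl h1]
      symm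
      apply Finset.sum_subset (Finset.range_subset_range.2 (by omega))
      intro i _ hi2
      rw [Finset.mem_range] at hi2
      rw [Polynomial.coeff_eq_zero_of_natDegree_lt (by omega)]
      rw [show rep (0 : Kt) w = 0 from e3, zero_mul]
    rw [hsum]
    exact hne

end XD
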