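import Pool.Agent.Lib.MP_228259_lc.D.GR

/-!
XD-AG1: `AlgOn B f` means that the germ of `f` is algebraic over the ring `gB B` of germs of
functions of `B`.

PROOF. `gB` is the image of `B ⊓ AA` under the projection. `algOn_iff`: `(→)` map
the coefficients of `p : B[X]` to `gB B` (all functions of `B` are `EA`); the map `B → gB B ⊆ GG` kills a coefficient
only if it is eventually `0` (`gm_eq`), and the germ of `aeval f p` is the value at `gm f` of the mapped polynomial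
(induction on `p`, or `Polynomial.aeval_eq_sum_range` and `gm_add`, `gm_mul`). `(←)` lift the coefficients (`mem_gB`).
-/

set_option autoImplicit false

namespace XD

open Complex Filter Topology Metric

/-- the germs of the functions of `B` -/
noncomputable def gB (B : Subalgebra ℂ (ℂ → ℂ)) : Subalgebra ℂ GG :=
  (B.comap AA.val).map gpr

theorem mem_gB {B : Subalgebra ℂ (ℂ → ℂ)} (a : GG) :
    a ∈ gB B ↔ ∃ (f : ℂ → ℂ) (hf : EA f), f ∈ B ∧ gm f hf = a := by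
  constructor
  · intro h
    obtain ⟨x, hx, hxa⟩ := h
    exact ⟨x.1, x.2, hx, hxa⟩
  · rintro ⟨f, hf, hfB, rfl⟩
    exact ⟨⟨f, hf⟩, hfB, rfl⟩

private noncomputable def xdAG1i {B : Subalgebra ℂ (ℂ → ℂ)} (hB : ∀ f ∈ B, EA f) : B →ₐ[ℂ] AA :=
  Subalgebra.inclusion (show B ≤ AA from hB)

private noncomputable def xdAG1p {B : Subalgebra ℂ (ℂ → ℂ)} (hB : ∀ f ∈ B, EA f) :
    B →ₐ[ℂ] gB B :=
  (gpr.comp (xdAG1i hB)).codRestrict (gB B) (fun x =>
    (mem_gB _).2 ⟨x.1, hB x.1 x.2, x.2, rfl⟩)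

private theorem xdAG1c {B : Subalgebra ℂ (ℂ → ℂ)} (hB : ∀ f ∈ B, EA f) (x : B) :
    xdAG1p hB x = 0 ↔ (x : ℂ → ℂ) =ᶠ[lom] 0 := by
  have h0 : (xdAG1p hB x : GG) = gm x.1 (hB x.1 x.2) := rfl
  have h1 : (0 : GG) = gm (fun _ => 0) (EA.cst 0) := by
    rw [← gm_cst, map_zero]
  rw [← Subtype.coe_inj, h0]
  change gm x.1 _ = 0 ↔ _
  rw [h1, gm_eq]
  rfl

private theorem xdAG1e {B : Subalgebra ℂ (ℂ → ℂ)} (hB : ∀ f ∈ B, EA f) {f : ℂ → ℂ} (hf : EA f)
    (p : Polynomial B) :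
    Polynomial.aeval (gm f hf) (p.map (xdAG1p hB).toRingHom) = 0 ↔
      Polynomial.aeval f p =ᶠ[lom] 0 := by
  set P : AA := p.eval₂ (xdAG1i hB).toRingHom ⟨f, hf⟩ with hP
  have h1 : (P : ℂ → ℂ) = Polynomial.aeval f p := by
    have := Polynomial.hom_eval₂ p (xdAG1i hB).toRingHom AA.val.toRingHom ⟨f, hf⟩
    rw [Polynomial.aeval_def]
    exact this
  have h2 : gpr P = Polynomial.aeval (gm f hf) (p.map (xdAG1p hB).toRingHom) := by
    have := Polynomial.hom_eval₂ p (xdAG1i hB).toRingHom gpr.toRingHom ⟨f, hf⟩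
    rw [Polynomial.aeval_def, Polynomial.eval₂_map]
    exact this
  have h3 : gpr P = gm (P : ℂ → ℂ) P.2 := rfl
  have h4 : (0 : GG) = gm (fun _ => 0) (EA.cst 0) := by
    rw [← gm_cst, map_zero]
  rw [← h2, h3, h4, gm_eq, h1]
  rfl

theorem algOn_iff {B : Subalgebra ℂ (ℂ → ℂ)} (hB : ∀ f ∈ B, EA f) {f : ℂ → ℂ} (hf : EA f) :
    AlgOn B f ↔ IsAlgebraic (gB B) (gm f hf) := by
  constructor
  · rintro ⟨p, ⟨i, hi⟩, hp⟩
    refine ⟨p.map (xdAG1p hB).toRingHom, ?_, (xdAG1e hB hf p).2 hp⟩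
    intro h0
    apply hi
    have h1 := congrArg (fun q => Polynomial.coeff q i) h0
    simp only [Polynomial.coeff_map, Polynomial.coeff_zero] at h1
    exact (xdAG1c hB _).1 h1
  · rintro ⟨q, hq0, hq⟩
    have hsurj : Function.Surjective (xdAG1p hB).toRingHom := by
      rintro ⟨a, ha⟩
      obtain ⟨g, hg, hgB, hga⟩ := (mem_gB a).1 ha
      exact ⟨⟨g, hgB⟩, Subtype.ext hga⟩
    obtain ⟨p, rfl⟩ := Polynomial.map_surjective _ hsurj q
    refine ⟨p, ?_, (xdAG1e hB hf p).1 hq⟩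
    by_contra hcon
    push Not at hcon
    apply hq0
    ext i
    rw [Polynomial.coeff_map, Polynomial.coeff_zero]
    exact congrArg _ ((xdAG1c hB _).2 (hcon i))

end XD
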