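import Pool.Agent.Lib.MP_228259_lc.D.AG1

/-!
XD-AG2: derivatives and inverses of algebraic germs.

PROOF. `alg_der`: let `q : (gB B)[X]`, `q ≠ 0`, `aeval a q = 0` of minimal degree; `natDegree q > 0` (otherwise `q` is a
non-zero constant, `GG` is a domain). Let `q' = derivative q` (non-zero, smaller degree, so
`aeval a q' ≠ 0`; characteristic `0`) and `qD` the polynomial with the coefficients `gder (q.coeff i)`,
which are in `gB B` (`hB.der`). `0 = gder (aeval a q) = aeval a qD + aeval a q' * gder a`. In the field
of fractions of `GG`: `gder a = - aeval a qD / aeval a q'` is algebraic over `gB B` (`IsAlgebraic.mul`,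
`IsAlgebraic.inv`, `isAlgebraic_algebraMap_iff`; `a` algebraic, so are polynomials in `a`).
`alg_inv`: in the field of fractions, `b = a⁻¹` (`IsAlgebraic.inv`), or `Polynomial.reverse`.
-/

set_option autoImplicit false

namespace XD

open Complex Filter Topology Metric

theorem xdAG2_mem {B : Subalgebra ℂ (ℂ → ℂ)} (hB : Base B) {c : GG} (hc : c ∈ gB B) :
    gder c ∈ gB B := by
  obtain ⟨f, hf, hfB, rfl⟩ := (mem_gB c).1 hc
  obtain ⟨g, hgB, hg⟩ := hB.der f hfB
  rw [gder_gm]
  exact (mem_gB _).2 ⟨g, hB.ea g hgB, hgB, (gm_eq _ _).2 hg⟩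

theorem xdAG2_aeval {B : Subalgebra ℂ (ℂ → ℂ)} {a : GG} (ha : IsAlgebraic (gB B) a)
    (p : Polynomial (gB B)) : IsAlgebraic (gB B) (Polynomial.aeval a p) := by
  induction p using Polynomial.induction_on' with
  | add p q hp hq =>
    rw [map_add]
    exact hp.add hq
  | monomial n c =>
    rw [Polynomial.aeval_monomial]
    exact (isAlgebraic_algebraMap c).mul (ha.pow n)

theorem xdAG2_der {B : Subalgebra ℂ (ℂ → ℂ)} (hB : Base B) (a : GG) (p : Polynomial (gB B)) :
    ∃ P : Polynomial (gB B), gder (Polynomial.aeval a p) =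
      Polynomial.aeval a P + Polynomial.aeval a (Polynomial.derivative p) * gder a := by
  induction p using Polynomial.induction_on' with
  | add p q hp hq =>
    obtain ⟨P, hP⟩ := hp
    obtain ⟨Q, hQ⟩ := hq
    refine ⟨P + Q, ?_⟩
    rw [map_add, map_add, hP, hQ, map_add, Polynomial.derivative_add, map_add]
    ring
  | monomial n c =>
    refine ⟨Polynomial.monomial n ⟨gder (c : GG), xdAG2_mem hB c.2⟩, ?_⟩
    rw [Polynomial.derivative_monomial, Polynomial.aeval_monomial, Polynomial.aeval_monomial,
      Polynomial.aeval_monomial, Derivation.leibniz, Derivation.leibniz_pow]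
    change (c : GG) • (n • a ^ (n - 1) • gder a) + a ^ n • gder (c : GG) =
      gder (c : GG) * a ^ n + ((c * (n : gB B) : gB B) : GG) * a ^ (n - 1) * gder a
    push_cast
    simp only [smul_eq_mul, nsmul_eq_mul]
    ring

theorem alg_der {B : Subalgebra ℂ (ℂ → ℂ)} (hB : Base B) {a : GG}
    (ha : IsAlgebraic (gB B) a) : IsAlgebraic (gB B) (gder a) := by
  have hinj : Function.Injective (algebraMap (gB B) GG) := Subtype.val_injective
  haveI : CharZero (gB B) := charZero_of_injective_algebraMap (algebraMap ℂ (gB B)).injective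
  have key : ∀ (n : ℕ) (q : Polynomial (gB B)), q ≠ 0 → q.natDegree ≤ n →
      Polynomial.aeval a q = 0 → IsAlgebraic (gB B) (gder a) := by
    intro n
    induction n with
    | zero =>
      intro q hq hn h0
      exfalso
      rw [Polynomial.eq_C_of_natDegree_le_zero hn, Polynomial.aeval_C] at h0
      have h1 : q.coeff 0 = 0 := hinj (by rw [h0, map_zero])
      apply hq
      rw [Polynomial.eq_C_of_natDegree_le_zero hn, h1, map_zero]
    | succ n ih =>
      intro q hq hn h0
      by_cases hd : q.natDegree = 0
      · exact ih q hq (by omega) h0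
      · have hq' : Polynomial.derivative q ≠ 0 := by
          intro h
          exact hd (Polynomial.natDegree_eq_zero_of_derivative_eq_zero h)
        by_cases hz : Polynomial.aeval a (Polynomial.derivative q) = 0
        · have hlt := Polynomial.natDegree_derivative_lt hd
          exact ih _ hq' (by omega) hz
        · obtain ⟨P, hP⟩ := xdAG2_der hB a q
          rw [h0, map_zero] at hP
          have e : Polynomial.aeval a (Polynomial.derivative q) * gder a =
              -Polynomial.aeval a P := by
            linear_combination -hP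
          refine IsAlgebraic.of_mul (mem_nonZeroDivisors_of_ne_zero hz)
            (xdAG2_aeval ha _) ?_
          rw [e]
          exact (xdAG2_aeval ha P).neg
  obtain ⟨q, hq, h0⟩ := ha
  exact key q.natDegree q hq le_rfl h0

theorem alg_inv {B : Subalgebra ℂ (ℂ → ℂ)} {a b : GG}
    (ha : IsAlgebraic (gB B) a) (h : a * b = 1) : IsAlgebraic (gB B) b := by
  have ha0 : a ≠ 0 := by
    rintro rfl
    rw [zero_mul] at h
    exact zero_ne_one h
  refine IsAlgebraic.of_mul (mem_nonZeroDivisors_of_ne_zero ha0) ha ?_
  rw [h]
  exact isAlgebraic_one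

end XD
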