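import Pool.Agent.Lib.MP_228259_lc.D.O3

/-!
XD-AS2: by connectedness the scale is the same for all points far out.

PROOF. Let `T'` be the finite set of the distinct pairs `(a t, b t)`, `t ∈ T`. For two distinct pairs
`‖phi a b / phi a' b'‖` tends to `0` or to infinity (`phi_div`, `phi_small`, `phi_large`), so for `u` far out
the sets `E_q = {u ∈ Om R | K⁻¹ ≤ ‖g u / phi q u‖ ≤ K}`, `q ∈ T'`, are pairwise disjoint
(`‖phi q u / phi q' u‖ ∈ [K⁻², K²]` on an intersection), they cover `Om R`, and they are relatively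
closed in `Om R` (`g` is continuous on `Om R`, `phi` too). `Om R` is preconnected (`om_convex`), so it is
contained in one of them. `Om R` is not empty, so `T` is not empty.
-/

set_option autoImplicit false

namespace XD

open Complex Filter Topology Metric

private theorem as2_sep {a b a' b' K : ℝ} (hK : 1 ≤ K) (hne : ¬ (a = a' ∧ b = b')) (g : ℂ → ℂ) :
    ∀ᶠ u in lom, ¬ ((K⁻¹ ≤ ‖g u / phi a b u‖ ∧ ‖g u / phi a b u‖ ≤ K) ∧
      (K⁻¹ ≤ ‖g u / phi a' b' u‖ ∧ ‖g u / phi a' b' u‖ ≤ K)) := by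
  have hK0 : 0 < K := by linarith
  have key : ∀ {a b a' b' : ℝ}, (a - a' < 0 ∨ (a - a' = 0 ∧ b - b' < 0)) →
      ∀ᶠ u in lom, ¬ ((K⁻¹ ≤ ‖g u / phi a b u‖ ∧ ‖g u / phi a b u‖ ≤ K) ∧
      (K⁻¹ ≤ ‖g u / phi a' b' u‖ ∧ ‖g u / phi a' b' u‖ ≤ K)) := by
    intro a b a' b' h
    have h1 := phi_small h
    have h2 : ∀ᶠ u in lom, ‖phi (a - a') (b - b') u‖ < K⁻¹ * K⁻¹ := by
      have h3 : Tendsto (fun u => ‖phi (a - a') (b - b') u‖) lom (𝓝 0) := by
        have := h1.norm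
        simpa using this
      exact h3.eventually (gt_mem_nhds (by positivity))
    filter_upwards [h2] with u hu
    rintro ⟨⟨h3, h4⟩, ⟨h5, h6⟩⟩
    have h7 : g u / phi a' b' u = (g u / phi a b u) * phi (a - a') (b - b') u := by
      rw [← phi_div]
      have := phi_ne a b u
      have := phi_ne a' b' u
      field_simp
    rw [h7, norm_mul] at h5
    have h8 : ‖g u / phi a b u‖ * ‖phi (a - a') (b - b') u‖ ≤ K * ‖phi (a - a') (b - b') u‖ :=
      mul_le_mul_of_nonneg_right h4 (norm_nonneg _)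
    have h9 : K * ‖phi (a - a') (b - b') u‖ < K * (K⁻¹ * K⁻¹) := mul_lt_mul_of_pos_left hu hK0
    have h10 : K * (K⁻¹ * K⁻¹) = K⁻¹ := by field_simp
    linarith
  rcases lt_trichotomy a a' with h | h | h
  · exact key (Or.inl (by linarith))
  · rcases lt_trichotomy b b' with h' | h' | h'
    · exact key (Or.inr ⟨by linarith, by linarith⟩)
    · exact absurd ⟨h, h'⟩ hne
    · filter_upwards [key (a := a') (b := b') (a' := a) (b' := b)
        (Or.inr ⟨by linarith, by linarith⟩)] with u hu h1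
      exact hu ⟨h1.2, h1.1⟩
  · filter_upwards [key (a := a') (b := b') (a' := a) (b' := b)
      (Or.inl (by linarith))] with u hu h1
    exact hu ⟨h1.2, h1.1⟩

theorem as_conn {g : ℂ → ℂ} (hg : EA g) {τ : Type} {T : Finset τ} (a b : τ → ℝ) {K : ℝ}
    (hK : 1 ≤ K)
    (h : ∀ᶠ u in lom, ∃ t ∈ T, K⁻¹ ≤ ‖g u / phi (a t) (b t) u‖ ∧ ‖g u / phi (a t) (b t) u‖ ≤ K) :
    ∃ t ∈ T, ∀ᶠ u in lom, K⁻¹ ≤ ‖g u / phi (a t) (b t) u‖ ∧ ‖g u / phi (a t) (b t) u‖ ≤ K := by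
  classical
  obtain ⟨R₁, hR₁⟩ := hg
  have hsep : ∀ᶠ u in lom, ∀ t ∈ T, ∀ t' ∈ T, ¬ (a t = a t' ∧ b t = b t') →
      ¬ ((K⁻¹ ≤ ‖g u / phi (a t) (b t) u‖ ∧ ‖g u / phi (a t) (b t) u‖ ≤ K) ∧
      (K⁻¹ ≤ ‖g u / phi (a t') (b t') u‖ ∧ ‖g u / phi (a t') (b t') u‖ ≤ K)) := by
    rw [Filter.eventually_all_finset]
    intro t ht
    rw [Filter.eventually_all_finset]
    intro t' ht'
    by_cases hne : a t = a t' ∧ b t = b t'
    · exact Eventually.of_forall fun u h1 => absurd hne h1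
    · filter_upwards [as2_sep hK hne g] with u hu _
      exact hu
  obtain ⟨R₂, hR₂⟩ := ev_iff.1 (h.and hsep)
  set R := max (max R₁ R₂) 0 with hR
  have hs1 : Om R ⊆ Om R₁ := om_mono ((le_max_left _ _).trans (le_max_left _ _))
  have hs2 : Om R ⊆ Om R₂ := om_mono ((le_max_right _ _).trans (le_max_left _ _))
  have hs3 : Om R ⊆ Om 0 := om_mono (le_max_right _ _)
  have hcont : ∀ t, Continuous fun x : Om R => ‖g x / phi (a t) (b t) x‖ := by
    intro t
    have h1 : ContinuousOn (fun u => g u / phi (a t) (b t) u) (Om R) :=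
      ((hR₁.mono hs1).continuousOn).div (((phi_diff (a t) (b t)).mono hs3).continuousOn)
        (fun u _ => phi_ne _ _ u)
    exact (continuousOn_iff_continuous_domRestrict.1 h1).norm
  have hpre : PreconnectedSpace (Om R) :=
    Subtype.preconnectedSpace (om_convex R).isPreconnected
  have hne : (Om R).Nonempty := by
    obtain ⟨u, hu⟩ := (Filter.nonempty_of_mem (om_mem R) : (Om R).Nonempty)
    exact ⟨u, hu⟩
  obtain ⟨u₀, hu₀⟩ := hne
  obtain ⟨t₀, ht₀, h₀⟩ := (hR₂ u₀ (hs2 hu₀)).1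
  let C : τ → Set (Om R) := fun t =>
    {x | K⁻¹ ≤ ‖g x / phi (a t) (b t) x‖ ∧ ‖g x / phi (a t) (b t) x‖ ≤ K}
  have hC : ∀ t, IsClosed (C t) := fun t =>
    (isClosed_le continuous_const (hcont t)).inter (isClosed_le (hcont t) continuous_const)
  have hcompl : (C t₀)ᶜ = ⋃ t ∈ T.filter (fun t => ¬ (a t = a t₀ ∧ b t = b t₀)), C t := by
    ext x
    simp only [Set.mem_compl_iff, Set.mem_iUnion, Finset.mem_filter]
    constructor
    · intro hx
      obtain ⟨t, ht, h1⟩ := (hR₂ x (hs2 x.2)).1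
      refine ⟨t, ⟨ht, fun h2 => hx ?_⟩, h1⟩
      change K⁻¹ ≤ ‖g x / phi (a t₀) (b t₀) x‖ ∧ ‖g x / phi (a t₀) (b t₀) x‖ ≤ K
      rw [← h2.1, ← h2.2]
      exact h1
    · rintro ⟨t, ⟨ht, h2⟩, h1⟩ hx
      exact (hR₂ x (hs2 x.2)).2 t ht t₀ ht₀ h2 ⟨h1, hx⟩
  have hopen : IsOpen (C t₀) := by
    rw [← isClosed_compl_iff, hcompl]
    exact Set.Finite.isClosed_biUnion (Finset.finite_toSet _) fun t _ => hC t
  have huniv : C t₀ = Set.univ := by
    rcases isClopen_iff.1 ⟨hC t₀, hopen⟩ with h1 | h1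
    · exfalso
      have : (⟨u₀, hu₀⟩ : Om R) ∈ C t₀ := h₀
      rw [h1] at this
      exact this
    · exact h1
  refine ⟨t₀, ht₀, ev_iff.2 ⟨R, fun u hu => ?_⟩⟩
  have : (⟨u, hu⟩ : Om R) ∈ C t₀ := by
    rw [huniv]
    trivial
  exact this

end XD
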