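import Pool.Agent.Lib.MP_228259_lc.D.O3

/-!
XD-AS3: the quotient by the scale converges.

PROOF of `as_poly`. Put `h = g / phi a b`. The function `p i * phi a b ^ i` (`i ∈ I`) has the size
`(r i + i a, s i + i b)`. Let `(r₀, s₀)` be the lexicographic maximum of these pairs (`I` is not empty). Dividing
the equation by `phi r₀ s₀`: `∑ i ∈ I, (p i * phi a b ^ i / phi r₀ s₀) * h ^ i = 0`, where the coefficients
converge to `e i` (`= c i` if the pair is maximal, `0` otherwise, `lim_of_sz`).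
`E = ∑ i ∈ I, C (e i) * X ^ i`, not zero. As `h` is bounded, `E (h u) → 0`.
PROOF of `as_lim`. The zeros of `E` are a finite set `Z`. For `ε > 0` smaller than half the mutual distances
of the points of `Z`: `‖E‖ ≥ δ > 0` on the compact set `{‖w‖ ≤ K} \ ⋃_{z ∈ Z} ball z ε`, so for `u ∈ Om R`,
`R` large, `h u ∈ ⋃ ball z ε`; by connectedness of `Om R` and continuity of `h` all `h u` are in one ball
`ball (z_ε) ε`. The sets `Om R` are nested, so `z_ε` does not depend on `ε` (for `ε` small). So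
`h → z`, and `‖z‖ ≥ K⁻¹`. (Alternative: pigeonhole: `h` has a cluster value `z`
(compactness); `E z = 0`; then show that `h` stays in `ball z ε`: the image of `Om R` under `h` is connected,
meets `ball z ε` and avoids the sphere `‖w - z‖ = ε`, on which `‖E‖ ≥ δ`.)
-/

set_option autoImplicit false

namespace XD

open Complex Filter Topology Metric

theorem as_poly {I : Finset ℕ} (h0 : I.Nonempty)
    {p : ℕ → ℂ → ℂ} {r s : ℕ → ℝ} {c : ℕ → ℂ} (hp : ∀ i ∈ I, Sz (p i) (r i) (s i) (c i))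
    {g : ℂ → ℂ} (h : ∀ᶠ u in lom, ∑ i ∈ I, p i u * g u ^ i = 0) (a b K : ℝ)
    (hK : ∀ᶠ u in lom, ‖g u / phi a b u‖ ≤ K) :
    ∃ E : Polynomial ℂ, E ≠ 0 ∧ Tendsto (fun u => E.eval (g u / phi a b u)) lom (𝓝 0) := by
  obtain ⟨i₀, hi₀, hmax⟩ := Finset.exists_max_image I
    (fun i => (toLex (r i + i * a, s i + i * b) : ℝ ×ₗ ℝ)) h0
  obtain ⟨r₀, hr₀⟩ : ∃ r₀ : ℝ, r₀ = r i₀ + i₀ * a := ⟨_, rfl⟩
  obtain ⟨s₀, hs₀⟩ : ∃ s₀ : ℝ, s₀ = s i₀ + i₀ * b := ⟨_, rfl⟩
  obtain ⟨e, he⟩ : ∃ e : ℕ → ℂ, e = fun i =>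
      if r i + i * a = r₀ ∧ s i + i * b = s₀ then c i * 1 else 0 := ⟨_, rfl⟩
  have hlim : ∀ i ∈ I, Tendsto (fun u => p i u * phi (i * a) (i * b) u / phi r₀ s₀ u) lom
      (𝓝 (e i)) := by
    intro i hi
    have h1 := (hp i hi).mul (sz_phi (i * a) (i * b))
    have h2 := hmax i hi
    rw [Prod.Lex.toLex_le_toLex] at h2
    have h3 := lim_of_sz h1 (r₀ := r₀) (s₀ := s₀) (by
      rw [hr₀, hs₀]
      exact h2)
    rw [he]
    exact h3
  refine ⟨∑ i ∈ I, Polynomial.C (e i) * Polynomial.X ^ i, ?_, ?_⟩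
  · intro h1
    have h2 := congrArg (fun q => Polynomial.coeff q i₀) h1
    simp only [Polynomial.finsetSum_coeff, Polynomial.coeff_C_mul, Polynomial.coeff_X_pow,
      Polynomial.coeff_zero] at h2
    rw [Finset.sum_eq_single i₀ (fun j _ hj => by rw [if_neg (Ne.symm hj), mul_zero])
      (fun h3 => absurd hi₀ h3)] at h2
    simp only [if_true, mul_one] at h2
    rw [he] at h2
    simp only [← hr₀, ← hs₀, and_self, if_true, mul_one] at h2
    exact (hp i₀ hi₀).1 h2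
  · have hsum : Tendsto (fun u => ∑ i ∈ I,
        (e i - p i u * phi (i * a) (i * b) u / phi r₀ s₀ u) * (g u / phi a b u) ^ i) lom
        (𝓝 (∑ i ∈ I, (0 : ℂ))) := by
      refine tendsto_finsetSum _ fun i hi => ?_
      have h1 : Tendsto (fun u => ‖e i - p i u * phi (i * a) (i * b) u / phi r₀ s₀ u‖ * K ^ i)
          lom (𝓝 0) := by
        have h2 := ((tendsto_const_nhds (x := e i)).sub (hlim i hi)).norm.mul_const (K ^ i)
        simpa using h2
      refine squeeze_zero_norm' ?_ h1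
      filter_upwards [hK] with u hu
      rw [norm_mul, norm_pow]
      exact mul_le_mul_of_nonneg_left (pow_le_pow_left₀ (norm_nonneg _) hu i) (norm_nonneg _)
    rw [Finset.sum_const_zero] at hsum
    refine hsum.congr' ?_
    filter_upwards [h] with u hu
    have h1 : ∑ i ∈ I, p i u * phi (i * a) (i * b) u / phi r₀ s₀ u * (g u / phi a b u) ^ i = 0 := by
      have h2 : ∀ i ∈ I, p i u * phi (i * a) (i * b) u / phi r₀ s₀ u * (g u / phi a b u) ^ i =
          (p i u * g u ^ i) / phi r₀ s₀ u := by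
        intro i _
        have h3 : phi a b u ≠ 0 := phi_ne a b u
        have h4 : phi r₀ s₀ u ≠ 0 := phi_ne r₀ s₀ u
        rw [← phi_pow, div_pow]
        field_simp
      rw [Finset.sum_congr rfl h2, ← Finset.sum_div, hu, zero_div]
    rw [Polynomial.eval_finsetSum]
    simp only [Polynomial.eval_mul, Polynomial.eval_C, Polynomial.eval_pow, Polynomial.eval_X,
      sub_mul, Finset.sum_sub_distrib, h1, sub_zero]

/-- where a polynomial is small there is a root nearby -/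
private theorem AS3_near {E : Polynomial ℂ} (hE : E ≠ 0) {ε : ℝ} (hε : 0 < ε) :
    ∃ δ : ℝ, 0 < δ ∧ ∀ w : ℂ, ‖E.eval w‖ < δ → ∃ z ∈ E.roots, ‖w - z‖ < ε := by
  refine ⟨‖E.leadingCoeff‖ * ε ^ Multiset.card E.roots,
    mul_pos (norm_pos_iff.2 (Polynomial.leadingCoeff_ne_zero.2 hE)) (pow_pos hε _),
    fun w hw => ?_⟩
  by_contra hcon
  push Not at hcon
  rw [(IsAlgClosed.splits E).eval_eq_prod_roots, norm_mul] at hw
  have h1 : ∀ s : Multiset ℂ, (∀ z ∈ s, ε ≤ ‖w - z‖) →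
      ε ^ Multiset.card s ≤ ‖(s.map (fun a => w - a)).prod‖ := by
    intro s
    induction s using Multiset.induction_on with
    | empty => intro _; simp
    | cons a s ih =>
      intro hs
      rw [Multiset.map_cons, Multiset.prod_cons, norm_mul, Multiset.card_cons, pow_succ']
      exact mul_le_mul (hs a (Multiset.mem_cons_self a s))
        (ih fun z hz => hs z (Multiset.mem_cons_of_mem hz)) (pow_nonneg hε.le _) (norm_nonneg _)
  have h2 := mul_le_mul_of_nonneg_left (h1 E.roots hcon) (norm_nonneg E.leadingCoeff)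
  linarith

/-- distinct elements of a finite set are separated -/
private theorem AS3_sep (Z : Finset ℂ) :
    ∃ ε : ℝ, 0 < ε ∧ ∀ z ∈ Z, ∀ w ∈ Z, z ≠ w → 2 * ε < ‖z - w‖ := by
  classical
  rcases ((Z ×ˢ Z).filter fun q => q.1 ≠ q.2).eq_empty_or_nonempty with he | hne
  · refine ⟨1, one_pos, fun z hz w hw hzw => ?_⟩
    have h1 : (z, w) ∈ (Z ×ˢ Z).filter fun q => q.1 ≠ q.2 :=
      Finset.mem_filter.2 ⟨Finset.mem_product.2 ⟨hz, hw⟩, hzw⟩
    rw [he] at h1
    exact absurd h1 (Finset.notMem_empty _)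
  · obtain ⟨q, hq, hmin⟩ := Finset.exists_min_image _ (fun q : ℂ × ℂ => ‖q.1 - q.2‖) hne
    have hpos : 0 < ‖q.1 - q.2‖ := norm_pos_iff.2 (sub_ne_zero.2 (Finset.mem_filter.1 hq).2)
    refine ⟨‖q.1 - q.2‖ / 3, by linarith, fun z hz w hw hzw => ?_⟩
    have h1 := hmin (z, w) (Finset.mem_filter.2 ⟨Finset.mem_product.2 ⟨hz, hw⟩, hzw⟩)
    simp only at h1
    linarith

theorem as_lim {h : ℂ → ℂ} (hh : ∃ R : ℝ, ContinuousOn h (Om R)) {E : Polynomial ℂ} (hE : E ≠ 0)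
    (hlim : Tendsto (fun u => E.eval (h u)) lom (𝓝 0)) {K : ℝ} (hK : 1 ≤ K)
    (hb : ∀ᶠ u in lom, K⁻¹ ≤ ‖h u‖ ∧ ‖h u‖ ≤ K) :
    ∃ c : ℂ, c ≠ 0 ∧ Tendsto h lom (𝓝 c) := by
  classical
  obtain ⟨R₁, hR₁⟩ := hh
  obtain ⟨ε₀, hε₀, hsep⟩ := AS3_sep E.roots.toFinset
  have hnear : ∀ ε : ℝ, 0 < ε → ∀ᶠ u in lom, ∃ z ∈ E.roots, ‖h u - z‖ < ε := by
    intro ε hε
    obtain ⟨δ, hδ, hδs⟩ := AS3_near hE hε
    have h1 := (Metric.tendsto_nhds.1 hlim) δ hδ
    filter_upwards [h1] with u hu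
    rw [dist_zero_right] at hu
    exact hδs _ hu
  -- the root
  obtain ⟨R₂, hR₂⟩ := ev_iff.1 (hnear ε₀ hε₀)
  obtain ⟨R, hRR₁, hRR₂⟩ : ∃ R : ℝ, R₁ ≤ R ∧ R₂ ≤ R := ⟨max R₁ R₂, le_max_left _ _, le_max_right _ _⟩
  have hne : (Om R).Nonempty := lom_neBot.nonempty_of_mem (om_mem R)
  obtain ⟨u₀, hu₀⟩ := hne
  obtain ⟨z₀, hz₀, hz₀u⟩ := hR₂ u₀ (om_mono hRR₂ hu₀)
  have hall : ∀ u ∈ Om R, ‖h u - z₀‖ < ε₀ := by
    intro u hu
    by_contra hcon
    push Not at hcon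
    have hc : ContinuousOn (fun u => ‖h u - z₀‖) (Om R) :=
      ((hR₁.mono (om_mono hRR₁)).sub continuousOn_const).norm
    have h1 := (om_convex R).isPreconnected.intermediate_value hu₀ hu hc ⟨hz₀u.le, hcon⟩
    obtain ⟨v, hv, hv1⟩ := h1
    simp only at hv1
    obtain ⟨z, hz, hzv⟩ := hR₂ v (om_mono hRR₂ hv)
    have hzz : z ≠ z₀ := by
      rintro rfl
      linarith
    have h2 := hsep z (Multiset.mem_toFinset.2 hz) z₀ (Multiset.mem_toFinset.2 hz₀) hzz
    have h3 : ‖z - z₀‖ ≤ ‖h v - z‖ + ‖h v - z₀‖ := by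
      have : z - z₀ = -(h v - z) + (h v - z₀) := by ring
      calc ‖z - z₀‖ = ‖-(h v - z) + (h v - z₀)‖ := by rw [← this]
        _ ≤ ‖-(h v - z)‖ + ‖h v - z₀‖ := norm_add_le _ _
        _ = _ := by rw [norm_neg]
    linarith
  have htend : Tendsto h lom (𝓝 z₀) := by
    rw [Metric.tendsto_nhds]
    intro ε hε
    filter_upwards [hnear (min ε ε₀) (lt_min hε hε₀), om_mem R] with u hu huR
    obtain ⟨z, hz, hzu⟩ := hu
    have hzz : z = z₀ := by
      by_contra hne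
      have h2 := hsep z (Multiset.mem_toFinset.2 hz) z₀ (Multiset.mem_toFinset.2 hz₀) hne
      have h3 : ‖z - z₀‖ ≤ ‖h u - z‖ + ‖h u - z₀‖ := by
        have : z - z₀ = -(h u - z) + (h u - z₀) := by ring
        calc ‖z - z₀‖ = ‖-(h u - z) + (h u - z₀)‖ := by rw [← this]
          _ ≤ ‖-(h u - z)‖ + ‖h u - z₀‖ := norm_add_le _ _
          _ = _ := by rw [norm_neg]
      have h4 := hall u huR
      have h5 := min_le_right ε ε₀
      linarith
    rw [dist_eq_norm, ← hzz]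
    exact lt_of_lt_of_le hzu (min_le_left _ _)
  refine ⟨z₀, ?_, htend⟩
  rintro rfl
  have h1 : (K⁻¹ : ℝ) ≤ ‖(0 : ℂ)‖ := ge_of_tendsto htend.norm (hb.mono fun u hu => hu.1)
  rw [norm_zero] at h1
  have h2 : 0 < K⁻¹ := inv_pos.2 (by linarith)
  linarith

end XD
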