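import Pool.Agent.Lib.MP_228259_lc.D.AS1
import Pool.Agent.Lib.MP_228259_lc.D.AS2
import Pool.Agent.Lib.MP_228259_lc.D.AS3

/-!
XD-AS: roots of polynomials with tame coefficients are tame.

PROOF. If `g` vanishes near infinity it is tame (and has no size, `Sz.not_zero`). Let `I` be the set of `i ≤ d`
with `¬ p i =ᶠ 0`, `i₀` its minimum. `g ^ i₀ * (∑ i ∈ I, p i * g ^ (i - i₀)) = 0` and `eq0_of_mul`
(`g ^ i₀` is not eventually zero: `eq0_of_mul` again) give `∑ i ∈ I, p i * g ^ (i - i₀) = 0`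
eventually. Apply `as_cmp` with `p' i = p (i + i₀)`, `I' = I - i₀` (if `I' = {0}` then `p i₀ = 0` eventually, a
contradiction, so `d' = max I' > 0`), `as_conn` with `T = I' ×ˢ I'` restricted to pairs
`i < j`, `as_poly`, `as_lim` with `h = g / phi a b`, `a = (r i - r j) / (j - i)`, `b = (s i - s j) / (j - i)`.
If all `s i = 0` then `b = 0`, and `Sz.unique` gives the last statement. (Take the sizes of the
`p i`, `i ∈ I`, from `Tame`.)
-/

set_option autoImplicit false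

namespace XD

open Complex Filter Topology Metric

theorem as_tame {d : ℕ} {p : ℕ → ℂ → ℂ} (hp : ∀ i ≤ d, EA (p i) ∧ Tame (p i))
    (hd : ∃ i ≤ d, ¬ p i =ᶠ[lom] 0) {g : ℂ → ℂ} (hg : EA g)
    (h : (fun u => ∑ i ∈ Finset.range (d + 1), p i u * g u ^ i) =ᶠ[lom] 0) :
    Tame g ∧ ((∀ i ≤ d, ∀ r s c, Sz (p i) r s c → s = 0) → ∀ r s c, Sz g r s c → s = 0) := by
  classical
  by_cases hg0 : g =ᶠ[lom] 0
  · exact ⟨Or.inl hg0, fun _ r s c hs => absurd hg0 hs.not_zero⟩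
  obtain ⟨k, hk, hk0⟩ := hd
  obtain ⟨I, hIdef⟩ : ∃ I : Finset ℕ, I = (Finset.range (d + 1)).filter (fun i => ¬ p i =ᶠ[lom] 0) :=
    ⟨_, rfl⟩
  have hImem : ∀ i, i ∈ I ↔ i ≤ d ∧ ¬ p i =ᶠ[lom] 0 := by
    intro i
    rw [hIdef, Finset.mem_filter, Finset.mem_range, Nat.lt_succ_iff]
  have hIne : I.Nonempty := ⟨k, (hImem k).2 ⟨hk, hk0⟩⟩
  obtain ⟨i₀, hi₀def⟩ : ∃ i₀ : ℕ, i₀ = I.min' hIne := ⟨_, rfl⟩
  have hi₀ : i₀ ∈ I := by rw [hi₀def]; exact I.min'_mem hIne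
  have hi₀le : ∀ i ∈ I, i₀ ≤ i := by
    intro i hi
    rw [hi₀def]
    exact I.min'_le i hi
  have hsz : ∀ i, ∃ r s c, i ∈ I → Sz (p i) r s c := by
    intro i
    by_cases hi : i ∈ I
    · obtain ⟨h1, h2⟩ := (hImem i).1 hi
      rcases (hp i h1).2 with h3 | ⟨r, s, c, h3⟩
      · exact absurd h3 h2
      · exact ⟨r, s, c, fun _ => h3⟩
    · exact ⟨0, 0, 0, fun h' => absurd h' hi⟩
  choose r s c hsz using hsz
  obtain ⟨J, hJdef⟩ : ∃ J : Finset ℕ, J = I.image (fun i => i - i₀) := ⟨_, rfl⟩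
  have hJmem : ∀ j, j ∈ J ↔ j + i₀ ∈ I := by
    intro j
    rw [hJdef, Finset.mem_image]
    constructor
    · rintro ⟨i, hi, rfl⟩
      rw [Nat.sub_add_cancel (hi₀le i hi)]
      exact hi
    · intro hj
      exact ⟨j + i₀, hj, Nat.add_sub_cancel j i₀⟩
  have hJ0 : 0 ∈ J := by
    rw [hJmem, Nat.zero_add]
    exact hi₀
  -- the reduced sum
  have hsum : ∀ u, ∑ i ∈ I, p i u * g u ^ i =
      g u ^ i₀ * ∑ j ∈ J, p (j + i₀) u * g u ^ j := by
    intro u
    rw [hJdef, Finset.sum_image, Finset.mul_sum]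
    · refine Finset.sum_congr rfl fun i hi => ?_
      have h1 := hi₀le i hi
      rw [Nat.sub_add_cancel h1]
      have h2 : g u ^ i = g u ^ i₀ * g u ^ (i - i₀) := by
        rw [← pow_add, Nat.add_sub_cancel' h1]
      rw [h2]
      ring
    · intro x hx y hy hxy
      have h1 := hi₀le x hx
      have h2 := hi₀le y hy
      simp only at hxy
      omega
  have hzero : ∀ᶠ u in lom, ∀ i ∈ Finset.range (d + 1), i ∉ I → p i u = 0 := by
    rw [Filter.eventually_all_finset]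
    intro i hi
    by_cases hiI : i ∈ I
    · exact Filter.Eventually.of_forall fun u h' => absurd hiI h'
    · have h1 : p i =ᶠ[lom] 0 := by
        by_contra h2
        exact hiI ((hImem i).2 ⟨Nat.lt_succ_iff.1 (Finset.mem_range.1 hi), h2⟩)
      filter_upwards [h1] with u hu _
      exact hu
  have hprod : (fun u => g u ^ i₀ * ∑ j ∈ J, p (j + i₀) u * g u ^ j) =ᶠ[lom] 0 := by
    filter_upwards [h, hzero] with u hu hz
    rw [← hsum u]
    have h1 : ∑ i ∈ I, p i u * g u ^ i = ∑ i ∈ Finset.range (d + 1), p i u * g u ^ i := by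
      refine Finset.sum_subset ?_ ?_
      · intro i hi
        exact Finset.mem_range.2 (Nat.lt_succ_iff.2 ((hImem i).1 hi).1)
      · intro i hi hiI
        rw [hz i hi hiI, zero_mul]
    rw [h1]
    exact hu
  have hEApow : ∀ n : ℕ, EA (fun u => g u ^ n) := by
    intro n
    obtain ⟨R, hR⟩ := hg
    exact ⟨R, hR.pow n⟩
  have hEAsum : ∀ S : Finset ℕ, S ⊆ J → EA (fun u => ∑ j ∈ S, p (j + i₀) u * g u ^ j) := by
    intro S
    induction S using Finset.induction_on with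
    | empty =>
      intro _
      simpa using EA.cst 0
    | insert a S ha ih =>
      intro hS
      have h1 : a ∈ J := hS (Finset.mem_insert_self a S)
      have h2 : S ⊆ J := fun x hx => hS (Finset.mem_insert_of_mem hx)
      have h3 : EA (p (a + i₀)) := (hp _ ((hImem _).1 ((hJmem a).1 h1)).1).1
      have h4 := (h3.mul (hEApow a)).add (ih h2)
      refine h4.congr (Filter.Eventually.of_forall fun u => ?_)
      simp only
      rw [Finset.sum_insert ha]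
  have hred : ∀ᶠ u in lom, ∑ j ∈ J, p (j + i₀) u * g u ^ j = 0 := by
    rcases eq0_of_mul (hEApow i₀) (hEAsum J (Finset.Subset.refl J)) hprod with h1 | h1
    · exfalso
      apply hg0
      filter_upwards [h1] with u hu
      exact eq_zero_of_pow_eq_zero hu
    · exact h1
  have hJd : ∀ j ∈ J, j ≤ d + 1 := by
    intro j hj
    have h1 := ((hImem _).1 ((hJmem j).1 hj)).1
    omega
  have hJsz : ∀ j ∈ J, Sz (p (j + i₀)) (r (j + i₀)) (s (j + i₀)) (c (j + i₀)) := fun j hj =>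
    hsz _ ((hJmem j).1 hj)
  obtain ⟨K, hK1, hK⟩ := as_cmp (Nat.succ_pos d) hJd hJ0 (p := fun j => p (j + i₀))
    (r := fun j => r (j + i₀)) (s := fun j => s (j + i₀)) (c := fun j => c (j + i₀)) hJsz hred
  obtain ⟨t, ht, hbd⟩ := as_conn hg (T := (J ×ˢ J).filter (fun q => q.1 < q.2))
    (fun q : ℕ × ℕ => (r (q.1 + i₀) - r (q.2 + i₀)) / ((q.2 : ℝ) - q.1))
    (fun q : ℕ × ℕ => (s (q.1 + i₀) - s (q.2 + i₀)) / ((q.2 : ℝ) - q.1)) hK1 (by
      filter_upwards [hK] with u hu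
      obtain ⟨i, hi, j, hj, hij, h1, h2⟩ := hu
      exact ⟨(i, j), Finset.mem_filter.2 ⟨Finset.mem_product.2 ⟨hi, hj⟩, hij⟩, h1, h2⟩)
  obtain ⟨a, ha⟩ : ∃ a : ℝ, a = (r (t.1 + i₀) - r (t.2 + i₀)) / ((t.2 : ℝ) - t.1) := ⟨_, rfl⟩
  obtain ⟨b, hb⟩ : ∃ b : ℝ, b = (s (t.1 + i₀) - s (t.2 + i₀)) / ((t.2 : ℝ) - t.1) := ⟨_, rfl⟩
  simp only [← ha, ← hb] at hbd
  obtain ⟨E, hE0, hE⟩ := as_poly ⟨0, hJ0⟩ (p := fun j => p (j + i₀))
    (r := fun j => r (j + i₀)) (s := fun j => s (j + i₀)) (c := fun j => c (j + i₀)) hJsz hred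
    a b K (by filter_upwards [hbd] with u hu; exact hu.2)
  have hcont : ∃ R : ℝ, ContinuousOn (fun u => g u / phi a b u) (Om R) := by
    obtain ⟨R, hR⟩ := hg
    refine ⟨max R 0, ContinuousOn.div ?_ ?_ ?_⟩
    · exact (hR.mono (om_mono (le_max_left R 0))).continuousOn
    · exact ((phi_diff a b).mono (om_mono (le_max_right R 0))).continuousOn
    · intro u _
      exact phi_ne a b u
  obtain ⟨e, he0, he⟩ := as_lim hcont hE0 hE hK1 hbd
  have hgsz : Sz g a b e := ⟨he0, he⟩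
  refine ⟨Or.inr ⟨a, b, e, hgsz⟩, ?_⟩
  intro hs r' s' c' hsz'
  have h1 := (hsz'.unique hgsz).2.1
  have h2 := Finset.mem_filter.1 ht
  have h3 := Finset.mem_product.1 h2.1
  have h4 : s (t.1 + i₀) = 0 :=
    hs _ ((hImem _).1 ((hJmem _).1 h3.1)).1 _ _ _ (hJsz _ h3.1)
  have h5 : s (t.2 + i₀) = 0 :=
    hs _ ((hImem _).1 ((hJmem _).1 h3.2)).1 _ _ _ (hJsz _ h3.2)
  rw [h1, hb, h4, h5]
  simp

end XD
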