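import Pool.Agent.Lib.MP_228259_lc.D.AG1
import Pool.Agent.Lib.MP_228259_lc.D.AS

/-!
XD-AG3: algebraic functions are tame.

PROOF. `as_tame` for the coefficients of `p` (`d = natDegree p`; `Polynomial.aeval_eq_sum_range`: the function
`aeval f p` is `u ↦ ∑ i, (p.coeff i) u * f u ^ i`).
-/

set_option autoImplicit false

namespace XD

open Complex Filter Topology Metric

private theorem xdAG3 {B : Subalgebra ℂ (ℂ → ℂ)} (hB : Base B) {f : ℂ → ℂ} (hf : EA f)
    (h : AlgOn B f) : Tame f ∧ ((∀ g ∈ B, ∀ r s c, Sz g r s c → s = 0) →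
      ∀ r s c, Sz f r s c → s = 0) := by
  obtain ⟨p, ⟨i, hi⟩, hp⟩ := h
  have h1 := as_tame (d := p.natDegree) (p := fun j => (p.coeff j : ℂ → ℂ))
    (fun j _ => ⟨hB.ea _ (p.coeff j).2, hB.tame _ (p.coeff j).2⟩) ⟨i, by
      by_contra hcon
      apply hi
      rw [Polynomial.coeff_eq_zero_of_natDegree_lt (not_le.1 hcon)]
      exact Filter.EventuallyEq.refl _ _, hi⟩ hf (by
      refine Filter.EventuallyEq.trans ?_ hp
      refine Filter.Eventually.of_forall fun u => ?_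
      rw [Polynomial.aeval_eq_sum_range, Finset.sum_apply]
      rfl)
  exact ⟨h1.1, fun h2 => h1.2 fun j _ => h2 _ (p.coeff j).2⟩

theorem algOn_tame {B : Subalgebra ℂ (ℂ → ℂ)} (hB : Base B) {f : ℂ → ℂ} (hf : EA f)
    (h : AlgOn B f) : Tame f :=
  (xdAG3 hB hf h).1

/-- if the sizes of the functions of `B` have `s = 0`, so have those of algebraic functions -/
theorem algOn_s {B : Subalgebra ℂ (ℂ → ℂ)} (hB : Base B)
    (hs : ∀ f ∈ B, ∀ r s c, Sz f r s c → s = 0) {f : ℂ → ℂ} (hf : EA f)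
    (h : AlgOn B f) {r s : ℝ} {c : ℂ} (hsz : Sz f r s c) : s = 0 :=
  (xdAG3 hB hf h).2 hs r s c hsz

end XD
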