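import Pool.Agent.Lib.MP_228259_lc.D.O3

/-!
XD-AS1: a root of a polynomial with coefficients of given sizes is, at every point far out,
comparable with one of finitely many scales.

PROOF. For `u` far out all `p i u ≠ 0` (`i ∈ I`), `1 / 2 ≤ ‖p i u / phi (r i) (s i) u‖ / ‖c i‖ ≤ 2`,
and the equation holds. As `0 ∈ I`, `p 0 u ≠ 0`, not all terms vanish. Let `i` maximize `‖p i u * g u ^ i‖`
(`Finset.exists_max_image`); it is positive; the sum of the other terms is minus this term, so some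
`j ∈ I`, `j ≠ i`, has `‖p j u * g u ^ j‖ ≥ ‖p i u * g u ^ i‖ / (d + 1)`, `> 0` (so `g u ≠ 0` as one of `i`, `j`
is not `0`). So for these two indices, named `i < j`,
`(d + 1)⁻¹ ≤ ‖p i u‖ / (‖p j u‖ ‖g u‖ ^ (j - i)) ≤ d + 1`, so `‖g u‖ ^ (j - i)` is between
`A⁻¹ N` and `A N`, `N = ‖phi (r i) (s i) u‖ / ‖phi (r j) (s j) u‖ = ‖phi σ σ' u‖ ^ (j - i)` (`phi_pow`,
`phi_div`), `A = 4 (d + 1) max_{i, j} (‖c i‖ / ‖c j‖)`. So `‖g u / phi σ σ' u‖ ^ (j - i)` is between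
`A⁻¹` and `A`, and `K = A` works for the `(j - i)`-th root as `A ≥ 1`.
-/

set_option autoImplicit false

namespace XD

open Complex Filter Topology Metric

/-- two comparable largest terms of a vanishing sum -/
theorem as1_pair {d : ℕ} {I : Finset ℕ} (hI : ∀ i ∈ I, i ≤ d) (h0 : 0 ∈ I) (t : ℕ → ℂ)
    (ht0 : t 0 ≠ 0) (hs : ∑ i ∈ I, t i = 0) :
    ∃ i ∈ I, ∃ j ∈ I, i < j ∧ 0 < ‖t i‖ ∧ 0 < ‖t j‖ ∧
      ‖t i‖ ≤ (d + 1) * ‖t j‖ ∧ ‖t j‖ ≤ (d + 1) * ‖t i‖ := by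
  classical
  obtain ⟨i, hi, hmax⟩ := Finset.exists_max_image I (fun i => ‖t i‖) ⟨0, h0⟩
  have hpos : 0 < ‖t i‖ := lt_of_lt_of_le (norm_pos_iff.2 ht0) (hmax 0 h0)
  have hd : (0 : ℝ) ≤ d := Nat.cast_nonneg d
  have hex : ∃ j ∈ I.erase i, ‖t i‖ ≤ (d + 1) * ‖t j‖ := by
    by_contra hcon
    push Not at hcon
    have h1 : t i = -∑ j ∈ I.erase i, t j := by
      rw [← Finset.add_sum_erase I t hi] at hs
      exact eq_neg_of_add_eq_zero_left hs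
    have h2 : ‖t i‖ ≤ ∑ j ∈ I.erase i, ‖t j‖ := by
      rw [h1, norm_neg]
      exact norm_sum_le _ _
    have hcard : (I.erase i).card ≤ d := by
      rw [Finset.card_erase_of_mem hi]
      have : I.card ≤ d + 1 := by
        have h3 : I ⊆ Finset.range (d + 1) := fun k hk => Finset.mem_range.2 (Nat.lt_succ_of_le (hI k hk))
        simpa using Finset.card_le_card h3
      omega
    have h4 : ∑ j ∈ I.erase i, ‖t j‖ ≤ ∑ j ∈ I.erase i, ‖t i‖ / (d + 1) := by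
      refine Finset.sum_le_sum fun j hj => ?_
      rw [le_div_iff₀ (by linarith)]
      linarith [hcon j hj]
    rw [Finset.sum_const, nsmul_eq_mul] at h4
    have h5 : ((I.erase i).card : ℝ) * (‖t i‖ / (d + 1)) ≤ d * (‖t i‖ / (d + 1)) :=
      mul_le_mul_of_nonneg_right (by exact_mod_cast hcard) (by positivity)
    have h6 : (d : ℝ) * (‖t i‖ / (d + 1)) < ‖t i‖ := by
      rw [mul_div_assoc', div_lt_iff₀ (by linarith)]
      nlinarith
    linarith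
  obtain ⟨j, hj, hij⟩ := hex
  have hj' := Finset.mem_erase.1 hj
  have hji : ‖t j‖ ≤ (d + 1) * ‖t i‖ := by
    have := hmax j hj'.2
    nlinarith
  have hjpos : 0 < ‖t j‖ := by
    by_contra hcon
    have : ‖t j‖ = 0 := le_antisymm (not_lt.1 hcon) (norm_nonneg _)
    rw [this, mul_zero] at hij
    linarith
  rcases lt_or_gt_of_ne hj'.1 with h | h
  · exact ⟨j, hj'.2, i, hi, h, hjpos, hpos, hji, hij⟩
  · exact ⟨i, hi, j, hj'.2, h, hpos, hjpos, hij, hji⟩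

/-- bounds for a root from bounds for a power -/
theorem as1_root {A x : ℝ} (hA : 1 ≤ A) (hx : 0 ≤ x) {n : ℕ} (hn : n ≠ 0) (h1 : x ^ n ≤ A)
    (h2 : A⁻¹ ≤ x ^ n) : A⁻¹ ≤ x ∧ x ≤ A := by
  constructor
  · by_contra hcon
    have h3 : x < A⁻¹ := not_le.1 hcon
    have h4 : x ≤ 1 := h3.le.trans (inv_le_one_of_one_le₀ hA)
    have h5 : x ^ n ≤ x := pow_le_of_le_one hx h4 hn
    linarith
  · by_contra hcon
    have h3 : A < x := not_le.1 hcon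
    have h5 : x ≤ x ^ n := le_self_pow₀ (by linarith) hn
    linarith

theorem as1_sz {f : ℂ → ℂ} {r s : ℝ} {c : ℂ} (h : Sz f r s c) :
    ∀ᶠ u in lom, ‖c‖ / 2 ≤ ‖f u / phi r s u‖ ∧ ‖f u / phi r s u‖ ≤ 2 * ‖c‖ := by
  have hc : 0 < ‖c‖ := norm_pos_iff.2 h.1
  have h1 := h.2.norm
  have h2 := h1.eventually (Ioo_mem_nhds (show ‖c‖ / 2 < ‖c‖ by linarith)
    (show ‖c‖ < 2 * ‖c‖ by linarith))
  filter_upwards [h2] with u hu
  exact ⟨hu.1.le, hu.2.le⟩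

theorem as_cmp {d : ℕ} (hd : 0 < d) {I : Finset ℕ} (hI : ∀ i ∈ I, i ≤ d) (h0 : 0 ∈ I)
    {p : ℕ → ℂ → ℂ} {r s : ℕ → ℝ} {c : ℕ → ℂ} (hp : ∀ i ∈ I, Sz (p i) (r i) (s i) (c i))
    {g : ℂ → ℂ} (h : ∀ᶠ u in lom, ∑ i ∈ I, p i u * g u ^ i = 0) :
    ∃ K : ℝ, 1 ≤ K ∧ ∀ᶠ u in lom, ∃ i ∈ I, ∃ j ∈ I, i < j ∧
      K⁻¹ ≤ ‖g u / phi ((r i - r j) / (j - i)) ((s i - s j) / (j - i)) u‖ ∧
      ‖g u / phi ((r i - r j) / (j - i)) ((s i - s j) / (j - i)) u‖ ≤ K := by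
  have hsum0 : 0 ≤ ∑ i ∈ I, ∑ j ∈ I, ‖c i‖ / ‖c j‖ :=
    Finset.sum_nonneg fun i _ => Finset.sum_nonneg fun j _ => by positivity
  have hle : ∀ i ∈ I, ∀ j ∈ I, ‖c i‖ / ‖c j‖ ≤ ∑ i ∈ I, ∑ j ∈ I, ‖c i‖ / ‖c j‖ := by
    intro i hi j hj
    refine (Finset.single_le_sum (f := fun j => ‖c i‖ / ‖c j‖) (fun j _ => by positivity) hj).trans ?_
    exact Finset.single_le_sum (f := fun i => ∑ j ∈ I, ‖c i‖ / ‖c j‖)
      (fun i _ => Finset.sum_nonneg fun j _ => by positivity) hi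
  set S := ∑ i ∈ I, ∑ j ∈ I, ‖c i‖ / ‖c j‖ with hS
  have hd0 : (0 : ℝ) ≤ d := Nat.cast_nonneg d
  refine ⟨4 * (d + 1) * S + 1, by nlinarith, ?_⟩
  set A : ℝ := 4 * (d + 1) * S + 1 with hA
  have hA1 : 1 ≤ A := by rw [hA]; nlinarith
  have hall : ∀ᶠ u in lom, ∀ i ∈ I, ‖c i‖ / 2 ≤ ‖p i u / phi (r i) (s i) u‖ ∧
      ‖p i u / phi (r i) (s i) u‖ ≤ 2 * ‖c i‖ := by
    rw [Filter.eventually_all_finset]
    exact fun i hi => as1_sz (hp i hi)
  filter_upwards [h, hall] with u hu hb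
  have hp0 : p 0 u ≠ 0 := by
    intro hz
    have h1 := (hb 0 h0).1
    rw [hz, zero_div, norm_zero] at h1
    have : 0 < ‖c 0‖ := norm_pos_iff.2 (hp 0 h0).1
    linarith
  obtain ⟨i, hi, j, hj, hij, hti, htj, h1, h2⟩ :=
    as1_pair hI h0 (fun i => p i u * g u ^ i) (by simpa using hp0) hu
  refine ⟨i, hi, j, hj, hij, ?_⟩
  simp only [norm_mul, norm_pow] at hti htj h1 h2
  have hgne : 0 < ‖g u‖ := by
    by_contra hcon
    have hz : ‖g u‖ = 0 := le_antisymm (not_lt.1 hcon) (norm_nonneg _)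
    rw [hz, zero_pow (by omega), mul_zero] at htj
    exact lt_irrefl _ htj
  have hpi : 0 < ‖p i u‖ := by
    by_contra hcon
    have hz : ‖p i u‖ = 0 := le_antisymm (not_lt.1 hcon) (norm_nonneg _)
    rw [hz, zero_mul] at hti
    exact lt_irrefl _ hti
  have hpj : 0 < ‖p j u‖ := by
    by_contra hcon
    have hz : ‖p j u‖ = 0 := le_antisymm (not_lt.1 hcon) (norm_nonneg _)
    rw [hz, zero_mul] at htj
    exact lt_irrefl _ htj
  have hn : j - i ≠ 0 := by omega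
  have hcast : ((j - i : ℕ) : ℝ) = (j : ℝ) - i := by
    rw [Nat.cast_sub hij.le]
  have hne : (j : ℝ) - i ≠ 0 := by
    rw [← hcast]; exact_mod_cast hn
  have hphi : phi ((r i - r j) / (j - i)) ((s i - s j) / (j - i)) u ^ (j - i) =
      phi (r i) (s i) u / phi (r j) (s j) u := by
    rw [phi_pow, phi_div, hcast, mul_div_cancel₀ _ hne, mul_div_cancel₀ _ hne]
  have hfi : 0 < ‖phi (r i) (s i) u‖ := norm_pos_iff.2 (phi_ne _ _ _)
  have hfj : 0 < ‖phi (r j) (s j) u‖ := norm_pos_iff.2 (phi_ne _ _ _)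
  have hci : 0 < ‖c i‖ := norm_pos_iff.2 (hp i hi).1
  have hcj : 0 < ‖c j‖ := norm_pos_iff.2 (hp j hj).1
  have hbi := hb i hi
  have hbj := hb j hj
  rw [norm_div] at hbi hbj
  set a := ‖p i u‖ / ‖phi (r i) (s i) u‖ with ha
  set b := ‖p j u‖ / ‖phi (r j) (s j) u‖ with hbdef
  have hapos : 0 < a := by rw [ha]; positivity
  have hbpos : 0 < b := by rw [hbdef]; positivity
  set Ti := ‖p i u‖ * ‖g u‖ ^ i with hTi
  set Tj := ‖p j u‖ * ‖g u‖ ^ j with hTj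
  have hQ : ‖g u / phi ((r i - r j) / (j - i)) ((s i - s j) / (j - i)) u‖ ^ (j - i) =
      (Tj / Ti) * (a / b) := by
    rw [← norm_pow, div_pow, hphi, norm_div, norm_div, norm_pow]
    rw [hTi, hTj, ha, hbdef]
    have : ‖g u‖ ^ j = ‖g u‖ ^ (j - i) * ‖g u‖ ^ i := by
      rw [← pow_add]; congr 1; omega
    rw [this]
    field_simp
  have hup : (Tj / Ti) * (a / b) ≤ A := by
    have e1 : Tj / Ti ≤ d + 1 := by rw [div_le_iff₀ hti]; exact h2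
    have e2 : a / b ≤ 4 * (‖c i‖ / ‖c j‖) := by
      rw [div_le_iff₀ hbpos]
      calc a ≤ 2 * ‖c i‖ := hbi.2
        _ = 4 * (‖c i‖ / ‖c j‖) * (‖c j‖ / 2) := by field_simp; ring
        _ ≤ 4 * (‖c i‖ / ‖c j‖) * b := mul_le_mul_of_nonneg_left hbj.1 (by positivity)
    calc (Tj / Ti) * (a / b) ≤ (d + 1) * (4 * (‖c i‖ / ‖c j‖)) :=
          mul_le_mul e1 e2 (by positivity) (by positivity)
      _ = 4 * (d + 1) * (‖c i‖ / ‖c j‖) := by ring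
      _ ≤ 4 * (d + 1) * S := mul_le_mul_of_nonneg_left (hle i hi j hj) (by positivity)
      _ ≤ A := by rw [hA]; linarith
  have hlow : A⁻¹ ≤ (Tj / Ti) * (a / b) := by
    have e1 : Ti / Tj ≤ d + 1 := by rw [div_le_iff₀ htj]; exact h1
    have e2 : b / a ≤ 4 * (‖c j‖ / ‖c i‖) := by
      rw [div_le_iff₀ hapos]
      calc b ≤ 2 * ‖c j‖ := hbj.2
        _ = 4 * (‖c j‖ / ‖c i‖) * (‖c i‖ / 2) := by field_simp; ring
        _ ≤ 4 * (‖c j‖ / ‖c i‖) * a := mul_le_mul_of_nonneg_left hbi.1 (by positivity)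
    have e3 : (Ti / Tj) * (b / a) ≤ A := by
      calc (Ti / Tj) * (b / a) ≤ (d + 1) * (4 * (‖c j‖ / ‖c i‖)) :=
            mul_le_mul e1 e2 (by positivity) (by positivity)
        _ = 4 * (d + 1) * (‖c j‖ / ‖c i‖) := by ring
        _ ≤ 4 * (d + 1) * S := mul_le_mul_of_nonneg_left (hle j hj i hi) (by positivity)
        _ ≤ A := by rw [hA]; linarith
    have e4 : (Tj / Ti) * (a / b) = ((Ti / Tj) * (b / a))⁻¹ := by
      rw [mul_inv, inv_div, inv_div]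
    rw [e4]
    exact inv_anti₀ (by positivity) e3
  exact as1_root hA1 (norm_nonneg _) hn (hQ ▸ hup) (hQ ▸ hlow)

end XD
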