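import Pool.Agent.Lib.MP_228259_lc.D.IF1
import Pool.Agent.Lib.MP_228259_lc.D.IF2
import Pool.Agent.Lib.MP_228259_lc.D.IF3
import Pool.Agent.Lib.MP_228259_lc.D.IF4

/-!
All modules of the board XD.
-/
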