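import Pool.Agent.Lib.MP_228259_lc.D.OE

/-!
XD-BA: the base rings: elements and derivatives.

PROOF. `mem_BK`: `Algebra.adjoin_pair`-style induction (`Algebra.adjoin_induction`) in one direction; in
the other `Polynomial.induction_on` twice (`Polynomial.evalEval`: `p.evalEval x y = (p.eval (C y)).eval x`,
the outer variable is `Y`, evaluated at `KY k u`). `BK_der`: induction on the adjoin: all elements are
entire and have derivatives in the ring: `deriv (KU pos) = 1`, `deriv (KU neg) = -1`,
`deriv (KU (pt a)) = - exp (-u) = - (KU (pt a) - a)`, `deriv (KY k) = deriv (KU k) * KY k`; sum and product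
rule. The same for `Bt`.
-/

set_option autoImplicit false

namespace XD

open Complex Filter Topology Metric

theorem mem_BK (k : Kd) (f : ℂ → ℂ) : f ∈ BK k ↔
    ∃ p : Polynomial (Polynomial ℂ), f = fun u => p.evalEval (KU k u) (KY k u) := by
  constructor
  · intro hf
    unfold BK at hf
    induction hf using Algebra.adjoin_induction with
    | mem x hx =>
      rcases hx with rfl | hx
      · exact ⟨Polynomial.C Polynomial.X, by funext u; simp [Polynomial.evalEval]⟩
      · have hx' : x = KY k := hx
        subst hx'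
        exact ⟨Polynomial.X, by funext u; simp [Polynomial.evalEval]⟩
    | algebraMap c =>
      exact ⟨Polynomial.C (Polynomial.C c), by funext u; simp [Polynomial.evalEval]⟩
    | add x y _ _ hx hy =>
      obtain ⟨p, rfl⟩ := hx
      obtain ⟨q, rfl⟩ := hy
      exact ⟨p + q, by funext u; simp⟩
    | mul x y _ _ hx hy =>
      obtain ⟨p, rfl⟩ := hx
      obtain ⟨q, rfl⟩ := hy
      exact ⟨p * q, by funext u; simp⟩
  · rintro ⟨p, rfl⟩
    have hU : KU k ∈ BK k := Algebra.subset_adjoin (Set.mem_insert _ _)
    have hY : KY k ∈ BK k := Algebra.subset_adjoin (Set.mem_insert_of_mem _ rfl)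
    have h1 : ∀ a : Polynomial ℂ, (fun u => a.eval (KU k u)) ∈ BK k := by
      intro a
      induction a using Polynomial.induction_on' with
      | add p q hp hq =>
        have h2 : (fun u => (p + q).eval (KU k u)) =
            (fun u => p.eval (KU k u)) + (fun u => q.eval (KU k u)) := by
          funext u; simp
        rw [h2]
        exact (BK k).add_mem hp hq
      | monomial n c =>
        have h2 : (fun u => (Polynomial.monomial n c).eval (KU k u)) =
            (algebraMap ℂ (ℂ → ℂ) c) * (KU k) ^ n := by
          funext u; simp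
        rw [h2]
        exact (BK k).mul_mem ((BK k).algebraMap_mem c) ((BK k).pow_mem hU n)
    induction p using Polynomial.induction_on' with
    | add p q hp hq =>
      have h2 : (fun u => (p + q).evalEval (KU k u) (KY k u)) =
          (fun u => p.evalEval (KU k u) (KY k u)) + (fun u => q.evalEval (KU k u) (KY k u)) := by
        funext u; simp
      rw [h2]
      exact (BK k).add_mem hp hq
    | monomial n c =>
      have h2 : (fun u => (Polynomial.monomial n c).evalEval (KU k u) (KY k u)) =
          (fun u => c.eval (KU k u)) * (KY k) ^ n := by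
        funext u
        simp [Polynomial.evalEval, Polynomial.eval_monomial]
      rw [h2]
      exact (BK k).mul_mem (h1 c) ((BK k).pow_mem hY n)

theorem BA_KU (k : Kd) : Differentiable ℂ (KU k) ∧ deriv (KU k) ∈ BK k := by
  have hU : KU k ∈ BK k := Algebra.subset_adjoin (Set.mem_insert _ _)
  cases k with
  | pos =>
    have h1 : KU Kd.pos = fun u => u := rfl
    refine ⟨by rw [h1]; exact differentiable_fun_id, ?_⟩
    have h2 : deriv (KU Kd.pos) = 1 := by
      rw [h1]
      funext u
      simp
    rw [h2]
    exact (BK _).one_mem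
  | neg =>
    have h1 : KU Kd.neg = fun u => -u := rfl
    refine ⟨by rw [h1]; exact differentiable_fun_id.neg, ?_⟩
    have h2 : deriv (KU Kd.neg) = -1 := by
      rw [h1]
      funext u
      simp
    rw [h2]
    exact (BK _).neg_mem (BK _).one_mem
  | pt a =>
    have h1 : KU (Kd.pt a) = fun u => a + exp (-u) := rfl
    have hd : ∀ u : ℂ, HasDerivAt (fun u : ℂ => a + exp (-u)) (- exp (-u)) u := by
      intro u
      have h3 : HasDerivAt (fun u : ℂ => exp (-u)) (exp (-u) * (-1)) u :=
        (hasDerivAt_neg u).cexp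
      have h4 := h3.const_add a
      simpa using h4
    refine ⟨by rw [h1]; exact fun u => (hd u).differentiableAt, ?_⟩
    have h2 : deriv (KU (Kd.pt a)) = -(KU (Kd.pt a) - algebraMap ℂ (ℂ → ℂ) a) := by
      rw [h1]
      funext u
      rw [(hd u).deriv]
      simp
    rw [h2]
    exact (BK _).neg_mem ((BK _).sub_mem hU ((BK _).algebraMap_mem a))

theorem BK_der (k : Kd) (f : ℂ → ℂ) (hf : f ∈ BK k) : Differentiable ℂ f ∧ deriv f ∈ BK k := by
  have hf0 := hf
  unfold BK at hf
  induction hf using Algebra.adjoin_induction with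
  | mem x hx =>
    rcases hx with rfl | hx
    · exact BA_KU k
    · have hx' : x = KY k := hx
      subst hx'
      obtain ⟨h1, h2⟩ := BA_KU k
      have hY : KY k ∈ BK k := Algebra.subset_adjoin (Set.mem_insert_of_mem _ rfl)
      have hd : ∀ u, HasDerivAt (KY k) (exp (KU k u) * deriv (KU k) u) u := fun u =>
        (h1 u).hasDerivAt.cexp
      refine ⟨fun u => (hd u).differentiableAt, ?_⟩
      have h3 : deriv (KY k) = KY k * deriv (KU k) := by
        funext u
        rw [(hd u).deriv]
        rfl
      rw [h3]
      exact (BK k).mul_mem hY h2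
  | algebraMap c =>
    have h1 : (algebraMap ℂ (ℂ → ℂ) c) = fun _ => c := rfl
    refine ⟨by rw [h1]; exact differentiable_const c, ?_⟩
    have h2 : deriv (algebraMap ℂ (ℂ → ℂ) c) = 0 := by
      rw [h1]
      funext u
      simp
    rw [h2]
    exact (BK k).zero_mem
  | add x y hx hy ihx ihy =>
    obtain ⟨h1, h2⟩ := ihx hx
    obtain ⟨h3, h4⟩ := ihy hy
    refine ⟨h1.add h3, ?_⟩
    have h5 : deriv (x + y) = deriv x + deriv y := by
      funext u
      exact ((h1 u).hasDerivAt.add (h3 u).hasDerivAt).deriv
    rw [h5]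
    exact (BK k).add_mem h2 h4
  | mul x y hx hy ihx ihy =>
    obtain ⟨h1, h2⟩ := ihx hx
    obtain ⟨h3, h4⟩ := ihy hy
    refine ⟨h1.mul h3, ?_⟩
    have h5 : deriv (x * y) = deriv x * y + x * deriv y := by
      funext u
      exact ((h1 u).hasDerivAt.mul (h3 u).hasDerivAt).deriv
    rw [h5]
    exact (BK k).add_mem ((BK k).mul_mem h2 hy) ((BK k).mul_mem hx h4)

theorem mem_Bt (f : ℂ → ℂ) : f ∈ Bt ↔ ∃ p : Polynomial ℂ, f = fun u => p.eval (exp u) := by
  constructor
  · intro hf
    unfold Bt at hf
    induction hf using Algebra.adjoin_induction with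
    | mem x hx =>
      have hx' : x = fun u => exp u := hx
      subst hx'
      exact ⟨Polynomial.X, by funext u; simp⟩
    | algebraMap c => exact ⟨Polynomial.C c, by funext u; simp⟩
    | add x y _ _ hx hy =>
      obtain ⟨p, rfl⟩ := hx
      obtain ⟨q, rfl⟩ := hy
      exact ⟨p + q, by funext u; simp⟩
    | mul x y _ _ hx hy =>
      obtain ⟨p, rfl⟩ := hx
      obtain ⟨q, rfl⟩ := hy
      exact ⟨p * q, by funext u; simp⟩
  · rintro ⟨p, rfl⟩
    have hU : (fun u : ℂ => exp u) ∈ Bt := Algebra.subset_adjoin (Set.mem_singleton _)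
    induction p using Polynomial.induction_on' with
    | add p q hp hq =>
      have h2 : (fun u => (p + q).eval (exp u)) =
          (fun u => p.eval (exp u)) + (fun u => q.eval (exp u)) := by
        funext u; simp
      rw [h2]
      exact Bt.add_mem hp hq
    | monomial n c =>
      have h2 : (fun u : ℂ => (Polynomial.monomial n c).eval (exp u)) =
          (algebraMap ℂ (ℂ → ℂ) c) * (fun u : ℂ => exp u) ^ n := by
        funext u; simp
      rw [h2]
      exact Bt.mul_mem (Bt.algebraMap_mem c) (Bt.pow_mem hU n)

theorem Bt_der (f : ℂ → ℂ) (hf : f ∈ Bt) : Differentiable ℂ f ∧ deriv f ∈ Bt := by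
  have hf0 := hf
  unfold Bt at hf
  induction hf using Algebra.adjoin_induction with
  | mem x hx =>
    have hx' : x = fun u => exp u := hx
    subst hx'
    have hU : (fun u : ℂ => exp u) ∈ Bt := Algebra.subset_adjoin (Set.mem_singleton _)
    refine ⟨Complex.differentiable_exp, ?_⟩
    have h3 : deriv (fun u : ℂ => exp u) = fun u : ℂ => exp u := by
      funext u
      exact (Complex.hasDerivAt_exp u).deriv
    rw [h3]
    exact hU
  | algebraMap c =>
    have h1 : (algebraMap ℂ (ℂ → ℂ) c) = fun _ => c := rfl
    refine ⟨by rw [h1]; exact differentiable_const c, ?_⟩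
    have h2 : deriv (algebraMap ℂ (ℂ → ℂ) c) = 0 := by
      rw [h1]
      funext u
      simp
    rw [h2]
    exact Bt.zero_mem
  | add x y hx hy ihx ihy =>
    obtain ⟨h1, h2⟩ := ihx hx
    obtain ⟨h3, h4⟩ := ihy hy
    refine ⟨h1.add h3, ?_⟩
    have h5 : deriv (x + y) = deriv x + deriv y := by
      funext u
      exact ((h1 u).hasDerivAt.add (h3 u).hasDerivAt).deriv
    rw [h5]
    exact Bt.add_mem h2 h4
  | mul x y hx hy ihx ihy =>
    obtain ⟨h1, h2⟩ := ihx hx
    obtain ⟨h3, h4⟩ := ihy hy
    refine ⟨h1.mul h3, ?_⟩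
    have h5 : deriv (x * y) = deriv x * y + x * deriv y := by
      funext u
      exact ((h1 u).hasDerivAt.mul (h3 u).hasDerivAt).deriv
    rw [h5]
    exact Bt.add_mem (Bt.mul_mem h2 hy) (Bt.mul_mem hx h4)

end XD
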