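import Pool.Agent.Lib.MP_228259_lc.D.BA
import Pool.Agent.Lib.MP_228259_lc.D.BS2

/-!
XD-BB: the base rings are bases.

PROOF. `mem_BK`, `BK_der`, `sz_pos`, `sz_neg`, `sz_pt` (the polynomial `0` gives the function `0`), case by
case in `k`; entire functions satisfy `EA`. `s0_pt`, `s0_Bt`: `Sz.unique`, `Sz.not_zero`.
-/

set_option autoImplicit false

namespace XD

open Complex Filter Topology Metric

private theorem ez (k : Kd) :
    (fun u => (0 : Polynomial (Polynomial ℂ)).evalEval (KU k u) (KY k u)) = 0 := by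
  funext u
  simp [Polynomial.evalEval]

private theorem tame_BK (k : Kd) (p : Polynomial (Polynomial ℂ)) (hp : p ≠ 0) :
    ∃ r s c, Sz (fun u => p.evalEval (KU k u) (KY k u)) r s c := by
  cases k with
  | pos =>
    obtain ⟨s, c, h⟩ := sz_pos hp
    exact ⟨_, s, c, h⟩
  | neg =>
    obtain ⟨s, c, h⟩ := sz_neg hp
    exact ⟨_, s, c, h⟩
  | pt a =>
    obtain ⟨n, c, h, _⟩ := sz_pt a hp
    exact ⟨_, _, c, h⟩

theorem base_BK (k : Kd) : Base (BK k) := by
  refine ⟨?_, ?_, ?_⟩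
  · intro f hf
    exact ⟨0, (BK_der k f hf).1.differentiableOn⟩
  · intro f hf
    obtain ⟨p, rfl⟩ := (mem_BK k f).1 hf
    by_cases hp : p = 0
    · left
      rw [hp, ez]
    · right
      exact tame_BK k p hp
  · intro f hf
    exact ⟨deriv f, (BK_der k f hf).2, EventuallyEq.rfl⟩

theorem base_Bt : Base Bt := by
  refine ⟨?_, ?_, ?_⟩
  · intro f hf
    exact ⟨0, (Bt_der f hf).1.differentiableOn⟩
  · intro f hf
    obtain ⟨p, rfl⟩ := (mem_Bt f).1 hf
    by_cases hp : p = 0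
    · left
      have : (fun u => (0 : Polynomial ℂ).eval (exp u)) = (0 : ℂ → ℂ) := by
        funext u
        simp
      rw [hp, this]
    · right
      exact ⟨_, _, _, sz_t hp⟩
  · intro f hf
    exact ⟨deriv f, (Bt_der f hf).2, EventuallyEq.rfl⟩

theorem s0_pt (a : ℂ) : ∀ f ∈ BK (Kd.pt a), ∀ r s c, Sz f r s c → s = 0 := by
  intro f hf r s c h
  obtain ⟨p, rfl⟩ := (mem_BK _ f).1 hf
  have hp : p ≠ 0 := by
    rintro rfl
    apply h.not_zero
    rw [ez]
  obtain ⟨n, c', h', _⟩ := sz_pt a hp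
  exact (h.unique h').2.1

theorem s0_Bt : ∀ f ∈ Bt, ∀ r s c, Sz f r s c → s = 0 := by
  intro f hf r s c h
  obtain ⟨p, rfl⟩ := (mem_Bt f).1 hf
  have hp : p ≠ 0 := by
    rintro rfl
    apply h.not_zero
    have : (fun u => (0 : Polynomial ℂ).eval (exp u)) = (0 : ℂ → ℂ) := by
      funext u
      simp
    rw [this]
  exact (h.unique (sz_t hp)).2.1

end XD
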