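import Pool.Agent.Lib.MP_228259_lc.D.O3

/-!
XD-BS1: sizes of polynomials in `u, e^u`, in `-u, e^{-u}` and in `e^u`.

PROOF. `p.evalEval x y = ∑ k, (p.coeff k).eval x * y ^ k`. A non-zero polynomial `q(u)` has the size
`(0, deg q)` with constant the leading coefficient; `q(-u)` the same size with constant
`(-1)^(deg q) * leadingCoeff`; `e^{ku}` is `phi k 0`. So the summand `k` of `sz_pos` has the size `(k, deg)`, all
others have a smaller first component: `sz_add` (induction, or divide by `phi` and sum the limits: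
`lim_of_sz`). `sz_neg`: the summand `k` has the size `(-k, deg)`, the largest is the smallest `k` with
`p.coeff k ≠ 0`, `natTrailingDegree`. `sz_t`: the special case of constant coefficients.
-/

set_option autoImplicit false

namespace XD

open Complex Filter Topology Metric

private theorem bs1_phi_pos (k : ℕ) (u : ℂ) : phi k 0 u = exp u ^ k := by
  unfold phi
  rw [← Complex.exp_nat_mul]
  congr 1
  push_cast
  ring

private theorem bs1_phi_neg (k : ℕ) (u : ℂ) : phi (-(k : ℝ)) 0 u = exp (-u) ^ k := by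
  unfold phi
  rw [← Complex.exp_nat_mul]
  congr 1
  push_cast
  ring

private theorem bs1_ne : ∀ᶠ u in lom, u ≠ 0 := by
  rw [ev_iff]
  refine ⟨0, fun u hu h0 => ?_⟩
  have h1 : (0 : ℝ) < u.re := hu.1
  rw [h0, Complex.zero_re] at h1
  exact lt_irrefl _ h1

private theorem bs1_phi_nat (n : ℕ) {u : ℂ} (hu : u ≠ 0) : phi 0 n u = u ^ n := by
  unfold phi
  have h1 : ((0 : ℝ) : ℂ) * u + ((n : ℝ) : ℂ) * log u = (n : ℂ) * log u := by
    push_cast
    ring
  rw [h1, Complex.exp_nat_mul, Complex.exp_log hu]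

private theorem bs1_inv : Tendsto (fun u : ℂ => u⁻¹) lom (𝓝 0) := by
  have h1 : Tendsto (phi 0 (-1)) lom (𝓝 0) := phi_small (Or.inr ⟨rfl, by norm_num⟩)
  refine h1.congr' (bs1_ne.mono (fun u hu => ?_))
  unfold phi
  have h2 : ((0 : ℝ) : ℂ) * u + ((-1 : ℝ) : ℂ) * log u = -log u := by
    push_cast
    ring
  rw [h2, Complex.exp_neg, Complex.exp_log hu]

/-- the size of a polynomial -/
private theorem bs1_poly {q : Polynomial ℂ} (hq : q ≠ 0) :
    Sz (fun u => q.eval u) 0 q.natDegree q.leadingCoeff := by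
  refine ⟨Polynomial.leadingCoeff_ne_zero.2 hq, ?_⟩
  have h1 : Tendsto (fun u : ℂ => q.reverse.eval u⁻¹) lom (𝓝 (q.reverse.eval 0)) :=
    (q.reverse.continuous.tendsto 0).comp bs1_inv
  have h2 : q.reverse.eval 0 = q.leadingCoeff := by
    rw [← Polynomial.coeff_zero_eq_eval_zero, Polynomial.coeff_zero_reverse]
  rw [h2] at h1
  refine h1.congr' (bs1_ne.mono (fun u hu => ?_))
  show Polynomial.eval u⁻¹ q.reverse = q.eval u / phi 0 (q.natDegree : ℝ) u
  rw [bs1_phi_nat _ hu, eq_div_iff (pow_ne_zero _ hu)]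
  have h3 := Polynomial.eval₂_reverse_mul_pow (RingHom.id ℂ) (Units.mk0 u hu) q
  simpa [Polynomial.eval₂_id] using h3

/-- the size of a polynomial in `-u` -/
private theorem bs1_poly_neg {q : Polynomial ℂ} (hq : q ≠ 0) :
    ∃ s c, Sz (fun u => q.eval (-u)) 0 s c := by
  have h0 : q.comp (-Polynomial.X) ≠ 0 := by
    intro h
    apply hq
    have h1 : (q.comp (-Polynomial.X)).comp (-Polynomial.X) = q := by
      rw [Polynomial.comp_assoc]
      simp
    rw [h] at h1
    rw [← h1, Polynomial.zero_comp]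
  refine ⟨(q.comp (-Polynomial.X)).natDegree, (q.comp (-Polynomial.X)).leadingCoeff, ?_⟩
  have h1 := bs1_poly h0
  have h2 : (fun u : ℂ => (q.comp (-Polynomial.X)).eval u) = fun u => q.eval (-u) := by
    funext u
    rw [Polynomial.eval_comp, Polynomial.eval_neg, Polynomial.eval_X]
  rwa [h2] at h1

private theorem bs1_evalEval (p : Polynomial (Polynomial ℂ)) (x y : ℂ) :
    p.evalEval x y = ∑ k ∈ Finset.range (p.natDegree + 1), (p.coeff k).eval x * y ^ k := by
  unfold Polynomial.evalEval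
  rw [Polynomial.eval_eq_sum_range (p := p), Polynomial.eval_finsetSum]
  refine Finset.sum_congr rfl (fun k _ => ?_)
  rw [Polynomial.eval_mul, Polynomial.eval_pow, Polynomial.eval_C]

/-- a sum of functions of smaller size is negligible -/
private theorem bs1_sum (I : Finset ℕ) (T : ℕ → ℂ → ℂ) (r₀ s₀ : ℝ)
    (h : ∀ k ∈ I, (∀ u, T k u = 0) ∨ ∃ r s c, r < r₀ ∧ Sz (T k) r s c) :
    Tendsto (fun u => (∑ k ∈ I, T k u) / phi r₀ s₀ u) lom (𝓝 0) := by
  have h1 : (fun u => (∑ k ∈ I, T k u) / phi r₀ s₀ u) =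
      fun u => ∑ k ∈ I, T k u / phi r₀ s₀ u := by
    funext u
    rw [Finset.sum_div]
  rw [h1]
  have h2 : (0 : ℂ) = ∑ k ∈ I, (0 : ℂ) := by simp
  rw [h2]
  refine tendsto_finsetSum _ (fun k hk => ?_)
  rcases h k hk with h3 | ⟨r, s, c, hr, hS⟩
  · have h4 : (fun u => T k u / phi r₀ s₀ u) = fun _ => 0 := by
      funext u
      rw [h3 u, zero_div]
    rw [h4]
    exact tendsto_const_nhds
  · have h4 := lim_of_sz (r₀ := r₀) (s₀ := s₀) hS (Or.inl hr)
    rwa [if_neg (fun h5 => hr.ne h5.1)] at h4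

/-- a sum with one dominating term -/
private theorem bs1_dom (I : Finset ℕ) (T : ℕ → ℂ → ℂ) (N : ℕ) (hN : N ∈ I) (r₀ s₀ : ℝ) (c : ℂ)
    (hS : Sz (T N) r₀ s₀ c)
    (h : ∀ k ∈ I, k ≠ N → (∀ u, T k u = 0) ∨ ∃ r s c, r < r₀ ∧ Sz (T k) r s c) :
    Sz (fun u => ∑ k ∈ I, T k u) r₀ s₀ c := by
  refine ⟨hS.1, ?_⟩
  have h1 : (fun u => (∑ k ∈ I, T k u) / phi r₀ s₀ u) =
      fun u => T N u / phi r₀ s₀ u + (∑ k ∈ I.erase N, T k u) / phi r₀ s₀ u := by
    funext u
    rw [← Finset.add_sum_erase I _ hN, add_div]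
  rw [h1]
  have h2 := hS.2.add (bs1_sum (I.erase N) T r₀ s₀ (fun k hk =>
    h k (Finset.mem_of_mem_erase hk) (Finset.ne_of_mem_erase hk)))
  rwa [add_zero] at h2

theorem sz_pos {p : Polynomial (Polynomial ℂ)} (hp : p ≠ 0) :
    ∃ s c, Sz (fun u => p.evalEval u (exp u)) p.natDegree s c := by
  have hN : p.coeff p.natDegree ≠ 0 := by
    rw [Polynomial.coeff_natDegree]
    exact Polynomial.leadingCoeff_ne_zero.2 hp
  have hT : ∀ k, p.coeff k ≠ 0 → ∃ s c, Sz (fun u => (p.coeff k).eval u * exp u ^ k) k s c := by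
    intro k hk
    have h1 := (bs1_poly hk).mul (sz_phi k 0)
    rw [zero_add] at h1
    refine ⟨_, _, h1.congr (Filter.Eventually.of_forall (fun u => ?_))⟩
    dsimp only
    rw [bs1_phi_pos]
  obtain ⟨s, c, hS⟩ := hT _ hN
  refine ⟨s, c, ?_⟩
  have h2 := bs1_dom (Finset.range (p.natDegree + 1)) (fun k u => (p.coeff k).eval u * exp u ^ k)
    p.natDegree (Finset.mem_range.2 (Nat.lt_succ_self _)) p.natDegree s c hS ?_
  · refine h2.congr (Filter.Eventually.of_forall (fun u => ?_))
    exact bs1_evalEval p u (exp u)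
  · intro k hk hkN
    by_cases h0 : p.coeff k = 0
    · left
      intro u
      rw [h0, Polynomial.eval_zero, zero_mul]
    · right
      obtain ⟨s', c', h3⟩ := hT k h0
      refine ⟨k, s', c', ?_, h3⟩
      have h4 : k < p.natDegree := by
        have := Finset.mem_range.1 hk
        omega
      exact_mod_cast h4

theorem sz_neg {p : Polynomial (Polynomial ℂ)} (hp : p ≠ 0) :
    ∃ s c, Sz (fun u => p.evalEval (-u) (exp (-u))) (-(p.natTrailingDegree : ℝ)) s c := by
  have hN : p.coeff p.natTrailingDegree ≠ 0 := Polynomial.trailingCoeff_nonzero_iff_nonzero.2 hp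
  have hT : ∀ k, p.coeff k ≠ 0 →
      ∃ s c, Sz (fun u => (p.coeff k).eval (-u) * exp (-u) ^ k) (-(k : ℝ)) s c := by
    intro k hk
    obtain ⟨s, c, h0⟩ := bs1_poly_neg hk
    have h1 := h0.mul (sz_phi (-(k : ℝ)) 0)
    rw [zero_add] at h1
    refine ⟨_, _, h1.congr (Filter.Eventually.of_forall (fun u => ?_))⟩
    dsimp only
    rw [bs1_phi_neg]
  obtain ⟨s, c, hS⟩ := hT _ hN
  refine ⟨s, c, ?_⟩
  have h2 := bs1_dom (Finset.range (p.natDegree + 1))
    (fun k u => (p.coeff k).eval (-u) * exp (-u) ^ k)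
    p.natTrailingDegree
    (Finset.mem_range.2 (Nat.lt_succ_of_le (Polynomial.natTrailingDegree_le_natDegree p)))
    (-(p.natTrailingDegree : ℝ)) s c hS ?_
  · refine h2.congr (Filter.Eventually.of_forall (fun u => ?_))
    exact bs1_evalEval p (-u) (exp (-u))
  · intro k hk hkN
    by_cases h0 : p.coeff k = 0
    · left
      intro u
      rw [h0, Polynomial.eval_zero, zero_mul]
    · right
      obtain ⟨s', c', h3⟩ := hT k h0
      refine ⟨-(k : ℝ), s', c', ?_, h3⟩
      have h4 : p.natTrailingDegree < k := by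
        have := Polynomial.natTrailingDegree_le_of_ne_zero h0
        omega
      have h5 : (p.natTrailingDegree : ℝ) < k := by exact_mod_cast h4
      linarith

theorem sz_t {p : Polynomial ℂ} (hp : p ≠ 0) :
    Sz (fun u => p.eval (exp u)) p.natDegree 0 p.leadingCoeff := by
  have hT : ∀ k, p.coeff k ≠ 0 → Sz (fun u => p.coeff k * exp u ^ k) k 0 (p.coeff k) := by
    intro k hk
    have h1 := (sz_const hk).mul (sz_phi k 0)
    rw [zero_add, zero_add, mul_one] at h1
    refine h1.congr (Filter.Eventually.of_forall (fun u => ?_))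
    show p.coeff k * exp u ^ k = p.coeff k * phi k 0 u
    rw [bs1_phi_pos]
  have hN : p.coeff p.natDegree ≠ 0 := by
    rw [Polynomial.coeff_natDegree]
    exact Polynomial.leadingCoeff_ne_zero.2 hp
  have h2 := bs1_dom (Finset.range (p.natDegree + 1)) (fun k u => p.coeff k * exp u ^ k)
    p.natDegree (Finset.mem_range.2 (Nat.lt_succ_self _)) p.natDegree 0 _ (hT _ hN) ?_
  · refine h2.congr (Filter.Eventually.of_forall (fun u => ?_))
    exact Polynomial.eval_eq_sum_range (exp u)
  · intro k hk hkN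
    by_cases h0 : p.coeff k = 0
    · left
      intro u
      rw [h0, zero_mul]
    · right
      refine ⟨k, 0, _, ?_, hT k h0⟩
      have h4 : k < p.natDegree := by
        have := Finset.mem_range.1 hk
        omega
      exact_mod_cast h4

end XD
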