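import Mathlib

/-!
XD-DL: finite differences.

PROOF. `dl_int`: induction on `k` (generalizing `f`): `(dl d)^[k + 1] f = (dl d)^[k] (dl d f)`, and `dl d f` is an
integer at `m + j d`, `j ≤ k`. `dl_tendsto`, `dl_pos`: induction on `k`, generalizing `F`: put
`G j = dl d (F j)`; `HasDerivAt (G j) (G (j + 1) x) x`. `G k x = F k (x + d) - F k x → 0` because
`‖F (k + 1)‖ ≤ ε` far out and the mean value inequality (`Convex.norm_image_sub_le_of_norm_hasDerivWithin_le`); and
`Re (G k x / c) > 0` because `Re (F k / c)` has the derivative `Re (F (k + 1) / c) > 0`, so it is strictly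
increasing on `(M₀, ∞)` (`strictMonoOn_of_deriv_pos`).
-/

set_option autoImplicit false

namespace XD

open Filter Topology

/-- the difference with step `d` -/
def dl (d : ℝ) (f : ℝ → ℂ) (x : ℝ) : ℂ := f (x + d) - f x

theorem dl_int {f : ℝ → ℂ} {m d k : ℕ} (h : ∀ j ≤ k, ∃ n : ℤ, f ((m + j * d : ℕ) : ℝ) = n) :
    ∃ n : ℤ, ((dl (d : ℝ))^[k] f) (m : ℝ) = n := by
  induction k generalizing f with
  | zero =>
    obtain ⟨n, hn⟩ := h 0 le_rfl
    refine ⟨n, ?_⟩
    rw [Function.iterate_zero_apply, ← hn]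
    congr 1
    push_cast
    ring
  | succ k ih =>
    rw [Function.iterate_succ_apply]
    refine ih fun j hj => ?_
    obtain ⟨n, hn⟩ := h j (by omega)
    obtain ⟨n', hn'⟩ := h (j + 1) (by omega)
    refine ⟨n' - n, ?_⟩
    have e : (((m + j * d : ℕ) : ℝ) + (d : ℝ)) = ((m + (j + 1) * d : ℕ) : ℝ) := by
      push_cast
      ring
    rw [dl, e, hn, hn']
    push_cast
    ring

private theorem dl_deriv {f f' : ℝ → ℂ} {M₀ d : ℝ} (hd : 0 < d)
    (h : ∀ x, M₀ < x → HasDerivAt f (f' x) x) (x : ℝ) (hx : M₀ < x) :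
    HasDerivAt (dl d f) (dl d f' x) x := by
  have h1 := h x hx
  have h2 := (h (x + d) (by linarith)).comp_add_const x d
  exact h2.sub h1

private theorem dl_small {f f' : ℝ → ℂ} {M₀ d : ℝ} (hd : 0 < d)
    (h : ∀ x, M₀ < x → HasDerivAt f (f' x) x) (h0 : Tendsto f' atTop (𝓝 0)) :
    Tendsto (dl d f) atTop (𝓝 0) := by
  rw [Metric.tendsto_atTop] at h0 ⊢
  intro ε hε
  obtain ⟨N, hN⟩ := h0 (ε / (2 * d)) (by positivity)
  refine ⟨max N (M₀ + 1), fun x hx => ?_⟩
  have hx1 : N ≤ x := le_trans (le_max_left _ _) hx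
  have hx2 : M₀ < x := by
    have := le_trans (le_max_right N (M₀ + 1)) hx
    linarith
  have key : ‖f (x + d) - f x‖ ≤ (ε / (2 * d)) * ‖(x + d) - x‖ := by
    refine Convex.norm_image_sub_le_of_norm_hasDerivWithin_le (s := Set.Ici x) (f' := f')
      (fun y hy => ?_) (fun y hy => ?_) (convex_Ici x) (Set.mem_Ici.2 le_rfl)
      (Set.mem_Ici.2 (by linarith))
    · exact (h y (lt_of_lt_of_le hx2 hy)).hasDerivWithinAt
    · have := hN y (le_trans hx1 hy)
      rw [dist_zero_right] at this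
      exact this.le
  rw [dist_zero_right, dl]
  refine lt_of_le_of_lt key ?_
  have e : ‖(x + d) - x‖ = d := by
    rw [add_sub_cancel_left, Real.norm_of_nonneg hd.le]
  rw [e]
  have e2 : ε / (2 * d) * d = ε / 2 := by
    field_simp
  rw [e2]
  linarith

theorem dl_tendsto {k : ℕ} {F : ℕ → ℝ → ℂ} {M₀ : ℝ}
    (hF : ∀ j < k, ∀ x, M₀ < x → HasDerivAt (F j) (F (j + 1) x) x)
    (h0 : Tendsto (F k) atTop (𝓝 0)) {d : ℝ} (hd : 0 < d) :
    Tendsto ((dl d)^[k] (F 0)) atTop (𝓝 0) := by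
  induction k generalizing F with
  | zero => exact h0
  | succ k ih =>
    rw [Function.iterate_succ_apply]
    exact ih (F := fun j => dl d (F j))
      (fun j hj x hx => dl_deriv hd (hF j (by omega)) x hx)
      (dl_small hd (hF k (by omega)) h0)

private theorem dl_incr {f f' : ℝ → ℂ} {M₀ d : ℝ} (hd : 0 < d) {c : ℂ}
    (h : ∀ x, M₀ < x → HasDerivAt f (f' x) x) (hpos : ∀ x, M₀ < x → 0 < (f' x / c).re)
    (x : ℝ) (hx : M₀ < x) : 0 < (dl d f x / c).re := by
  have hder : ∀ y, M₀ < y → HasDerivAt (fun y => (f y / c).re) ((f' y / c).re) y := by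
    intro y hy
    have h1 := (h y hy).div_const c
    have h2 := Complex.reCLM.hasFDerivAt.comp_hasDerivAt y h1
    exact h2
  have hmono : StrictMonoOn (fun y => (f y / c).re) (Set.Ici x) := by
    refine strictMonoOn_of_deriv_pos (convex_Ici x) ?_ ?_
    · intro y hy
      exact (hder y (lt_of_lt_of_le hx hy)).continuousAt.continuousWithinAt
    · intro y hy
      rw [interior_Ici] at hy
      have hy' : M₀ < y := lt_trans hx hy
      rw [(hder y hy').deriv]
      exact hpos y hy'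
  have := hmono (Set.mem_Ici.2 le_rfl) (Set.mem_Ici.2 (by linarith : x ≤ x + d))
    (by linarith : x < x + d)
  rw [dl, sub_div, Complex.sub_re]
  linarith

theorem dl_pos {k : ℕ} {F : ℕ → ℝ → ℂ} {M₀ : ℝ}
    (hF : ∀ j < k, ∀ x, M₀ < x → HasDerivAt (F j) (F (j + 1) x) x) {c : ℂ}
    (hpos : ∀ x, M₀ < x → 0 < (F k x / c).re) {d : ℝ} (hd : 0 < d) {x : ℝ} (hx : M₀ < x) :
    0 < (((dl d)^[k] (F 0)) x / c).re := by
  induction k generalizing F with
  | zero => exact hpos x hx
  | succ k ih =>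
    rw [Function.iterate_succ_apply]
    exact ih (F := fun j => dl d (F j))
      (fun j hj x hx => dl_deriv hd (hF j (by omega)) x hx)
      (fun x hx => dl_incr hd (hF k (by omega)) hpos x hx)

end XD
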