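import Mathlib

/-!
Definitions for MP_228259_lc, n = 3, two-dimensional torus: analytic functions near infinity in the
sector `|Im u| < Re u`, their sizes, tame fields of functions.
-/

set_option autoImplicit false

namespace XD

open Complex Filter Topology

/-- the part `Re u > R` of the sector -/
def Om (R : ℝ) : Set ℂ := {u | R < u.re ∧ |u.im| < u.re}

/-- the filter of neighbourhoods of infinity in the sector -/
def lom : Filter ℂ := Filter.comap Complex.re atTop ⊓ 𝓟 {u | |u.im| < u.re}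

/-- analytic near infinity in the sector -/
def EA (f : ℂ → ℂ) : Prop := ∃ R : ℝ, DifferentiableOn ℂ f (Om R)

/-- the scale `e^{ru} u^s` -/
noncomputable def phi (r s : ℝ) (u : ℂ) : ℂ := exp (r * u + s * log u)

/-- `f = (c + o(1)) e^{ru} u^s` with `c ≠ 0` -/
def Sz (f : ℂ → ℂ) (r s : ℝ) (c : ℂ) : Prop :=
  c ≠ 0 ∧ Tendsto (fun u => f u / phi r s u) lom (𝓝 c)

/-- `f` vanishes near infinity or has a size -/
def Tame (f : ℂ → ℂ) : Prop := f =ᶠ[lom] 0 ∨ ∃ r s c, Sz f r s c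

/-- a field of tame functions, closed under the derivative -/
structure TF (L : Set (ℂ → ℂ)) : Prop where
  ea : ∀ f ∈ L, EA f
  tame : ∀ f ∈ L, Tame f
  cst : ∀ c : ℂ, (fun _ => c) ∈ L
  add : ∀ f ∈ L, ∀ g ∈ L, (fun u => f u + g u) ∈ L
  mul : ∀ f ∈ L, ∀ g ∈ L, (fun u => f u * g u) ∈ L
  inv : ∀ f ∈ L, (fun u => (f u)⁻¹) ∈ L
  der : ∀ f ∈ L, deriv f ∈ L
  congr : ∀ f ∈ L, ∀ g, EA g → g =ᶠ[lom] f → g ∈ L

/-- a ring of tame functions, closed under the derivative up to equality near infinity -/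
structure Base (B : Subalgebra ℂ (ℂ → ℂ)) : Prop where
  ea : ∀ f ∈ B, EA f
  tame : ∀ f ∈ B, Tame f
  der : ∀ f ∈ B, ∃ g ∈ B, g =ᶠ[lom] deriv f

/-- `f` is algebraic over the ring `B` of functions -/
def AlgOn (B : Subalgebra ℂ (ℂ → ℂ)) (f : ℂ → ℂ) : Prop :=
  ∃ p : Polynomial B, (∃ i, ¬ ((p.coeff i : ℂ → ℂ) =ᶠ[lom] 0)) ∧ Polynomial.aeval f p =ᶠ[lom] 0

/-- the functions analytic near infinity and algebraic over `B` -/
def LL (B : Subalgebra ℂ (ℂ → ℂ)) : Set (ℂ → ℂ) := {f | EA f ∧ AlgOn B f}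

/-- the four kinds of places -/
inductive Kd where
  | pos : Kd
  | neg : Kd
  | pt (a : ℂ) : Kd

/-- the additive coordinate at a place -/
noncomputable def KU : Kd → ℂ → ℂ
  | Kd.pos => fun u => u
  | Kd.neg => fun u => -u
  | Kd.pt a => fun u => a + exp (-u)

/-- the multiplicative coordinate at a place -/
noncomputable def KY (k : Kd) : ℂ → ℂ := fun u => exp (KU k u)

/-- the base ring at a place -/
noncomputable def BK (k : Kd) : Subalgebra ℂ (ℂ → ℂ) := Algebra.adjoin ℂ {KU k, KY k}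

/-- the base ring `ℂ[t]`, `t = e^u` -/
noncomputable def Bt : Subalgebra ℂ (ℂ → ℂ) := Algebra.adjoin ℂ {fun u => exp u}

end XD
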