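import Pool.Agent.Lib.MP_228259_lc.D.KC

/-!
XD-EB1: logarithms of elements of `Kt`.

PROOF. `rep y` has a size `(κ, 0)` (`rep_sz`, `kt_s`) with constant `c ≠ 0`; `q w = rep y w * exp (-κ w) / c → 1`
(`phi κ 0 w = exp (κ w)`). For `w ∈ Om R`, `R` large, `‖q w - 1‖ < 1 / 2`, so
`ℓ w = κ w + log c + log (q w)` is differentiable, `exp (ℓ w) = rep y w`, and `log (q w) → 0`.
`deriv ℓ = deriv (rep y) / rep y` from `exp ℓ = rep y` (`rep_fder`, `rep_mul`, `rep_inv`). Its limit: `ff_logder`.
-/

set_option autoImplicit false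

namespace XD

open Complex Filter Topology Metric

/-- `ℓ` is a logarithm of `y` with the asymptotics `κ w + c₀ + o(1)` -/
structure IsLog (y : Kt) (ℓ : ℂ → ℂ) (κ : ℝ) (c₀ : ℂ) : Prop where
  ea : EA ℓ
  ex : ∀ᶠ w in lom, exp (ℓ w) = rep y w
  der : deriv ℓ =ᶠ[lom] rep (fder _ y / y)
  lim : Tendsto (fun w => ℓ w - κ * w) lom (𝓝 c₀)
  dlim : Tendsto (deriv ℓ) lom (𝓝 (κ : ℂ))

theorem exists_isLog {y : Kt} (hy : y ≠ 0) : ∃ ℓ κ c₀, IsLog y ℓ κ c₀ := by
  obtain ⟨κ, s, c, hs⟩ := rep_sz hy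
  have hs0 := kt_s hs
  subst hs0
  obtain ⟨R0, hR0⟩ := (ll_tf base_Bt).ea _ (rep_mem y)
  have hphi : ∀ w, phi κ 0 w = exp (κ * w) := by
    intro w
    simp [phi]
  have hc : c ≠ 0 := hs.1
  set q : ℂ → ℂ := fun w => rep y w / phi κ 0 w / c with hq
  have hq1 : Tendsto q lom (𝓝 1) := by
    have h1 := hs.2.div_const c
    rw [div_self hc] at h1
    exact h1
  have hq2 : ∀ᶠ w in lom, ‖q w - 1‖ < 1 / 2 := by
    have h1 := (Metric.tendsto_nhds.mp hq1) (1 / 2) (by norm_num)
    filter_upwards [h1] with w hw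
    rwa [dist_eq_norm] at hw
  obtain ⟨R1, hR1⟩ := ev_iff.mp hq2
  have hm0 : Om (max R0 R1) ⊆ Om R0 := om_mono (le_max_left _ _)
  have hm1 : Om (max R0 R1) ⊆ Om R1 := om_mono (le_max_right _ _)
  have hslit : ∀ w ∈ Om (max R0 R1), q w ∈ slitPlane := by
    intro w hw
    have h1 := hR1 w (hm1 hw)
    have h2 := Complex.mem_slitPlane_of_norm_lt_one (z := q w - 1) (by linarith)
    rwa [add_sub_cancel] at h2
  have hqd : DifferentiableOn ℂ q (Om (max R0 R1)) := by
    have h1 : DifferentiableOn ℂ (fun w => exp (κ * w)) (Om (max R0 R1)) :=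
      (((differentiable_id).const_mul (κ : ℂ)).cexp).differentiableOn
    have h2 : q = fun w => rep y w / exp (κ * w) / c := by
      funext w
      rw [hq]
      simp only [hphi]
    rw [h2]
    exact ((hR0.mono hm0).div h1 (fun w _ => exp_ne_zero _)).div_const c
  have hld : DifferentiableOn ℂ (fun w => κ * w + log c + log (q w)) (Om (max R0 R1)) := by
    have h1 : DifferentiableOn ℂ (fun w : ℂ => (κ : ℂ) * w + log c) (Om (max R0 R1)) :=
      (((differentiable_id).const_mul (κ : ℂ)).add_const _).differentiableOn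
    exact h1.add (hqd.clog hslit)
  have hex : ∀ w ∈ Om (max R0 R1), exp (κ * w + log c + log (q w)) = rep y w := by
    intro w hw
    rw [exp_add, exp_add, exp_log hc, exp_log (slitPlane_ne_zero (hslit w hw)), hq]
    simp only [hphi]
    have h1 := exp_ne_zero (κ * w)
    field_simp
  have hlim0 : Tendsto (fun w => log (q w)) lom (𝓝 0) := by
    have h1 : ContinuousAt log 1 := continuousAt_clog (by simp)
    have h2 := h1.tendsto.comp hq1
    rw [Complex.log_one] at h2
    exact h2
  have hder : deriv (fun w => κ * w + log c + log (q w)) =ᶠ[lom] rep (fder _ y / y) := by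
    have h3 : rep (fder (ll_tf base_Bt) y / y) =ᶠ[lom] fun w => deriv (rep y) w * (rep y w)⁻¹ := by
      rw [div_eq_mul_inv]
      filter_upwards [rep_mul (fder (ll_tf base_Bt) y) y⁻¹, rep_inv y, rep_fder y]
        with w h4 h5 h6
      rw [h4, h5, h6]
    filter_upwards [h3, om_mem (max R0 R1)] with w h4 h5
    rw [h4]
    have h6 : rep y =ᶠ[𝓝 w] fun w => exp (κ * w + log c + log (q w)) := by
      filter_upwards [(om_open (max R0 R1)).mem_nhds h5] with v hv
      exact (hex v hv).symm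
    have h7 : DifferentiableAt ℂ (fun w => κ * w + log c + log (q w)) w :=
      (hld w h5).differentiableAt ((om_open _).mem_nhds h5)
    rw [h6.deriv_eq, h7.hasDerivAt.cexp.deriv, h6.eq_of_nhds]
    have h8 := exp_ne_zero (κ * w + log c + log (q w))
    field_simp
  refine ⟨fun w => κ * w + log c + log (q w), κ, log c, ⟨_, hld⟩, ?_, hder, ?_, ?_⟩
  · filter_upwards [om_mem (max R0 R1)] with w hw
    exact hex w hw
  · have h1 : Tendsto (fun w => log c + log (q w)) lom (𝓝 (log c + 0)) :=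
      tendsto_const_nhds.add hlim0
    rw [add_zero] at h1
    refine h1.congr fun w => ?_
    ring
  · exact (ff_logder hs).congr' hder.symm

end XD
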