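import Pool.Agent.Lib.MP_228259_lc.D.O2

/-!
XD-EB2: the equation `i e^w - ℓ w = 2 π i x` for large real `x`.

PROOF of `fix_pt`. Put `τ = e^w`, `w = log τ` (principal): for `Re τ > T`, `T` large, `log τ ∈ Om R` (`log τ` has
real part `log ‖τ‖ > R` and imaginary part less than `π / 2`) . With
`q τ = ℓ (log τ)`: `‖q τ‖ ≤ 2 (|κ| + 1) log ‖τ‖` and `‖deriv q τ‖ = ‖deriv ℓ (log τ)‖ / ‖τ‖ ≤ (|κ| + 1) / ‖τ‖` far
out. `N τ = 2 π x - i q τ` maps the closed disc around `2 π x` of radius `x` into itself and is `1 / 2`-Lipschitz for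
`x > M₀` (the disc is convex, `Convex.norm_image_sub_le_of_norm_deriv_le`), so it has a unique fixed point
`τ x` (`ContractingWith.exists_fixedPoint'` on the closed ball, as in `V/F4.lean`, `A/LB.lean`), and
`‖τ x - 2 π x‖ = ‖q (τ x)‖ ≤ K log x`. So `τ x / (2 π x) → 1`, `W x = log (τ x)`,
`W x - log (2 π x) = log (τ x / (2 π x)) → 0`; `exp (W x) = τ x` and `i τ - ℓ (log τ) = 2 π i x`. The tangential
statement `Tendsto W atTop lom`: real part `→ ∞`, imaginary part `→ 0`.
-/

set_option autoImplicit false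

namespace XD

open Complex Filter Topology Metric

/-- `(i e^w - ℓ w) / (2 π i)` -/
noncomputable def Mf (ℓ : ℂ → ℂ) (w : ℂ) : ℂ := (I * exp w - ℓ w) / (2 * Real.pi * I)

theorem EB2_log_mem {T R : ℝ} (hT : Real.exp (max R 2) ≤ T) {τ : ℂ} (hτ : T < τ.re) :
    log τ ∈ Om R := by
  have hT0 : 0 < T := lt_of_lt_of_le (Real.exp_pos _) hT
  have hre : 0 < τ.re := hT0.trans hτ
  have h1 : max R 2 < (log τ).re := by
    rw [Complex.log_re]
    have h2 : max R 2 ≤ Real.log T := (Real.le_log_iff_exp_le hT0).mpr hT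
    have h3 : Real.log T < Real.log ‖τ‖ :=
      Real.log_lt_log hT0 (lt_of_lt_of_le hτ (Complex.re_le_norm τ))
    linarith
  have h4 : |(log τ).im| < 2 := by
    rw [Complex.log_im]
    have h5 : |arg τ| < Real.pi / 2 := Complex.abs_arg_lt_pi_div_two_iff.mpr (Or.inl hre)
    have := Real.pi_lt_four
    linarith
  exact ⟨lt_of_le_of_lt (le_max_left _ _) h1,
    h4.trans (lt_of_le_of_lt (le_max_right _ _) h1)⟩

theorem EB2_log_norm {τ : ℂ} (h1 : 1 ≤ ‖τ‖) : ‖log τ‖ ≤ Real.log ‖τ‖ + 4 := by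
  have h2 := Complex.norm_le_abs_re_add_abs_im (log τ)
  rw [Complex.log_re, Complex.log_im, abs_of_nonneg (Real.log_nonneg h1)] at h2
  have h3 := Complex.abs_arg_le_pi τ
  have := Real.pi_lt_four
  linarith

/-- Banach fixed point theorem on a closed disc -/
theorem EB2_fix {c : ℂ} {r : ℝ} (hr : 0 ≤ r) {Φ : ℂ → ℂ}
    (hmaps : Set.MapsTo Φ (closedBall c r) (closedBall c r))
    (hlip : ∀ u ∈ closedBall c r, ∀ v ∈ closedBall c r, ‖Φ u - Φ v‖ ≤ 1 / 2 * ‖u - v‖) :
    ∃ u ∈ closedBall c r, Φ u = u := by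
  have hcontr : ContractingWith (1 / 2 : NNReal)
      (hmaps.restrict Φ (closedBall c r) (closedBall c r)) := by
    refine ⟨by rw [← NNReal.coe_lt_coe]; norm_num, ?_⟩
    apply LipschitzWith.of_dist_le_mul
    intro x y
    have h1 := hlip x x.2 y y.2
    rw [Subtype.dist_eq, Subtype.dist_eq, dist_eq_norm, dist_eq_norm]
    simpa using h1
  obtain ⟨t, ht, hfix, -, -⟩ := ContractingWith.exists_fixedPoint' isClosed_closedBall.isComplete
    hmaps hcontr (mem_closedBall_self hr) (edist_ne_top _ _)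
  exact ⟨t, ht, hfix⟩

theorem EB2_small (A B : ℝ) : Tendsto (fun x : ℝ => (A * Real.log x + B) / x) atTop (𝓝 0) := by
  have h1 : Tendsto (fun x : ℝ => Real.log x / x) atTop (𝓝 0) :=
    Real.isLittleO_log_id_atTop.tendsto_div_nhds_zero
  have h2 : Tendsto (fun x : ℝ => B / x) atTop (𝓝 0) := tendsto_const_nhds.div_atTop tendsto_id
  have h3 := (h1.const_mul A).add h2
  rw [mul_zero, add_zero] at h3
  refine h3.congr fun x => ?_
  ring

/-- the solutions, with a Lipschitz estimate -/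
theorem fix_pt {ℓ : ℂ → ℂ} (hℓ : EA ℓ) {κ : ℝ} {c₀ : ℂ}
    (h1 : Tendsto (fun w => ℓ w - κ * w) lom (𝓝 c₀)) (h2 : Tendsto (deriv ℓ) lom (𝓝 (κ : ℂ))) :
    ∃ (M₀ : ℝ) (W : ℝ → ℂ), 0 < M₀ ∧ Tendsto W atTop lom ∧
      Tendsto (fun x : ℝ => W x - Real.log (2 * Real.pi * x)) atTop (𝓝 0) ∧
      (∀ x, M₀ < x → Mf ℓ (W x) = x) ∧
      (∀ x, M₀ < x → ContinuousAt W x) := by
  have hpi3 := Real.pi_gt_three
  have hpi4 : Real.pi < 3.15 := Real.pi_lt_d2
  obtain ⟨R₀, hR₀⟩ := hℓ
  obtain ⟨R₁, hR₁⟩ := ev_iff.mp (h1.eventually (Metric.closedBall_mem_nhds c₀ one_pos))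
  obtain ⟨R₂, hR₂⟩ := ev_iff.mp (h2.eventually (Metric.closedBall_mem_nhds (κ : ℂ) one_pos))
  obtain ⟨R, hR⟩ : ∃ R, R = max R₀ (max R₁ R₂) := ⟨_, rfl⟩
  have hRa : R₀ ≤ R := by rw [hR]; exact le_max_left _ _
  have hRb : R₁ ≤ R := by rw [hR]; exact (le_max_left _ _).trans (le_max_right _ _)
  have hRc : R₂ ≤ R := by rw [hR]; exact (le_max_right _ _).trans (le_max_right _ _)
  obtain ⟨T, hT⟩ : ∃ T, T = max (Real.exp (max R 2)) (2 * (|κ| + 1)) := ⟨_, rfl⟩
  have hTa : Real.exp (max R 2) ≤ T := by rw [hT]; exact le_max_left _ _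
  have hTb : 2 * (|κ| + 1) ≤ T := by rw [hT]; exact le_max_right _ _
  have hT2 : 2 ≤ T := by have := abs_nonneg κ; linarith
  obtain ⟨q, hq⟩ : ∃ q : ℂ → ℂ, q = fun τ => ℓ (log τ) := ⟨_, rfl⟩
  -- the half plane
  have hlog : ∀ τ : ℂ, T < τ.re → log τ ∈ Om R := fun τ hτ => EB2_log_mem hTa hτ
  have hder : ∀ τ ∈ {τ : ℂ | T < τ.re},
      HasDerivWithinAt q (deriv ℓ (log τ) * τ⁻¹) {τ : ℂ | T < τ.re} τ := by
    intro τ hτ
    have hτ' : T < τ.re := hτ
    have ha : DifferentiableAt ℂ ℓ (log τ) :=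
      hR₀.differentiableAt ((om_open R₀).mem_nhds (om_mono hRa (hlog τ hτ')))
    have hb : HasDerivAt log τ⁻¹ τ := hasDerivAt_log (Or.inl (by linarith))
    rw [hq]
    exact (ha.hasDerivAt.comp τ hb).hasDerivWithinAt
  have hbd : ∀ τ ∈ {τ : ℂ | T < τ.re}, ‖deriv ℓ (log τ) * τ⁻¹‖ ≤ 1 / 2 := by
    intro τ hτ
    have hτ' : T < τ.re := hτ
    have ha := hR₂ (log τ) (om_mono hRc (hlog τ hτ'))
    have hb : ‖deriv ℓ (log τ)‖ ≤ |κ| + 1 := by
      have hc : ‖deriv ℓ (log τ) - (κ : ℂ)‖ ≤ 1 := by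
        rwa [dist_eq_norm] at ha
      have hd := norm_le_norm_sub_add (deriv ℓ (log τ)) (κ : ℂ)
      rw [Complex.norm_real, Real.norm_eq_abs] at hd
      linarith
    have hn : T < ‖τ‖ := lt_of_lt_of_le hτ' (Complex.re_le_norm τ)
    rw [norm_mul, norm_inv, ← div_eq_mul_inv, div_le_iff₀ (by linarith)]
    linarith
  have hlip : ∀ τ τ' : ℂ, T < τ.re → T < τ'.re → ‖q τ - q τ'‖ ≤ 1 / 2 * ‖τ - τ'‖ :=
    fun τ τ' hτ hτ' => Convex.norm_image_sub_le_of_norm_hasDerivWithin_le hder hbd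
      (convex_halfSpace_re_gt T) hτ' hτ
  -- size of q
  obtain ⟨Bf, hBf⟩ : ∃ Bf : ℝ → ℝ, ∀ x, Bf x = |κ| * Real.log x +
      (|κ| * (Real.log 8 + 4) + ‖c₀‖ + 1) := ⟨_, fun _ => rfl⟩
  have hqn : ∀ (x : ℝ) (τ : ℂ), 0 < x → T < τ.re → ‖τ‖ ≤ 8 * x → ‖q τ‖ ≤ Bf x := by
    intro x τ hx hτ hτx
    have ha := hR₁ (log τ) (om_mono hRb (hlog τ hτ))
    rw [dist_eq_norm] at ha
    have hn : T < ‖τ‖ := lt_of_lt_of_le hτ (Complex.re_le_norm τ)
    have hb := EB2_log_norm (τ := τ) (by linarith)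
    have hc : Real.log ‖τ‖ ≤ Real.log 8 + Real.log x := by
      rw [← Real.log_mul (by norm_num) hx.ne']
      exact Real.log_le_log (by linarith) hτx
    have hd : ‖q τ‖ ≤ ‖ℓ (log τ) - κ * log τ - c₀‖ + ‖(κ : ℂ) * log τ‖ + ‖c₀‖ := by
      have e : q τ = (ℓ (log τ) - κ * log τ - c₀) + (κ : ℂ) * log τ + c₀ := by
        rw [hq]
        ring
      rw [e]
      exact norm_add₃_le
    rw [norm_mul, Complex.norm_real, Real.norm_eq_abs] at hd
    have he : |κ| * ‖log τ‖ ≤ |κ| * (Real.log 8 + Real.log x + 4) :=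
      mul_le_mul_of_nonneg_left (by linarith) (abs_nonneg κ)
    rw [hBf]
    nlinarith
  -- the fixed point
  have hBs : Tendsto (fun x : ℝ => Bf x / x) atTop (𝓝 0) := by
    refine (EB2_small |κ| (|κ| * (Real.log 8 + 4) + ‖c₀‖ + 1)).congr fun x => ?_
    rw [hBf]
  obtain ⟨M₁, hM₁⟩ := eventually_atTop.mp (hBs.eventually_lt_const one_pos)
  obtain ⟨M₀, hM₀⟩ : ∃ M₀, M₀ = max (max M₁ T) 1 := ⟨_, rfl⟩
  have hMa : M₁ ≤ M₀ := by rw [hM₀]; exact (le_max_left _ _).trans (le_max_left _ _)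
  have hMb : T ≤ M₀ := by rw [hM₀]; exact (le_max_right _ _).trans (le_max_left _ _)
  have hM1 : 1 ≤ M₀ := by rw [hM₀]; exact le_max_right _ _
  have hcen : ∀ x : ℝ, ((2 * Real.pi * x : ℝ) : ℂ) = 2 * Real.pi * x := fun x => by push_cast; ring
  have hball : ∀ x : ℝ, M₀ < x → ∀ τ ∈ closedBall ((2 * Real.pi * x : ℝ) : ℂ) x,
      T < τ.re ∧ ‖τ‖ ≤ 8 * x := by
    intro x hx τ hτ
    rw [mem_closedBall_iff_norm] at hτ
    have hx0 : 0 < x := by linarith
    constructor
    · have ha := (abs_le.mp ((Complex.abs_re_le_norm _).trans hτ)).1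
      rw [Complex.sub_re, Complex.ofReal_re] at ha
      nlinarith
    · have hb := norm_le_norm_sub_add τ ((2 * Real.pi * x : ℝ) : ℂ)
      rw [Complex.norm_real, Real.norm_of_nonneg (by positivity)] at hb
      nlinarith
  have hex : ∀ x : ℝ, M₀ < x → ∃ t : ℂ, t ∈ closedBall ((2 * Real.pi * x : ℝ) : ℂ) x ∧
      ((2 * Real.pi * x : ℝ) : ℂ) - I * q t = t := by
    intro x hx
    have hx0 : 0 < x := by linarith
    have hBx : Bf x ≤ x := by
      have ha := hM₁ x (by linarith)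
      rw [div_lt_one hx0] at ha
      exact ha.le
    refine EB2_fix hx0.le (Φ := fun t => ((2 * Real.pi * x : ℝ) : ℂ) - I * q t) ?_ ?_
    · intro t ht
      obtain ⟨ha, hb⟩ := hball x hx t ht
      rw [mem_closedBall_iff_norm]
      have hc : ((2 * Real.pi * x : ℝ) : ℂ) - I * q t - ((2 * Real.pi * x : ℝ) : ℂ) =
          -(I * q t) := by ring
      rw [hc, norm_neg, norm_mul, norm_I, one_mul]
      exact (hqn x t hx0 ha hb).trans hBx
    · intro u hu v hv
      have hc : ((2 * Real.pi * x : ℝ) : ℂ) - I * q u - (((2 * Real.pi * x : ℝ) : ℂ) - I * q v) =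
          -(I * (q u - q v)) := by ring
      rw [hc, norm_neg, norm_mul, norm_I, one_mul]
      exact hlip u v (hball x hx u hu).1 (hball x hx v hv).1
  choose! t ht using hex
  have htT : ∀ x, M₀ < x → T < (t x).re := fun x hx => (hball x hx _ (ht x hx).1).1
  have htn : ∀ x, M₀ < x → ‖t x - ((2 * Real.pi * x : ℝ) : ℂ)‖ ≤ Bf x := by
    intro x hx
    have hx0 : 0 < x := by linarith
    obtain ⟨ha, hb⟩ := hball x hx _ (ht x hx).1
    have hc : t x - ((2 * Real.pi * x : ℝ) : ℂ) = -(I * q (t x)) := by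
      have := (ht x hx).2
      linear_combination this.symm
    rw [hc, norm_neg, norm_mul, norm_I, one_mul]
    exact hqn x _ hx0 ha hb
  have htc : ∀ x, M₀ < x → ContinuousAt t x := by
    intro x hx
    rw [Metric.continuousAt_iff]
    intro ε hε
    refine ⟨min (x - M₀) (ε / 16), lt_min (by linarith) (by linarith), fun y hy => ?_⟩
    have hy1 : |y - x| < x - M₀ := by
      rw [← Real.dist_eq]
      exact lt_of_lt_of_le hy (min_le_left _ _)
    have hy2 : |y - x| < ε / 16 := by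
      rw [← Real.dist_eq]
      exact lt_of_lt_of_le hy (min_le_right _ _)
    have hyM : M₀ < y := by
      have := (abs_lt.mp hy1).1
      linarith
    have ha : t y - t x = ((2 * Real.pi * (y - x) : ℝ) : ℂ) - I * (q (t y) - q (t x)) := by
      have e1 := (ht y hyM).2
      have e2 := (ht x hx).2
      push_cast at e1 e2 ⊢
      linear_combination e2 - e1
    have hb : ‖t y - t x‖ ≤ 2 * Real.pi * |y - x| + 1 / 2 * ‖t y - t x‖ := by
      calc ‖t y - t x‖ = ‖((2 * Real.pi * (y - x) : ℝ) : ℂ) - I * (q (t y) - q (t x))‖ := by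
            rw [← ha]
        _ ≤ ‖((2 * Real.pi * (y - x) : ℝ) : ℂ)‖ + ‖I * (q (t y) - q (t x))‖ := norm_sub_le _ _
        _ ≤ 2 * Real.pi * |y - x| + 1 / 2 * ‖t y - t x‖ := by
            refine add_le_add (le_of_eq ?_) ?_
            · rw [Complex.norm_real, Real.norm_eq_abs, abs_mul, abs_of_pos (by positivity)]
            · rw [norm_mul, norm_I, one_mul]
              exact hlip _ _ (htT y hyM) (htT x hx)
    rw [dist_eq_norm]
    have hc : 2 * Real.pi * |y - x| ≤ 7 * (ε / 16) := by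
      have : 0 ≤ |y - x| := abs_nonneg _
      nlinarith
    linarith
  -- W
  have hlim : Tendsto (fun x : ℝ => log (t x) - Real.log (2 * Real.pi * x)) atTop (𝓝 0) := by
    have ha : Tendsto (fun x : ℝ => t x / ((2 * Real.pi * x : ℝ) : ℂ)) atTop (𝓝 1) := by
      rw [tendsto_iff_norm_sub_tendsto_zero]
      refine tendsto_of_tendsto_of_tendsto_of_le_of_le' tendsto_const_nhds hBs
        (Eventually.of_forall fun x => norm_nonneg _) ?_
      filter_upwards [eventually_gt_atTop M₀] with x hx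
      have hx0 : 0 < x := by linarith
      have hp : 0 < 2 * Real.pi * x := by positivity
      have hne : ((2 * Real.pi * x : ℝ) : ℂ) ≠ 0 := by exact_mod_cast hp.ne'
      have hb : t x / ((2 * Real.pi * x : ℝ) : ℂ) - 1 =
          (t x - ((2 * Real.pi * x : ℝ) : ℂ)) / ((2 * Real.pi * x : ℝ) : ℂ) := by
        field_simp
      rw [hb, norm_div, Complex.norm_real, Real.norm_of_nonneg hp.le]
      have hBn : 0 ≤ Bf x := (norm_nonneg _).trans (htn x hx)
      calc ‖t x - ((2 * Real.pi * x : ℝ) : ℂ)‖ / (2 * Real.pi * x) ≤ Bf x / (2 * Real.pi * x) := by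
            gcongr
            exact htn x hx
        _ ≤ Bf x / x := by
            apply div_le_div_of_nonneg_left hBn hx0
            nlinarith
    have hb : Tendsto (fun x : ℝ => log (t x / ((2 * Real.pi * x : ℝ) : ℂ))) atTop (𝓝 0) := by
      have hc := (continuousAt_clog (x := (1 : ℂ)) one_mem_slitPlane).tendsto.comp ha
      rw [log_one] at hc
      exact hc
    refine hb.congr' ?_
    filter_upwards [eventually_gt_atTop M₀] with x hx
    have hx0 : 0 < x := by linarith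
    have hp : 0 < 2 * Real.pi * x := by positivity
    have hne : ((2 * Real.pi * x : ℝ) : ℂ) ≠ 0 := by exact_mod_cast hp.ne'
    have htne : t x ≠ 0 := by
      intro h
      have := htT x hx
      rw [h, Complex.zero_re] at this
      linarith
    have hd : t x = ((2 * Real.pi * x : ℝ) : ℂ) * (t x / ((2 * Real.pi * x : ℝ) : ℂ)) := by
      field_simp
    have he : log (t x) = Real.log (2 * Real.pi * x) +
        log (t x / ((2 * Real.pi * x : ℝ) : ℂ)) := by
      conv_lhs => rw [hd]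
      exact Complex.log_ofReal_mul hp (div_ne_zero htne hne)
    rw [he]
    ring
  have hre : Tendsto (fun x : ℝ => (log (t x)).re) atTop atTop := by
    have ha : Tendsto (fun x : ℝ => Real.log (2 * Real.pi * x)) atTop atTop :=
      Real.tendsto_log_atTop.comp (tendsto_id.const_mul_atTop (by positivity))
    have hb : Tendsto (fun x : ℝ => (log (t x) - Real.log (2 * Real.pi * x)).re) atTop (𝓝 0) := by
      have := (Complex.continuous_re.tendsto (0 : ℂ)).comp hlim
      rw [Complex.zero_re] at this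
      exact this
    refine (hb.add_atTop ha).congr fun x => ?_
    rw [Complex.sub_re, Complex.ofReal_re]
    ring
  have him : Tendsto (fun x : ℝ => (log (t x)).im) atTop (𝓝 0) := by
    have := (Complex.continuous_im.tendsto (0 : ℂ)).comp hlim
    simp only [Complex.zero_im] at this
    refine this.congr fun x => ?_
    simp
  refine ⟨M₀, fun x => log (t x), by linarith, ?_, hlim, ?_, ?_⟩
  · unfold lom
    rw [tendsto_inf, tendsto_comap_iff, tendsto_principal]
    refine ⟨hre, ?_⟩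
    have ha := him.abs
    rw [abs_zero] at ha
    filter_upwards [ha.eventually_lt_const one_pos, hre.eventually_ge_atTop 1] with x hx1 hx2
    exact lt_of_lt_of_le hx1 hx2
  · intro x hx
    have htne : t x ≠ 0 := by
      intro h
      have := htT x hx
      rw [h, Complex.zero_re] at this
      linarith
    have e := (ht x hx).2
    have eq1 : q (t x) = ℓ (log (t x)) := by rw [hq]
    rw [eq1] at e
    have hpi0 : (Real.pi : ℂ) ≠ 0 := by exact_mod_cast Real.pi_ne_zero
    unfold Mf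
    rw [exp_log htne, div_eq_iff (by simp [hpi0])]
    push_cast at e
    linear_combination (-I) * e - (ℓ (log (t x))) * I_sq
  · intro x hx
    exact (htc x hx).clog (Or.inl (by have := htT x hx; linarith))

end XD
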