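import Pool.Agent.Lib.MP_228259_lc.D.EB2

/-!
XD-EB3: the inverse function of `Mf ℓ`.

PROOF. `deriv (Mf ℓ) w = (i e^w - deriv ℓ w) / (2 π i)`, which divided by `e^w / (2 π)` tends to `1`
(`deriv ℓ → κ`), so it is non-zero far out; enlarge `M₀` so that for `x > M₀` the point `W x` is in a
region `Om R` where `ℓ` is differentiable and `deriv (Mf ℓ) ≠ 0`. Then
`HasDerivAt.of_local_left_inverse` (or `HasStrictDerivAt.of_local_left_inverse`) for `W` (continuous at `x`, `Mf ℓ (W x') = x'`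
near `x`; `Mf ℓ` has the complex derivative at `W x`, which is used as a real derivative of a map `ℂ → ℂ`; compose
with `ofReal`: the function `x' ↦ (x' : ℂ)` equals `Mf ℓ ∘ W` near `x`). (Direct proof: `(W x' - W x) / (x' - x) =
(W x' - W x) / (Mf ℓ (W x') - Mf ℓ (W x))` for `x' ≠ x`, which tends to the inverse of the derivative since
`W x' → W x`, `W x' ≠ W x`.)
-/


set_option autoImplicit false

namespace XD

open Complex Filter Topology Metric

theorem inv_fun {ℓ : ℂ → ℂ} (hℓ : EA ℓ) {κ : ℝ} {c₀ : ℂ}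
    (h1 : Tendsto (fun w => ℓ w - κ * w) lom (𝓝 c₀)) (h2 : Tendsto (deriv ℓ) lom (𝓝 (κ : ℂ))) :
    ∃ (M₀ : ℝ) (W : ℝ → ℂ), 0 < M₀ ∧ Tendsto W atTop lom ∧
      Tendsto (fun x : ℝ => W x - Real.log (2 * Real.pi * x)) atTop (𝓝 0) ∧
      (∀ x, M₀ < x → Mf ℓ (W x) = x) ∧
      (∀ x, M₀ < x → deriv (Mf ℓ) (W x) ≠ 0 ∧ HasDerivAt W (deriv (Mf ℓ) (W x))⁻¹ x) := by
  obtain ⟨M₀, W, hM₀, hWlom, hWlog, hMf, hcont⟩ := fix_pt hℓ h1 h2
  obtain ⟨R, hR⟩ := hℓ
  have hpi : (2 * (Real.pi : ℂ) * I) ≠ 0 := by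
    have := Real.pi_ne_zero
    simp [this]
  have hda : ∀ w ∈ Om R, HasDerivAt (Mf ℓ) ((I * exp w - deriv ℓ w) / (2 * Real.pi * I)) w := by
    intro w hw
    have hl : HasDerivAt ℓ (deriv ℓ w) w :=
      (hR.differentiableAt ((om_open R).mem_nhds hw)).hasDerivAt
    exact (((Complex.hasDerivAt_exp w).const_mul I).sub hl).div_const _
  have hev : ∀ᶠ w in lom, w ∈ Om R ∧ deriv (Mf ℓ) w ≠ 0 := by
    have e1 : ∀ᶠ w in lom, ‖deriv ℓ w - (κ : ℂ)‖ < 1 := by
      have := h2.eventually (Metric.ball_mem_nhds (κ : ℂ) one_pos)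
      filter_upwards [this] with w hw
      rwa [dist_eq_norm] at hw
    have e2 : ∀ᶠ w in lom, w ∈ Om (|κ| + 1) := om_mem _
    have e3 : ∀ᶠ w in lom, w ∈ Om R := om_mem _
    filter_upwards [e1, e2, e3] with w hw1 hw2 hw3
    refine ⟨hw3, ?_⟩
    rw [(hda w hw3).deriv]
    apply div_ne_zero _ hpi
    intro h0
    have h3 : I * exp w = deriv ℓ w := sub_eq_zero.mp h0
    have h4 : ‖I * exp w‖ = Real.exp w.re := by
      rw [norm_mul, Complex.norm_I, one_mul, Complex.norm_exp]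
    have h5 : ‖deriv ℓ w‖ ≤ |κ| + 1 := by
      have h6 : ‖deriv ℓ w‖ ≤ ‖deriv ℓ w - (κ : ℂ)‖ + ‖(κ : ℂ)‖ := by
        simpa using norm_add_le (deriv ℓ w - (κ : ℂ)) (κ : ℂ)
      have h7 : ‖(κ : ℂ)‖ = |κ| := by
        rw [Complex.norm_real, Real.norm_eq_abs]
      rw [h7] at h6
      linarith
    rw [h3] at h4
    have h8 : |κ| + 1 < w.re := hw2.1
    have h9 := Real.add_one_le_exp w.re
    linarith
  have hev2 := hWlom.eventually hev
  obtain ⟨M₁, hM₁⟩ := Filter.eventually_atTop.mp hev2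
  refine ⟨max M₀ M₁, W, lt_max_of_lt_left hM₀, hWlom, hWlog, ?_, ?_⟩
  · intro x hx
    exact hMf x (lt_of_le_of_lt (le_max_left _ _) hx)
  · intro x hx
    have hx0 : M₀ < x := lt_of_le_of_lt (le_max_left _ _) hx
    have hx1 : M₁ ≤ x := le_of_lt (lt_of_le_of_lt (le_max_right _ _) hx)
    obtain ⟨hw1, hw2⟩ := hM₁ x hx1
    refine ⟨hw2, ?_⟩
    have hd : HasDerivAt (Mf ℓ) (deriv (Mf ℓ) (W x)) (W x) :=
      (hda _ hw1).differentiableAt.hasDerivAt
    have hslope := hasDerivAt_iff_tendsto_slope.mp hd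
    have hev3 : ∀ᶠ x' in 𝓝[≠] x, x' ≠ x ∧ M₀ < x' := by
      have a1 : ∀ᶠ x' in 𝓝[≠] x, x' ≠ x := eventually_mem_nhdsWithin
      have a2 : ∀ᶠ x' in 𝓝[≠] x, M₀ < x' :=
        (lt_mem_nhds hx0).filter_mono nhdsWithin_le_nhds
      exact a1.and a2
    have hW' : Tendsto W (𝓝[≠] x) (𝓝[≠] (W x)) := by
      rw [tendsto_nhdsWithin_iff]
      refine ⟨(hcont x hx0).tendsto.mono_left nhdsWithin_le_nhds, ?_⟩
      filter_upwards [hev3] with x' hx'
      intro h
      apply hx'.1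
      have h' : W x' = W x := h
      have h3 := hMf x' hx'.2
      rw [h', hMf x hx0] at h3
      exact_mod_cast h3.symm
    have hlim := (hslope.comp hW').inv₀ hw2
    rw [hasDerivAt_iff_tendsto_slope]
    refine hlim.congr' ?_
    filter_upwards [hev3] with x' hx'
    simp only [Function.comp_apply, slope, vsub_eq_sub, smul_eq_mul]
    rw [hMf x' hx'.2, hMf x hx0, mul_inv, inv_inv, Complex.real_smul]
    push_cast
    ring

end XD
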