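import Pool.Agent.Lib.MP_228259_lc.D.EB3
import Pool.Agent.Lib.MP_228259_lc.D.EB1

/-!
XD-EB4: infinitely many exponential points of a curve given by `y ∈ Kt`.

PROOF. `exists_isLog hy`, `inv_fun`: `ℓ`, `M₀`, `W`. `ev_isPt ![sh, y]` gives `R`; with `sh_rep` and `IsLog.ex` enlarge `R` such
that `rep sh w = I * exp w`, `exp (ℓ w) = rep y w` on `Om R`. For natural `m` large `W m ∈ Om R`, `m > M₀`; from `Mf ℓ (W m) = m`:
`I * exp (W m) - ℓ (W m) = 2 π I m`, so with `b = I * exp (W m)`: `exp b = exp (ℓ (W m)) = rep y (W m)`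
(`Complex.exp_periodic`), and `![b, exp b] = fun i => rep (![sh, y] i) (W m)`. `‖b‖ = exp (Re (W m)) → ∞` (`lom ≤ comap re atTop`),
so the set is infinite (a finite set would be bounded).
-/

set_option autoImplicit false

namespace XD

open Complex Filter Topology Metric

theorem kt_pts {y : Kt} (hy : y ≠ 0) : {b : ℂ | XA.IsPt ![sh, y] ![b, exp b]}.Infinite := by
  obtain ⟨ℓ, κ, c₀, hℓ⟩ := exists_isLog hy
  obtain ⟨M₀, W, hM₀, hWlom, -, hMf, -⟩ := inv_fun hℓ.ea hℓ.lim hℓ.dlim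
  have h1 : ∀ᶠ w in lom, XA.IsPt ![sh, y] (fun i => rep (![sh, y] i) w) :=
    ev_iff.2 (ev_isPt ![sh, y])
  have hre : Tendsto (fun x : ℝ => (W x).re) atTop atTop := by
    have h2 : Tendsto Complex.re lom atTop := tendsto_comap.mono_left inf_le_left
    exact h2.comp hWlom
  intro hfin
  obtain ⟨C, hC⟩ := hfin.isBounded.exists_norm_le
  have h3 : ∀ᶠ x : ℝ in atTop, C < Real.exp (W x).re :=
    (Real.tendsto_exp_atTop.comp hre).eventually_gt_atTop C
  have hall := (hWlom.eventually (h1.and (sh_rep.and hℓ.ex))).and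
    (h3.and (eventually_gt_atTop M₀))
  obtain ⟨N, hN⟩ := eventually_atTop.1 hall
  obtain ⟨⟨hpt, hsh, hex⟩, hlarge, hM⟩ := hN (⌈N⌉₊ : ℝ) (Nat.le_ceil N)
  set w : ℂ := W (⌈N⌉₊ : ℝ) with hw
  have h4 := hMf _ hM
  rw [← hw] at h4
  unfold Mf at h4
  have hpi : (2 * (Real.pi : ℂ) * I) ≠ 0 := by
    have := Real.pi_ne_zero
    simp [this]
  rw [div_eq_iff hpi] at h4
  have h5 : I * exp w = ℓ w + (⌈N⌉₊ : ℕ) * (2 * Real.pi * I) := by
    push_cast at h4
    linear_combination h4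
  have h6 : exp (I * exp w) = rep y w := by
    rw [h5, Complex.exp_add, Complex.exp_nat_mul_two_pi_mul_I, mul_one]
    exact hex
  have hmem : I * exp w ∈ {b : ℂ | XA.IsPt ![sh, y] ![b, exp b]} := by
    show XA.IsPt ![sh, y] ![I * exp w, exp (I * exp w)]
    have h7 : (![I * exp w, exp (I * exp w)] : Fin 2 → ℂ) = fun i => rep (![sh, y] i) w := by
      funext i
      fin_cases i
      · exact hsh.symm
      · exact h6
    rw [h7]
    exact hpt
  have h8 := hC _ hmem
  rw [norm_mul, Complex.norm_I, one_mul, Complex.norm_exp] at h8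
  linarith

end XD
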