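import Pool.Agent.Lib.MP_228259_lc.D.EB4
import Pool.Agent.Lib.MP_228259_lc.D.AC

/-!
XD-EB5: exponential points of algebraic curves.

PROOF. The polynomial `l̂ ∈ Kt[T]` with the coefficients `aeval sh (l.coeff j)` has positive
degree (the leading coefficient is not `0` since `sh` is transcendental, `sh_trans`) and `l̂.coeff 0 ≠ 0`, so it has a root
`y ≠ 0` in `Kt` (`ff_closed base_Bt`, `IsAlgClosed.exists_root`). `kt_pts`; for `b` in this set the polynomial
`∑ (l.coeff j)(X₀) X₁ ^ j ∈ MvPolynomial (Fin 2) ℂ`, which vanishes at `![sh, y]`, vanishes at `![b, exp b]`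
(definition of `XA.IsPt`), i.e. `l.evalEval b (exp b) = 0`. `Set.Infinite.mono`.
-/

set_option autoImplicit false

namespace XD

open Complex Filter Topology Metric

theorem exp_pts {l : Polynomial (Polynomial ℂ)} (h1 : 0 < l.natDegree) (h0 : l.coeff 0 ≠ 0) :
    {b : ℂ | l.evalEval b (exp b) = 0}.Infinite := by
  have hac : IsAlgClosed Kt := ff_closed base_Bt
  obtain ⟨g, hg⟩ : ∃ g : Polynomial ℂ →+* Kt,
    g = ((Polynomial.aeval sh : Polynomial ℂ →ₐ[ℂ] Kt) : Polynomial ℂ →+* Kt) := ⟨_, rfl⟩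
  have hinj : Function.Injective g := by
    rw [hg]
    exact transcendental_iff_injective.1 sh_trans
  have hdeg : (l.map g).degree ≠ 0 := by
    intro h2
    have h3 : (l.map g).natDegree = 0 := Polynomial.natDegree_eq_zero_iff_degree_le_zero.2 h2.le
    rw [Polynomial.natDegree_map_eq_of_injective hinj] at h3
    omega
  obtain ⟨y, hy⟩ := IsAlgClosed.exists_root (l.map g) hdeg
  have hy0 : y ≠ 0 := by
    rintro rfl
    rw [Polynomial.IsRoot.def, ← Polynomial.coeff_zero_eq_eval_zero, Polynomial.coeff_map] at hy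
    exact h0 (hinj (hy.trans (map_zero g).symm))
  refine (kt_pts hy0).mono ?_
  intro b hb
  obtain ⟨f, hf⟩ : ∃ f : MvPolynomial (Fin 2) ℂ, f = l.eval₂
    ((Polynomial.aeval (MvPolynomial.X 0) : Polynomial ℂ →ₐ[ℂ] MvPolynomial (Fin 2) ℂ) :
      Polynomial ℂ →+* MvPolynomial (Fin 2) ℂ) (MvPolynomial.X 1) := ⟨_, rfl⟩
  have h2 : MvPolynomial.aeval ![sh, y] f = 0 := by
    have h3 := Polynomial.hom_eval₂ l
      ((Polynomial.aeval (MvPolynomial.X 0) : Polynomial ℂ →ₐ[ℂ] MvPolynomial (Fin 2) ℂ) :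
        Polynomial ℂ →+* MvPolynomial (Fin 2) ℂ)
      ((MvPolynomial.aeval ![sh, y] : MvPolynomial (Fin 2) ℂ →ₐ[ℂ] Kt) :
        MvPolynomial (Fin 2) ℂ →+* Kt) (MvPolynomial.X 1)
    have h4 : ((MvPolynomial.aeval ![sh, y] : MvPolynomial (Fin 2) ℂ →ₐ[ℂ] Kt) :
        MvPolynomial (Fin 2) ℂ →+* Kt).comp
        ((Polynomial.aeval (MvPolynomial.X 0) : Polynomial ℂ →ₐ[ℂ] MvPolynomial (Fin 2) ℂ) :
          Polynomial ℂ →+* MvPolynomial (Fin 2) ℂ) = g := by
      rw [hg]
      apply Polynomial.ringHom_ext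
      · intro a
        simp
      · simp
    rw [h4, ← hf] at h3
    refine h3.trans ?_
    rw [← Polynomial.eval_map]
    have h5 : ((MvPolynomial.aeval ![sh, y] : MvPolynomial (Fin 2) ℂ →ₐ[ℂ] Kt) :
        MvPolynomial (Fin 2) ℂ →+* Kt) (MvPolynomial.X 1) = y := by simp
    rw [h5]
    exact hy
  have h6 := hb f h2
  have h7 := Polynomial.hom_eval₂ l
    ((Polynomial.aeval (MvPolynomial.X 0) : Polynomial ℂ →ₐ[ℂ] MvPolynomial (Fin 2) ℂ) :
      Polynomial ℂ →+* MvPolynomial (Fin 2) ℂ)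
    (MvPolynomial.eval ![b, exp b]) (MvPolynomial.X 1)
  have h8 : (MvPolynomial.eval ![b, exp b]).comp
      ((Polynomial.aeval (MvPolynomial.X 0) : Polynomial ℂ →ₐ[ℂ] MvPolynomial (Fin 2) ℂ) :
        Polynomial ℂ →+* MvPolynomial (Fin 2) ℂ) = Polynomial.evalRingHom b := by
    apply Polynomial.ringHom_ext
    · intro a
      simp
    · simp
  rw [h8, ← hf, h6, MvPolynomial.eval_X] at h7
  change l.evalEval b (exp b) = 0
  rw [← Polynomial.eval₂_evalRingHom]
  exact h7.symm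

end XD
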