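import Mathlib

/-!
XD-FCo: polynomials in two variables without common factor have finitely many common zeros (first
coordinates).

PROOF of `fin_common_fam`. Let `Q = RatFunc ℂ` (or `FractionRing ℂ[X]`) and `I ⊆ Q[Y]` the ideal generated by the images of the
`γ k`. `Q[Y]` is a principal ideal domain: `I = (δ)`. `δ ≠ 0` (otherwise all `γ k = 0` and `h 0` fails). If `δ` is not a unit,
let `d ∈ ℂ[X][Y]` be primitive with `δ = c d` in `Q[Y]` (`IsLocalization.integerNormalization`,
`Polynomial.primPart`), `natDegree d > 0`; by Gauss' lemma (`Polynomial.IsPrimitive.dvd_of_fraction_map_dvd_fraction_map`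
or `Polynomial.IsPrimitive.Int...` general version) `d ∣ γ k` for all `k`, so `d` is a unit, a contradiction. So
`1 = ∑ A_k γ_k` in `Q[Y]`; clearing denominators `C g = ∑ A'_k γ_k` with `g ∈ ℂ[X]`, `g ≠ 0`,
`A'_k ∈ ℂ[X][Y]`. A common zero `(b, y)` has `g.eval b = 0`: finitely many `b`.
`fin_common`: the family of the two polynomials.
-/

set_option autoImplicit false

namespace XD

open Polynomial

theorem fco_top {R : Type} [CommRing R] [IsDomain R] [NormalizedGCDMonoid R]
    {κ : Type} {γ : κ → R[X]} (h : ∀ d, (∀ k, d ∣ γ k) → IsUnit d) :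
    Ideal.span (Set.range (fun k => (γ k).map (algebraMap R (FractionRing R)))) = ⊤ := by
  by_contra hne
  obtain ⟨M, hM, hle⟩ := Ideal.exists_le_maximal _ hne
  obtain ⟨δ, hδ⟩ := (IsPrincipalIdealRing.principal M).principal
  have hδM : M = Ideal.span {δ} := hδ
  have hdiv : ∀ k, δ ∣ (γ k).map (algebraMap R (FractionRing R)) := by
    intro k
    have : (γ k).map (algebraMap R (FractionRing R)) ∈ M :=
      hle (Ideal.subset_span ⟨k, rfl⟩)
    rw [hδM, Ideal.mem_span_singleton] at this
    exact this
  have hinj : Function.Injective (algebraMap R (FractionRing R)) :=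
    IsFractionRing.injective R (FractionRing R)
  by_cases h0 : δ = 0
  · have hz : ∀ k, (0 : R[X]) ∣ γ k := by
      intro k
      have := hdiv k
      rw [h0, zero_dvd_iff] at this
      rw [zero_dvd_iff]
      exact (Polynomial.map_eq_zero_iff hinj).1 this
    exact not_isUnit_zero (h 0 hz)
  have hnu : ¬ IsUnit δ := by
    intro hu
    apply hM.ne_top
    rw [hδM, Ideal.span_singleton_eq_top]
    exact hu
  obtain ⟨b, hbM, hb⟩ := IsLocalization.integerNormalization_spec (nonZeroDivisors R) δ
  set e := IsLocalization.integerNormalization (nonZeroDivisors R) δ with he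
  have hbne : algebraMap R (FractionRing R) b ≠ 0 := by
    rw [Ne, IsFractionRing.to_map_eq_zero_iff]
    exact nonZeroDivisors.ne_zero hbM
  have hb' : e.map (algebraMap R (FractionRing R)) = C (algebraMap R (FractionRing R) b) * δ := by
    rw [hb, ← Polynomial.smul_eq_C_mul]
    ext i
    simp [Algebra.smul_def]
  have hen : e ≠ 0 := by
    intro h1
    rw [h1, Polynomial.map_zero] at hb'
    have := mul_eq_zero.1 hb'.symm
    rcases this with h2 | h2
    · exact hbne (Polynomial.C_eq_zero.1 h2)
    · exact h0 h2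
  have hcont : e.content ≠ 0 := by rwa [Ne, content_eq_zero_iff]
  have hassoc : e.primPart.map (algebraMap R (FractionRing R)) ∣ δ := by
    have hu : IsUnit (C (algebraMap R (FractionRing R) b)) := by
      rw [Polynomial.isUnit_C, isUnit_iff_ne_zero]; exact hbne
    rw [← hu.dvd_mul_left (a := e.primPart.map (algebraMap R (FractionRing R))), ← hb']
    exact (Polynomial.map_dvd _ e.primPart_dvd)
  have hd : IsUnit e.primPart := by
    apply h
    intro k
    exact e.isPrimitive_primPart.dvd_of_fraction_map_dvd_fraction_map (hassoc.trans (hdiv k))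
  have hdeg : e.primPart.natDegree = 0 := Polynomial.natDegree_eq_zero_of_isUnit hd
  rw [Polynomial.natDegree_primPart] at hdeg
  have hdδ : δ.natDegree = 0 := by
    have h1 : (e.map (algebraMap R (FractionRing R))).natDegree = e.natDegree :=
      Polynomial.natDegree_map_eq_of_injective hinj e
    rw [hb', Polynomial.natDegree_C_mul hbne, hdeg] at h1
    exact h1
  rw [Polynomial.natDegree_eq_zero] at hdδ
  obtain ⟨x, hx⟩ := hdδ
  apply hnu
  rw [← hx, Polynomial.isUnit_C, isUnit_iff_ne_zero]
  rintro rfl
  apply h0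
  rw [← hx, map_zero]

attribute [local instance] Polynomial.algebra Polynomial.isLocalization in
theorem fco_mem {R : Type} [CommRing R] [IsDomain R] [NormalizedGCDMonoid R]
    {κ : Type} {γ : κ → R[X]} (h : ∀ d, (∀ k, d ∣ γ k) → IsUnit d) :
    ∃ g : R, g ≠ 0 ∧ C g ∈ Ideal.span (Set.range γ) := by
  have ht := fco_top h
  have hm : Ideal.map (Polynomial.mapRingHom (algebraMap R (FractionRing R)))
      (Ideal.span (Set.range γ)) = ⊤ := by
    rw [Ideal.map_span, ← Set.range_comp]
    exact ht
  have h1 : (1 : (FractionRing R)[X]) ∈ Ideal.map (algebraMap R[X] (FractionRing R)[X])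
      (Ideal.span (Set.range γ)) := by
    have : (algebraMap R[X] (FractionRing R)[X])
        = Polynomial.mapRingHom (algebraMap R (FractionRing R)) := rfl
    rw [this, hm]
    trivial
  rw [IsLocalization.mem_map_algebraMap_iff (Submonoid.map (C : R →+* R[X]) (nonZeroDivisors R))
    (FractionRing R)[X]] at h1
  obtain ⟨⟨⟨a, ha⟩, ⟨m, hm⟩⟩, e⟩ := h1
  obtain ⟨g, hg, rfl⟩ := hm
  refine ⟨g, nonZeroDivisors.ne_zero hg, ?_⟩
  have hinj : Function.Injective (algebraMap R[X] (FractionRing R)[X]) := by
    have : (algebraMap R[X] (FractionRing R)[X])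
        = Polynomial.mapRingHom (algebraMap R (FractionRing R)) := rfl
    rw [this]
    exact Polynomial.map_injective _ (IsFractionRing.injective R (FractionRing R))
  have e' : (C g : R[X]) = a := by
    apply hinj
    simpa using e
  rw [e']
  exact ha

theorem fin_common_fam {κ : Type} [Finite κ] {γ : κ → Polynomial (Polynomial ℂ)}
    (h : ∀ d, (∀ k, d ∣ γ k) → IsUnit d) :
    {b : ℂ | ∃ y : ℂ, ∀ k, (γ k).evalEval b y = 0}.Finite := by
  let _ : NormalizedGCDMonoid (Polynomial ℂ) :=
    Classical.choice (inferInstance : Nonempty (NormalizedGCDMonoid (Polynomial ℂ)))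
  obtain ⟨g, hg0, hg⟩ := fco_mem h
  refine Set.Finite.subset (g.roots.toFinset.finite_toSet) ?_
  rintro b ⟨y, hy⟩
  have hle : Ideal.span (Set.range γ) ≤ RingHom.ker (Polynomial.evalEvalRingHom b y) := by
    rw [Ideal.span_le]
    rintro _ ⟨k, rfl⟩
    simpa [RingHom.mem_ker] using hy k
  have h1 := hle hg
  rw [RingHom.mem_ker] at h1
  have h2 : g.eval b = 0 := by
    simpa using h1
  simp [hg0, h2]

theorem fin_common {p q : Polynomial (Polynomial ℂ)} (hpq : IsRelPrime p q) :
    {b : ℂ | ∃ y : ℂ, p.evalEval b y = 0 ∧ q.evalEval b y = 0}.Finite := by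
  have h := fin_common_fam (κ := Bool) (γ := fun k => if k then p else q) (by
    intro d hd
    exact hpq (by simpa using hd true) (by simpa using hd false))
  refine h.subset ?_
  rintro b ⟨y, h1, h2⟩
  refine ⟨y, fun k => ?_⟩
  cases k
  · simpa using h2
  · simpa using h1

end XD
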