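import Pool.Agent.Lib.MP_228259_lc.D.FF

/-!
XD-FD: the derivation `d/du` of the field of germs; evaluation far out.

PROOF. `ffder_exists`: `D a = toF (deriv (rep a))` (`h.der`), additive and Leibniz by `deriv_congr`,
`deriv_add`, `deriv_mul`, `rep_add`, `rep_mul`; `D (algebraMap c) = 0`; use `Derivation.mk'`
(linear over `ℂ`: `D (c • a) = c • D a` from the Leibniz rule with a constant).
`fder_const`: `const_of_deriv`. `ev_isPt`: choose `R` such that all `rep (a i)` (`ι` finite) are
differentiable on `Om R`. For `f` with `aeval a f = 0` the function `u ↦ eval (fun i => rep (a i) u) f` is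
differentiable on `Om R` and eventually equal to `rep (aeval a f) = rep 0 = 0` (`rep_aeval`), so it
vanishes on `Om R` (`eqOn`).
-/

set_option autoImplicit false

namespace XD

open Complex Filter Topology Metric

variable {L : Set (ℂ → ℂ)}

private noncomputable def FD_D (h : TF L) (a : FF h) : FF h :=
  toF h (deriv (rep a)) (h.der _ (rep_mem a))

private theorem FD_rep {h : TF L} (a : FF h) : rep (FD_D h a) =ᶠ[lom] deriv (rep a) :=
  rep_toF _

private theorem FD_add {h : TF L} (a b : FF h) : FD_D h (a + b) = FD_D h a + FD_D h b := by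
  rw [rep_inj]
  refine (FD_rep (a + b)).trans ?_
  refine (deriv_congr (rep_add a b)).trans ?_
  refine (deriv_add (h.ea _ (rep_mem a)) (h.ea _ (rep_mem b))).trans ?_
  refine EventuallyEq.trans ?_ (rep_add (FD_D h a) (FD_D h b)).symm
  filter_upwards [FD_rep a, FD_rep b] with u h1 h2
  rw [h1, h2]

private theorem FD_smul {h : TF L} (c : ℂ) (a : FF h) : FD_D h (c • a) = c • FD_D h a := by
  have e1 : c • a = algebraMap ℂ (FF h) c * a := Algebra.smul_def c a
  have e2 : c • FD_D h a = algebraMap ℂ (FF h) c * FD_D h a := Algebra.smul_def c _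
  rw [e1, e2, rep_inj]
  refine (FD_rep _).trans ?_
  have e3 : rep (algebraMap ℂ (FF h) c * a) =ᶠ[lom] fun u => (fun _ : ℂ => c) u * rep a u := by
    refine (rep_mul _ _).trans ?_
    filter_upwards [rep_cst (h := h) c] with u h1
    rw [h1]
  refine (deriv_congr e3).trans ?_
  refine (deriv_mul (EA.cst c) (h.ea _ (rep_mem a))).trans ?_
  refine EventuallyEq.trans ?_ (rep_mul (algebraMap ℂ (FF h) c) (FD_D h a)).symm
  filter_upwards [FD_rep a, rep_cst (h := h) c] with u h1 h2
  rw [h1, h2, deriv_const, zero_mul, zero_add]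

private theorem FD_leib {h : TF L} (a b : FF h) :
    FD_D h (a * b) = a • FD_D h b + b • FD_D h a := by
  rw [smul_eq_mul, smul_eq_mul, rep_inj]
  refine (FD_rep _).trans ?_
  refine (deriv_congr (rep_mul a b)).trans ?_
  refine (deriv_mul (h.ea _ (rep_mem a)) (h.ea _ (rep_mem b))).trans ?_
  refine EventuallyEq.trans ?_ (rep_add _ _).symm
  filter_upwards [FD_rep a, FD_rep b, rep_mul a (FD_D h b), rep_mul b (FD_D h a)] with u h1 h2 h3 h4
  rw [h3, h4, h1, h2]
  ring

theorem ffder_exists (h : TF L) : ∃ D : Derivation ℂ (FF h) (FF h), ∀ a : FF h,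
    rep (D a) =ᶠ[lom] deriv (rep a) := by
  let l : FF h →ₗ[ℂ] FF h :=
    { toFun := FD_D h
      map_add' := FD_add
      map_smul' := fun c a => FD_smul c a }
  have h1 : l 1 = 0 := by
    have h2 : FD_D h (1 * 1) = (1 : FF h) • FD_D h 1 + (1 : FF h) • FD_D h 1 := FD_leib 1 1
    rw [one_mul, smul_eq_mul, one_mul] at h2
    have h3 : FD_D h 1 + 0 = FD_D h 1 + FD_D h 1 := by rw [add_zero]; exact h2
    exact (add_left_cancel h3).symm
  exact ⟨{ toLinearMap := l, map_one_eq_zero' := h1, leibniz' := fun a b => FD_leib a b },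
    fun a => FD_rep a⟩

/-- the derivation `d/du` -/
noncomputable def fder (h : TF L) : Derivation ℂ (FF h) (FF h) := (ffder_exists h).choose

theorem rep_fder {h : TF L} (a : FF h) : rep (fder h a) =ᶠ[lom] deriv (rep a) :=
  (ffder_exists h).choose_spec a

theorem fder_const {h : TF L} {a : FF h} (ha : fder h a = 0) : ∃ c : ℂ, a = algebraMap ℂ _ c := by
  have h1 : deriv (rep a) =ᶠ[lom] 0 := (rep_fder a).symm.trans (rep_zero.1 ha)
  obtain ⟨c, hc⟩ := const_of_deriv (h.ea _ (rep_mem a)) h1
  refine ⟨c, ?_⟩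
  rw [rep_inj]
  exact hc.trans (rep_cst c).symm

private theorem FD_diff {ι : Type*} (g : ι → ℂ → ℂ) (R : ℝ)
    (hg : ∀ i, DifferentiableOn ℂ (g i) (Om R)) (f : MvPolynomial ι ℂ) :
    DifferentiableOn ℂ (fun u => MvPolynomial.eval (fun i => g i u) f) (Om R) := by
  induction f using MvPolynomial.induction_on with
  | C c =>
    simp only [MvPolynomial.eval_C]
    exact differentiableOn_const c
  | add p q hp hq =>
    simp only [map_add]
    exact hp.add hq
  | mul_X p i hp =>
    simp only [map_mul, MvPolynomial.eval_X]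
    exact hp.mul (hg i)

/-- evaluation far out gives specialisations -/
theorem ev_isPt {h : TF L} {ι : Type*} [Finite ι] (a : ι → FF h) :
    ∃ R : ℝ, ∀ u ∈ Om R, XA.IsPt a (fun i => rep (a i) u) := by
  classical
  have : Fintype ι := Fintype.ofFinite ι
  have h1 : ∀ i, ∃ R : ℝ, DifferentiableOn ℂ (rep (a i)) (Om R) := fun i => h.ea _ (rep_mem (a i))
  choose Rf hRf using h1
  obtain ⟨R, hR⟩ : ∃ R : ℝ, ∀ i, Rf i ≤ R := by
    obtain ⟨R, hR⟩ := (Set.finite_range Rf).bddAbove
    exact ⟨R, fun i => hR ⟨i, rfl⟩⟩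
  refine ⟨R, fun u hu f hf => ?_⟩
  have h2 : ∀ i, DifferentiableOn ℂ (rep (a i)) (Om R) := fun i => (hRf i).mono (om_mono (hR i))
  have h3 := FD_diff (fun i => rep (a i)) R h2 f
  have h4 : (fun u => MvPolynomial.eval (fun i => rep (a i) u) f) =ᶠ[lom] fun _ => (0 : ℂ) :=
    (rep_aeval a f).symm.trans (rep_zero.1 hf)
  exact eqOn h3 (differentiableOn_const 0) h4 hu

end XD
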