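import Pool.Agent.Lib.MP_228259_lc.D.LT
import Pool.Agent.Lib.MP_228259_lc.A.AD

/-!
XD-FF: the field of germs of a tame field of functions.

PROOF. `IL_max`: let `f ∈ L` not be eventually `0`; then `f` has a size (`tame`), so `f` is eventually
non-zero (`Sz.ne`) and `f * f⁻¹ - 1` is eventually `0`, `f⁻¹ ∈ L` (`h.inv`): the class of `f` is a unit
(`Ideal.Quotient.maximal_of_isField` or `Ideal.isMaximal_iff`); `1 ∉ IL` by `lom_neBot`.
`rep_*`: `rep a` is a representative: `Ideal.Quotient.mk _ (rep a) = a`, and two representatives of the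
same class are eventually equal (`Ideal.Quotient.eq`). `rep_sz`: `Tame` and `rep_zero`. `rep_aeval`:
`MvPolynomial.induction_on`; `rep_poly`: `Polynomial.eval_eq_sum_range`, `rep_sum`.
-/

set_option autoImplicit false

namespace XD

open Complex Filter Topology Metric

/-- the functions of a tame field as a ring -/
def AL {L : Set (ℂ → ℂ)} (h : TF L) : Subalgebra ℂ (ℂ → ℂ) where
  carrier := L
  add_mem' := fun {f g} hf hg => h.add f hf g hg
  mul_mem' := fun {f g} hf hg => h.mul f hf g hg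
  algebraMap_mem' := fun c => h.cst c

/-- those vanishing near infinity -/
def IL {L : Set (ℂ → ℂ)} (h : TF L) : Ideal (AL h) where
  carrier := {f | (f : ℂ → ℂ) =ᶠ[lom] 0}
  add_mem' := by
    intro f g hf hg
    change ((f + g : AL h) : ℂ → ℂ) =ᶠ[lom] 0
    have h1 : (f : ℂ → ℂ) =ᶠ[lom] 0 := hf
    have h2 : (g : ℂ → ℂ) =ᶠ[lom] 0 := hg
    filter_upwards [h1, h2] with u h3 h4
    change (f : ℂ → ℂ) u + (g : ℂ → ℂ) u = 0
    rw [h3, h4]
    simp
  zero_mem' := by
    change ((0 : AL h) : ℂ → ℂ) =ᶠ[lom] 0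
    exact Filter.EventuallyEq.rfl
  smul_mem' := by
    intro f g hg
    change ((f • g : AL h) : ℂ → ℂ) =ᶠ[lom] 0
    have h1 : (g : ℂ → ℂ) =ᶠ[lom] 0 := hg
    filter_upwards [h1] with u h3
    change (f : ℂ → ℂ) u * (g : ℂ → ℂ) u = 0
    rw [h3]
    simp

theorem mem_IL {L : Set (ℂ → ℂ)} (h : TF L) (f : AL h) : f ∈ IL h ↔ (f : ℂ → ℂ) =ᶠ[lom] 0 :=
  Iff.rfl

instance IL_max {L : Set (ℂ → ℂ)} (h : TF L) : (IL h).IsMaximal := by
  rw [Ideal.isMaximal_iff]
  constructor
  · intro h1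
    have h2 : ((1 : AL h) : ℂ → ℂ) =ᶠ[lom] 0 := h1
    obtain ⟨u, hu⟩ := h2.exists
    change (1 : ℂ) = 0 at hu
    exact one_ne_zero hu
  · intro J f hJ hf hfJ
    have h3 : ¬ (f : ℂ → ℂ) =ᶠ[lom] 0 := hf
    rcases h.tame _ f.2 with h4 | ⟨r, s, c, h4⟩
    · exact absurd h4 h3
    · have h5 := h4.ne
      let g : AL h := ⟨fun u => ((f : ℂ → ℂ) u)⁻¹, h.inv _ f.2⟩
      have h6 : (1 - f * g) ∈ IL h := by
        rw [mem_IL]
        filter_upwards [h5] with u hu
        change (1 : ℂ) - (f : ℂ → ℂ) u * ((f : ℂ → ℂ) u)⁻¹ = 0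
        rw [mul_inv_cancel₀ hu, sub_self]
      have h7 : (1 : AL h) = (1 - f * g) + f * g := by ring
      rw [h7]
      exact J.add_mem (hJ h6) (J.mul_mem_right g hfJ)

/-- the field of germs -/
def FF {L : Set (ℂ → ℂ)} (h : TF L) : Type := AL h ⧸ IL h

noncomputable instance {L : Set (ℂ → ℂ)} (h : TF L) : Field (FF h) :=
  Ideal.Quotient.field (IL h)

noncomputable instance {L : Set (ℂ → ℂ)} (h : TF L) : Algebra ℂ (FF h) :=
  inferInstanceAs (Algebra ℂ (AL h ⧸ IL h))

variable {L : Set (ℂ → ℂ)}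

/-- the germ of a function of `L` -/
noncomputable def toF (h : TF L) (f : ℂ → ℂ) (hf : f ∈ L) : FF h :=
  (Ideal.Quotient.mkₐ ℂ (IL h) ⟨f, hf⟩ : AL h ⧸ IL h)

theorem toF_surj (h : TF L) (a : FF h) : ∃ (f : ℂ → ℂ) (hf : f ∈ L), toF h f hf = a := by
  obtain ⟨⟨f, hf⟩, hx⟩ := Ideal.Quotient.mkₐ_surjective ℂ (IL h) a
  exact ⟨f, hf, hx⟩

/-- a representative -/
noncomputable def rep {h : TF L} (a : FF h) : ℂ → ℂ := (toF_surj h a).choose

theorem rep_mem {h : TF L} (a : FF h) : rep a ∈ L := (toF_surj h a).choose_spec.choose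

theorem toF_rep {h : TF L} (a : FF h) : toF h (rep a) (rep_mem a) = a :=
  (toF_surj h a).choose_spec.choose_spec

theorem toF_eq_iff (h : TF L) {f g : ℂ → ℂ} (hf : f ∈ L) (hg : g ∈ L) :
    toF h f hf = toF h g hg ↔ f =ᶠ[lom] g := by
  have h1 : toF h f hf = toF h g hg ↔ ((⟨f, hf⟩ : AL h) - ⟨g, hg⟩) ∈ IL h :=
    Ideal.Quotient.eq
  rw [h1, mem_IL]
  constructor
  · intro h2
    filter_upwards [h2] with u hu
    change f u - g u = 0 at hu
    exact sub_eq_zero.1 hu
  · intro h2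
    filter_upwards [h2] with u hu
    change f u - g u = 0
    rw [hu, sub_self]

theorem rep_toF {h : TF L} {f : ℂ → ℂ} (hf : f ∈ L) : rep (toF h f hf) =ᶠ[lom] f :=
  (toF_eq_iff h (rep_mem _) hf).1 (toF_rep _)

theorem toF_inj {h : TF L} {f g : ℂ → ℂ} (hf : f ∈ L) (hg : g ∈ L) :
    toF h f hf = toF h g hg ↔ f =ᶠ[lom] g := toF_eq_iff h hf hg

theorem rep_inj {h : TF L} {a b : FF h} : a = b ↔ rep a =ᶠ[lom] rep b := by
  rw [← toF_eq_iff h (rep_mem a) (rep_mem b), toF_rep, toF_rep]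

theorem toF_add (h : TF L) {f g : ℂ → ℂ} (hf : f ∈ L) (hg : g ∈ L) :
    toF h f hf + toF h g hg = toF h (fun u => f u + g u) (h.add f hf g hg) := rfl

theorem toF_mul (h : TF L) {f g : ℂ → ℂ} (hf : f ∈ L) (hg : g ∈ L) :
    toF h f hf * toF h g hg = toF h (fun u => f u * g u) (h.mul f hf g hg) := rfl

theorem toF_cst (h : TF L) (c : ℂ) :
    algebraMap ℂ (FF h) c = toF h (fun _ => c) (h.cst c) := rfl

theorem toF_zero (h : TF L) : (0 : FF h) = toF h (fun _ => 0) (h.cst 0) := by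
  rw [← toF_cst, map_zero]

theorem toF_one (h : TF L) : (1 : FF h) = toF h (fun _ => 1) (h.cst 1) := by
  rw [← toF_cst, map_one]

theorem rep_add {h : TF L} (a b : FF h) : rep (a + b) =ᶠ[lom] fun u => rep a u + rep b u := by
  have h1 : a + b = toF h (fun u => rep a u + rep b u) (h.add _ (rep_mem a) _ (rep_mem b)) := by
    rw [← toF_add h (rep_mem a) (rep_mem b), toF_rep, toF_rep]
  rw [h1]
  exact rep_toF _

theorem rep_sub {h : TF L} (a b : FF h) : rep (a - b) =ᶠ[lom] fun u => rep a u - rep b u := by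
  have h1 := rep_add (a - b) b
  rw [sub_add_cancel] at h1
  filter_upwards [h1] with u hu
  rw [hu, add_sub_cancel_right]

theorem rep_mul {h : TF L} (a b : FF h) : rep (a * b) =ᶠ[lom] fun u => rep a u * rep b u := by
  have h1 : a * b = toF h (fun u => rep a u * rep b u) (h.mul _ (rep_mem a) _ (rep_mem b)) := by
    rw [← toF_mul h (rep_mem a) (rep_mem b), toF_rep, toF_rep]
  rw [h1]
  exact rep_toF _

theorem rep_cst' {h : TF L} (c : ℂ) : rep (algebraMap ℂ (FF h) c) =ᶠ[lom] fun _ => c := by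
  rw [toF_cst]
  exact rep_toF _

theorem rep_zero' {h : TF L} {a : FF h} : a = 0 ↔ rep a =ᶠ[lom] 0 := by
  have h1 : rep (0 : FF h) =ᶠ[lom] 0 := by
    rw [toF_zero]
    exact rep_toF _
  rw [rep_inj]
  exact ⟨fun h2 => h2.trans h1, fun h2 => h2.trans h1.symm⟩

theorem rep_one' {h : TF L} : rep (1 : FF h) =ᶠ[lom] fun _ => 1 := by
  rw [toF_one]
  exact rep_toF _

theorem rep_inv {h : TF L} (a : FF h) : rep a⁻¹ =ᶠ[lom] fun u => (rep a u)⁻¹ := by
  by_cases ha : a = 0
  · have h1 : rep a =ᶠ[lom] 0 := rep_zero'.1 ha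
    have h2 : rep a⁻¹ =ᶠ[lom] 0 := rep_zero'.1 (by rw [ha, inv_zero])
    filter_upwards [h1, h2] with u h3 h4
    rw [h3, h4]
    simp
  · have h1 := rep_mul a a⁻¹
    rw [mul_inv_cancel₀ ha] at h1
    have h2 := rep_one' (h := h)
    filter_upwards [h1, h2] with u h3 h4
    rw [h4] at h3
    exact eq_inv_of_mul_eq_one_right h3.symm

theorem rep_pow {h : TF L} (a : FF h) (n : ℕ) : rep (a ^ n) =ᶠ[lom] fun u => rep a u ^ n := by
  induction n with
  | zero =>
    simp only [pow_zero]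
    exact rep_one'
  | succ n ih =>
    have h1 := rep_mul (a ^ n) a
    rw [← pow_succ] at h1
    filter_upwards [h1, ih] with u h2 h3
    rw [h2, h3, pow_succ]

theorem rep_cst {h : TF L} (c : ℂ) : rep (algebraMap ℂ (FF h) c) =ᶠ[lom] fun _ => c :=
  rep_cst' c

theorem rep_zero {h : TF L} {a : FF h} : a = 0 ↔ rep a =ᶠ[lom] 0 := rep_zero'

theorem rep_sum {h : TF L} {ι : Type*} (s : Finset ι) (a : ι → FF h) :
    rep (∑ i ∈ s, a i) =ᶠ[lom] fun u => ∑ i ∈ s, rep (a i) u := by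
  classical
  induction s using Finset.induction_on with
  | empty =>
    simp only [Finset.sum_empty]
    exact rep_zero.1 rfl
  | insert i s hi ih =>
    rw [Finset.sum_insert hi]
    filter_upwards [rep_add (a i) (∑ i ∈ s, a i), ih] with u h2 h3
    rw [h2, h3, Finset.sum_insert hi]

theorem rep_aeval {h : TF L} {ι : Type*} (a : ι → FF h) (f : MvPolynomial ι ℂ) :
    rep (MvPolynomial.aeval a f) =ᶠ[lom] fun u => MvPolynomial.eval (fun i => rep (a i) u) f := by
  induction f using MvPolynomial.induction_on with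
  | C c =>
    rw [MvPolynomial.aeval_C]
    filter_upwards [rep_cst (h := h) c] with u hu
    rw [hu, MvPolynomial.eval_C]
  | add p q hp hq =>
    rw [map_add]
    filter_upwards [rep_add (MvPolynomial.aeval a p) (MvPolynomial.aeval a q), hp, hq]
      with u h1 h2 h3
    rw [h1, h2, h3, map_add]
  | mul_X p i hp =>
    rw [map_mul, MvPolynomial.aeval_X]
    filter_upwards [rep_mul (MvPolynomial.aeval a p) (a i), hp] with u h1 h2
    rw [h1, h2, map_mul, MvPolynomial.eval_X]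

theorem rep_poly {h : TF L} (f : Polynomial (FF h)) (a : FF h) :
    rep (f.eval a) =ᶠ[lom] fun u => ∑ i ∈ Finset.range (f.natDegree + 1),
      rep (f.coeff i) u * rep a u ^ i := by
  rw [Polynomial.eval_eq_sum_range]
  have h1 : ∀ i ∈ Finset.range (f.natDegree + 1),
      ∀ᶠ u in lom, rep (f.coeff i * a ^ i) u = rep (f.coeff i) u * rep a u ^ i := by
    intro i _
    filter_upwards [rep_mul (f.coeff i) (a ^ i), rep_pow a i] with u h2 h3
    rw [h2, h3]
  have h4 := (Filter.eventually_all_finset _).2 h1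
  filter_upwards [rep_sum (Finset.range (f.natDegree + 1)) (fun i => f.coeff i * a ^ i), h4]
    with u h5 h6
  rw [h5]
  exact Finset.sum_congr rfl h6

theorem rep_tame {h : TF L} (a : FF h) : Tame (rep a) := h.tame _ (rep_mem a)

theorem rep_sz {h : TF L} {a : FF h} (ha : a ≠ 0) : ∃ r s c, Sz (rep a) r s c := by
  rcases rep_tame a with h1 | h1
  · exact absurd (rep_zero.2 h1) ha
  · exact h1

end XD
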