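import Pool.Agent.Lib.MP_228259_lc.D.OE

/-!
XD-GR: the ring `GG` of germs at infinity of functions analytic in the sector: functions `f` with
`EA f` modulo functions vanishing near infinity. It is an integral domain with a derivation.

PROOF. The closure properties are `EA.cst`, `EA.add`, `EA.mul`; `II` is an ideal
(`Filter.EventuallyEq` lemmas). `gg_domain`: `II` is prime: `eq0_of_mul`, and `1 ∉ II` (`lom_neBot`);
`Ideal.Quotient.isDomain`. `gder`: `deriv` is well defined modulo `II` (`deriv_congr`), additive and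
satisfies the Leibniz rule (`deriv_add`, `deriv_mul`), kills constants; build it with
`Quotient.out`/`Ideal.Quotient.mk_surjective` and `Derivation.mk'` as in the statement.
-/

set_option autoImplicit false

namespace XD

open Complex Filter Topology Metric

/-- functions analytic near infinity -/
def AA : Subalgebra ℂ (ℂ → ℂ) where
  carrier := {f | EA f}
  add_mem' := fun hf hg => EA.add hf hg
  mul_mem' := fun hf hg => EA.mul hf hg
  algebraMap_mem' := fun c => EA.cst c

/-- functions vanishing near infinity -/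
def II : Ideal AA where
  carrier := {f | (f : ℂ → ℂ) =ᶠ[lom] 0}
  add_mem' := by
    intro f g hf hg
    change ((f + g : AA) : ℂ → ℂ) =ᶠ[lom] 0
    have h1 : (f : ℂ → ℂ) =ᶠ[lom] 0 := hf
    have h2 : (g : ℂ → ℂ) =ᶠ[lom] 0 := hg
    filter_upwards [h1, h2] with u h3 h4
    change (f : ℂ → ℂ) u + (g : ℂ → ℂ) u = 0
    rw [h3, h4]
    simp
  zero_mem' := by
    change ((0 : AA) : ℂ → ℂ) =ᶠ[lom] 0
    exact Filter.EventuallyEq.rfl
  smul_mem' := by
    intro f g hg
    change ((f • g : AA) : ℂ → ℂ) =ᶠ[lom] 0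
    have h1 : (g : ℂ → ℂ) =ᶠ[lom] 0 := hg
    filter_upwards [h1] with u h3
    change (f : ℂ → ℂ) u * (g : ℂ → ℂ) u = 0
    rw [h3]
    simp

/-- the ring of germs -/
def GG : Type := AA ⧸ II

noncomputable instance : CommRing GG := inferInstanceAs (CommRing (AA ⧸ II))

noncomputable instance : Algebra ℂ GG := inferInstanceAs (Algebra ℂ (AA ⧸ II))

/-- the projection -/
noncomputable def gpr : AA →ₐ[ℂ] GG := Ideal.Quotient.mkₐ ℂ II

/-- the germ of a function -/
noncomputable def gm (f : ℂ → ℂ) (hf : EA f) : GG := gpr ⟨f, hf⟩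

theorem gm_eq {f g : ℂ → ℂ} (hf : EA f) (hg : EA g) : gm f hf = gm g hg ↔ f =ᶠ[lom] g := by
  have h1 : gm f hf = gm g hg ↔ ((⟨f, hf⟩ : AA) - (⟨g, hg⟩ : AA)) ∈ II := Ideal.Quotient.eq
  rw [h1]
  constructor
  · intro h
    have h2 : (fun u => f u - g u) =ᶠ[lom] 0 := h
    filter_upwards [h2] with u hu
    exact sub_eq_zero.mp hu
  · intro h
    change (fun u => f u - g u) =ᶠ[lom] 0
    filter_upwards [h] with u hu
    exact sub_eq_zero.mpr hu

theorem gm_surj (a : GG) : ∃ (f : ℂ → ℂ) (hf : EA f), gm f hf = a := by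
  obtain ⟨f, hf⟩ := Ideal.Quotient.mk_surjective (I := II) a
  exact ⟨f.1, f.2, hf⟩

theorem gm_add {f g : ℂ → ℂ} (hf : EA f) (hg : EA g) :
    gm f hf + gm g hg = gm (fun u => f u + g u) (hf.add hg) := by
  exact (map_add gpr (⟨f, hf⟩ : AA) (⟨g, hg⟩ : AA)).symm

theorem gm_mul {f g : ℂ → ℂ} (hf : EA f) (hg : EA g) :
    gm f hf * gm g hg = gm (fun u => f u * g u) (hf.mul hg) := by
  exact (map_mul gpr (⟨f, hf⟩ : AA) (⟨g, hg⟩ : AA)).symm

theorem gm_cst (c : ℂ) : algebraMap ℂ GG c = gm (fun _ => c) (EA.cst c) := by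
  exact (gpr.commutes c).symm

instance gg_domain : IsDomain GG := by
  have h0 : (0 : GG) = gm (fun _ => 0) (EA.cst 0) := by
    rw [← gm_cst, map_zero]
  have h1 : (1 : GG) = gm (fun _ => 1) (EA.cst 1) := by
    rw [← gm_cst, map_one]
  have : Nontrivial GG := ⟨0, 1, fun h => by
    rw [h0, h1, gm_eq] at h
    obtain ⟨u, hu⟩ := Filter.Eventually.exists h
    exact zero_ne_one hu⟩
  have : NoZeroDivisors GG := ⟨fun {a b} hab => by
    obtain ⟨f, hf, rfl⟩ := gm_surj a
    obtain ⟨g, hg, rfl⟩ := gm_surj b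
    rw [gm_mul, h0, gm_eq] at hab
    rcases eq0_of_mul hf hg hab with h | h
    · left
      rw [h0, gm_eq]
      exact h
    · right
      rw [h0, gm_eq]
      exact h⟩
  exact NoZeroDivisors.to_isDomain GG

theorem gder_exists : ∃ D : Derivation ℂ GG GG, ∀ (f : ℂ → ℂ) (hf : EA f),
    D (gm f hf) = gm (deriv f) hf.deriv := by
  classical
  let d : GG → GG := fun a =>
    gm (deriv (gm_surj a).choose) (EA.deriv (gm_surj a).choose_spec.choose)
  have hd : ∀ (f : ℂ → ℂ) (hf : EA f), d (gm f hf) = gm (deriv f) hf.deriv := by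
    intro f hf
    have h1 := (gm_surj (gm f hf)).choose_spec.choose_spec
    rw [gm_eq] at h1
    change gm (deriv (gm_surj (gm f hf)).choose) _ = _
    rw [gm_eq]
    exact deriv_congr h1
  have hadd : ∀ a b : GG, d (a + b) = d a + d b := by
    intro a b
    obtain ⟨f, hf, rfl⟩ := gm_surj a
    obtain ⟨g, hg, rfl⟩ := gm_surj b
    rw [gm_add, hd, hd, hd, gm_add, gm_eq]
    exact deriv_add hf hg
  have hmul : ∀ a b : GG, d (a * b) = a * d b + b * d a := by
    intro a b
    obtain ⟨f, hf, rfl⟩ := gm_surj a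
    obtain ⟨g, hg, rfl⟩ := gm_surj b
    rw [gm_mul, hd, hd, hd, gm_mul, gm_mul, gm_add, gm_eq]
    filter_upwards [deriv_mul hf hg] with u hu
    rw [hu]
    ring
  have hcst : ∀ c : ℂ, d (algebraMap ℂ GG c) = 0 := by
    intro c
    have h0 : (0 : GG) = gm (fun _ => 0) (EA.cst 0) := by
      rw [← gm_cst, map_zero]
    rw [gm_cst, hd, h0, gm_eq]
    refine Filter.Eventually.of_forall fun u => ?_
    simp
  have hsmul : ∀ (c : ℂ) (a : GG), d (c • a) = c • d a := by
    intro c a
    rw [Algebra.smul_def, hmul, hcst, mul_zero, add_zero, Algebra.smul_def]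
  let D : GG →ₗ[ℂ] GG :=
    { toFun := d
      map_add' := hadd
      map_smul' := hsmul }
  exact ⟨Derivation.mk' D fun a b => hmul a b, fun f hf => hd f hf⟩

/-- the derivation of germs -/
noncomputable def gder : Derivation ℂ GG GG := gder_exists.choose

theorem gder_gm (f : ℂ → ℂ) (hf : EA f) : gder (gm f hf) = gm (deriv f) hf.deriv :=
  gder_exists.choose_spec f hf

end XD
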