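import Pool.Agent.Lib.MP_228259_lc.D.KB

/-!
XD-KC: the fields `FK k` and `Kt`: generators, independence, logarithmic derivatives, sizes.

PROOF. `fk_alg`: `rep a ∈ LL (BK k)` is a root
of a polynomial with coefficients in `BK k` (`mem_BK`), i.e. polynomials in `KU k`, `KY k`; so `a` is a root
of the polynomial with the corresponding coefficients in `adjoin ℂ {kU, kY}` (`rep_zero`, `rep_poly`,
the classes of functions of `BK k` are in the adjoin: image of an adjoin under an algebra homomorphism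
`AL → FF`, `AlgHom.map_adjoin`; `BK k ≤ AL` by `base_sub`). `fk_ind`: for a polynomial `p ≠ 0` in two variables
`p(KU, KY)` has a size (`sz_pos`, `sz_neg`, `sz_pt`), so it is not eventually `0` (pass from `MvPolynomial (Fin 2)` to
`ℂ[X][Y]` by `MvPolynomial.finSuccEquiv` or an algebra isomorphism `Polynomial (Polynomial ℂ) ≃ MvPolynomial (Fin 2) ℂ`;
`kpoly_rep`). `tt_trans`: `sz_t`; `sh_trans`: `tt = -i sh`. `kpoly_rep`: `rep_aeval`, `kU_rep`, `kY_rep`.
`ff_logder`: `log_der`, `rep_fder`, `rep_mul`, `rep_inv`. `kt_s`, `fkpt_s`: `algOn_s` with `s0_Bt`, `s0_pt` (`rep_mem`).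
-/

set_option autoImplicit false

namespace XD

open Complex Filter Topology Metric

private theorem xdKC_toF_eq {L : Set (ℂ → ℂ)} {h : TF L} {f g : ℂ → ℂ} (hf : f ∈ L) (hg : g ∈ L)
    (hfg : f = g) : toF h f hf = toF h g hg :=
  (toF_inj hf hg).2 (by rw [hfg])

/-- the germs of the functions of an adjoin -/
private theorem xdKC_adj {B : Subalgebra ℂ (ℂ → ℂ)} (hB : Base B) {T : Set (ℂ → ℂ)}
    (hT : B = Algebra.adjoin ℂ T) (S : Set (FF (ll_tf hB)))
    (hS : ∀ f ∈ T, ∀ hf : f ∈ LL B, toF (ll_tf hB) f hf ∈ XA.cl S) :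
    ∀ f ∈ B, ∀ hf : f ∈ LL B, toF (ll_tf hB) f hf ∈ XA.cl S := by
  obtain ⟨K, hK⟩ := XA.cl_field S
  have hmem : ∀ a, a ∈ K ↔ a ∈ XA.cl S := fun a => by rw [← hK]; rfl
  intro f hf0
  have hf1 : f ∈ Algebra.adjoin ℂ T := by rw [← hT]; exact hf0
  have hsub : ∀ g ∈ Algebra.adjoin ℂ T, g ∈ LL B := by
    intro g hg
    rw [← hT] at hg
    exact base_sub hB hg
  refine Algebra.adjoin_induction (p := fun f _ => ∀ hf : f ∈ LL B,
    toF (ll_tf hB) f hf ∈ XA.cl S) ?_ ?_ ?_ ?_ hf1
  · intro g hg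
    exact hS g hg
  · intro c hf
    rw [← hmem]
    have h1 : toF (ll_tf hB) (algebraMap ℂ (ℂ → ℂ) c) hf = algebraMap ℂ (FF (ll_tf hB)) c := by
      rw [toF_cst]
      exact xdKC_toF_eq _ _ rfl
    rw [h1]
    exact K.algebraMap_mem c
  · intro g g' hg hg' ih ih' hf
    rw [← hmem]
    have h1 : toF (ll_tf hB) (g + g') hf =
        toF (ll_tf hB) g (hsub g hg) + toF (ll_tf hB) g' (hsub g' hg') := by
      rw [toF_add]
      exact xdKC_toF_eq _ _ rfl
    rw [h1]
    exact K.add_mem ((hmem _).2 (ih _)) ((hmem _).2 (ih' _))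
  · intro g g' hg hg' ih ih' hf
    rw [← hmem]
    have h1 : toF (ll_tf hB) (g * g') hf =
        toF (ll_tf hB) g (hsub g hg) * toF (ll_tf hB) g' (hsub g' hg') := by
      rw [toF_mul]
      exact xdKC_toF_eq _ _ rfl
    rw [h1]
    exact K.mul_mem ((hmem _).2 (ih _)) ((hmem _).2 (ih' _))

/-- if the germs of the functions of `B` are algebraic, all germs are -/
private theorem xdKC_alg {B : Subalgebra ℂ (ℂ → ℂ)} (hB : Base B) (S : Set (FF (ll_tf hB)))
    (hS : ∀ f ∈ B, ∀ hf : f ∈ LL B, toF (ll_tf hB) f hf ∈ XA.cl S) (a : FF (ll_tf hB)) :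
    a ∈ XA.cl S := by
  obtain ⟨-, p, ⟨i, hi⟩, hp⟩ := rep_mem a
  have hsub : ∀ j, (p.coeff j : ℂ → ℂ) ∈ LL B := fun j => base_sub hB (p.coeff j).2
  set G : Polynomial (FF (ll_tf hB)) := ∑ j ∈ Finset.range (p.natDegree + 1),
    Polynomial.monomial j (toF (ll_tf hB) (p.coeff j : ℂ → ℂ) (hsub j)) with hG
  have hcoeff : ∀ j, j ≤ p.natDegree →
      G.coeff j = toF (ll_tf hB) (p.coeff j : ℂ → ℂ) (hsub j) := by
    intro j hj
    rw [hG, Polynomial.finsetSum_coeff, Finset.sum_eq_single j]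
    · rw [Polynomial.coeff_monomial, if_pos rfl]
    · intro l _ hl
      rw [Polynomial.coeff_monomial, if_neg hl]
    · intro hj'
      exact absurd (Finset.mem_range.2 (Nat.lt_succ_of_le hj)) hj'
  have hcoeff0 : ∀ j, p.natDegree < j → G.coeff j = 0 := by
    intro j hj
    rw [hG, Polynomial.finsetSum_coeff]
    refine Finset.sum_eq_zero fun l hl => ?_
    rw [Polynomial.coeff_monomial, if_neg]
    have h1 := Finset.mem_range.1 hl
    omega
  have hin : i ≤ p.natDegree := by
    by_contra hcon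
    apply hi
    rw [Polynomial.coeff_eq_zero_of_natDegree_lt (not_le.1 hcon)]
    exact Filter.EventuallyEq.refl _ _
  refine XA.cl_root S G ?_ ?_ a ?_
  · intro h0
    have h1 := hcoeff i hin
    rw [h0, Polynomial.coeff_zero] at h1
    apply hi
    have h2 := rep_zero.1 h1.symm
    exact (rep_toF (hsub i)).symm.trans h2
  · intro j
    rcases le_or_gt j p.natDegree with hj | hj
    · rw [hcoeff j hj]
      exact hS _ (p.coeff j).2 _
    · rw [hcoeff0 j hj]
      obtain ⟨K, hK⟩ := XA.cl_field S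
      rw [← hK]
      exact K.zero_mem
  · rw [rep_zero]
    have h1 : G.eval a = ∑ j ∈ Finset.range (p.natDegree + 1),
        toF (ll_tf hB) (p.coeff j : ℂ → ℂ) (hsub j) * a ^ j := by
      rw [hG, Polynomial.eval_finsetSum]
      refine Finset.sum_congr rfl fun j _ => ?_
      rw [Polynomial.eval_monomial]
    rw [h1]
    have h2 : ∀ j ∈ Finset.range (p.natDegree + 1), ∀ᶠ u in lom,
        rep (toF (ll_tf hB) (p.coeff j : ℂ → ℂ) (hsub j) * a ^ j) u =
          (p.coeff j : ℂ → ℂ) u * rep a u ^ j := by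
      intro j _
      filter_upwards [rep_mul (toF (ll_tf hB) (p.coeff j : ℂ → ℂ) (hsub j)) (a ^ j), rep_pow a j,
        rep_toF (hsub j)] with u h3 h4 h5
      rw [h3, h4, h5]
    have h3 := (Filter.eventually_all_finset _).2 h2
    filter_upwards [rep_sum (Finset.range (p.natDegree + 1)) (fun j =>
      toF (ll_tf hB) (p.coeff j : ℂ → ℂ) (hsub j) * a ^ j), h3, hp] with u h4 h5 h6
    rw [h4, Finset.sum_congr rfl h5]
    rw [Polynomial.aeval_eq_sum_range, Finset.sum_apply] at h6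
    exact h6

theorem fk_alg (k : Kd) (a : FK k) : a ∈ XA.cl ({kU k, kY k} : Set (FK k)) := by
  refine xdKC_alg (base_BK k) _ (xdKC_adj (base_BK k) rfl _ ?_) a
  rintro f (rfl | rfl) hf
  · exact XA.subset_cl _ (Or.inl rfl)
  · exact XA.subset_cl _ (Or.inr rfl)

theorem kt_alg (a : Kt) : a ∈ XA.cl ({tt} : Set Kt) := by
  refine xdKC_alg base_Bt _ (xdKC_adj base_Bt rfl _ ?_) a
  rintro f rfl hf
  exact XA.subset_cl _ rfl

/-- the value of a polynomial in the two coordinates -/
theorem kpoly_rep (k : Kd) (p : MvPolynomial (Fin 2) ℂ) :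
    rep (MvPolynomial.aeval ![kU k, kY k] p) =ᶠ[lom]
      fun u => MvPolynomial.eval ![KU k u, KY k u] p := by
  filter_upwards [rep_aeval ![kU k, kY k] p, kU_rep k, kY_rep k] with u h1 h2 h3
  rw [h1]
  have h4 : (fun i => rep (![kU k, kY k] i) u) = ![KU k u, KY k u] := by
    funext i
    fin_cases i
    · exact h2
    · exact h3
  rw [h4]

private theorem xdKC_biv (p : MvPolynomial (Fin 2) ℂ) : ∃ P : Polynomial (Polynomial ℂ),
    (p ≠ 0 → P ≠ 0) ∧ ∀ x y : ℂ, P.evalEval x y = MvPolynomial.eval ![x, y] p := by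
  have h1 : ∀ x y : ℂ, (MvPolynomial.aeval ![Polynomial.C Polynomial.X, Polynomial.X] p :
      Polynomial (Polynomial ℂ)).evalEval x y = MvPolynomial.eval ![x, y] p := by
    intro x y
    induction p using MvPolynomial.induction_on with
    | C c =>
      rw [MvPolynomial.aeval_C, MvPolynomial.eval_C]
      have h2 : algebraMap ℂ (Polynomial (Polynomial ℂ)) c = Polynomial.C (Polynomial.C c) := rfl
      rw [h2]
      simp [Polynomial.evalEval]
    | add p q hp hq =>
      rw [map_add, map_add, Polynomial.evalEval_add, hp, hq]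
    | mul_X p i hp =>
      rw [map_mul, map_mul, Polynomial.evalEval_mul, hp, MvPolynomial.aeval_X,
        MvPolynomial.eval_X]
      congr 1
      fin_cases i
      · simp [Polynomial.evalEval]
      · simp [Polynomial.evalEval]
  refine ⟨_, fun hp h0 => hp ?_, h1⟩
  apply MvPolynomial.funext
  intro v
  have h2 := h1 (v 0) (v 1)
  rw [h0] at h2
  have h3 : ![v 0, v 1] = v := by
    funext i
    fin_cases i <;> rfl
  rw [h3] at h2
  rw [← h2, map_zero]
  simp [Polynomial.evalEval]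

theorem fk_ind (k : Kd) : AlgebraicIndependent ℂ ![kU k, kY k] := by
  rw [algebraicIndependent_iff]
  intro p hp
  by_contra hne
  obtain ⟨P, hP0, hP⟩ := xdKC_biv p
  have h1 : (fun u => P.evalEval (KU k u) (KY k u)) =ᶠ[lom] 0 := by
    filter_upwards [kpoly_rep k p, rep_zero.1 hp] with u h2 h3
    rw [hP, ← h2, h3]
  cases k with
  | pos =>
    obtain ⟨s, c, h2⟩ := sz_pos (hP0 hne)
    exact h2.not_zero h1
  | neg =>
    obtain ⟨s, c, h2⟩ := sz_neg (hP0 hne)
    exact h2.not_zero h1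
  | pt z =>
    obtain ⟨n, c, h2, -⟩ := sz_pt z (hP0 hne)
    exact h2.not_zero h1

theorem tt_trans : Transcendental ℂ tt := by
  rintro ⟨p, hp, h0⟩
  have h1 : ∀ p : Polynomial ℂ, rep (Polynomial.aeval tt p) =ᶠ[lom] fun u => p.eval (exp u) := by
    intro p
    induction p using Polynomial.induction_on' with
    | add p q hp hq =>
      rw [map_add]
      filter_upwards [rep_add (Polynomial.aeval tt p) (Polynomial.aeval tt q), hp, hq]
        with u h1 h2 h3
      rw [h1, h2, h3, Polynomial.eval_add]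
    | monomial n c =>
      rw [Polynomial.aeval_monomial]
      filter_upwards [rep_mul (algebraMap ℂ Kt c) (tt ^ n), rep_cst (h := ll_tf base_Bt) c,
        rep_pow tt n, tt_rep] with u h1 h2 h3 h4
      rw [h1, h2, h3, h4, Polynomial.eval_monomial]
  have h2 := (h1 p).symm.trans (rep_zero.1 h0)
  exact (sz_t hp).not_zero h2

theorem sh_trans : Transcendental ℂ sh := by
  intro h
  apply tt_trans
  have h1 : tt = algebraMap ℂ Kt (-I) * sh := by
    rw [sh, ← mul_assoc, ← map_mul, neg_mul, I_mul_I, neg_neg, map_one, one_mul]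
  rw [h1]
  exact (isAlgebraic_algebraMap _).mul h

theorem ff_logder {L : Set (ℂ → ℂ)} {h : TF L} {a : FF h} {r s : ℝ} {c : ℂ}
    (hs : Sz (rep a) r s c) : Tendsto (rep (fder h a / a)) lom (𝓝 (r : ℂ)) := by
  refine (log_der h (rep_mem a) hs).congr' ?_
  rw [div_eq_mul_inv]
  filter_upwards [rep_mul (fder h a) a⁻¹, rep_inv a, rep_fder a] with u h1 h2 h3
  rw [h1, h2, h3, div_eq_mul_inv]

theorem kt_s {a : Kt} {r s : ℝ} {c : ℂ} (hs : Sz (rep a) r s c) : s = 0 :=
  algOn_s base_Bt s0_Bt (rep_mem a).1 (rep_mem a).2 hs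

theorem fkpt_s {z : ℂ} {a : FK (Kd.pt z)} {r s : ℝ} {c : ℂ} (hs : Sz (rep a) r s c) : s = 0 :=
  algOn_s (base_BK _) (s0_pt z) (rep_mem a).1 (rep_mem a).2 hs

end XD
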