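import Pool.Agent.Lib.MP_228259_lc.D.W9
import Pool.Agent.Lib.MP_228259_lc.D.KC
import Pool.Agent.Lib.MP_228259_lc.D.T0
import Pool.Agent.Lib.MP_228259_lc.D.AC
import Pool.Agent.Lib.MP_228259_lc.D.EVB

/-!
XD-IF1: interface statement `lt_field` (exponential sums over `Kt`).

PROOF. `K = Kt` (`ff_closed base_Bt`), `e = tt` (not a constant: `tt_trans`, `isAlgebraic_algebraMap`). Given the data apply
`expsum_ff` to the index type `ι' = {α // α ∈ A}`, `P' α = ψ (P α)`, `c' α = ψ (c α)`. `ne`: if `α ≠ β`, `g ≠ 0` and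
`fder g = fder (P' α - P' β) * g` then `tr0` (`v = P' α - P' β`, `b = g`, `w = tt`, `kt_alg`) makes `P' α - P' β` a constant,
contradiction. Growth: suppose that all differences `d = P' α - P' β` are `0` or have a size with `r ≤ 0`; then
`‖rep d u‖ ≤ C ‖u‖ ^ k` near infinity (`gr_iff`; `d = 0`: `rep_zero`), a property stable under sums and multiplication with constants
(`rep_add`, `rep_mul`, `rep_cst`; `‖u‖ ≥ 1`, take the larger exponent), so it holds for all elements of the span (`Submodule.span_induction`),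
in particular for `tt`, whose size is `(1, 0)` (`tt_rep`, `sz_phi 1 0` or `sz_t`), contradicting `gr_iff`. So some difference
has a size with `r > 0` (`rep_sz`). Take `R` with `evB ψ S` on `Om R` (`ev_iff`), `S = A.image c ∪ A.image P` (classical
decidable equality); the zero `u ∈ Om R` of `expsum_ff` gives `σ` with `∑ σ (c α) * exp (σ (P α)) = 0` (`Finset.sum_coe_sort`).
-/

set_option autoImplicit false

namespace XD

open MvPolynomial

/-- polynomial growth near infinity -/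
private def IF1_gr (z : Kt) : Prop :=
  ∃ C k : ℝ, 0 ≤ C ∧ 0 ≤ k ∧ ∀ᶠ u in lom, ‖rep z u‖ ≤ C * ‖u‖ ^ k

private theorem IF1_one : ∀ᶠ u in lom, (1 : ℝ) ≤ ‖u‖ := by
  rw [ev_iff]
  refine ⟨1, fun u hu => ?_⟩
  exact hu.1.le.trans ((le_abs_self _).trans (Complex.abs_re_le_norm u))

private theorem IF1_of {z : Kt} (h : ∃ C k : ℝ, ∀ᶠ u in lom, ‖rep z u‖ ≤ C * ‖u‖ ^ k) :
    IF1_gr z := by
  obtain ⟨C, k, h⟩ := h
  refine ⟨|C|, |k|, abs_nonneg _, abs_nonneg _, ?_⟩
  filter_upwards [h, IF1_one] with u h1 h2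
  refine h1.trans ?_
  refine mul_le_mul (le_abs_self C) (Real.rpow_le_rpow_of_exponent_le h2 (le_abs_self k))
    (Real.rpow_nonneg (by linarith) _) (abs_nonneg _)

private theorem IF1_zero {z : Kt} (hz : z = 0) : IF1_gr z := by
  refine ⟨0, 0, le_rfl, le_rfl, ?_⟩
  filter_upwards [rep_zero.1 hz] with u hu
  rw [hu]
  simp

private theorem IF1_add {z w : Kt} (hz : IF1_gr z) (hw : IF1_gr w) : IF1_gr (z + w) := by
  obtain ⟨C, k, hC, hk, h⟩ := hz
  obtain ⟨C', k', hC', hk', h'⟩ := hw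
  refine ⟨C + C', max k k', add_nonneg hC hC', le_max_of_le_left hk, ?_⟩
  filter_upwards [h, h', IF1_one, rep_add z w] with u h1 h2 h3 h4
  rw [h4, add_mul]
  refine (norm_add_le _ _).trans (add_le_add (h1.trans ?_) (h2.trans ?_))
  · exact mul_le_mul_of_nonneg_left (Real.rpow_le_rpow_of_exponent_le h3 (le_max_left _ _)) hC
  · exact mul_le_mul_of_nonneg_left (Real.rpow_le_rpow_of_exponent_le h3 (le_max_right _ _)) hC'

private theorem IF1_smul (a : ℂ) {z : Kt} (hz : IF1_gr z) : IF1_gr (a • z) := by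
  obtain ⟨C, k, hC, hk, h⟩ := hz
  refine ⟨‖a‖ * C, k, mul_nonneg (norm_nonneg _) hC, hk, ?_⟩
  rw [Algebra.smul_def]
  filter_upwards [h, rep_mul (algebraMap ℂ Kt a) z, rep_cst (h := ll_tf base_Bt) a] with u h1 h2 h3
  rw [h2, h3, norm_mul, mul_assoc]
  exact mul_le_mul_of_nonneg_left h1 (norm_nonneg _)

private theorem IF1_tt : ¬ IF1_gr tt := by
  rintro ⟨C, k, -, -, h⟩
  have h1 : Sz (rep tt) 1 0 1 := by
    refine (sz_phi 1 0).congr ?_
    filter_upwards [tt_rep] with u hu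
    rw [hu]
    unfold phi
    simp
  have h2 := (gr_iff h1).1 ⟨C, k, h⟩
  norm_num at h2

theorem lt_field : ∃ (K : Type) (_ : Field K) (_ : Algebra ℂ K) (e : K), IsAlgClosed K ∧
    (∀ k : ℂ, e ≠ algebraMap ℂ K k) ∧
    ∀ (B : Type) [CommRing B] [Algebra ℂ B] [Algebra.FiniteType ℂ B] (ψ : B →ₐ[ℂ] K) (ι : Type)
      (A : Finset ι) (c P : ι → B), (∀ α ∈ A, ψ (c α) ≠ 0) →
      (∀ α ∈ A, ∀ β ∈ A, α ≠ β → ∀ k : ℂ, ψ (P α) - ψ (P β) ≠ algebraMap ℂ K k) →
      e ∈ Submodule.span ℂ {z : K | ∃ α ∈ A, ∃ β ∈ A, z = ψ (P α) - ψ (P β)} →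
      ∃ σ : B →ₐ[ℂ] ℂ, ∑ α ∈ A, σ (c α) * Complex.exp (σ (P α)) = 0 := by
  classical
  refine ⟨Kt, inferInstance, inferInstance, tt, ff_closed base_Bt, ?_, ?_⟩
  · intro k hk
    refine tt_trans ?_
    rw [hk]
    exact isAlgebraic_algebraMap k
  · intro B _ _ _ ψ ι A c P hc hP he
    have hgr : ∃ (α β : {α // α ∈ A}) (r s : ℝ) (c' : ℂ), 0 < r ∧
        Sz (rep (ψ (P α) - ψ (P β))) r s c' := by
      by_contra hcon
      push Not at hcon
      refine IF1_tt (Submodule.span_induction (p := fun z _ => IF1_gr z) ?_ ?_ ?_ ?_ he)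
      · rintro z ⟨α, hα, β, hβ, hz⟩
        by_cases h0 : z = 0
        · exact IF1_zero h0
        · obtain ⟨r, s, c', hs⟩ := rep_sz h0
          refine IF1_of ((gr_iff hs).2 ?_)
          by_contra hr
          rw [hz] at hs
          exact hcon ⟨α, hα⟩ ⟨β, hβ⟩ r s c' (not_le.1 hr) hs
      · exact IF1_zero rfl
      · exact fun _ _ _ _ h1 h2 => IF1_add h1 h2
      · exact fun a _ _ h1 => IF1_smul a h1
    obtain ⟨α, β, r, s, c', hr, hsz⟩ := hgr
    obtain ⟨R, hR⟩ := ev_iff.1 (evB ψ (A.image c ∪ A.image P))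
    obtain ⟨u, hu, hsum⟩ := expsum_ff (h := ll_tf base_Bt) (ι := {α // α ∈ A})
      (fun i => ψ (P i)) (fun i => ψ (c i)) (fun i => hc i i.2) (by
        intro a b hab g hg hcon
        obtain ⟨k, hk⟩ := tr0 hg hcon.symm (kt_alg _) (kt_alg g)
        exact hP a a.2 b b.2 (fun h => hab (Subtype.ext h)) k hk) hr hsz R
    obtain ⟨σ, hσ⟩ := hR u hu
    refine ⟨σ, ?_⟩
    rw [← hsum, ← Finset.sum_coe_sort]
    refine Finset.sum_congr rfl fun i _ => ?_
    rw [hσ (c i) (Finset.mem_union_left _ (Finset.mem_image_of_mem _ i.2)),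
      hσ (P i) (Finset.mem_union_right _ (Finset.mem_image_of_mem _ i.2))]

end XD
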