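import Pool.Agent.Lib.MP_228259_lc.D.IL1
import Pool.Agent.Lib.MP_228259_lc.D.DL

/-!
XD-IL3: if `be k` has negative size then `(X - log ω) / (2 π i)` is not integral at a long arithmetic
progression far out.

PROOF. Let `F 0 x = (rep X (W x) - lm (W x)) / (2 π i)`, `F (j + 1) x = rep (be y X ω j) (W x)`. There is
`M₁ ≥ M₀` such that for `x > M₁` and `j ≤ k`: `HasDerivAt (F j) (F (j + 1) x) x`: chain rule with
`HasDerivAt W (deriv (Mf ℓ) (W x))⁻¹ x`, `W x` is in a region where all functions involved are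
differentiable and `deriv (rep (be j)) = rep (be (j + 1)) * deriv (Mf ℓ)`,
`deriv ((rep X - lm) / (2 π i)) = rep (be 0) * deriv (Mf ℓ)` (`mp_rep`, `rep_fder`, `IsLog.der`; transport along `W` by
`tend`). `F (k + 1) x / (2 π x) ^ r → c`: `rep (be k) w / exp (r w) → c` and
`exp (r W x) / (2 π x) ^ r = exp (r (W x - log (2 π x))) → 1` (`asy`). As `r < 0`: `F (k + 1) → 0`, and
`Re (F (k + 1) x / c) > 0` for `x` large. By `dl_tendsto`, `dl_pos` (with `k + 1`): for large `m`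
`‖(dl d)^[k + 1] (F 0) m‖ < 1` and it is not `0`. If all `F 0 (m + j d)`, `j ≤ k + 1`, were integers, it would be an
integer (`dl_int`), a contradiction.
-/

set_option autoImplicit false

namespace XD

open Complex Filter Topology Metric

private theorem IL3_chain {y : Kt} {ℓ : ℂ → ℂ} {κ : ℝ} {c₀ : ℂ} {M₀ : ℝ} {W : ℝ → ℂ}
    (h : ID y ℓ κ c₀ M₀ W) {G H : ℂ → ℂ} (hG : EA G)
    (hGH : deriv G =ᶠ[lom] fun u => H u * rep (mp y) u) :
    ∀ᶠ x : ℝ in atTop, HasDerivAt (fun x => G (W x)) (H (W x)) x := by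
  have hd : ∀ᶠ u in lom, DifferentiableAt ℂ G u := by
    obtain ⟨R, hR⟩ := hG
    filter_upwards [om_mem R] with u hu
    exact (hR u hu).differentiableAt ((om_open R).mem_nhds hu)
  filter_upwards [eventually_gt_atTop M₀, h.tend.eventually hd, h.tend.eventually hGH,
    h.tend.eventually (mp_rep h.log)] with x hx h1 h2 h3
  obtain ⟨h4, h5⟩ := h.der x hx
  have h6 := HasDerivAt.scomp x h1.hasDerivAt h5
  have h7 : (deriv (Mf ℓ) (W x))⁻¹ • deriv G (W x) = H (W x) := by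
    rw [h2, h3, smul_eq_mul]
    field_simp
  rw [h7] at h6
  exact h6

private theorem IL3_be_succ {y : Kt} (hy : y ≠ 0) (X ω : Kt) (j : ℕ) :
    deriv (rep (be y X ω j)) =ᶠ[lom] fun u => rep (be y X ω (j + 1)) u * rep (mp y) u := by
  have h1 : be y X ω (j + 1) * mp y = fder _ (be y X ω j) := by
    show fder _ (be y X ω j) / mp y * mp y = _
    exact div_mul_cancel₀ _ (mp_ne hy)
  have h2 := rep_mul (be y X ω (j + 1)) (mp y)
  rw [h1] at h2
  exact (rep_fder (be y X ω j)).symm.trans h2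

private theorem IL3_be_zero {y X ω : Kt} (hy : y ≠ 0) {lm : ℂ → ℂ} {κ' : ℝ} {c' : ℂ}
    (h' : IsLog ω lm κ' c') :
    deriv (fun u => (rep X u + (-1) * lm u) * (2 * Real.pi * I)⁻¹) =ᶠ[lom]
      fun u => rep (be y X ω 0) u * rep (mp y) u := by
  have hpi : (2 * Real.pi * I : ℂ) ≠ 0 := by simp [Real.pi_ne_zero]
  have hXea : EA (rep X) := (ll_tf base_Bt).ea _ (rep_mem X)
  have hG : EA (fun u => rep X u + (-1) * lm u) := hXea.add ((EA.cst (-1)).mul h'.ea)
  have e1 := deriv_mul hG (EA.cst (2 * Real.pi * I)⁻¹)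
  have e2 := deriv_add hXea ((EA.cst (-1)).mul h'.ea)
  have e3 := deriv_mul (EA.cst (-1)) h'.ea
  have e4 := rep_fder X
  have h1 : be y X ω 0 * mp y * algebraMap ℂ Kt (2 * Real.pi * I) =
      fder _ X - fder _ ω / ω := by
    show ((fder _ X - fder _ ω / ω) / algebraMap ℂ Kt (2 * Real.pi * I)) / mp y * mp y *
      algebraMap ℂ Kt (2 * Real.pi * I) = _
    rw [div_mul_cancel₀ _ (mp_ne hy), div_mul_cancel₀]
    exact (map_ne_zero_iff _ (algebraMap ℂ Kt).injective).2 hpi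
  have e5 := rep_mul (be y X ω 0 * mp y) (algebraMap ℂ Kt (2 * Real.pi * I))
  rw [h1] at e5
  have e6 := rep_mul (be y X ω 0) (mp y)
  have e7 := rep_sub (fder _ X) (fder _ ω / ω)
  have e8 : rep (algebraMap ℂ Kt (2 * Real.pi * I)) =ᶠ[lom] fun _ => (2 * Real.pi * I : ℂ) :=
    rep_cst _
  filter_upwards [e1, e2, e3, e4, e5, e6, e7, e8, h'.der] with u a1 a2 a3 a4 a5 a6 a7 a8 a9
  rw [a1, a2, a3]
  simp only [deriv_const]
  rw [a6, a8] at a5
  rw [a5] at a7
  rw [a9, ← a4]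
  have : rep (fder _ X) u + (0 * lm u + -1 * rep (fder _ ω / ω) u) =
      rep (be y X ω 0) u * rep (mp y) u * (2 * Real.pi * I) := by
    rw [a7]
    ring
  rw [this]
  field_simp
  ring

theorem bad_root {y X ω : Kt} {ℓ : ℂ → ℂ} {κ : ℝ} {c₀ : ℂ} {M₀ : ℝ} {W : ℝ → ℂ}
    (h : ID y ℓ κ c₀ M₀ W) {lm : ℂ → ℂ} {κ' : ℝ} {c' : ℂ} (h' : IsLog ω lm κ' c') {k : ℕ}
    {r : ℝ} {c : ℂ} (hr : r < 0) (hk : Sz (rep (be y X ω k)) r 0 c) {d : ℕ} (hd : 1 ≤ d) :
    ∀ᶠ m : ℕ in atTop, ¬ ∀ j ≤ k + 1, ∃ n : ℤ,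
      rep X (W (m + j * d : ℕ)) - lm (W (m + j * d : ℕ)) = 2 * Real.pi * I * n := by
  have hpi : (2 * Real.pi * I : ℂ) ≠ 0 := by simp [Real.pi_ne_zero]
  obtain ⟨hc0, hlim⟩ := hk
  set G0 : ℂ → ℂ := fun u => (rep X u + (-1) * lm u) * (2 * Real.pi * I)⁻¹ with hG0
  set F : ℕ → ℝ → ℂ := fun j x => Nat.casesOn j (G0 (W x)) (fun i => rep (be y X ω i) (W x)) with hF
  have hXea : EA (rep X) := (ll_tf base_Bt).ea _ (rep_mem X)
  have hG0ea : EA G0 := (hXea.add ((EA.cst (-1)).mul h'.ea)).mul (EA.cst _)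
  have hder : ∀ j : ℕ, ∀ᶠ x : ℝ in atTop, HasDerivAt (F j) (F (j + 1) x) x := by
    intro j
    cases j with
    | zero => exact IL3_chain h hG0ea (IL3_be_zero h.y0 h')
    | succ j => exact IL3_chain h ((ll_tf base_Bt).ea _ (rep_mem _)) (IL3_be_succ h.y0 X ω j)
  have hder' : ∀ᶠ x : ℝ in atTop, ∀ j : Fin (k + 1), HasDerivAt (F j) (F (j + 1) x) x :=
    Filter.eventually_all.2 fun j => hder j
  -- the last function
  have hq : Tendsto (fun x : ℝ => F (k + 1) x / phi r 0 (W x)) atTop (𝓝 c) := hlim.comp h.tend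
  have hphi : Tendsto (fun x : ℝ => phi r 0 (W x)) atTop (𝓝 0) :=
    (phi_small (Or.inl hr)).comp h.tend
  have hF0 : Tendsto (F (k + 1)) atTop (𝓝 0) := by
    have h1 := hq.mul hphi
    rw [mul_zero] at h1
    refine h1.congr fun x => ?_
    exact div_mul_cancel₀ _ (phi_ne r 0 _)
  have hpos : ∀ᶠ x : ℝ in atTop, 0 < (F (k + 1) x / c).re := by
    have h1 : Tendsto (fun x : ℝ => exp ((r : ℂ) * (W x - Real.log (2 * Real.pi * x)))) atTop
        (𝓝 1) := by
      have h2 : Tendsto (fun x : ℝ => (r : ℂ) * (W x - Real.log (2 * Real.pi * x))) atTop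
          (𝓝 ((r : ℂ) * 0)) := h.asy.const_mul _
      rw [mul_zero] at h2
      have h3 := (Complex.continuous_exp.tendsto 0).comp h2
      rw [Complex.exp_zero] at h3
      exact h3
    have h4 : Tendsto (fun x : ℝ => F (k + 1) x / phi r 0 (W x) / c *
        exp ((r : ℂ) * (W x - Real.log (2 * Real.pi * x)))) atTop (𝓝 (c / c * 1)) :=
      (hq.div_const c).mul h1
    rw [div_self hc0, mul_one] at h4
    have h5 : Tendsto (fun x : ℝ => (F (k + 1) x / phi r 0 (W x) / c *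
        exp ((r : ℂ) * (W x - Real.log (2 * Real.pi * x)))).re) atTop (𝓝 (1 : ℂ).re) :=
      (Complex.continuous_re.tendsto _).comp h4
    rw [Complex.one_re] at h5
    filter_upwards [h5.eventually (lt_mem_nhds one_pos)] with x hx
    have h6 : F (k + 1) x / c = ((Real.exp (r * Real.log (2 * Real.pi * x)) : ℝ) : ℂ) *
        (F (k + 1) x / phi r 0 (W x) / c *
          exp ((r : ℂ) * (W x - Real.log (2 * Real.pi * x)))) := by
      have h7 : phi r 0 (W x) = ((Real.exp (r * Real.log (2 * Real.pi * x)) : ℝ) : ℂ) *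
          exp ((r : ℂ) * (W x - Real.log (2 * Real.pi * x))) := by
        unfold phi
        rw [Complex.ofReal_exp, ← Complex.exp_add]
        congr 1
        push_cast
        ring
      have h8 := phi_ne r 0 (W x)
      rw [mul_comm (F (k + 1) x / phi r 0 (W x) / c), ← mul_assoc, ← h7]
      field_simp
    rw [h6, Complex.re_ofReal_mul]
    exact mul_pos (Real.exp_pos _) hx
  obtain ⟨M₁, hM₁⟩ := (hder'.and hpos).exists_forall_of_atTop
  have hFd : ∀ j < k + 1, ∀ x, M₁ < x → HasDerivAt (F j) (F (j + 1) x) x :=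
    fun j hj x hx => (hM₁ x hx.le).1 ⟨j, hj⟩
  have hd0 : (0 : ℝ) < (d : ℝ) := by exact_mod_cast hd
  have ht := dl_tendsto hFd hF0 hd0
  have ht' : Tendsto (fun m : ℕ => ((dl (d : ℝ))^[k + 1] (F 0)) (m : ℝ)) atTop (𝓝 0) :=
    ht.comp tendsto_natCast_atTop_atTop
  have hsmall : ∀ᶠ m : ℕ in atTop, ‖((dl (d : ℝ))^[k + 1] (F 0)) (m : ℝ)‖ < 1 := by
    have h1 := ht'.norm
    rw [norm_zero] at h1
    exact h1.eventually (gt_mem_nhds one_pos)
  filter_upwards [hsmall, tendsto_natCast_atTop_atTop.eventually (eventually_gt_atTop M₁)]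
    with m h1 h2 hall
  obtain ⟨n, hn⟩ := dl_int (f := F 0) (m := m) (d := d) (k := k + 1) (by
    intro j hj
    obtain ⟨n, hn⟩ := hall j hj
    refine ⟨n, ?_⟩
    show (rep X (W (m + j * d : ℕ)) + (-1) * lm (W (m + j * d : ℕ))) * (2 * Real.pi * I)⁻¹ = n
    have h3 : rep X (W (m + j * d : ℕ)) + (-1) * lm (W (m + j * d : ℕ)) =
        2 * Real.pi * I * n := by
      rw [← hn]
      ring
    rw [h3]
    field_simp)
  have h3 := dl_pos hFd (c := c) (fun x hx => (hM₁ x hx.le).2) hd0 h2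
  rw [hn] at h1 h3
  have h4 : n = 0 := by
    rw [Complex.norm_intCast] at h1
    have h5 : |n| < 1 := by exact_mod_cast h1
    exact Int.abs_lt_one_iff.1 h5
  rw [h4] at h3
  simp at h3

end XD
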