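import Pool.Agent.Lib.MP_228259_lc.D.IL1

/-!
XD-IL4: the polynomial case is impossible.

PROOF. `end_deg`: let `natDegree p ≥ 2`. `rep (be 0) = p'(Mf ℓ)` with `p'` of positive degree: `Mf ℓ` (which is
`EA`) is a root of the polynomial `p'(T) - be 0` with coefficients in `LL Bt`, so `Mf ℓ ∈ LL Bt`
(`ll_trans`), `ℓ = i e^w - 2 π i Mf ℓ ∈ LL Bt` (`TF` operations). `v = toF ℓ` satisfies `fder v * y = fder y`
(`IsLog.der`), both in `cl {tt}` (`kt_alg`): `tr0`: `v` is a constant, so `fder y = 0` and `y` is a constant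
(`fder_const`).
`end_lin`: `natDegree p ≤ 1`: `p = C e₀ * X + C e₁`. The two integer values at `W m₁`, `W m₂`, `m₁ < m₂` natural
numbers `> M₀` (where `Mf ℓ (W m) = m`): `e₀ (m₂ - m₁) = n₂ - n₁ =: a`, `d = m₂ - m₁ > 0`. Differentiate
`d (rep X - lm) = 2 π i (a Mf ℓ + d e₁)`: in `Kt`: `d (fder X - fder ω / ω) = a (fder sh - fder y / y)` (`mp_rep`).
With `v = d X - a sh`, `b = ω ^ d * y ^ (-a)`: `fder v * b = fder b`; `tr0` (`kt_alg`): `v` is a constant, contradicting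
`hX` for `(-a, d)`.
-/

set_option autoImplicit false

namespace XD

open Complex Filter Topology Metric

private theorem il4_pi : (2 * (Real.pi : ℂ) * I) ≠ 0 := by
  have := Real.pi_ne_zero
  simp [this]

private theorem il4_rep_log {y : Kt} {ℓ : ℂ → ℂ} {κ : ℝ} {c₀ : ℂ} (h : IsLog y ℓ κ c₀) (a : Kt)
    (ha : rep a =ᶠ[lom] ℓ) : fder _ a = fder _ y / y := by
  rw [rep_inj]
  exact (rep_fder a).trans ((deriv_congr ha).trans h.der)

private theorem il4_pow {L : Set (ℂ → ℂ)} (h : TF L) (z : FF h) (hz : z ≠ 0) (n : ℕ) :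
    fder h (z ^ n) = (n : FF h) * (fder h z / z) * z ^ n := by
  induction n with
  | zero => rw [pow_zero, Derivation.map_one_eq_zero, Nat.cast_zero, zero_mul, zero_mul]
  | succ n ih =>
    rw [pow_succ, Derivation.leibniz, ih]
    simp only [smul_eq_mul]
    push_cast
    field_simp
    ring

private theorem il4_zpow {L : Set (ℂ → ℂ)} (h : TF L) (z : FF h) (hz : z ≠ 0) (n : ℤ) :
    fder h (z ^ n) = (n : FF h) * (fder h z / z) * z ^ n := by
  obtain ⟨m, rfl | rfl⟩ := n.eq_nat_or_neg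
  · rw [zpow_natCast, Int.cast_natCast]
    exact il4_pow h z hz m
  · have h1 : z ^ (-(m : ℤ)) * z ^ m = 1 := by
      rw [zpow_neg, zpow_natCast, inv_mul_cancel₀ (pow_ne_zero _ hz)]
    have h2 := congrArg (fder h) h1
    rw [Derivation.leibniz, Derivation.map_one_eq_zero, il4_pow h z hz m] at h2
    simp only [smul_eq_mul] at h2
    have h3 : z ^ m ≠ 0 := pow_ne_zero _ hz
    push_cast
    apply mul_left_cancel₀ h3
    linear_combination h2

theorem end_deg {y X ω : Kt} (hy : ∀ c : ℂ, y ≠ algebraMap ℂ Kt c) {ℓ : ℂ → ℂ} {κ : ℝ} {c₀ : ℂ}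
    (h : IsLog y ℓ κ c₀) {p : Polynomial ℂ} (hp : 2 ≤ p.natDegree)
    (h1 : ∀ᶠ w in lom, rep (be y X ω 0) w = p.derivative.eval (Mf ℓ w)) : False := by
  have hy0 : y ≠ 0 := by
    have := hy 0
    rwa [map_zero] at this
  have hqd : 1 ≤ p.derivative.natDegree := by
    rw [Polynomial.natDegree_derivative]
    omega
  have hM : EA (Mf ℓ) := by
    obtain ⟨R, hR⟩ := h.ea
    refine ⟨R, ?_⟩
    show DifferentiableOn ℂ (fun w => (I * exp w - ℓ w) / (2 * Real.pi * I)) (Om R)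
    exact ((differentiable_exp.const_mul I).differentiableOn.sub hR).div_const _
  have hL := ll_tf base_Bt
  have hML : Mf ℓ ∈ LL Bt := by
    refine ll_trans base_Bt (d := p.derivative.natDegree)
      (p := fun i => if i = 0 then (fun u => p.derivative.coeff 0 + (-1) * rep (be y X ω 0) u) else
        fun _ => p.derivative.coeff i) ?_ ?_ hM ?_
    · intro i _
      by_cases hi : i = 0
      · simp only [hi, if_true]
        exact hL.add _ (hL.cst _) _ (hL.mul _ (hL.cst (-1)) _ (rep_mem (be y X ω 0)))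
      · simp only [hi, if_false]
        exact hL.cst _
    · refine ⟨p.derivative.natDegree, le_refl _, ?_⟩
      have hne : p.derivative.natDegree ≠ 0 := by omega
      simp only [hne, if_false]
      intro h2
      obtain ⟨u, hu⟩ := h2.exists
      have h3 : p.derivative.coeff p.derivative.natDegree = 0 := hu
      rw [Polynomial.coeff_natDegree, Polynomial.leadingCoeff_eq_zero] at h3
      rw [h3, Polynomial.natDegree_zero] at hqd
      omega
    · filter_upwards [h1] with u hu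
      rw [Finset.sum_range_succ']
      simp only [if_true, Nat.succ_ne_zero, if_false, pow_zero, mul_one, Pi.zero_apply]
      rw [hu, Polynomial.eval_eq_sum_range, Finset.sum_range_succ', pow_zero, mul_one]
      ring
  have hℓL : ℓ ∈ LL Bt := by
    have h2 : (fun u => (fun u => I * exp u) u + (fun u => (-(2 * Real.pi * I)) * Mf ℓ u) u) ∈ LL Bt :=
      hL.add _ (hL.mul _ (hL.cst I) _ tt_mem) _ (hL.mul _ (hL.cst _) _ hML)
    refine hL.congr _ h2 _ h.ea (Eventually.of_forall fun u => ?_)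
    show ℓ u = I * exp u + (-(2 * Real.pi * I)) * Mf ℓ u
    unfold Mf
    have := il4_pi
    field_simp
    ring
  have hv := il4_rep_log h (toF _ ℓ hℓL) (rep_toF hℓL)
  obtain ⟨c, hc⟩ := tr0 (h := ll_tf base_Bt) (v := toF _ ℓ hℓL) (b := y) (w := tt) hy0
    (by rw [hv, div_mul_cancel₀ _ hy0]) (kt_alg _) (kt_alg _)
  rw [hc, Derivation.map_algebraMap] at hv
  have h3 : fder _ y = 0 := by
    have h4 := hv.symm
    rw [div_eq_zero_iff] at h4
    exact h4.resolve_right hy0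
  obtain ⟨c', hc'⟩ := fder_const h3
  exact hy c' hc'

theorem end_lin {y X ω : Kt} (hω : ω ≠ 0)
    (hX : ∀ m₁ m₂ : ℤ, (m₁ ≠ 0 ∨ m₂ ≠ 0) → ∀ c : ℂ,
      (m₁ : Kt) * sh + (m₂ : Kt) * X ≠ algebraMap ℂ Kt c)
    {ℓ : ℂ → ℂ} {κ : ℝ} {c₀ : ℂ} {M₀ : ℝ} {W : ℝ → ℂ}
    (h : ID y ℓ κ c₀ M₀ W) {lm : ℂ → ℂ} {κ' : ℝ} {c' : ℂ} (h' : IsLog ω lm κ' c')
    {p : Polynomial ℂ} (hp : p.natDegree ≤ 1) {R : ℝ}
    (h1 : ∀ w ∈ Om R, rep X w - lm w = 2 * Real.pi * I * p.eval (Mf ℓ w)) {m₁ m₂ : ℕ}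
    (hm : m₁ < m₂) (hm1 : M₀ < m₁) (hR1 : W m₁ ∈ Om R) (hR2 : W m₂ ∈ Om R) {n₁ n₂ : ℤ}
    (hn1 : rep X (W m₁) - lm (W m₁) = 2 * Real.pi * I * n₁)
    (hn2 : rep X (W m₂) - lm (W m₂) = 2 * Real.pi * I * n₂) : False := by
  obtain ⟨e₀, e₁, rfl⟩ := Polynomial.exists_eq_X_add_C_of_natDegree_le_one hp
  have hpi := il4_pi
  have hy0 : y ≠ 0 := h.y0
  have hm2 : M₀ < m₂ := by
    have : (m₁ : ℝ) < m₂ := by exact_mod_cast hm
    linarith
  have q1 : (n₁ : ℂ) = e₀ * m₁ + e₁ := by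
    have h2 := h1 _ hR1
    rw [hn1, h.inv _ hm1] at h2
    have h3 := mul_left_cancel₀ hpi h2
    simpa using h3
  have q2 : (n₂ : ℂ) = e₀ * m₂ + e₁ := by
    have h2 := h1 _ hR2
    rw [hn2, h.inv _ hm2] at h2
    have h3 := mul_left_cancel₀ hpi h2
    simpa using h3
  set a : ℤ := n₂ - n₁ with ha
  set d : ℤ := (m₂ : ℤ) - m₁ with hd
  have hd0 : d ≠ 0 := by omega
  have q3 : e₀ * (d : ℂ) = (a : ℂ) := by
    rw [hd, ha]
    push_cast
    rw [q1, q2]
    ring
  -- the relation between the functions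
  have r1 : (fun w => (d : ℂ) * (rep X w - lm w)) =ᶠ[lom]
      fun w => (a : ℂ) * (I * exp w - ℓ w) + 2 * Real.pi * I * d * e₁ := by
    filter_upwards [om_mem R] with w hw
    rw [h1 w hw]
    simp only [Polynomial.eval_add, Polynomial.eval_mul, Polynomial.eval_C, Polynomial.eval_X]
    rw [← q3]
    unfold Mf
    field_simp
  have r2 := deriv_congr r1
  obtain ⟨R1, hR1'⟩ := h.log.ea
  obtain ⟨R2, hR2'⟩ := h'.ea
  obtain ⟨R3, hR3'⟩ := (ll_tf base_Bt).ea _ (rep_mem X)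
  have r3 : (fun w => (d : ℂ) * (rep (fder _ X) w - rep (fder _ ω / ω) w)) =ᶠ[lom]
      fun w => (a : ℂ) * (I * exp w - rep (fder _ y / y) w) := by
    filter_upwards [r2, om_mem R1, om_mem R2, om_mem R3, rep_fder X, h.log.der, h'.der] with
      w e1 e2 e3 e4 e5 e6 e7
    have d1 : HasDerivAt ℓ (deriv ℓ w) w :=
      (hR1'.differentiableAt ((om_open R1).mem_nhds e2)).hasDerivAt
    have d2 : HasDerivAt lm (deriv lm w) w :=
      (hR2'.differentiableAt ((om_open R2).mem_nhds e3)).hasDerivAt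
    have d3 : HasDerivAt (rep X) (deriv (rep X) w) w :=
      (hR3'.differentiableAt ((om_open R3).mem_nhds e4)).hasDerivAt
    have d4 := ((d3.sub d2).const_mul (d : ℂ)).deriv
    have d5 := (((((Complex.hasDerivAt_exp w).const_mul I).sub d1).const_mul (a : ℂ)).add_const
      (2 * Real.pi * I * d * e₁)).deriv
    have e8 : (d : ℂ) * (deriv (rep X) w - deriv lm w) = (a : ℂ) * (I * exp w - deriv ℓ w) := by
      rw [← d4, ← d5]
      exact e1
    rw [e5, ← e7, ← e6]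
    exact e8
  have r4 : (algebraMap ℂ Kt (d : ℂ)) * (fder _ X - fder _ ω / ω) =
      (algebraMap ℂ Kt (a : ℂ)) * (fder _ sh - fder _ y / y) := by
    rw [rep_inj]
    filter_upwards [r3, rep_mul (algebraMap ℂ Kt (d : ℂ)) (fder _ X - fder _ ω / ω),
      rep_mul (algebraMap ℂ Kt (a : ℂ)) (fder _ sh - fder _ y / y),
      rep_cst (h := ll_tf base_Bt) (d : ℂ), rep_cst (h := ll_tf base_Bt) (a : ℂ),
      rep_sub (fder _ X) (fder _ ω / ω), rep_sub (fder _ sh) (fder _ y / y), sh_rep] with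
      w e1 e2 e3 e4 e5 e6 e7 e8
    rw [e2, e3, e4, e5, e6, e7, fder_sh, e8]
    exact e1
  have c1 : algebraMap ℂ Kt (d : ℂ) = (d : Kt) := map_intCast _ _
  have c2 : algebraMap ℂ Kt (a : ℂ) = (a : Kt) := map_intCast _ _
  rw [c1, c2] at r4
  have hb : ω ^ d * y ^ (-a) ≠ 0 := mul_ne_zero (zpow_ne_zero _ hω) (zpow_ne_zero _ hy0)
  have hv : fder (ll_tf base_Bt) ((d : Kt) * X - (a : Kt) * sh) = (d : Kt) * (fder _ ω / ω) -
      (a : Kt) * (fder _ y / y) := by
    have f1 : ∀ (n : ℤ) (z : Kt), fder (ll_tf base_Bt) ((n : Kt) * z) = (n : Kt) * fder _ z := by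
      intro n z
      rw [← zsmul_eq_mul, ← zsmul_eq_mul, map_zsmul]
    rw [map_sub, f1, f1]
    linear_combination r4
  have hfb : fder (ll_tf base_Bt) (ω ^ d * y ^ (-a)) = ((d : Kt) * (fder _ ω / ω) -
      (a : Kt) * (fder _ y / y)) * (ω ^ d * y ^ (-a)) := by
    rw [Derivation.leibniz, il4_zpow _ _ hω, il4_zpow _ _ hy0]
    simp only [smul_eq_mul]
    push_cast
    ring
  obtain ⟨c, hc⟩ := tr0 (h := ll_tf base_Bt) (v := (d : Kt) * X - (a : Kt) * sh)
    (b := ω ^ d * y ^ (-a)) (w := tt) hb (by rw [hv, hfb]) (kt_alg _) (kt_alg _)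
  apply hX (-a) d (Or.inr hd0) c
  rw [← hc]
  push_cast
  ring

end XD
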