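import Mathlib

/-!
XD-VW: van der Waerden's theorem with bounded difference, and finite differences.

PROOF. `vdw`: for `r = 0` there is no colouring. `Combinatorics.Line.exists_mono_in_high_dimension` with
`α = Fin (k + 1)`, `κ = Fin r` gives a finite type `ι`; `N = card ι`. For `col`, `m₀` colour
`x : ι → Fin (k + 1)` by `col (m₀ + ∑ i, x i)`; a monochromatic line `l`: `∑ i, l x i = b + x * d`, `d` = the number of
active coordinates (`1 ≤ d ≤ card ι`), so `m = m₀ + b`.
-/

set_option autoImplicit false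

namespace XD

open Filter Topology

theorem vdw (k r : ℕ) : ∃ N : ℕ, ∀ (col : ℕ → Fin r) (m₀ : ℕ), ∃ m d : ℕ,
    m₀ ≤ m ∧ 1 ≤ d ∧ d ≤ N ∧ ∀ j ≤ k, col (m + j * d) = col m := by
  classical
  obtain ⟨ι, hι, h⟩ := Combinatorics.Line.exists_mono_in_high_dimension (Fin (k + 1)) (Fin r)
  refine ⟨Fintype.card ι, fun col m₀ => ?_⟩
  obtain ⟨l, c, hl⟩ := h (fun x => col (m₀ + ∑ i, (x i : ℕ)))
  set S : Finset ι := {i | l.idxFun i = none} with hS
  have key : ∀ x : Fin (k + 1), ∑ i, ((l x i : Fin (k + 1)) : ℕ)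
      = (∑ i ∈ Sᶜ, ((l 0 i : Fin (k + 1)) : ℕ)) + (x : ℕ) * S.card := by
    intro x
    rw [← Finset.sum_add_sum_compl S, add_comm]
    congr 1
    · apply Finset.sum_congr rfl
      intro i hi
      rw [hS, Finset.compl_filter, Finset.mem_filter] at hi
      obtain ⟨y, hy⟩ := Option.ne_none_iff_exists.mp hi.right
      rw [Combinatorics.Line.apply_some hy.symm, Combinatorics.Line.apply_some hy.symm]
    · rw [mul_comm, ← smul_eq_mul, ← Finset.sum_const]
      apply Finset.sum_congr rfl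
      intro i hi
      rw [hS, Finset.mem_filter] at hi
      rw [l.apply_none _ _ hi.right]
  have hkey : ∀ x : Fin (k + 1),
      col (m₀ + ((∑ i ∈ Sᶜ, ((l 0 i : Fin (k + 1)) : ℕ)) + (x : ℕ) * S.card)) = c := by
    intro x
    rw [← key x]
    exact hl x
  refine ⟨m₀ + ∑ i ∈ Sᶜ, ((l 0 i : Fin (k + 1)) : ℕ), S.card, Nat.le_add_right _ _, ?_,
    Finset.card_le_univ S, ?_⟩
  · refine Finset.card_pos.mpr ⟨l.proper.choose, ?_⟩
    rw [hS, Finset.mem_filter]
    exact ⟨Finset.mem_univ _, l.proper.choose_spec⟩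
  · intro j hj
    have h1 := hkey ⟨j, Nat.lt_succ_of_le hj⟩
    have h2 := hkey 0
    simp only [Fin.val_zero, zero_mul, add_zero] at h2
    rw [h2, ← h1, add_assoc]

end XD
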