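import Pool.Agent.Lib.MP_228259_lc.D.IL2
import Pool.Agent.Lib.MP_228259_lc.D.IL3
import Pool.Agent.Lib.MP_228259_lc.D.IL4
import Pool.Agent.Lib.MP_228259_lc.D.VW
import Pool.Agent.Lib.MP_228259_lc.D.AC

/-!
XD-IL: Lemma I'.

PROOF. Suppose that the sum is `0` for all `m ≥ N₀`. `Kt` is algebraically closed (`ff_closed base_Bt`): `Q = lc * ∏ (T - ω_i)`,
`i : Fin n` (list of the roots). For `w` far out `∑ i, rep (Q.coeff i) w * E ^ i = rep lc w * ∏ (E - rep ω_i w)` for all
`E ∈ ℂ` (coefficient identities; finitely many functions, `rep_mul`, `rep_sum`; or `ev_isPt`), `rep lc w ≠ 0`. So for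
large `m` with `w = W m`, `E = exp (rep X w) ≠ 0` there is `i` with `E = rep ω_i w`; `ω_i ≠ 0` for large `m` (if `ω_i = 0` then
`rep ω_i w = 0 ≠ E` far out), so restrict to the `ω_i ≠ 0`; `exists_isLog` gives `lm_i` with `exp (lm_i w) = rep ω_i w`, so
`rep X w - lm_i w = 2 π i n`, `n ∈ ℤ` (`Complex.exp_eq_exp_iff_exists_int`). Let `col m` be such an `i` (`m ≥ N₁`; arbitrary
for smaller `m`; the set of the `i` with `ω_i ≠ 0` is not empty).
By `be_small` choose `k` such that for all `i`: `be y X ω_i k = 0` or it has a negative size. `vdw (k + 1) n` gives `N`.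
By `bad_root` for the finitely many `i` with negative size and `1 ≤ d ≤ N` choose `m₀ ≥ N₁` beyond all the thresholds (and
`> M₀`, `W m ∈ Om R` for `m ≥ m₀` with `R` from the next step). `vdw` gives `m ≥ m₀`, `d`: all `m + j d`, `j ≤ k + 1`, have the
same colour `i`. So `be y X ω_i k = 0` (`bad_root`), `good_poly` gives `p`; if `natDegree p ≥ 2`: `end_deg`; otherwise `end_lin` with
`m₁ = m`, `m₂ = m + d` (`k + 1 ≥ 1`).
-/

set_option autoImplicit false

namespace XD

open Complex Filter Topology Metric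

/-- a factorization of a polynomial over `Kt`, evaluated far out -/
theorem lemI_fac (Q : Polynomial Kt) : ∃ (n : ℕ) (ω : Fin n → Kt), ∀ᶠ w in lom, ∀ E : ℂ,
    ∑ i ∈ Finset.range (Q.natDegree + 1), rep (Q.coeff i) w * E ^ i =
      rep Q.leadingCoeff w * ∏ i, (E - rep (ω i) w) := by
  have : IsAlgClosed Kt := ff_closed base_Bt
  have hsp : Q.Splits := IsAlgClosed.splits Q
  refine ⟨Q.roots.toList.length, fun i => Q.roots.toList[i.1], ?_⟩
  set ω : Fin Q.roots.toList.length → Kt := fun i => Q.roots.toList[i.1] with hω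
  have hfac : Q = Polynomial.C Q.leadingCoeff *
      ∏ i, (Polynomial.X - Polynomial.C (ω i)) := by
    have h1 : ∏ i, (Polynomial.X - Polynomial.C (ω i)) =
        (Q.roots.map (fun a => Polynomial.X - Polynomial.C a)).prod := by
      have h2 := Fin.prod_univ_fun_getElem Q.roots.toList
        (fun a : Kt => (Polynomial.X - Polynomial.C a : Polynomial Kt))
      rw [hω]
      rw [h2, ← Multiset.prod_coe, ← Multiset.map_coe, Multiset.coe_toList]
    rw [h1]
    exact hsp.eq_prod_roots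
  set d := Q.natDegree with hd
  set a : Fin (d + 1) ⊕ Fin Q.roots.toList.length → Kt :=
    Sum.elim (fun i => Q.coeff i) ω with ha
  obtain ⟨R, hR⟩ := ev_isPt a
  rw [ev_iff]
  refine ⟨R, fun w hw E => ?_⟩
  have hpt := hR w hw
  set x : Fin (d + 1) ⊕ Fin Q.roots.toList.length → ℂ := fun i => rep (a i) w with hx
  let P1 : Polynomial (MvPolynomial (Fin (d + 1) ⊕ Fin Q.roots.toList.length) ℂ) :=
    ∑ i : Fin (d + 1), Polynomial.C (MvPolynomial.X (Sum.inl i)) * Polynomial.X ^ (i : ℕ)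
  let P2 : Polynomial (MvPolynomial (Fin (d + 1) ⊕ Fin Q.roots.toList.length) ℂ) :=
    Polynomial.C (MvPolynomial.X (Sum.inl (Fin.last d))) *
      ∏ i, (Polynomial.X - Polynomial.C (MvPolynomial.X (Sum.inr i)))
  have e1 : P1.map (MvPolynomial.aeval a).toRingHom = Q := by
    simp only [P1, Polynomial.map_sum, Polynomial.map_mul, Polynomial.map_C, Polynomial.map_pow,
      Polynomial.map_X]
    have h3 : ∀ i : Fin (d + 1), (MvPolynomial.aeval a).toRingHom
        (MvPolynomial.X (Sum.inl i) : MvPolynomial (Fin (d + 1) ⊕ Fin Q.roots.toList.length) ℂ)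
        = Q.coeff i := by
      intro i
      change MvPolynomial.aeval a (MvPolynomial.X (Sum.inl i)) = _
      rw [MvPolynomial.aeval_X]
      rfl
    simp only [h3]
    rw [Fin.sum_univ_eq_sum_range
      (fun i => Polynomial.C (Q.coeff i) * (Polynomial.X : Polynomial Kt) ^ i)]
    exact (Polynomial.as_sum_range_C_mul_X_pow Q).symm
  have e2 : P2.map (MvPolynomial.aeval a).toRingHom = Q := by
    simp only [P2, Polynomial.map_mul, Polynomial.map_C, Polynomial.map_prod,
      Polynomial.map_sub, Polynomial.map_X]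
    have h3 : (MvPolynomial.aeval a).toRingHom
        (MvPolynomial.X (Sum.inl (Fin.last d)) :
          MvPolynomial (Fin (d + 1) ⊕ Fin Q.roots.toList.length) ℂ) = Q.leadingCoeff := by
      change MvPolynomial.aeval a (MvPolynomial.X (Sum.inl (Fin.last d))) = _
      rw [MvPolynomial.aeval_X]
      rfl
    have h4 : ∀ i, (MvPolynomial.aeval a).toRingHom
        (MvPolynomial.X (Sum.inr i) :
          MvPolynomial (Fin (d + 1) ⊕ Fin Q.roots.toList.length) ℂ) = ω i := by
      intro i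
      change MvPolynomial.aeval a (MvPolynomial.X (Sum.inr i)) = _
      rw [MvPolynomial.aeval_X]
      rfl
    rw [h3]
    simp only [h4]
    exact hfac.symm
  have e3 : P1.map (MvPolynomial.eval x) = P2.map (MvPolynomial.eval x) := by
    ext k
    rw [Polynomial.coeff_map, Polynomial.coeff_map]
    have h5 : MvPolynomial.aeval a (P1.coeff k - P2.coeff k) = 0 := by
      rw [map_sub]
      have h6 := congrArg (fun q => Polynomial.coeff q k) (e1.trans e2.symm)
      simp only [Polynomial.coeff_map] at h6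
      exact sub_eq_zero.mpr h6
    have h7 := hpt _ h5
    rw [map_sub] at h7
    exact sub_eq_zero.mp h7
  have e4 := congrArg (fun q => Polynomial.eval E q) e3
  simp only [P1, P2, Polynomial.map_sum, Polynomial.map_mul, Polynomial.map_C, Polynomial.map_pow,
    Polynomial.map_X, Polynomial.map_prod, Polynomial.map_sub, MvPolynomial.eval_X,
    Polynomial.eval_finsetSum, Polynomial.eval_mul, Polynomial.eval_C, Polynomial.eval_pow,
    Polynomial.eval_X, Polynomial.eval_prod, Polynomial.eval_sub] at e4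
  have e5 := Fin.sum_univ_eq_sum_range (fun i => rep (Q.coeff i) w * E ^ i) (d + 1)
  rw [← e5]
  exact e4

theorem lemma_I {y X : Kt} (hy : ∀ c : ℂ, y ≠ algebraMap ℂ Kt c)
    (hX : ∀ m₁ m₂ : ℤ, (m₁ ≠ 0 ∨ m₂ ≠ 0) → ∀ c : ℂ,
      (m₁ : Kt) * sh + (m₂ : Kt) * X ≠ algebraMap ℂ Kt c)
    {ℓ : ℂ → ℂ} {κ : ℝ} {c₀ : ℂ} {M₀ : ℝ} {W : ℝ → ℂ} (h : ID y ℓ κ c₀ M₀ W)
    {Q : Polynomial Kt} (hQ : Q ≠ 0) (N₀ : ℕ) :
    ∃ m : ℕ, N₀ ≤ m ∧
      ∑ i ∈ Finset.range (Q.natDegree + 1), rep (Q.coeff i) (W m) * exp (rep X (W m)) ^ i ≠ 0 := by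
  by_contra hcon
  push Not at hcon
  obtain ⟨n, ω, hω⟩ := lemI_fac Q
  -- the non-zero roots and their logarithms
  let J : Type := {i : Fin n // ω i ≠ 0}
  let _ : Fintype J := Fintype.ofFinite {i : Fin n // ω i ≠ 0}
  have hlog : ∀ i : J, ∃ (lm : ℂ → ℂ) (κ' : ℝ) (c' : ℂ), IsLog (ω i.1) lm κ' c' :=
    fun i => exists_isLog i.2
  choose lm κ' c' hlm using hlog
  -- the natural numbers tend to infinity along `W`
  have hWn : Tendsto (fun m : ℕ => W (m : ℝ)) atTop lom :=
    h.tend.comp tendsto_natCast_atTop_atTop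
  -- every large `m` has a colour
  have hcolex : ∀ᶠ m : ℕ in atTop, ∃ i : J, ∃ z : ℤ,
      rep X (W m) - lm i (W m) = 2 * Real.pi * I * z := by
    have hlc : ∀ᶠ w in lom, rep Q.leadingCoeff w ≠ 0 := by
      obtain ⟨r, s, c, hs⟩ := rep_sz (Polynomial.leadingCoeff_ne_zero.mpr hQ)
      exact hs.ne
    have hz : ∀ i : Fin n, ∀ᶠ w in lom, ω i = 0 → rep (ω i) w = 0 := by
      intro i
      by_cases hi : ω i = 0
      · have := rep_zero.mp hi
        filter_upwards [this] with w hw _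
        exact hw
      · exact Filter.Eventually.of_forall (fun w hw => absurd hw hi)
    have hz' : ∀ᶠ w in lom, ∀ i : Fin n, ω i = 0 → rep (ω i) w = 0 := by
      rw [Filter.eventually_all]
      exact hz
    have he : ∀ᶠ w in lom, ∀ i : J, exp (lm i w) = rep (ω i.1) w := by
      rw [Filter.eventually_all]
      exact fun i => (hlm i).ex
    filter_upwards [hWn.eventually hω, hWn.eventually hlc, hWn.eventually hz',
      hWn.eventually he, eventually_ge_atTop N₀] with m h1 h2 h3 h4 h5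
    have h6 := h1 (exp (rep X (W m)))
    rw [hcon m h5] at h6
    have h7 : ∏ i, (exp (rep X (W m)) - rep (ω i) (W m)) = 0 := by
      rcases mul_eq_zero.mp h6.symm with h8 | h8
      · exact absurd h8 h2
      · exact h8
    obtain ⟨i, -, hi⟩ := Finset.prod_eq_zero_iff.mp h7
    have hi' : exp (rep X (W m)) = rep (ω i) (W m) := sub_eq_zero.mp hi
    have hi0 : ω i ≠ 0 := by
      intro h9
      rw [h3 i h9] at hi'
      exact exp_ne_zero _ hi'
    refine ⟨⟨i, hi0⟩, ?_⟩
    have h10 : exp (rep X (W m)) = exp (lm ⟨i, hi0⟩ (W m)) := by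
      rw [hi']
      exact (h4 ⟨i, hi0⟩).symm
    obtain ⟨z, hz⟩ := Complex.exp_eq_exp_iff_exists_int.mp h10
    refine ⟨z, ?_⟩
    rw [hz]
    ring
  -- the colours
  obtain ⟨N₁, hN₁⟩ := eventually_atTop.mp hcolex
  have hJne : Nonempty J := by
    obtain ⟨i, -⟩ := hN₁ N₁ le_rfl
    exact ⟨i⟩
  have hcol : ∀ m : ℕ, ∃ i : J, N₁ ≤ m → ∃ z : ℤ,
      rep X (W m) - lm i (W m) = 2 * Real.pi * I * z := by
    intro m
    by_cases hm : N₁ ≤ m
    · obtain ⟨i, hi⟩ := hN₁ m hm
      exact ⟨i, fun _ => hi⟩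
    · exact ⟨hJne.some, fun h' => absurd h' hm⟩
  choose col hcol using hcol
  let e := Fintype.equivFin J
  -- the order
  have hk : ∀ i : J, ∃ k : ℕ, ∀ j ≥ k, be y X (ω i.1) j = 0 ∨
      ∃ (r : ℝ) (c : ℂ), r < 0 ∧ Sz (rep (be y X (ω i.1) j)) r 0 c :=
    fun i => be_small h.y0 X (ω i.1)
  choose kk hkk using hk
  let k := Finset.univ.sup kk
  have hk2 : ∀ i : J, be y X (ω i.1) k = 0 ∨
      ∃ (r : ℝ) (c : ℂ), r < 0 ∧ Sz (rep (be y X (ω i.1) k)) r 0 c :=
    fun i => hkk i k (Finset.le_sup (f := kk) (Finset.mem_univ i))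
  obtain ⟨N, hN⟩ := vdw (k + 1) (Fintype.card J)
  -- the bad roots
  have hbad : ∀ᶠ m : ℕ in atTop, ∀ i : J, ∀ d ∈ Finset.Icc 1 N, be y X (ω i.1) k ≠ 0 →
      ¬ ∀ j ≤ k + 1, ∃ n : ℤ,
        rep X (W (m + j * d : ℕ)) - lm i (W (m + j * d : ℕ)) = 2 * Real.pi * I * n := by
    rw [Filter.eventually_all]
    intro i
    rw [Filter.eventually_all_finset]
    intro d hd
    by_cases hb : be y X (ω i.1) k = 0
    · exact Filter.Eventually.of_forall (fun m hm => absurd hb hm)
    · obtain h0 | ⟨r, c, hr, hs⟩ := hk2 i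
      · exact absurd h0 hb
      · filter_upwards [bad_root h (hlm i) hr hs (Finset.mem_Icc.mp hd).1] with m hm _
        exact hm
  -- the good roots
  have hgood : ∀ i : J, be y X (ω i.1) k = 0 → ∃ p : Polynomial ℂ, ∃ R : ℝ,
      (∀ w ∈ Om R, rep X w - lm i w = 2 * Real.pi * I * p.eval (Mf ℓ w)) ∧
      ∀ᶠ w in lom, rep (be y X (ω i.1) 0) w = p.derivative.eval (Mf ℓ w) := by
    intro i hi
    obtain ⟨p, hp1, hp2⟩ := good_poly h.y0 h.log (hlm i) hi
    obtain ⟨R, hR⟩ := ev_iff.mp hp1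
    exact ⟨p, R, hR, hp2⟩
  have hgood' : ∀ i : J, ∃ p : Polynomial ℂ, ∃ R : ℝ, be y X (ω i.1) k = 0 →
      (∀ w ∈ Om R, rep X w - lm i w = 2 * Real.pi * I * p.eval (Mf ℓ w)) ∧
      ∀ᶠ w in lom, rep (be y X (ω i.1) 0) w = p.derivative.eval (Mf ℓ w) := by
    intro i
    by_cases hi : be y X (ω i.1) k = 0
    · obtain ⟨p, R, hpR⟩ := hgood i hi
      exact ⟨p, R, fun _ => hpR⟩
    · exact ⟨0, 0, fun h' => absurd h' hi⟩
  choose p R hpR using hgood'
  have hOm : ∀ᶠ m : ℕ in atTop, ∀ i : J, W m ∈ Om (R i) := by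
    rw [Filter.eventually_all]
    exact fun i => hWn.eventually (om_mem (R i))
  have hM : ∀ᶠ m : ℕ in atTop, M₀ < (m : ℝ) :=
    tendsto_natCast_atTop_atTop.eventually (eventually_gt_atTop M₀)
  obtain ⟨m₀, hm₀⟩ := eventually_atTop.mp
    (hbad.and (hOm.and (hM.and (eventually_ge_atTop N₁))))
  obtain ⟨m, d, hm, hd1, hdN, hmono⟩ := hN (fun m => e (col m)) m₀
  have hcolj : ∀ j ≤ k + 1, col (m + j * d) = col m := by
    intro j hj
    exact e.injective (hmono j hj)
  set i := col m with hi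
  have hints : ∀ j ≤ k + 1, ∃ z : ℤ,
      rep X (W (m + j * d : ℕ)) - lm i (W (m + j * d : ℕ)) = 2 * Real.pi * I * z := by
    intro j hj
    have h1 : N₁ ≤ m + j * d := ((hm₀ m hm).2.2.2).trans (Nat.le_add_right _ _)
    have h2 := hcol (m + j * d) h1
    rw [hcolj j hj] at h2
    exact h2
  by_cases hb : be y X (ω i.1) k = 0
  · obtain ⟨hp1, hp2⟩ := hpR i hb
    rcases Nat.lt_or_ge 1 (p i).natDegree with hdeg | hdeg
    · exact end_deg hy h.log hdeg hp2
    · have hj0 := hints 0 (Nat.zero_le _)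
      have hj1 := hints 1 (by omega)
      obtain ⟨n₁, hn₁⟩ := hj0
      obtain ⟨n₂, hn₂⟩ := hj1
      rw [Nat.zero_mul, Nat.add_zero] at hn₁
      rw [Nat.one_mul] at hn₂
      exact end_lin i.2 hX h (hlm i) hdeg hp1 (m₁ := m) (m₂ := m + d) (by omega)
        (hm₀ m hm).2.2.1 ((hm₀ m hm).2.1 i)
        ((hm₀ (m + d) (by omega)).2.1 i) hn₁ hn₂
  · exact (hm₀ m hm).1 i d (Finset.mem_Icc.mpr ⟨hd1, hdN⟩) hb hints

end XD
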