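import Pool.Agent.Lib.MP_228259_lc.D.ILDefs

/-!
XD-IL1: the functions `be` become small.

PROOF. `mp_sz`: `fder sh = sh` (`fder_tt`) has the size `(1, 0)` with constant `i`; `fder y / y` converges
(`ff_logder`), so it is `0` or has a size with `r ≤ 0`; so `fder sh - fder y / y` has the size `(1, 0)` with
constant `i` (`Tendsto` of the quotient by `phi 1 0`), divide by `2 π i`.
`mp_rep`: `deriv (Mf ℓ) = (i e^w - deriv ℓ) / (2 π i)`, `rep_fder`, `rep_sub`, `IsLog.der`.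
`be_small`: if `be j = 0` then all later ones are `0`. If `be j ≠ 0` has the size `(r, 0)` (`kt_s`) then
`fder (be j) / be j` converges (`ff_logder`), so `be (j + 1) = (fder (be j) / be j) * be j / mp y` is `0` or has a size
`(r', 0)` with `r' ≤ r - 1` (a function tending to a finite limit is `0` or has size `≤ 0`). So the sizes
decrease by at least `1` at each step and become negative.
-/

set_option autoImplicit false

namespace XD

open Complex Filter Topology Metric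

theorem mp_form (y : Kt) : rep (mp y) =ᶠ[lom]
    fun u => (I * exp u - rep (fder _ y / y) u) / (2 * Real.pi * I) := by
  have e1 : mp y = (sh - fder _ y / y) * (algebraMap ℂ Kt (2 * Real.pi * I))⁻¹ := by
    rw [mp, fder_sh, div_eq_mul_inv]
  rw [e1]
  filter_upwards [rep_mul (sh - fder _ y / y) (algebraMap ℂ Kt (2 * Real.pi * I))⁻¹,
    rep_sub sh (fder _ y / y), rep_inv (algebraMap ℂ Kt (2 * Real.pi * I)),
    rep_cst (h := ll_tf base_Bt) (2 * Real.pi * I), sh_rep] with u h1 h2 h3 h4 h5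
  rw [h1, h2, h3, h4, h5]
  exact (div_eq_mul_inv _ _).symm

theorem logder_lim {y : Kt} (hy : y ≠ 0) :
    ∃ r : ℝ, Tendsto (rep (fder _ y / y)) lom (𝓝 (r : ℂ)) := by
  obtain ⟨r, s, c, h⟩ := rep_sz hy
  exact ⟨r, ff_logder h⟩

theorem phi_one (u : ℂ) : phi 1 0 u = exp u := by
  simp [phi]

theorem mp_sz {y : Kt} (hy : y ≠ 0) : Sz (rep (mp y)) 1 0 (1 / (2 * Real.pi)) := by
  have hpi : (Real.pi : ℂ) ≠ 0 := by exact_mod_cast Real.pi_ne_zero
  refine ⟨by simp [hpi], ?_⟩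
  obtain ⟨r, hr⟩ := logder_lim hy
  have hinv : Tendsto (fun u => (phi 1 0 u)⁻¹) lom (𝓝 0) := by
    have h1 : Tendsto (fun u => ‖phi 1 0 u‖) lom atTop := phi_large (Or.inl one_pos)
    rw [tendsto_zero_iff_norm_tendsto_zero]
    have h2 := h1.inv_tendsto_atTop
    refine h2.congr fun u => ?_
    rw [Pi.inv_apply, norm_inv]
  have h3 : Tendsto (fun u => (I - rep (fder _ y / y) u * (phi 1 0 u)⁻¹) / (2 * Real.pi * I)) lom
      (𝓝 ((I - r * 0) / (2 * Real.pi * I))) := by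
    exact (tendsto_const_nhds.sub (hr.mul hinv)).div_const _
  have h4 : (I - (r : ℂ) * 0) / (2 * Real.pi * I) = 1 / (2 * Real.pi) := by
    have := I_ne_zero
    field_simp
    ring
  rw [h4] at h3
  refine h3.congr' ?_
  filter_upwards [mp_form y] with u hu
  rw [hu]
  have h5 : phi 1 0 u ≠ 0 := phi_ne 1 0 u
  rw [phi_one] at h5 ⊢
  field_simp

theorem mp_ne {y : Kt} (hy : y ≠ 0) : mp y ≠ 0 := by
  intro h
  exact (mp_sz hy).not_zero (rep_zero.1 h)

theorem mp_rep {y : Kt} {ℓ : ℂ → ℂ} {κ : ℝ} {c₀ : ℂ} (h : IsLog y ℓ κ c₀) :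
    rep (mp y) =ᶠ[lom] deriv (Mf ℓ) := by
  obtain ⟨R, hR⟩ := h.ea
  filter_upwards [mp_form y, h.der, om_mem R] with u h1 h2 h3
  rw [h1]
  have hl : HasDerivAt ℓ (deriv ℓ u) u :=
    (hR.differentiableAt ((om_open R).mem_nhds h3)).hasDerivAt
  have h4 : HasDerivAt (Mf ℓ) ((I * exp u - deriv ℓ u) / (2 * Real.pi * I)) u :=
    (((Complex.hasDerivAt_exp u).const_mul I).sub hl).div_const _
  rw [h4.deriv, h2]

theorem sz_of_lim {f : ℂ → ℂ} {r s : ℝ} {c L : ℂ} (h : Sz f r s c) (hL : Tendsto f lom (𝓝 L)) :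
    r ≤ 0 := by
  refine (gr_iff h).1 ⟨‖L‖ + 1, 0, ?_⟩
  have h1 := hL.norm.eventually (gt_mem_nhds (lt_add_one ‖L‖))
  filter_upwards [h1] with u hu
  rw [Real.rpow_zero, mul_one]
  exact hu.le

theorem kt_sz {a : Kt} (ha : a ≠ 0) : ∃ (r : ℝ) (c : ℂ), Sz (rep a) r 0 c := by
  obtain ⟨r, s, c, h⟩ := rep_sz ha
  have h1 := kt_s h
  subst h1
  exact ⟨r, c, h⟩

theorem be_step {y : Kt} (hy : y ≠ 0) (X ω : Kt) (j : ℕ) {r : ℝ} {c : ℂ}
    (h : Sz (rep (be y X ω j)) r 0 c) :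
    be y X ω (j + 1) = 0 ∨ ∃ (r' : ℝ) (c' : ℂ), r' ≤ r - 1 ∧ Sz (rep (be y X ω (j + 1))) r' 0 c' := by
  have hne : be y X ω j ≠ 0 := by
    intro h0
    exact h.not_zero (rep_zero.1 h0)
  have e1 : be y X ω (j + 1) = fder _ (be y X ω j) / mp y := rfl
  by_cases hq : fder _ (be y X ω j) / be y X ω j = 0
  · left
    rw [div_eq_zero_iff] at hq
    rcases hq with hq | hq
    · rw [e1, hq, zero_div]
    · exact absurd hq hne
  · right
    obtain ⟨rq, cq, hsq⟩ := kt_sz hq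
    have hrq : rq ≤ 0 := sz_of_lim hsq (ff_logder h)
    have h1 := (hsq.mul h).mul (mp_sz hy).inv
    have e2 : be y X ω (j + 1) =
        (fder _ (be y X ω j) / be y X ω j) * be y X ω j * (mp y)⁻¹ := by
      rw [e1, div_mul_cancel₀ _ hne, div_eq_mul_inv]
    have h2 : rep (be y X ω (j + 1)) =ᶠ[lom]
        fun u => rep (fder _ (be y X ω j) / be y X ω j) u * rep (be y X ω j) u * (rep (mp y) u)⁻¹ := by
      rw [e2]
      filter_upwards [rep_mul ((fder _ (be y X ω j) / be y X ω j) * be y X ω j) (mp y)⁻¹,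
        rep_mul (fder _ (be y X ω j) / be y X ω j) (be y X ω j), rep_inv (mp y)] with u h3 h4 h5
      rw [h3, h4, h5]
    have h3 := h1.congr h2
    have e3 : (0 : ℝ) + 0 + -0 = 0 := by norm_num
    rw [e3] at h3
    exact ⟨rq + r + -1, _, by linarith, h3⟩

theorem be_zero_step {y : Kt} (X ω : Kt) (j : ℕ) (h : be y X ω j = 0) :
    be y X ω (j + 1) = 0 := by
  have e1 : be y X ω (j + 1) = fder _ (be y X ω j) / mp y := rfl
  rw [e1, h, map_zero, zero_div]

theorem be_small {y : Kt} (hy : y ≠ 0) (X ω : Kt) :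
    ∃ k : ℕ, ∀ j ≥ k, be y X ω j = 0 ∨ ∃ (r : ℝ) (c : ℂ), r < 0 ∧ Sz (rep (be y X ω j)) r 0 c := by
  by_cases h0 : be y X ω 0 = 0
  · refine ⟨0, fun j _ => Or.inl ?_⟩
    induction j with
    | zero => exact h0
    | succ j ih => exact be_zero_step X ω j (ih (Nat.zero_le j))
  · obtain ⟨r₀, c₀, hs⟩ := kt_sz h0
    have key : ∀ j, be y X ω j = 0 ∨
        ∃ (r : ℝ) (c : ℂ), r ≤ r₀ - j ∧ Sz (rep (be y X ω j)) r 0 c := by
      intro j
      induction j with
      | zero => exact Or.inr ⟨r₀, c₀, by simp, hs⟩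
      | succ j ih =>
        rcases ih with ih | ⟨r, c, hr, hsr⟩
        · exact Or.inl (be_zero_step X ω j ih)
        · rcases be_step hy X ω j hsr with h1 | ⟨r', c', hr', hs'⟩
          · exact Or.inl h1
          · refine Or.inr ⟨r', c', ?_, hs'⟩
            push_cast
            linarith
    obtain ⟨k, hk⟩ := exists_nat_gt r₀
    refine ⟨k, fun j hj => ?_⟩
    rcases key j with h1 | ⟨r, c, hr, hsr⟩
    · exact Or.inl h1
    · refine Or.inr ⟨r, c, ?_, hsr⟩
      have h2 : (k : ℝ) ≤ j := by exact_mod_cast hj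
      linarith

end XD
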