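import Pool.Agent.Lib.MP_228259_lc.D.IL1

/-!
XD-IL2: if some `be` vanishes then `X - log ω` is a polynomial in `Mf ℓ`.

PROOF. By downward induction on `j` (from `j = k` to `j = 0`): `rep (be j)` is eventually
`(q_j).eval (Mf ℓ)` with `q_j ∈ ℂ[T]`, `natDegree q_j ≤ k - 1 - j` (`q_j = 0` for `j ≥ k`), and
`q_{j+1} = derivative q_j`: given `q_{j+1}` let `Q` be a primitive (`derivative Q = q_{j+1}`); then
`(rep (be j) - Q(Mf ℓ))' = rep (fder (be j)) - q_{j+1}(Mf ℓ) * deriv (Mf ℓ) = 0` (`be (j + 1) * mp = fder (be j)`, `mp_rep`,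
`mp_ne`), so it is a constant (`const_of_deriv`). Finally
`((rep X - λ) / (2 π i))' = rep (be 0) * deriv (Mf ℓ)`, so `(rep X - λ) / (2 π i) = p(Mf ℓ)` with `derivative p = q_0`.
-/

set_option autoImplicit false

namespace XD

open Complex Filter Topology Metric

private theorem xdIL2_prim (q : Polynomial ℂ) : ∃ p : Polynomial ℂ, p.derivative = q := by
  induction q using Polynomial.induction_on' with
  | add a b ha hb =>
    obtain ⟨p, hp⟩ := ha
    obtain ⟨r, hr⟩ := hb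
    exact ⟨p + r, by rw [Polynomial.derivative_add, hp, hr]⟩
  | monomial n a =>
    refine ⟨Polynomial.monomial (n + 1) (a / (n + 1)), ?_⟩
    rw [Polynomial.derivative_monomial]
    have : ((n : ℂ) + 1) ≠ 0 := Nat.cast_add_one_ne_zero n
    simp only [Nat.add_sub_cancel, Nat.cast_add, Nat.cast_one]
    rw [div_mul_cancel₀ _ this]

private theorem xdIL2_step {ℓ : ℂ → ℂ} (hℓ : EA ℓ) {f : ℂ → ℂ} (hf : EA f) (q : Polynomial ℂ)
    (hq : deriv f =ᶠ[lom] fun w => q.eval (Mf ℓ w) * deriv (Mf ℓ) w) :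
    ∃ p : Polynomial ℂ, p.derivative = q ∧ f =ᶠ[lom] fun w => p.eval (Mf ℓ w) := by
  obtain ⟨Q, hQ⟩ := xdIL2_prim q
  obtain ⟨R, hR0⟩ := hℓ
  have hR : DifferentiableOn ℂ (Mf ℓ) (Om R) := by
    intro w hw
    have hl : HasDerivAt ℓ (deriv ℓ w) w :=
      (hR0.differentiableAt ((om_open R).mem_nhds hw)).hasDerivAt
    exact ((((Complex.hasDerivAt_exp w).const_mul I).sub hl).div_const
      _).differentiableAt.differentiableWithinAt
  have hneg : EA (fun w => -(Q.eval (Mf ℓ w))) :=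
    ⟨R, (Q.differentiable.comp_differentiableOn hR).neg⟩
  have hd : deriv (fun w => -(Q.eval (Mf ℓ w))) =ᶠ[lom]
      fun w => -(q.eval (Mf ℓ w) * deriv (Mf ℓ) w) := by
    filter_upwards [om_mem R] with w hw
    have h1 : DifferentiableAt ℂ (Mf ℓ) w := hR.differentiableAt ((om_open R).mem_nhds hw)
    have h2 := (Q.hasDerivAt (Mf ℓ w)).comp w h1.hasDerivAt
    rw [hQ] at h2
    exact h2.neg.deriv
  obtain ⟨c, hc⟩ := const_of_deriv (hf.add hneg) (by
    filter_upwards [deriv_add hf hneg, hq, hd] with w h1 h2 h3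
    rw [h1, h2, h3]
    simp)
  refine ⟨Q + Polynomial.C c, by simp [hQ], ?_⟩
  filter_upwards [hc] with w hw
  rw [Polynomial.eval_add, Polynomial.eval_C, ← hw]
  ring

theorem good_poly {y X ω : Kt} (hy : y ≠ 0) {ℓ : ℂ → ℂ} {κ : ℝ} {c₀ : ℂ} (h : IsLog y ℓ κ c₀)
    {lm : ℂ → ℂ} {κ' : ℝ} {c' : ℂ} (h' : IsLog ω lm κ' c') {k : ℕ} (hk : be y X ω k = 0) :
    ∃ p : Polynomial ℂ,
      (∀ᶠ w in lom, rep X w - lm w = 2 * Real.pi * I * p.eval (Mf ℓ w)) ∧
      ∀ᶠ w in lom, rep (be y X ω 0) w = p.derivative.eval (Mf ℓ w) := by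
  have hpi : (2 * (Real.pi : ℂ) * I) ≠ 0 := by
    have := Real.pi_ne_zero
    simp [this]
  have hmp := mp_ne hy
  have key : ∀ i ≤ k, ∃ q : Polynomial ℂ,
      rep (be y X ω (k - i)) =ᶠ[lom] fun w => q.eval (Mf ℓ w) := by
    intro i
    induction i with
    | zero =>
      intro _
      refine ⟨0, ?_⟩
      rw [Nat.sub_zero]
      filter_upwards [rep_zero.1 hk] with w hw
      rw [hw]
      simp
    | succ i ih =>
      intro hi
      obtain ⟨q, hq⟩ := ih (by omega)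
      have h1 : k - i = (k - (i + 1)) + 1 := by omega
      rw [h1] at hq
      set j := k - (i + 1) with hj
      have h2 : be y X ω (j + 1) * mp y = fder _ (be y X ω j) := by
        change fder _ (be y X ω j) / mp y * mp y = _
        exact div_mul_cancel₀ _ hmp
      have hEA : EA (rep (be y X ω j)) := (ll_tf base_Bt).ea _ (rep_mem _)
      obtain ⟨p, _, hp⟩ := xdIL2_step h.ea hEA q (by
        have h3 := rep_mul (be y X ω (j + 1)) (mp y)
        rw [h2] at h3
        filter_upwards [rep_fder (be y X ω j), h3, hq, mp_rep h] with w e1 e2 e3 e4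
        rw [← e1, e2, e3, e4])
      exact ⟨p, hp⟩
  obtain ⟨q, hq⟩ := key k le_rfl
  rw [Nat.sub_self] at hq
  have hX : EA (rep X) := (ll_tf base_Bt).ea _ (rep_mem _)
  have hlm : EA lm := h'.ea
  have hnl : EA (fun w => (-1 : ℂ) * lm w) := (EA.cst (-1)).mul hlm
  have hs : EA (fun w => rep X w + (-1 : ℂ) * lm w) := hX.add hnl
  have hf : EA (fun w => (2 * (Real.pi : ℂ) * I)⁻¹ * (rep X w + (-1 : ℂ) * lm w)) :=
    (EA.cst _).mul hs
  have h2 : be y X ω 0 * mp y
      = (fder _ X - fder _ ω / ω) / algebraMap ℂ Kt (2 * Real.pi * I) := by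
    change ((fder _ X - fder _ ω / ω) / algebraMap ℂ Kt (2 * Real.pi * I)) / mp y * mp y = _
    exact div_mul_cancel₀ _ hmp
  have h3 := rep_mul (be y X ω 0) (mp y)
  rw [h2, div_eq_mul_inv] at h3
  obtain ⟨p, hpq, hp⟩ := xdIL2_step h.ea hf q (by
    filter_upwards [deriv_mul (EA.cst (2 * (Real.pi : ℂ) * I)⁻¹) hs, deriv_add hX hnl,
      deriv_mul (EA.cst (-1)) hlm, rep_fder X, h'.der, h3, hq, mp_rep h,
      rep_mul (fder _ X - fder _ ω / ω) (algebraMap ℂ Kt (2 * Real.pi * I))⁻¹,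
      rep_inv (algebraMap ℂ Kt (2 * Real.pi * I)),
      rep_cst (h := ll_tf base_Bt) (2 * Real.pi * I), rep_sub (fder _ X) (fder _ ω / ω)]
      with w e1 e2 e3 e4 e5 e6 e7 e8 e9 e10 e11 e12
    rw [e1, e2, e3, ← e4, e5, ← e7, ← e8, ← e6, e9, e10, e11, e12]
    simp only [deriv_const', zero_mul, zero_add]
    ring)
  refine ⟨p, ?_, ?_⟩
  · filter_upwards [hp] with w hw
    rw [← hw]
    field_simp
    ring
  · filter_upwards [hq] with w hw
    rw [hw, hpq]

end XD
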