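import Pool.Agent.Lib.MP_228259_lc.D.EB3
import Pool.Agent.Lib.MP_228259_lc.D.EB1
import Pool.Agent.Lib.MP_228259_lc.D.T0

/-!
Definitions for Lemma I' (7.1 of MP_228259_DEG_h4.md).
-/

set_option autoImplicit false

namespace XD

open Complex Filter Topology Metric

/-- the derivative of `Mf ℓ`, `ℓ` a logarithm of `y` -/
noncomputable def mp (y : Kt) : Kt :=
  (fder _ sh - fder _ y / y) / algebraMap ℂ Kt (2 * Real.pi * I)

/-- the derivatives of `(X - log ω) / (2 π i)` with respect to `Mf ℓ`: `be y X ω j` is the derivative of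
order `j + 1` -/
noncomputable def be (y X ω : Kt) : ℕ → Kt
  | 0 => ((fder _ X - fder _ ω / ω) / algebraMap ℂ Kt (2 * Real.pi * I)) / mp y
  | j + 1 => fder _ (be y X ω j) / mp y

/-- the data: `ℓ` a logarithm of `y`, `W` the inverse function of `Mf ℓ` -/
structure ID (y : Kt) (ℓ : ℂ → ℂ) (κ : ℝ) (c₀ : ℂ) (M₀ : ℝ) (W : ℝ → ℂ) : Prop where
  y0 : y ≠ 0
  log : IsLog y ℓ κ c₀
  tend : Tendsto W atTop lom
  asy : Tendsto (fun x : ℝ => W x - Real.log (2 * Real.pi * x)) atTop (𝓝 0)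
  inv : ∀ x, M₀ < x → Mf ℓ (W x) = x
  der : ∀ x, M₀ < x → deriv (Mf ℓ) (W x) ≠ 0 ∧ HasDerivAt W (deriv (Mf ℓ) (W x))⁻¹ x

end XD
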