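import Pool.Agent.Lib.MP_228259_lc.D.O3

/-!
XD-LD: the logarithmic derivative of a function of size `(r, s)` tends to `r`.

PROOF. First along the real axis: let `q = f / phi r s`, differentiable on `Om R` for `R` large (`h.ea`,
`phi_diff`, `phi_ne`), `q → c`. For `U` real and large the disc `closedBall U 1` is in the sector
(`ball_sub`) and `‖q - c‖ ≤ ε` on it (`ev_ball`), so `‖deriv q U‖ ≤ ε`
(`Complex.norm_deriv_le_of_forall_mem_sphere_norm_le` for `q - c`). `deriv f / f = deriv q / q + r + s / u`,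
so `deriv f U / f U → r` as `U → ∞` real.
Now `q₁ = deriv f / f ∈ L` is tame. If it is eventually `0`: then `r = 0` and the claim holds. Otherwise it has a
size `(r', s', c')`. If `0 < r'` or (`r' = 0`, `0 < s'`) then `‖q₁ U‖ → ∞` along the real
axis (`phi_large`, `tendsto_shift 0`), a contradiction. If `r' = 0 = s'`: `q₁ → c'` in the sector
(`phi_zero`), so `c' = r`. Otherwise `q₁ → 0` in the sector (`phi_small`), so `r = 0`.
-/

set_option autoImplicit false

namespace XD

open Complex Filter Topology Metric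

private theorem ld_phi_deriv (r s : ℝ) {u : ℂ} (hu : u ∈ Om 0) :
    HasDerivAt (phi r s) (phi r s u * (r + s / u)) u := by
  have hsl : u ∈ slitPlane := Or.inl hu.1
  have h1 : HasDerivAt (fun u : ℂ => (r : ℂ) * u + s * log u) (r * 1 + s * u⁻¹) u :=
    ((hasDerivAt_id u).const_mul (r : ℂ)).add ((hasDerivAt_log hsl).const_mul (s : ℂ))
  have h2 := h1.cexp
  rw [mul_one, ← div_eq_mul_inv] at h2
  exact h2

private theorem ld_real {f : ℂ → ℂ} (hf : EA f) {r s : ℝ} {c : ℂ} (hs : Sz f r s c) :
    Tendsto (fun U : ℝ => deriv f U / f U) atTop (𝓝 (r : ℂ)) := by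
  obtain ⟨R, hR⟩ := hf
  obtain ⟨hc, hq⟩ := hs
  set R' := max R 0 with hR'
  have hfR : DifferentiableOn ℂ f (Om R') := hR.mono (om_mono (le_max_left _ _))
  have hpR : DifferentiableOn ℂ (phi r s) (Om R') := (phi_diff r s).mono (om_mono (le_max_right _ _))
  set q : ℂ → ℂ := fun u => f u / phi r s u with hqd
  have hqR : DifferentiableOn ℂ q (Om R') := hfR.div hpR (fun u _ => phi_ne r s u)
  have hA : Tendsto (fun U : ℝ => deriv q (U : ℂ)) atTop (𝓝 0) := by
    rw [Metric.tendsto_nhds]
    intro ε hε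
    have h1 : ∀ᶠ u in lom, ‖q u - c‖ ≤ ε / 2 := by
      have := (Metric.tendsto_nhds.1 hq) (ε / 2) (by positivity)
      filter_upwards [this] with u hu
      rw [dist_eq_norm] at hu
      exact hu.le
    filter_upwards [ev_ball h1 0 1, ball_sub 0 1 R'] with U hU1 hU2
    rw [add_zero] at hU1 hU2
    rw [dist_zero_right]
    have h2 : ‖deriv (fun u => q u - c) (U : ℂ)‖ ≤ (ε / 2) / 1 := by
      refine Complex.norm_deriv_le_of_forall_mem_sphere_norm_le one_pos ?_ ?_
      · have h3 : DifferentiableOn ℂ (fun u => q u - c) (closedBall (U : ℂ) 1) :=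
          (hqR.mono hU2).sub_const c
        exact h3.diffContOnCl_ball (fun _ hz => hz)
      · intro z hz
        exact hU1 z (sphere_subset_closedBall hz)
    rw [deriv_sub_const, div_one] at h2
    linarith
  have hT : Tendsto (fun U : ℝ => (U : ℂ)) atTop lom := by
    have := tendsto_shift 0
    simpa using this
  have hqU : Tendsto (fun U : ℝ => q (U : ℂ)) atTop (𝓝 c) := hq.comp hT
  have hinv : Tendsto (fun U : ℝ => (s : ℂ) / (U : ℂ)) atTop (𝓝 0) := by
    have h1 : Tendsto (fun U : ℝ => s / U) atTop (𝓝 0) := tendsto_const_nhds.div_atTop tendsto_id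
    have h2 := (Complex.continuous_ofReal.tendsto 0).comp h1
    rw [Complex.ofReal_zero] at h2
    refine h2.congr (fun U => ?_)
    simp
  have hlim : Tendsto (fun U : ℝ => deriv q (U : ℂ) / q (U : ℂ) + ((r : ℂ) + (s : ℂ) / (U : ℂ)))
      atTop (𝓝 (0 / c + ((r : ℂ) + 0))) :=
    (hA.div hqU hc).add (tendsto_const_nhds.add hinv)
  rw [zero_div, add_zero, zero_add] at hlim
  refine hlim.congr' ?_
  have hne : ∀ᶠ U : ℝ in atTop, q (U : ℂ) ≠ 0 := hqU.eventually_ne hc
  filter_upwards [hne, hT.eventually (om_mem R')] with U hU hUR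
  have hU0 : (U : ℂ) ∈ Om 0 := om_mono (le_max_right _ _) hUR
  have hd : HasDerivAt q (deriv q (U : ℂ)) (U : ℂ) :=
    (hqR.differentiableAt ((om_open R').mem_nhds hUR)).hasDerivAt
  have hp := ld_phi_deriv r s hU0
  have hfe : f = fun u => q u * phi r s u := by
    funext u
    rw [hqd]
    simp only
    rw [div_mul_cancel₀ _ (phi_ne r s u)]
  have hprod : HasDerivAt f (deriv q (U : ℂ) * phi r s U +
      q U * (phi r s U * (r + s / U))) (U : ℂ) := by
    have h3 := hd.mul hp
    rw [hfe]
    exact h3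
  rw [hprod.deriv]
  have hfU : f U = q U * phi r s U := congrFun hfe U
  rw [hfU]
  have hpn := phi_ne r s (U : ℂ)
  generalize (r : ℂ) + s / U = x
  field_simp

private theorem ld_large {g : ℂ → ℂ} {r r' s' : ℝ} {c' : ℂ}
    (hreal : Tendsto (fun U : ℝ => g U) atTop (𝓝 (r : ℂ)))
    (hT : Tendsto (fun U : ℝ => (U : ℂ)) atTop lom) (hc' : c' ≠ 0)
    (hsz : Tendsto (fun u => g u / phi r' s' u) lom (𝓝 c'))
    (hfac : ∀ u, g u = g u / phi r' s' u * phi r' s' u)
    (hl : Tendsto (fun u => ‖phi r' s' u‖) lom atTop) : False := by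
  have h1 : Tendsto (fun u => ‖g u / phi r' s' u‖ * ‖phi r' s' u‖) lom atTop :=
    Tendsto.pos_mul_atTop (norm_pos_iff.2 hc') hsz.norm hl
  have h2 : Tendsto (fun u => ‖g u‖) lom atTop := by
    refine h1.congr fun u => ?_
    rw [← norm_mul, ← hfac u]
  exact not_tendsto_nhds_of_tendsto_atTop (h2.comp hT) _ hreal.norm

theorem log_der {L : Set (ℂ → ℂ)} (h : TF L) {f : ℂ → ℂ} (hf : f ∈ L) {r s : ℝ} {c : ℂ}
    (hs : Sz f r s c) : Tendsto (fun u => deriv f u / f u) lom (𝓝 (r : ℂ)) := by
  have hreal := ld_real (h.ea f hf) hs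
  have hT : Tendsto (fun U : ℝ => (U : ℂ)) atTop lom := by
    have := tendsto_shift 0
    simpa using this
  have hmem : (fun u => deriv f u / f u) ∈ L := by
    have h1 := h.mul _ (h.der f hf) _ (h.inv f hf)
    have h2 : (fun u => deriv f u / f u) = fun u => deriv f u * (f u)⁻¹ := by
      funext u
      rw [div_eq_mul_inv]
    rw [h2]
    exact h1
  rcases h.tame _ hmem with h0 | ⟨r', s', c', hc', hsz⟩
  · have h1 : Tendsto (fun u => deriv f u / f u) lom (𝓝 0) :=
      (tendsto_const_nhds (x := (0 : ℂ))).congr' (h0.mono fun u hu => hu.symm)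
    have h2 := tendsto_nhds_unique hreal (h1.comp hT)
    rw [h2]
    exact h1
  · have hfac : ∀ u, deriv f u / f u = (deriv f u / f u) / phi r' s' u * phi r' s' u := by
      intro u
      rw [div_mul_cancel₀ _ (phi_ne r' s' u)]
    rcases lt_trichotomy r' 0 with hr | hr | hr
    · have h1 := hsz.mul (phi_small (s := s') (Or.inl hr))
      rw [mul_zero] at h1
      have h1' : Tendsto (fun u => deriv f u / f u) lom (𝓝 0) :=
        h1.congr fun u => (hfac u).symm
      have h2 := tendsto_nhds_unique hreal (h1'.comp hT)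
      rw [h2]
      exact h1'
    · rcases lt_trichotomy s' 0 with hs' | hs' | hs'
      · have h1 := hsz.mul (phi_small (Or.inr ⟨hr, hs'⟩))
        rw [mul_zero] at h1
        have h1' : Tendsto (fun u => deriv f u / f u) lom (𝓝 0) :=
          h1.congr fun u => (hfac u).symm
        have h2 := tendsto_nhds_unique hreal (h1'.comp hT)
        rw [h2]
        exact h1'
      · subst hr hs'
        have h1' : Tendsto (fun u => deriv f u / f u) lom (𝓝 c') := by
          refine hsz.congr fun u => ?_
          rw [phi_zero, div_one]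
        have h2 := tendsto_nhds_unique hreal (h1'.comp hT)
        rw [h2]
        exact h1'
      · exfalso
        exact ld_large hreal hT hc' hsz hfac (phi_large (Or.inr ⟨hr, hs'⟩))
    · exfalso
      exact ld_large hreal hT hc' hsz hfac (phi_large (Or.inl hr))

end XD
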