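import Pool.Agent.Lib.MP_228259_lc.D.FD
import Pool.Agent.Lib.MP_228259_lc.D.BB
import Pool.Agent.Lib.MP_228259_lc.D.LD
import Pool.Agent.Lib.MP_228259_lc.A.CL

/-!
XD-KB: the fields `FK k` (places) and `Kt` (functions algebraic over `ℂ(e^u)`).

PROOF. `kU_mem` etc.: `base_sub`. `kU_rep`, `kY_rep`, `tt_rep`: `rep_toF`. `kY_ne`: `exp` has no zeros (`rep_zero`, `lom_neBot`).
`fder_kY`: `rep_inj`, `rep_fder`, `deriv_congr`, `deriv (exp ∘ KU k) = deriv (KU k) * exp ∘ KU k` (`KU k` is entire).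
`fder_kU_ne`: `deriv (KU k)` is `1`, `-1`, `-e^{-u}`.
-/

set_option autoImplicit false

namespace XD

open Complex Filter Topology Metric

/-- the field of the place `k` -/
abbrev FK (k : Kd) : Type := FF (ll_tf (base_BK k))

/-- the field of the functions algebraic over `ℂ(e^u)` -/
abbrev Kt : Type := FF (ll_tf base_Bt)

theorem kU_mem (k : Kd) : KU k ∈ LL (BK k) := by
  apply base_sub (base_BK k)
  change KU k ∈ Algebra.adjoin ℂ {KU k, KY k}
  exact Algebra.subset_adjoin (by simp)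

theorem kY_mem (k : Kd) : KY k ∈ LL (BK k) := by
  apply base_sub (base_BK k)
  change KY k ∈ Algebra.adjoin ℂ {KU k, KY k}
  exact Algebra.subset_adjoin (by simp)

theorem tt_mem : (fun u => exp u) ∈ LL Bt := by
  apply base_sub base_Bt
  change (fun u => exp u) ∈ Algebra.adjoin ℂ {fun u => exp u}
  exact Algebra.subset_adjoin rfl

/-- the additive coordinate -/
noncomputable def kU (k : Kd) : FK k := toF _ (KU k) (kU_mem k)

/-- the multiplicative coordinate -/
noncomputable def kY (k : Kd) : FK k := toF _ (KY k) (kY_mem k)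

/-- the element `e^u` -/
noncomputable def tt : Kt := toF _ (fun u => exp u) tt_mem

/-- the element `i e^u` -/
noncomputable def sh : Kt := algebraMap ℂ Kt I * tt

theorem kU_rep (k : Kd) : rep (kU k) =ᶠ[lom] KU k := rep_toF _

theorem kY_rep (k : Kd) : rep (kY k) =ᶠ[lom] KY k := rep_toF _

theorem tt_rep : rep tt =ᶠ[lom] fun u => exp u := rep_toF _

theorem kY_ne (k : Kd) : kY k ≠ 0 := by
  intro h
  have h1 := rep_zero.1 h
  obtain ⟨u, hu⟩ := ((kY_rep k).symm.trans h1).exists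
  exact exp_ne_zero _ hu

private theorem xdKB_hd (k : Kd) (u : ℂ) : ∃ c : ℂ, c ≠ 0 ∧ HasDerivAt (KU k) c u := by
  cases k with
  | pos => exact ⟨1, one_ne_zero, hasDerivAt_id u⟩
  | neg => exact ⟨-1, neg_ne_zero.2 one_ne_zero, (hasDerivAt_id u).neg⟩
  | pt a =>
    refine ⟨exp (-u) * (-1), mul_ne_zero (exp_ne_zero _) (neg_ne_zero.2 one_ne_zero), ?_⟩
    exact ((hasDerivAt_id u).neg.cexp).const_add a

private theorem xdKB_fU (k : Kd) : rep (fder _ (kU k)) =ᶠ[lom] deriv (KU k) :=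
  (rep_fder (kU k)).trans (deriv_congr (kU_rep k))

theorem fder_kU_ne (k : Kd) : fder _ (kU k) ≠ 0 := by
  intro h
  have h1 := rep_zero.1 h
  obtain ⟨u, hu⟩ := ((xdKB_fU k).symm.trans h1).exists
  obtain ⟨c, hc, hd⟩ := xdKB_hd k u
  rw [hd.deriv] at hu
  exact hc hu

theorem fder_kY (k : Kd) : fder _ (kY k) = fder _ (kU k) * kY k := by
  rw [rep_inj]
  refine ((rep_fder (kY k)).trans (deriv_congr (kY_rep k))).trans (EventuallyEq.symm ?_)
  refine (rep_mul _ _).trans ?_
  filter_upwards [xdKB_fU k, kY_rep k] with u h1 h2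
  rw [h1, h2]
  obtain ⟨c, _, hd⟩ := xdKB_hd k u
  have hd2 : HasDerivAt (KY k) (exp (KU k u) * c) u := hd.cexp
  rw [hd.deriv, hd2.deriv, KY, mul_comm]

private theorem xdKB_exp : deriv (fun u : ℂ => exp u) = fun u => exp u := by
  funext u
  exact (Complex.hasDerivAt_exp u).deriv

theorem fder_tt : fder _ tt = tt := by
  rw [rep_inj]
  refine ((rep_fder tt).trans (deriv_congr tt_rep)).trans ?_
  rw [xdKB_exp]
  exact tt_rep.symm

theorem sh_rep : rep sh =ᶠ[lom] fun u => I * exp u := by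
  refine (rep_mul _ _).trans ?_
  filter_upwards [rep_cst (h := ll_tf base_Bt) I, tt_rep] with u h1 h2
  rw [h1, h2]

theorem fder_sh : fder _ sh = sh := by
  have h : sh = I • tt := by
    rw [sh, Algebra.smul_def]
  rw [h, Derivation.map_smul, fder_tt]

end XD
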