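import Pool.Agent.Lib.MP_228259_lc.D.AG2
import Pool.Agent.Lib.MP_228259_lc.D.AG3

/-!
XD-LT: the functions algebraic over a base form a tame field.

PROOF. Through `algOn_iff`: sums and products of algebraic elements over the domain `gB B` in the domain
`GG` are algebraic (`IsAlgebraic.add`, `IsAlgebraic.mul`), constants are in `gB B`. `inv`: if `f` is
eventually `0` then so is `f⁻¹` (`EA.congr`, and `AlgOn` with `p = X`); otherwise `f` is tame with a size,
so eventually non-zero (`Sz.ne`), `EA.inv` and `alg_inv`. `der`: `alg_der`, `gder_gm`. `congr`: the germs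
are equal (`gm_eq`), `algOn_iff`. `ll_trans`: a function algebraic over `LL B` (a polynomial relation with
coefficients in `LL B`) is algebraic over `B`: `IsAlgebraic` over the algebraic closure of `gB B` in `GG`
(`Subalgebra.algebraicClosure`), transitivity (`IsAlgebraic.restrictScalars`, `Algebra.IsAlgebraic.trans`).
-/

set_option autoImplicit false

namespace XD

open Complex Filter Topology Metric

private theorem lt_mem {B : Subalgebra ℂ (ℂ → ℂ)} (hB : Base B) {f : ℂ → ℂ} (hf : EA f) :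
    f ∈ LL B ↔ IsAlgebraic (gB B) (gm f hf) := by
  rw [← algOn_iff hB.ea hf]
  exact ⟨fun h => h.2, fun h => ⟨hf, h⟩⟩

private theorem lt_cst (B : Subalgebra ℂ (ℂ → ℂ)) (c : ℂ) :
    IsAlgebraic (gB B) (gm (fun _ => c) (EA.cst c)) := by
  rw [← gm_cst]
  exact isAlgebraic_algebraMap (algebraMap ℂ (gB B) c)

private theorem lt_zero (x : AA) : gpr x = 0 ↔ (x : ℂ → ℂ) =ᶠ[lom] 0 := by
  have h1 : gpr x = gm (x : ℂ → ℂ) x.2 := rfl
  have h4 : (0 : GG) = gm (fun _ => 0) (EA.cst 0) := by
    rw [← gm_cst, map_zero]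
  rw [h1, h4, gm_eq]
  rfl

theorem ll_tf {B : Subalgebra ℂ (ℂ → ℂ)} (hB : Base B) : TF (LL B) where
  ea := fun f h => h.1
  tame := fun f h => algOn_tame hB h.1 h.2
  cst := fun c => (lt_mem hB (EA.cst c)).2 (lt_cst B c)
  add := fun f hf g hg => by
    rw [lt_mem hB (hf.1.add hg.1), ← gm_add hf.1 hg.1]
    exact ((lt_mem hB hf.1).1 hf).add ((lt_mem hB hg.1).1 hg)
  mul := fun f hf g hg => by
    rw [lt_mem hB (hf.1.mul hg.1), ← gm_mul hf.1 hg.1]
    exact ((lt_mem hB hf.1).1 hf).mul ((lt_mem hB hg.1).1 hg)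
  inv := fun f hf => by
    rcases algOn_tame hB hf.1 hf.2 with h0 | ⟨r, s, c, hs⟩
    · have h1 : (fun u => (f u)⁻¹) =ᶠ[lom] fun _ => (0 : ℂ) := by
        filter_upwards [h0] with u hu
        rw [hu]
        simp
      have h2 : EA (fun u => (f u)⁻¹) := (EA.cst 0).congr h1
      rw [lt_mem hB h2, (gm_eq h2 (EA.cst 0)).2 h1]
      exact lt_cst B 0
    · have hne := hs.ne
      have h2 : EA (fun u => (f u)⁻¹) := hf.1.inv hne
      rw [lt_mem hB h2]
      refine alg_inv ((lt_mem hB hf.1).1 hf) ?_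
      rw [gm_mul hf.1 h2]
      have h3 : (1 : GG) = gm (fun _ => 1) (EA.cst 1) := by
        rw [← gm_cst, map_one]
      rw [h3, gm_eq]
      filter_upwards [hne] with u hu
      exact mul_inv_cancel₀ hu
  der := fun f hf => by
    rw [lt_mem hB hf.1.deriv, ← gder_gm f hf.1]
    exact alg_der hB ((lt_mem hB hf.1).1 hf)
  congr := fun f hf g hg hfg => by
    rw [lt_mem hB hg, (gm_eq hg hf.1).2 hfg]
    exact (lt_mem hB hf.1).1 hf

theorem base_sub {B : Subalgebra ℂ (ℂ → ℂ)} (hB : Base B) : (B : Set (ℂ → ℂ)) ⊆ LL B := by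
  intro f hf
  rw [lt_mem hB (hB.ea f hf)]
  have h1 : gm f (hB.ea f hf) ∈ gB B := (mem_gB _).2 ⟨f, hB.ea f hf, hf, rfl⟩
  exact isAlgebraic_algebraMap (⟨_, h1⟩ : gB B)

theorem ll_trans {B : Subalgebra ℂ (ℂ → ℂ)} (hB : Base B) {d : ℕ} {p : ℕ → ℂ → ℂ}
    (hp : ∀ i ≤ d, p i ∈ LL B) (hd : ∃ i ≤ d, ¬ p i =ᶠ[lom] 0) {g : ℂ → ℂ} (hg : EA g)
    (h : (fun u => ∑ i ∈ Finset.range (d + 1), p i u * g u ^ i) =ᶠ[lom] 0) : g ∈ LL B := by
  classical
  rw [lt_mem hB hg]
  -- the coefficients as elements of `AA`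
  set P : ℕ → AA := fun i => if hi : i ≤ d then ⟨p i, (hp i hi).1⟩ else 0 with hP
  have hPi : ∀ i, i ≤ d → (P i : ℂ → ℂ) = p i := by
    intro i hi
    rw [hP]
    simp only [dif_pos hi]
  have halg : ∀ i, gpr (P i) ∈ Subalgebra.algebraicClosure (gB B) GG := by
    intro i
    rw [Subalgebra.mem_algebraicClosure]
    by_cases hi : i ≤ d
    · have h1 := (lt_mem hB (hp i hi).1).1 (hp i hi)
      have h2 : gpr (P i) = gm (p i) (hp i hi).1 := by
        unfold gm
        congr 1
        exact Subtype.ext (hPi i hi)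
      rw [h2]
      exact h1
    · have h2 : P i = 0 := by
        rw [hP]
        simp only [dif_neg hi]
      rw [h2, map_zero]
      exact isAlgebraic_zero
  set A' := Subalgebra.algebraicClosure (gB B) GG with hA'
  set c : ℕ → A' := fun i => ⟨gpr (P i), halg i⟩ with hc
  have hkey : IsAlgebraic A' (gm g hg) := by
    refine ⟨∑ i ∈ Finset.range (d + 1), Polynomial.monomial i (c i), ?_, ?_⟩
    · intro h0
      obtain ⟨i, hi, hne⟩ := hd
      apply hne
      have h1 := congrArg (fun q => Polynomial.coeff q i) h0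
      simp only [Polynomial.finsetSum_coeff, Polynomial.coeff_monomial, Polynomial.coeff_zero] at h1
      rw [Finset.sum_ite_eq' (Finset.range (d + 1)) i, if_pos (Finset.mem_range.2 (by omega))] at h1
      have h2 : gpr (P i) = 0 := congrArg Subtype.val h1
      rw [lt_zero, hPi i hi] at h2
      exact h2
    · rw [map_sum]
      have h1 : ∀ i ∈ Finset.range (d + 1),
          Polynomial.aeval (gm g hg) (Polynomial.monomial i (c i)) = gpr (P i * ⟨g, hg⟩ ^ i) := by
        intro i _
        rw [Polynomial.aeval_monomial, map_mul, map_pow]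
        rfl
      rw [Finset.sum_congr rfl h1, ← map_sum, lt_zero]
      refine Filter.EventuallyEq.trans ?_ h
      refine Filter.Eventually.of_forall fun u => ?_
      have h2 : ((∑ i ∈ Finset.range (d + 1), P i * (⟨g, hg⟩ : AA) ^ i : AA) : ℂ → ℂ) =
          ∑ i ∈ Finset.range (d + 1), (P i : ℂ → ℂ) * g ^ i := by
        rw [AddSubmonoidClass.coe_finsetSum]
        rfl
      rw [h2, Finset.sum_apply]
      refine Finset.sum_congr rfl fun i hi => ?_
      rw [hPi i (by have := Finset.mem_range.1 hi; omega)]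
      rfl
  exact hkey.restrictScalars (gB B)

end XD
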