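import Pool.Agent.Lib.MP_228259_lc.D.Defs

/-!
XD-O1: the sector and its filter.

PROOF. `Om R` is open (strict inequalities of continuous functions) and convex (if `R < u.re`,
`R < v.re` and `|u.im| < u.re`, `|v.im| < v.re` then the same for convex combinations;
`|a u.im + b v.im| ≤ a |u.im| + b |v.im|`). `lom_basis`: `comap re atTop` has the basis
`{u | R < u.re}` (`Filter.HasBasis.comap`, `Filter.atTop_basis_Ioi`), `HasBasis.inf_principal`.
`lom_neBot`: the real points `R + 1 + |R|` are in `Om R`. `ball_sub`: for `|ϑ| ≤ ρ` and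
`U > |R| + |θ| + 2 ρ + 1`: `Re ≥ U - ρ > R`, `|Im| ≤ |θ| + ρ < U - ρ`.
-/

set_option autoImplicit false

namespace XD

open Complex Filter Topology Metric

theorem om_open (R : ℝ) : IsOpen (Om R) := by
  have h1 : IsOpen {u : ℂ | R < u.re} := isOpen_lt continuous_const Complex.continuous_re
  have h2 : IsOpen {u : ℂ | |u.im| < u.re} :=
    isOpen_lt (continuous_abs.comp Complex.continuous_im) Complex.continuous_re
  exact h1.inter h2

theorem om_convex (R : ℝ) : Convex ℝ (Om R) := by
  intro u hu v hv a b ha hb hab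
  obtain ⟨hu1, hu2⟩ := hu
  obtain ⟨hv1, hv2⟩ := hv
  have hre : (a • u + b • v).re = a * u.re + b * v.re := by simp
  have him : (a • u + b • v).im = a * u.im + b * v.im := by simp
  refine ⟨?_, ?_⟩
  · rw [hre]
    rcases ha.eq_or_lt with h0 | h0
    · have hb1 : b = 1 := by linarith
      subst h0; subst hb1; linarith
    · have e1 := mul_lt_mul_of_pos_left hu1 h0
      have e2 := mul_le_mul_of_nonneg_left hv1.le hb
      have e3 : R = a * R + b * R := by rw [← add_mul, hab, one_mul]
      linarith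
  · rw [hre, him]
    have h1 : |a * u.im + b * v.im| ≤ a * |u.im| + b * |v.im| := by
      refine (abs_add_le _ _).trans ?_
      rw [abs_mul, abs_mul, abs_of_nonneg ha, abs_of_nonneg hb]
    rcases ha.eq_or_lt with h0 | h0
    · have hb1 : b = 1 := by linarith
      subst h0; subst hb1; linarith
    · have e1 := mul_lt_mul_of_pos_left hu2 h0
      have e2 := mul_le_mul_of_nonneg_left hv2.le hb
      linarith

theorem om_mono {R R' : ℝ} (h : R ≤ R') : Om R' ⊆ Om R := by
  intro u hu
  exact ⟨lt_of_le_of_lt h hu.1, hu.2⟩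

theorem lom_basis : lom.HasBasis (fun _ : ℝ => True) Om := by
  have h := ((Filter.atTop_basis_Ioi (α := ℝ)).comap Complex.re).inf_principal {u : ℂ | |u.im| < u.re}
  exact h

theorem om_mem (R : ℝ) : Om R ∈ lom := lom_basis.mem_of_mem (i := R) trivial

instance lom_neBot : lom.NeBot := by
  rw [lom_basis.neBot_iff]
  intro R _
  refine ⟨((|R| + 1 : ℝ) : ℂ), ?_, ?_⟩
  · simp only [Complex.ofReal_re]
    have := le_abs_self R
    linarith
  · simp only [Complex.ofReal_re, Complex.ofReal_im, abs_zero]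
    have := abs_nonneg R
    linarith

theorem ev_iff {p : ℂ → Prop} : (∀ᶠ u in lom, p u) ↔ ∃ R : ℝ, ∀ u ∈ Om R, p u := by
  rw [lom_basis.eventually_iff]
  simp

theorem ball_sub (w : ℂ) (ρ R : ℝ) : ∀ᶠ U : ℝ in atTop, closedBall ((U : ℂ) + w) ρ ⊆ Om R := by
  filter_upwards [Filter.eventually_gt_atTop (|R| + 2 * ‖w‖ + 2 * |ρ| + 1)] with U hU u hu
  rw [mem_closedBall, dist_eq_norm] at hu
  have h1 : |(u - ((U : ℂ) + w)).re| ≤ |ρ| :=
    ((Complex.abs_re_le_norm _).trans hu).trans (le_abs_self ρ)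
  have h2 : |(u - ((U : ℂ) + w)).im| ≤ |ρ| :=
    ((Complex.abs_im_le_norm _).trans hu).trans (le_abs_self ρ)
  have h3 : |w.re| ≤ ‖w‖ := Complex.abs_re_le_norm w
  have h4 : |w.im| ≤ ‖w‖ := Complex.abs_im_le_norm w
  simp only [Complex.sub_re, Complex.add_re, Complex.ofReal_re, Complex.sub_im, Complex.add_im,
    Complex.ofReal_im, zero_add] at h1 h2
  rw [abs_le] at h1 h2 h3 h4
  have h5 := le_abs_self R
  have h6 := abs_nonneg R
  have h7 := abs_nonneg ρ
  have h8 := norm_nonneg w
  refine ⟨by linarith [h1.1, h3.1], ?_⟩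
  rw [abs_lt]
  constructor
  · linarith [h1.1, h3.1, h2.1, h4.1]
  · linarith [h1.1, h3.1, h2.2, h4.2]

/-- real points tend to infinity in the sector, with any shift -/
theorem tendsto_shift (w : ℂ) : Tendsto (fun U : ℝ => (U : ℂ) + w) atTop lom := by
  rw [lom_basis.tendsto_right_iff]
  intro R _
  filter_upwards [ball_sub w 0 R] with U hU
  exact hU (by simp)

/-- a shifted ball around a point far out -/
theorem ev_ball {p : ℂ → Prop} (h : ∀ᶠ u in lom, p u) (w : ℂ) (ρ : ℝ) :
    ∀ᶠ U : ℝ in atTop, ∀ u ∈ closedBall ((U : ℂ) + w) ρ, p u := by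
  obtain ⟨R, hR⟩ := ev_iff.1 h
  filter_upwards [ball_sub w ρ R] with U hU u hu
  exact hR u (hU hu)

end XD
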