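import Pool.Agent.Lib.MP_228259_lc.D.OE

/-!
XD-O2: the scale `phi`.

PROOF. On `Om 1`: `Re u > 1`, so `u ≠ 0`, `‖u‖ ≤ 2 Re u` and `‖u‖ ≥ Re u`. `phi_norm`:
`‖exp w‖ = exp (Re w)`, `Re (s log u) = s log ‖u‖` (`Complex.log_re`), `Real.rpow_def_of_pos`.
`phi_small`: if `r < 0`: `‖u‖ ^ s ≤ (1 + ‖u‖) ^ |s| ≤ (1 + 2 Re u) ^ |s|` and
`(1 + 2 x) ^ |s| e^{r x} → 0`. If `r = 0`, `s < 0`: `‖u‖ → ∞`. `phi_large`: the inverse of `phi_small`
for `(-r, -s)`. `ev_log_le`: `|s| log ‖u‖ ≤ ε Re u` eventually.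
-/

set_option autoImplicit false

namespace XD

open Complex Filter Topology Metric

theorem O2_re : Tendsto Complex.re lom atTop := by
  unfold lom
  exact tendsto_comap.mono_left inf_le_left

theorem phi_ne (r s : ℝ) (u : ℂ) : phi r s u ≠ 0 := exp_ne_zero _

theorem phi_zero : phi 0 0 = fun _ => 1 := by
  funext u
  simp [phi]

theorem phi_mul (r s r' s' : ℝ) (u : ℂ) : phi r s u * phi r' s' u = phi (r + r') (s + s') u := by
  unfold phi
  rw [← exp_add]
  congr 1
  push_cast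
  ring

theorem phi_div (r s r' s' : ℝ) (u : ℂ) : phi r s u / phi r' s' u = phi (r - r') (s - s') u := by
  unfold phi
  rw [← exp_sub]
  congr 1
  push_cast
  ring

theorem phi_pow (r s : ℝ) (n : ℕ) (u : ℂ) : phi r s u ^ n = phi (n * r) (n * s) u := by
  unfold phi
  rw [← exp_nat_mul]
  congr 1
  push_cast
  ring

theorem O2_norm (r s : ℝ) (u : ℂ) :
    ‖phi r s u‖ = Real.exp (s * Real.log ‖u‖ + r * u.re) := by
  unfold phi
  rw [Complex.norm_exp]
  congr 1
  rw [Complex.add_re, Complex.re_ofReal_mul, Complex.re_ofReal_mul, Complex.log_re]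
  ring

theorem phi_norm (r s : ℝ) {u : ℂ} (hu : u ≠ 0) :
    ‖phi r s u‖ = ‖u‖ ^ s * Real.exp (r * u.re) := by
  rw [O2_norm, Real.exp_add, Real.rpow_def_of_pos (norm_pos_iff.mpr hu), mul_comm s]

theorem phi_diff (r s : ℝ) : DifferentiableOn ℂ (phi r s) (Om 0) := by
  intro u hu
  have h : u ∈ slitPlane := Or.inl hu.1
  apply DifferentiableAt.differentiableWithinAt
  unfold phi
  exact (((differentiableAt_id).const_mul (r : ℂ)).add
    ((differentiableAt_log h).const_mul (s : ℂ))).cexp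

/-- powers of `u` are smaller than exponentials -/
theorem O2_log_le (s ε : ℝ) (hε : 0 < ε) : ∀ᶠ u in lom, |s * Real.log ‖u‖| ≤ ε * u.re := by
  have hc : 0 < ε / (2 * (|s| + 1)) := by positivity
  have h1 : Tendsto (fun u : ℂ => 2 * u.re) lom atTop :=
    O2_re.const_mul_atTop (by norm_num)
  have h2 := h1.eventually (Real.isLittleO_log_id_atTop.bound hc)
  filter_upwards [h2, om_mem 1] with u hu hu1
  obtain ⟨h3, h4⟩ := hu1
  have hre : 0 < u.re := by linarith
  have h5 : u.re ≤ ‖u‖ := Complex.re_le_norm u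
  have h6 : ‖u‖ ≤ 2 * u.re := by
    have := Complex.norm_le_abs_re_add_abs_im u
    rw [abs_of_pos hre] at this
    linarith
  have h7 : 0 ≤ Real.log ‖u‖ := Real.log_nonneg (by linarith)
  have h8 : Real.log ‖u‖ ≤ Real.log (2 * u.re) := Real.log_le_log (by linarith) h6
  have h9 : Real.log (2 * u.re) ≤ ε / (2 * (|s| + 1)) * (2 * u.re) := by
    have h10 := le_trans (le_abs_self _) hu
    simpa [abs_of_pos hre] using h10
  rw [abs_mul, abs_of_nonneg h7]
  calc |s| * Real.log ‖u‖ ≤ |s| * (ε / (2 * (|s| + 1)) * (2 * u.re)) :=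
        mul_le_mul_of_nonneg_left (h8.trans h9) (abs_nonneg s)
    _ = (|s| / (|s| + 1)) * (ε * u.re) := by
        field_simp
    _ ≤ 1 * (ε * u.re) := by
        apply mul_le_mul_of_nonneg_right _ (by positivity)
        rw [div_le_one (by positivity)]
        linarith
    _ = ε * u.re := one_mul _

theorem O2_normTop : Tendsto (fun u : ℂ => ‖u‖) lom atTop :=
  tendsto_atTop_mono (fun u => Complex.re_le_norm u) O2_re

theorem phi_small {r s : ℝ} (h : r < 0 ∨ (r = 0 ∧ s < 0)) : Tendsto (phi r s) lom (𝓝 0) := by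
  rw [tendsto_zero_iff_norm_tendsto_zero]
  rcases h with h | ⟨h, h'⟩
  · have h1 : Tendsto (fun u : ℂ => Real.exp (r / 2 * u.re)) lom (𝓝 0) :=
      Real.tendsto_exp_atBot.comp (O2_re.const_mul_atTop_of_neg (by linarith))
    refine tendsto_of_tendsto_of_tendsto_of_le_of_le' tendsto_const_nhds h1
      (Eventually.of_forall fun u => norm_nonneg _) ?_
    filter_upwards [O2_log_le s (-r / 2) (by linarith)] with u hu
    rw [O2_norm]
    apply Real.exp_le_exp.mpr
    have := (abs_le.mp hu).2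
    nlinarith
  · have h1 : Tendsto (fun u : ℂ => Real.exp (s * Real.log ‖u‖)) lom (𝓝 0) :=
      Real.tendsto_exp_atBot.comp
        ((Real.tendsto_log_atTop.comp O2_normTop).const_mul_atTop_of_neg h')
    refine h1.congr fun u => ?_
    rw [O2_norm, h]
    simp

theorem phi_large {r s : ℝ} (h : 0 < r ∨ (r = 0 ∧ 0 < s)) :
    Tendsto (fun u => ‖phi r s u‖) lom atTop := by
  have h1 : Tendsto (phi (-r) (-s)) lom (𝓝 0) := by
    apply phi_small
    rcases h with h | ⟨h, h'⟩
    · exact Or.inl (by linarith)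
    · exact Or.inr ⟨by rw [h]; ring, by linarith⟩
  have h2 : Tendsto (fun u => ‖phi (-r) (-s) u‖) lom (𝓝[>] 0) := by
    rw [tendsto_nhdsWithin_iff]
    refine ⟨tendsto_zero_iff_norm_tendsto_zero.mp h1, Eventually.of_forall fun u => ?_⟩
    exact norm_pos_iff.mpr (phi_ne _ _ _)
  refine (tendsto_inv_nhdsGT_zero.comp h2).congr fun u => ?_
  have h3 : phi r s u * phi (-r) (-s) u = 1 := by
    rw [phi_mul]
    simp [phi]
  have h4 : ‖phi r s u‖ * ‖phi (-r) (-s) u‖ = 1 := by
    rw [← norm_mul, h3, norm_one]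
  exact (eq_inv_of_mul_eq_one_left h4).symm

/-- powers of `u` are smaller than exponentials -/
theorem ev_log_le (s ε : ℝ) (hε : 0 < ε) : ∀ᶠ u in lom, |s * Real.log ‖u‖| ≤ ε * u.re :=
  O2_log_le s ε hε

end XD
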