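import Pool.Agent.Lib.MP_228259_lc.D.O2

/-!
XD-O3: sizes.

PROOF. Everything from limits: `Sz.mul`: `f g / (phi phi) = (f / phi) (g / phi)`. `Sz.inv`: inverse of
the limit. `Sz.unique`: the quotient of the two quotients is `phi (r' - r) (s' - s)`, which tends to a
non-zero number, so by `phi_small`, `phi_large` (trichotomy) `r' = r` and `s' = s`; then
uniqueness of limits. `Sz.ne`: `f / phi` is eventually non-zero. `up`/`low`: `‖f / phi‖ ≤ ‖c‖ + 1`,
`≥ ‖c‖ / 2`, and `phi_norm`, `ev_log_le`. `gr_iff`: if `r ≤ 0`, `‖f‖ ≤ (‖c‖ + 1) ‖u‖ ^ s`; if `r > 0` and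
`‖f‖ ≤ C ‖u‖ ^ k` then `phi r (s - k)` would be bounded, contradicting `phi_large`.
`sz_add_max`: `(f + g) / phi r s → c + 0` if `g` has smaller size.
`lim_of_tame`: if `f` has size `(r, s)` and `(r, s) ≤ (r₀, s₀)` lexicographically then
`f / phi r₀ s₀` converges.
-/

set_option autoImplicit false

namespace XD

open Complex Filter Topology Metric

private lemma o3_neg (r s : ℝ) (u : ℂ) : phi (-r) (-s) u = (phi r s u)⁻¹ := by
  have h : phi r s u * phi (-r) (-s) u = 1 := by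
    rw [phi_mul, add_neg_cancel, add_neg_cancel, phi_zero]
  exact eq_inv_of_mul_eq_one_right h

private lemma o3_up {f : ℂ → ℂ} {r s : ℝ} {c : ℂ} (h : Sz f r s c) :
    ∀ᶠ u in lom, ‖f u‖ ≤ (‖c‖ + 1) * ‖phi r s u‖ := by
  have h1 : Tendsto (fun u => ‖f u / phi r s u‖) lom (𝓝 ‖c‖) := h.2.norm
  have h2 : ∀ᶠ u in lom, ‖f u / phi r s u‖ < ‖c‖ + 1 :=
    h1.eventually (gt_mem_nhds (by linarith))
  filter_upwards [h2] with u hu
  have h3 : 0 < ‖phi r s u‖ := norm_pos_iff.2 (phi_ne r s u)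
  rw [norm_div, div_lt_iff₀ h3] at hu
  exact hu.le

theorem Sz.congr {f g : ℂ → ℂ} {r s : ℝ} {c : ℂ} (h : Sz f r s c) (hg : g =ᶠ[lom] f) :
    Sz g r s c := by
  refine ⟨h.1, h.2.congr' ?_⟩
  filter_upwards [hg] with u hu
  rw [hu]

theorem Tame.congr {f g : ℂ → ℂ} (h : Tame f) (hg : g =ᶠ[lom] f) : Tame g := by
  rcases h with h | ⟨r, s, c, h⟩
  · exact Or.inl (hg.trans h)
  · exact Or.inr ⟨r, s, c, Sz.congr h hg⟩

private lemma o3_ne {f : ℂ → ℂ} {r s : ℝ} {c : ℂ} (h : Sz f r s c) :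
    ∀ᶠ u in lom, f u ≠ 0 := by
  filter_upwards [h.2.eventually_ne h.1] with u hu h0
  exact hu (by rw [h0, zero_div])

theorem Sz.unique {f : ℂ → ℂ} {r s r' s' : ℝ} {c c' : ℂ} (h : Sz f r s c) (h' : Sz f r' s' c') :
    r = r' ∧ s = s' ∧ c = c' := by
  have hq : Tendsto (phi (r - r') (s - s')) lom (𝓝 (c' / c)) := by
    refine (h'.2.div h.2 h.1).congr' ?_
    filter_upwards [o3_ne h] with u hu
    rw [← phi_div]
    have h1 := phi_ne r s u
    have h2 := phi_ne r' s' u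
    simp only [Pi.div_apply]
    field_simp
  have hne : c' / c ≠ 0 := div_ne_zero h'.1 h.1
  have hsmall : ¬ (r - r' < 0 ∨ (r - r' = 0 ∧ s - s' < 0)) := by
    intro hs
    exact hne (tendsto_nhds_unique hq (phi_small hs))
  have hlarge : ¬ (0 < r - r' ∨ (r - r' = 0 ∧ 0 < s - s')) := by
    intro hs
    exact not_tendsto_nhds_of_tendsto_atTop (phi_large hs) _ hq.norm
  have hr : r = r' := by
    by_contra hr
    rcases lt_or_gt_of_ne hr with h1 | h1
    · exact hsmall (Or.inl (by linarith))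
    · exact hlarge (Or.inl (by linarith))
  have hs : s = s' := by
    by_contra hs
    rcases lt_or_gt_of_ne hs with h1 | h1
    · exact hsmall (Or.inr ⟨by linarith, by linarith⟩)
    · exact hlarge (Or.inr ⟨by linarith, by linarith⟩)
  subst hr hs
  exact ⟨rfl, rfl, tendsto_nhds_unique h.2 h'.2⟩

theorem Sz.mul {f g : ℂ → ℂ} {r s r' s' : ℝ} {c c' : ℂ} (h : Sz f r s c) (h' : Sz g r' s' c') :
    Sz (fun u => f u * g u) (r + r') (s + s') (c * c') := by
  refine ⟨mul_ne_zero h.1 h'.1, (h.2.mul h'.2).congr fun u => ?_⟩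
  rw [← phi_mul, div_mul_div_comm]

theorem Sz.inv {f : ℂ → ℂ} {r s : ℝ} {c : ℂ} (h : Sz f r s c) :
    Sz (fun u => (f u)⁻¹) (-r) (-s) c⁻¹ := by
  refine ⟨inv_ne_zero h.1, (h.2.inv₀ h.1).congr fun u => ?_⟩
  rw [o3_neg, inv_div, div_eq_mul_inv, div_eq_mul_inv, inv_inv, mul_comm]

theorem Sz.ne {f : ℂ → ℂ} {r s : ℝ} {c : ℂ} (h : Sz f r s c) : ∀ᶠ u in lom, f u ≠ 0 :=
  o3_ne h

theorem Sz.not_zero {f : ℂ → ℂ} {r s : ℝ} {c : ℂ} (h : Sz f r s c) : ¬ f =ᶠ[lom] 0 := by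
  intro h0
  have h1 : ∀ᶠ u in lom, False := by
    filter_upwards [o3_ne h, h0] with u hu hu0
    exact hu hu0
  exact h1.exists.elim fun _ hx => hx

theorem sz_phi (r s : ℝ) : Sz (phi r s) r s 1 := by
  refine ⟨one_ne_zero, tendsto_const_nhds.congr fun u => ?_⟩
  rw [div_self (phi_ne r s u)]

theorem sz_const {c : ℂ} (hc : c ≠ 0) : Sz (fun _ => c) 0 0 c := by
  refine ⟨hc, tendsto_const_nhds.congr fun u => ?_⟩
  rw [phi_zero, div_one]

/-- a tame function is not too large -/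
theorem Tame.up {f : ℂ → ℂ} (h : Tame f) :
    ∃ K : ℝ, 0 < K ∧ ∀ᶠ u in lom, ‖f u‖ ≤ Real.exp (K * u.re) := by
  rcases h with h | ⟨r, s, c, h⟩
  · refine ⟨1, one_pos, ?_⟩
    filter_upwards [h] with u hu
    rw [hu]
    simp [Real.exp_nonneg]
  · have hl : 0 ≤ Real.log (‖c‖ + 1) := Real.log_nonneg (by linarith [norm_nonneg c])
    refine ⟨|r| + 1 + Real.log (‖c‖ + 1), by positivity, ?_⟩
    filter_upwards [o3_up h, ev_log_le s 1 one_pos, om_mem 1] with u h1 h2 h3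
    have hre : 1 < u.re := h3.1
    refine h1.trans ?_
    rw [O2_norm]
    have hc : ‖c‖ + 1 = Real.exp (Real.log (‖c‖ + 1)) :=
      (Real.exp_log (by linarith [norm_nonneg c])).symm
    rw [hc, ← Real.exp_add, Real.exp_log (by linarith [norm_nonneg c] : (0:ℝ) < ‖c‖ + 1)]
    apply Real.exp_le_exp.2
    have h4 : s * Real.log ‖u‖ ≤ 1 * u.re := (le_abs_self _).trans h2
    have h5 : r * u.re ≤ |r| * u.re := mul_le_mul_of_nonneg_right (le_abs_self r) (by linarith)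
    have h6 : Real.log (‖c‖ + 1) ≤ Real.log (‖c‖ + 1) * u.re :=
      le_mul_of_one_le_right hl hre.le
    linarith

/-- a function with a size is not too small -/
theorem Sz.low {f : ℂ → ℂ} {r s : ℝ} {c : ℂ} (h : Sz f r s c) :
    ∃ K : ℝ, 0 < K ∧ ∀ᶠ u in lom, Real.exp (-(K * u.re)) ≤ ‖f u‖ := by
  obtain ⟨K, hK, h1⟩ := Tame.up (Or.inr ⟨_, _, _, Sz.inv h⟩ : Tame fun u => (f u)⁻¹)
  refine ⟨K, hK, ?_⟩
  filter_upwards [h1, o3_ne h] with u hu hne
  rw [norm_inv] at hu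
  have h2 : 0 < ‖f u‖ := norm_pos_iff.2 hne
  rw [Real.exp_neg]
  exact inv_le_of_inv_le₀ h2 hu

theorem gr_iff {f : ℂ → ℂ} {r s : ℝ} {c : ℂ} (h : Sz f r s c) :
    (∃ C k : ℝ, ∀ᶠ u in lom, ‖f u‖ ≤ C * ‖u‖ ^ k) ↔ r ≤ 0 := by
  constructor
  · rintro ⟨C, k, hb⟩
    by_contra hr
    push Not at hr
    have hlarge : Tendsto (fun u => ‖phi r (s - k) u‖) lom atTop := phi_large (Or.inl hr)
    obtain ⟨hc, hlim⟩ := h
    have hcp : 0 < ‖c‖ := norm_pos_iff.2 hc
    have hlow : ∀ᶠ u in lom, ‖c‖ / 2 < ‖f u / phi r s u‖ :=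
      hlim.norm.eventually (lt_mem_nhds (by linarith))
    have hev := hlarge.eventually_gt_atTop (2 * C / ‖c‖)
    have hF : ∀ᶠ u in lom, False := by
      filter_upwards [hb, hlow, hev, om_mem 1] with u h1 h2 h3 h4
      have hu : u ≠ 0 := by
        intro h0
        have : (1 : ℝ) < u.re := h4.1
        rw [h0] at this
        norm_num at this
      have hup : 0 < ‖u‖ := norm_pos_iff.2 hu
      have hphi : 0 < ‖phi r s u‖ := norm_pos_iff.2 (phi_ne r s u)
      rw [norm_div, lt_div_iff₀ hphi] at h2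
      have h5 : ‖phi r (s - k) u‖ = ‖phi r s u‖ / ‖u‖ ^ k := by
        rw [phi_norm r (s - k) hu, phi_norm r s hu, Real.rpow_sub hup]
        ring
      have hk : 0 < ‖u‖ ^ k := Real.rpow_pos_of_pos hup k
      rw [h5, div_lt_div_iff₀ hcp hk] at h3
      nlinarith [h1, h2, h3]
    exact hF.exists.elim fun _ hx => hx
  · intro hr
    refine ⟨‖c‖ + 1, s, ?_⟩
    filter_upwards [o3_up h, om_mem 1] with u h1 h4
    have hre : (1 : ℝ) < u.re := h4.1
    have hu : u ≠ 0 := by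
      intro h0
      rw [h0] at hre
      norm_num at hre
    refine h1.trans (mul_le_mul_of_nonneg_left ?_ (by positivity))
    rw [phi_norm r s hu]
    have h5 : Real.exp (r * u.re) ≤ 1 :=
      Real.exp_le_one_iff.2 (mul_nonpos_of_nonpos_of_nonneg hr (by linarith))
    exact mul_le_of_le_one_right (Real.rpow_nonneg (norm_nonneg _) _) h5

/-- adding a function of smaller size -/
theorem sz_add {f g : ℂ → ℂ} {r s r' s' : ℝ} {c c' : ℂ} (h : Sz f r s c) (h' : Sz g r' s' c')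
    (hl : r' < r ∨ (r' = r ∧ s' < s)) : Sz (fun u => f u + g u) r s c := by
  refine ⟨h.1, ?_⟩
  have h1 : Tendsto (phi (r' - r) (s' - s)) lom (𝓝 0) := by
    apply phi_small
    rcases hl with hl | ⟨h2, h3⟩
    · exact Or.inl (by linarith)
    · exact Or.inr ⟨by linarith, by linarith⟩
  have h2 := h.2.add (h'.2.mul h1)
  rw [mul_zero, add_zero] at h2
  refine h2.congr fun u => ?_
  rw [← phi_div]
  have h3 := phi_ne r s u
  have h4 := phi_ne r' s' u
  field_simp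

/-- the limit relative to a size which is at least as large -/
theorem lim_of_sz {f : ℂ → ℂ} {r s r₀ s₀ : ℝ} {c : ℂ} (h : Sz f r s c)
    (hl : r < r₀ ∨ (r = r₀ ∧ s ≤ s₀)) :
    Tendsto (fun u => f u / phi r₀ s₀ u) lom (𝓝 (if r = r₀ ∧ s = s₀ then c else 0)) := by
  split_ifs with he
  · obtain ⟨rfl, rfl⟩ := he
    exact h.2
  · have h1 : Tendsto (phi (r - r₀) (s - s₀)) lom (𝓝 0) := by
      apply phi_small
      rcases hl with hl | ⟨h2, h3⟩
      · exact Or.inl (by linarith)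
      · refine Or.inr ⟨by linarith, ?_⟩
        have : s ≠ s₀ := fun h4 => he ⟨h2, h4⟩
        have := lt_of_le_of_ne h3 this
        linarith
    have h2 := h.2.mul h1
    rw [mul_zero] at h2
    refine h2.congr fun u => ?_
    rw [← phi_div]
    have h3 := phi_ne r s u
    have h4 := phi_ne r₀ s₀ u
    field_simp

end XD
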