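import Pool.Agent.Lib.MP_228259_lc.D.O1

/-!
XD-OE: functions analytic near infinity.

PROOF. `eqOn`: `Om R` is preconnected (convex), `f`, `g` are analytic on it (`DifferentiableOn.analyticOnNhd`)
and agree on the non-empty open set `Om R' ∩ Om R` (`AnalyticOnNhd.eqOn_of_preconnected_of_eventuallyEq`).
`deriv_congr`: `f = g` on the open set `Om R` gives `deriv f = deriv g` there.
`EA.deriv`: `DifferentiableOn.deriv`. `const_of_deriv`: the derivative vanishes on the convex open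
set `Om R` (`IsOpen.is_const_of_deriv_eq_zero`, or `Convex.is_const_of_fderivWithin_eq_zero`).
`eq0_of_mul`: on a common `Om R` (analytic, preconnected): if `f` does not vanish identically on `Om R`, it is non-zero on a
non-empty open subset, where `g = 0`, so `g = 0` on `Om R`
(`AnalyticOnNhd.eq_zero_or_eq_zero_of_mul_eq_zero` or directly the identity theorem).
-/

set_option autoImplicit false

namespace XD

open Complex Filter Topology Metric

theorem eqOn {f g : ℂ → ℂ} {R : ℝ} (hf : DifferentiableOn ℂ f (Om R))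
    (hg : DifferentiableOn ℂ g (Om R)) (h : f =ᶠ[lom] g) : Set.EqOn f g (Om R) := by
  obtain ⟨R', hR'⟩ := ev_iff.1 h
  have hfa := hf.analyticOnNhd (om_open R)
  have hga := hg.analyticOnNhd (om_open R)
  have hpre : IsPreconnected (Om R) := (om_convex R).isPreconnected
  have hmem : Om (max R R') ∈ lom := om_mem _
  obtain ⟨z0, hz0⟩ := Filter.nonempty_of_mem hmem
  have hz1 : z0 ∈ Om R := om_mono (le_max_left _ _) hz0
  have hz2 : z0 ∈ Om R' := om_mono (le_max_right _ _) hz0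
  refine hfa.eqOn_of_preconnected_of_eventuallyEq hga hpre hz1 ?_
  filter_upwards [(om_open R').mem_nhds hz2] with z hz
  exact hR' z hz

theorem deriv_congr {f g : ℂ → ℂ} (h : f =ᶠ[lom] g) : deriv f =ᶠ[lom] deriv g := by
  obtain ⟨R, hR⟩ := ev_iff.1 h
  refine ev_iff.2 ⟨R, fun u hu => ?_⟩
  apply Filter.EventuallyEq.deriv_eq
  filter_upwards [(om_open R).mem_nhds hu] with z hz
  exact hR z hz

theorem EA.cst (c : ℂ) : EA (fun _ => c) :=
  ⟨0, differentiableOn_const c⟩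

theorem EA.add {f g : ℂ → ℂ} (hf : EA f) (hg : EA g) : EA (fun u => f u + g u) := by
  obtain ⟨R, hR⟩ := hf
  obtain ⟨R', hR'⟩ := hg
  exact ⟨max R R', (hR.mono (om_mono (le_max_left _ _))).add
    (hR'.mono (om_mono (le_max_right _ _)))⟩

theorem EA.mul {f g : ℂ → ℂ} (hf : EA f) (hg : EA g) : EA (fun u => f u * g u) := by
  obtain ⟨R, hR⟩ := hf
  obtain ⟨R', hR'⟩ := hg
  exact ⟨max R R', (hR.mono (om_mono (le_max_left _ _))).mul
    (hR'.mono (om_mono (le_max_right _ _)))⟩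

theorem EA.deriv {f : ℂ → ℂ} (hf : EA f) : EA (deriv f) := by
  obtain ⟨R, hR⟩ := hf
  exact ⟨R, hR.deriv (om_open R)⟩

theorem EA.congr {f g : ℂ → ℂ} (hf : EA f) (h : g =ᶠ[lom] f) : EA g := by
  obtain ⟨R, hR⟩ := hf
  obtain ⟨R', hR'⟩ := ev_iff.1 h
  refine ⟨max R R', (hR.mono (om_mono (le_max_left _ _))).congr fun u hu => ?_⟩
  exact hR' u (om_mono (le_max_right _ _) hu)

theorem EA.inv {f : ℂ → ℂ} (hf : EA f) (h : ∀ᶠ u in lom, f u ≠ 0) : EA (fun u => (f u)⁻¹) := by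
  obtain ⟨R, hR⟩ := hf
  obtain ⟨R', hR'⟩ := ev_iff.1 h
  refine ⟨max R R', (hR.mono (om_mono (le_max_left _ _))).inv fun u hu => ?_⟩
  exact hR' u (om_mono (le_max_right _ _) hu)

theorem oe_diffAt_aux {f : ℂ → ℂ} (hf : EA f) : ∀ᶠ u in lom, DifferentiableAt ℂ f u := by
  obtain ⟨R, hR⟩ := hf
  exact ev_iff.2 ⟨R, fun u hu => hR.differentiableAt ((om_open R).mem_nhds hu)⟩

theorem deriv_add {f g : ℂ → ℂ} (hf : EA f) (hg : EA g) :
    deriv (fun u => f u + g u) =ᶠ[lom] fun u => deriv f u + deriv g u := by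
  filter_upwards [oe_diffAt_aux hf, oe_diffAt_aux hg] with u h1 h2
  exact deriv_fun_add h1 h2

theorem deriv_mul {f g : ℂ → ℂ} (hf : EA f) (hg : EA g) :
    deriv (fun u => f u * g u) =ᶠ[lom] fun u => deriv f u * g u + f u * deriv g u := by
  filter_upwards [oe_diffAt_aux hf, oe_diffAt_aux hg] with u h1 h2
  exact deriv_fun_mul h1 h2

theorem const_of_deriv {f : ℂ → ℂ} (hf : EA f) (h : deriv f =ᶠ[lom] 0) :
    ∃ c : ℂ, f =ᶠ[lom] fun _ => c := by
  obtain ⟨R, hR⟩ := hf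
  obtain ⟨R', hR'⟩ := ev_iff.1 h
  have hpre : IsPreconnected (Om (max R R')) := (om_convex _).isPreconnected
  have hd : DifferentiableOn ℂ f (Om (max R R')) := hR.mono (om_mono (le_max_left _ _))
  have h0 : Set.EqOn (_root_.deriv f) 0 (Om (max R R')) := fun u hu =>
    hR' u (om_mono (le_max_right _ _) hu)
  obtain ⟨z0, hz0⟩ := Filter.nonempty_of_mem (om_mem (max R R'))
  refine ⟨f z0, ev_iff.2 ⟨max R R', fun u hu => ?_⟩⟩
  exact (om_open _).is_const_of_deriv_eq_zero hpre hd h0 hu hz0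

theorem eq0_of_mul {f g : ℂ → ℂ} (hf : EA f) (hg : EA g)
    (h : (fun u => f u * g u) =ᶠ[lom] 0) : f =ᶠ[lom] 0 ∨ g =ᶠ[lom] 0 := by
  obtain ⟨R1, hR1⟩ := hf
  obtain ⟨R2, hR2⟩ := hg
  obtain ⟨R3, hR3⟩ := ev_iff.1 h
  set R := max R1 (max R2 R3) with hRdef
  have hfa : AnalyticOnNhd ℂ f (Om R) :=
    (hR1.mono (om_mono (le_max_left _ _))).analyticOnNhd (om_open R)
  have hga : AnalyticOnNhd ℂ g (Om R) :=
    (hR2.mono (om_mono ((le_max_left _ _).trans (le_max_right _ _)))).analyticOnNhd (om_open R)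
  have hpre : IsPreconnected (Om R) := (om_convex _).isPreconnected
  have hm : ∀ u ∈ Om R, f u * g u = 0 := fun u hu =>
    hR3 u (om_mono ((le_max_right _ _).trans (le_max_right _ _)) hu)
  rcases hfa.eq_zero_or_eq_zero_of_mul_eq_zero hga hm hpre with h1 | h1
  · exact Or.inl (ev_iff.2 ⟨R, fun u hu => h1 u hu⟩)
  · exact Or.inr (ev_iff.2 ⟨R, fun u hu => h1 u hu⟩)

end XD
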