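import Pool.Agent.Lib.MP_228259_lc.D.FD

/-!
XD-PO2: if a coefficient of a monic polynomial over `FF h` has exponential growth, so has a root.

PROOF. `O = {g : FF h | ∃ C k, ∀ᶠ u, ‖rep g u‖ ≤ C ‖u‖ ^ k}` is closed under sums, products and negation
(`rep_add`, `rep_mul`; `‖u‖ ≥ 1` far out, so exponents may be increased; `C ≥ 0` may be assumed), contains
`0`, `1`. If all roots of `P` are in `O` then `P = ∏ (X - z)` (`IsAlgClosed.splits`, monic;
`Polynomial.Splits.eq_prod_roots_of_monic`...) has all coefficients in `O` (induction on the multiset of roots: multiplication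
with `X - z` preserves the property). But `P.coeff j ∉ O` by `gr_iff`. So some root `z` is not in `O`; in
particular `z ≠ 0`, it has a size `(r', s')` (`rep_sz`) and `r' > 0` by `gr_iff`.
-/

set_option autoImplicit false

namespace XD

open Complex Filter Topology Metric

theorem ev_norm_one : ∀ᶠ u in lom, 1 ≤ ‖u‖ := by
  filter_upwards [om_mem 1] with u hu
  have h1 : (1 : ℝ) < u.re := hu.1
  have h2 : u.re ≤ ‖u‖ := (le_abs_self _).trans (Complex.abs_re_le_norm u)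
  linarith

/-- at most polynomial growth -/
def GrO {L : Set (ℂ → ℂ)} {h : TF L} (a : FF h) : Prop :=
  ∃ C k : ℝ, ∀ᶠ u in lom, ‖rep a u‖ ≤ C * ‖u‖ ^ k

theorem GrO.add {L : Set (ℂ → ℂ)} {h : TF L} {a b : FF h} (ha : GrO a) (hb : GrO b) :
    GrO (a + b) := by
  obtain ⟨C, k, h1⟩ := ha
  obtain ⟨D, l, h2⟩ := hb
  refine ⟨|C| + |D|, max k l, ?_⟩
  filter_upwards [h1, h2, rep_add a b, ev_norm_one] with u h3 h4 h5 h6
  rw [h5]
  have h7 : ‖u‖ ^ k ≤ ‖u‖ ^ (max k l) := Real.rpow_le_rpow_of_exponent_le h6 (le_max_left _ _)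
  have h8 : ‖u‖ ^ l ≤ ‖u‖ ^ (max k l) := Real.rpow_le_rpow_of_exponent_le h6 (le_max_right _ _)
  have h9 : 0 ≤ ‖u‖ ^ k := Real.rpow_nonneg (norm_nonneg _) _
  have h10 : 0 ≤ ‖u‖ ^ l := Real.rpow_nonneg (norm_nonneg _) _
  calc ‖rep a u + rep b u‖ ≤ ‖rep a u‖ + ‖rep b u‖ := norm_add_le _ _
    _ ≤ C * ‖u‖ ^ k + D * ‖u‖ ^ l := add_le_add h3 h4
    _ ≤ |C| * ‖u‖ ^ k + |D| * ‖u‖ ^ l :=
        add_le_add (mul_le_mul_of_nonneg_right (le_abs_self _) h9)
          (mul_le_mul_of_nonneg_right (le_abs_self _) h10)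
    _ ≤ |C| * ‖u‖ ^ (max k l) + |D| * ‖u‖ ^ (max k l) :=
        add_le_add (mul_le_mul_of_nonneg_left h7 (abs_nonneg _))
          (mul_le_mul_of_nonneg_left h8 (abs_nonneg _))
    _ = (|C| + |D|) * ‖u‖ ^ (max k l) := by ring

theorem GrO.mul {L : Set (ℂ → ℂ)} {h : TF L} {a b : FF h} (ha : GrO a) (hb : GrO b) :
    GrO (a * b) := by
  obtain ⟨C, k, h1⟩ := ha
  obtain ⟨D, l, h2⟩ := hb
  refine ⟨|C| * |D|, k + l, ?_⟩
  filter_upwards [h1, h2, rep_mul a b, ev_norm_one] with u h3 h4 h5 h6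
  rw [h5]
  have h0 : 0 < ‖u‖ := by linarith
  have h9 : 0 ≤ ‖u‖ ^ k := Real.rpow_nonneg (norm_nonneg _) _
  have h10 : 0 ≤ ‖u‖ ^ l := Real.rpow_nonneg (norm_nonneg _) _
  have h11 : ‖rep a u‖ ≤ |C| * ‖u‖ ^ k :=
    h3.trans (mul_le_mul_of_nonneg_right (le_abs_self _) h9)
  have h12 : ‖rep b u‖ ≤ |D| * ‖u‖ ^ l :=
    h4.trans (mul_le_mul_of_nonneg_right (le_abs_self _) h10)
  calc ‖rep a u * rep b u‖ = ‖rep a u‖ * ‖rep b u‖ := norm_mul _ _
    _ ≤ (|C| * ‖u‖ ^ k) * (|D| * ‖u‖ ^ l) :=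
        mul_le_mul h11 h12 (norm_nonneg _) (mul_nonneg (abs_nonneg _) h9)
    _ = |C| * |D| * ‖u‖ ^ (k + l) := by rw [Real.rpow_add h0]; ring

theorem GrO.cst {L : Set (ℂ → ℂ)} {h : TF L} (c : ℂ) : GrO (algebraMap ℂ (FF h) c) := by
  refine ⟨‖c‖, 0, ?_⟩
  filter_upwards [rep_cst (h := h) c] with u hu
  rw [hu, Real.rpow_zero, mul_one]

theorem GrO.zero {L : Set (ℂ → ℂ)} {h : TF L} : GrO (0 : FF h) := by
  have h1 := GrO.cst (h := h) 0
  rwa [map_zero] at h1

theorem GrO.one {L : Set (ℂ → ℂ)} {h : TF L} : GrO (1 : FF h) := by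
  have h1 := GrO.cst (h := h) 1
  rwa [map_one] at h1

theorem GrO.neg {L : Set (ℂ → ℂ)} {h : TF L} {a : FF h} (ha : GrO a) : GrO (-a) := by
  have h1 := (GrO.cst (h := h) (-1)).mul ha
  rwa [map_neg, map_one, neg_one_mul] at h1

theorem GrO.sum {L : Set (ℂ → ℂ)} {h : TF L} {ι : Type*} (s : Finset ι) (f : ι → FF h)
    (hf : ∀ i ∈ s, GrO (f i)) : GrO (∑ i ∈ s, f i) := by
  classical
  induction s using Finset.induction_on with
  | empty => rw [Finset.sum_empty]; exact GrO.zero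
  | insert i s hi ih =>
    rw [Finset.sum_insert hi]
    exact (hf i (Finset.mem_insert_self _ _)).add
      (ih fun j hj => hf j (Finset.mem_insert_of_mem hj))

theorem GrO.prod {L : Set (ℂ → ℂ)} {h : TF L} (m : Multiset (FF h)) (hm : ∀ z ∈ m, GrO z) :
    ∀ j, GrO ((m.map fun z => Polynomial.X - Polynomial.C z).prod.coeff j) := by
  induction m using Multiset.induction_on with
  | empty =>
    intro j
    rw [Multiset.map_zero, Multiset.prod_zero, Polynomial.coeff_one]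
    split_ifs
    · exact GrO.one
    · exact GrO.zero
  | cons z m ih =>
    intro j
    rw [Multiset.map_cons, Multiset.prod_cons, Polynomial.coeff_mul]
    apply GrO.sum
    intro i _
    refine GrO.mul ?_ (ih (fun w hw => hm w (Multiset.mem_cons_of_mem hw)) _)
    rw [Polynomial.coeff_sub, sub_eq_add_neg]
    apply GrO.add
    · rw [Polynomial.coeff_X]
      split_ifs
      · exact GrO.one
      · exact GrO.zero
    · apply GrO.neg
      rw [Polynomial.coeff_C]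
      split_ifs
      · exact hm z (Multiset.mem_cons_self _ _)
      · exact GrO.zero

theorem root_large {L : Set (ℂ → ℂ)} {h : TF L} [IsAlgClosed (FF h)] {P : Polynomial (FF h)}
    (hm : P.Monic) {j : ℕ} {r s : ℝ} {c : ℂ} (hr : 0 < r) (hj : Sz (rep (P.coeff j)) r s c) :
    ∃ z : FF h, P.eval z = 0 ∧ ∃ r' s' c', 0 < r' ∧ Sz (rep z) r' s' c' := by
  have h1 : ¬ GrO (P.coeff j) := by
    intro h2
    have h3 := (gr_iff hj).1 h2
    linarith
  have h2 : ∃ z ∈ P.roots, ¬ GrO z := by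
    by_contra hcon
    push Not at hcon
    apply h1
    rw [(IsAlgClosed.splits P).eq_prod_roots_of_monic hm]
    exact GrO.prod _ hcon j
  obtain ⟨z, hz, h3⟩ := h2
  refine ⟨z, Polynomial.isRoot_of_mem_roots hz, ?_⟩
  have h4 : z ≠ 0 := by
    rintro rfl
    exact h3 GrO.zero
  obtain ⟨r', s', c', h5⟩ := rep_sz h4
  refine ⟨r', s', c', ?_, h5⟩
  by_contra h6
  exact h3 ((gr_iff h5).2 (not_lt.1 h6))

end XD
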