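import Pool.Agent.Lib.MP_228259_lc.D.PO1
import Pool.Agent.Lib.MP_228259_lc.D.PO2
import Pool.Agent.Lib.MP_228259_lc.D.EM

/-!
XD-PO (POLE): a field of functions of two variables `u, y` and an element `ζ` not algebraic over
`ℂ(u)`: an embedding into the field of a place such that `ζ` has exponential growth.

PROOF. `emb_root` with `t = ![u, y]` gives `P` (a polynomial over `A`, chosen once, before the place).
Some coefficient `π = P.coeff j` is not in
`cl {u}` (otherwise `ζ ∈ cl {u}` by `XA.cl_root`). `π q(u, y) = p(u, y)` with `p, q` relatively prime; transport `p, q` to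
`ℂ[X][Y]` (`Y` the outer variable for `y`, `X` for `u`). `hnot`: `C b * p = C a * q`, `b ≠ 0`, gives `π = a(u) / b(u) ∈ cl {u}`. `pole_kind`
gives the place `k` and the size of `p(KU, KY) / q(KU, KY)`, which is `rep (φ₀ π)` for every embedding `φ₀`
(`emb` with `τ = ![kU k, kY k]`, `fk_ind`, `ff_closed`) with `φ₀ u = kU`, `φ₀ y = kY` (`kpoly_rep`, `rep_mul`,
`rep_inv`). `root_large` for `P.map φ₀`: a root `z` with `r' > 0`; the last clause of `emb_root`: `φ ζ = z`.
-/

set_option autoImplicit false

namespace XD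

open Complex Filter Topology Metric

/-- the two kinds of polynomials in two variables -/
private noncomputable abbrev po_e : MvPolynomial (Fin 2) ℂ ≃ₐ[ℂ] Polynomial (Polynomial ℂ) :=
  (Polynomial.Bivariate.equivMvPolynomial ℂ).symm

private theorem po_eval (p : MvPolynomial (Fin 2) ℂ) (x y : ℂ) :
    (po_e p).evalEval x y = MvPolynomial.eval ![x, y] p := by
  induction p using MvPolynomial.induction_on with
  | C c =>
    rw [MvPolynomial.eval_C, Polynomial.Bivariate.equivMvPolynomial_symm_C]
    simp [Polynomial.evalEval]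
  | add p q hp hq =>
    rw [map_add, map_add, Polynomial.evalEval_add, hp, hq]
  | mul_X p i hp =>
    rw [map_mul, map_mul, Polynomial.evalEval_mul, hp, MvPolynomial.eval_X]
    congr 1
    fin_cases i
    · simp [Polynomial.evalEval]
    · simp [Polynomial.evalEval]

private theorem po_C (a : Polynomial ℂ) {A : Type*} [Field A] [Algebra ℂ A] (u y : A) :
    MvPolynomial.aeval ![u, y] (po_e.symm (Polynomial.C a)) = Polynomial.aeval u a := by
  induction a using Polynomial.induction_on' with
  | add p q hp hq => simp only [map_add, hp, hq]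
  | monomial n c =>
    rw [← Polynomial.C_mul_X_pow_eq_monomial]
    simp [po_e]

private theorem po_rel {p q : MvPolynomial (Fin 2) ℂ} (h : IsRelPrime p q) :
    IsRelPrime (po_e p) (po_e q) := by
  intro d hp hq
  have h1 : po_e.symm d ∣ p := by
    have := map_dvd po_e.symm hp
    rwa [po_e.symm_apply_apply] at this
  have h2 : po_e.symm d ∣ q := by
    have := map_dvd po_e.symm hq
    rwa [po_e.symm_apply_apply] at this
  have h3 := h h1 h2
  have h4 := h3.map po_e
  rwa [po_e.apply_symm_apply] at h4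

theorem pole {A : Type*} [Field A] [Algebra ℂ A] {u y : A} (hind : AlgebraicIndependent ℂ ![u, y])
    (hA : ∀ a : A, a ∈ XA.cl ({u, y} : Set A)) {ζ : A} (hζ : ζ ∉ XA.cl ({u} : Set A)) :
    ∃ (k : Kd) (φ : A →ₐ[ℂ] FK k), φ u = kU k ∧ φ y = kY k ∧
      ∃ r s c, 0 < r ∧ Sz (rep (φ ζ)) r s c := by
  have hrange : Set.range ![u, y] = ({u, y} : Set A) := by
    exact Matrix.range_cons_cons_empty u y ![]
  have hA' : ∀ a : A, a ∈ XA.cl (Set.range ![u, y]) := by
    rw [hrange]
    exact hA
  obtain ⟨P, hPm, hPζ, hPc, hPe⟩ := emb_root hind hA' ζ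
  obtain ⟨j, hj⟩ : ∃ j, P.coeff j ∉ XA.cl ({u} : Set A) := by
    by_contra hcon
    push Not at hcon
    exact hζ (XA.cl_root _ P hPm.ne_zero hcon ζ hPζ)
  obtain ⟨p, q, hpq, hq, hπ⟩ := hPc j
  have hinj := hind
  rw [algebraicIndependent_iff] at hinj
  have hnot : ∀ a b : Polynomial ℂ, b ≠ 0 →
      Polynomial.C b * po_e p ≠ Polynomial.C a * po_e q := by
    intro a b hb h
    apply hj
    have h1 := congrArg (fun w => MvPolynomial.aeval ![u, y] (po_e.symm w)) h
    simp only [map_mul, po_C, po_e.symm_apply_apply] at h1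
    have hq0 : MvPolynomial.aeval ![u, y] q ≠ 0 := fun h0 => hq (hinj q h0)
    have h2 : Polynomial.aeval u b * P.coeff j = Polynomial.aeval u a := by
      apply mul_right_cancel₀ hq0
      rw [mul_assoc, hπ, h1]
    have hb0 : Polynomial.aeval u b ≠ 0 := by
      intro h0
      have h3 : MvPolynomial.aeval ![u, y] (po_e.symm (Polynomial.C b)) = 0 := by
        rw [po_C, h0]
      have h4 := hinj _ h3
      rw [map_eq_zero_iff _ po_e.symm.injective, Polynomial.C_eq_zero] at h4
      exact hb h4
    obtain ⟨K, hK⟩ := XA.cl_field ({u} : Set A)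
    have hu : u ∈ K := by
      have : u ∈ (K : Set A) := by
        rw [hK]
        exact XA.subset_cl _ rfl
      exact this
    have hmem : ∀ w : Polynomial ℂ, Polynomial.aeval u w ∈ K := by
      intro w
      induction w using Polynomial.induction_on' with
      | add p q hp hq =>
        rw [map_add]
        exact K.add_mem hp hq
      | monomial n c =>
        rw [Polynomial.aeval_monomial]
        exact K.mul_mem (K.algebraMap_mem c) (pow_mem hu n)
    rw [← hK]
    have h5 : P.coeff j = Polynomial.aeval u a / Polynomial.aeval u b := by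
      rw [eq_div_iff hb0, mul_comm, h2]
    rw [h5]
    exact K.div_mem (hmem a) (hmem b)
  have hq' : po_e q ≠ 0 := by
    rwa [Ne, map_eq_zero_iff _ po_e.injective]
  obtain ⟨k, r, s, c, hr, hs⟩ := pole_kind hq' (po_rel hpq) hnot
  have : IsAlgClosed (FK k) := ff_closed (base_BK k)
  obtain ⟨φ₀, hφ₀⟩ := emb (M := FK k) hind (fk_ind k) hA'
  have h0 : φ₀ u = kU k := hφ₀ 0
  have h1 : φ₀ y = kY k := hφ₀ 1
  have hcomp : ∀ w : MvPolynomial (Fin 2) ℂ, φ₀ (MvPolynomial.aeval ![u, y] w) =
      MvPolynomial.aeval ![kU k, kY k] w := by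
    intro w
    rw [MvPolynomial.comp_aeval_apply]
    congr 2
    funext i
    rw [hφ₀ i]
  have hq1 : MvPolynomial.aeval ![kU k, kY k] q ≠ 0 := by
    intro h2
    exact hq ((algebraicIndependent_iff.1 (fk_ind k)) q h2)
  have h2 : φ₀ (P.coeff j) = MvPolynomial.aeval ![kU k, kY k] p *
      (MvPolynomial.aeval ![kU k, kY k] q)⁻¹ := by
    rw [eq_mul_inv_iff_mul_eq₀ hq1, ← hcomp, ← hcomp, ← map_mul, hπ]
  have h3 : Sz (rep (φ₀ (P.coeff j))) r s c := by
    refine hs.congr ?_
    rw [h2]
    filter_upwards [rep_mul (MvPolynomial.aeval ![kU k, kY k] p)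
      (MvPolynomial.aeval ![kU k, kY k] q)⁻¹, rep_inv (MvPolynomial.aeval ![kU k, kY k] q),
      kpoly_rep k p, kpoly_rep k q] with w e1 e2 e3 e4
    rw [e1, e2, e3, e4, po_eval, po_eval, div_eq_mul_inv]
  have h4 : Sz (rep ((P.map φ₀.toRingHom).coeff j)) r s c := by
    rw [Polynomial.coeff_map]
    exact h3
  obtain ⟨z, hz, r', s', c', hr', hs'⟩ := root_large (hPm.map φ₀.toRingHom) hr h4
  obtain ⟨φ, hφ, hφζ⟩ := hPe (FK k) φ₀ z hz
  refine ⟨k, φ, ?_, ?_, r', s', c', hr', ?_⟩
  · exact (hφ 0).trans h0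
  · exact (hφ 1).trans h1
  · rw [hφζ]
    exact hs'

end XD
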