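import Pool.Agent.Lib.MP_228259_lc.D.EB5
import Pool.Agent.Lib.MP_228259_lc.D.FCo

/-!
XD-PO1: a rational function of `u, y` which is not a function of `u` has a pole at some place.

PROOF of `pole_kind`: (1) `natDegree p > natDegree q`: `k = pos`, quotient of the sizes (`sz_pos`). (2)
`natTrailingDegree p < natTrailingDegree q`: `k = neg` (`sz_neg`). (3) `natTrailingDegree q < natDegree q`:
`q = X ^ t * q'` with `q'.coeff 0 ≠ 0`, `natDegree q' > 0`; `q'` has an irreducible factor `l` of positive
degree (otherwise `q'` would be a product of constants); `l.coeff 0 ≠ 0`. By `exp_pts` and `fin_common` for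
`p, l` (relatively prime since `l ∣ q`) there is `b` with `l.evalEval b (exp b) = 0 ≠ p.evalEval b (exp b)`; `k = pt b`: `sz_pt`: `p` has `n = 0`,
`q` has `n > 0`. (4) Otherwise `q = C q₀ * X ^ t` and `p = C p₀ * X ^ t` (`natDegree p ≤ t ≤ natTrailingDegree p`), so
`C q₀ * p = C p₀ * q`, a contradiction. (`p ≠ 0` by `hnot` with `a = 0`, `b = 1`.)
-/

set_option autoImplicit false

namespace XD

open Complex Filter Topology Metric

private theorem po1_div {f g : ℂ → ℂ} {r s r' s' : ℝ} {c c' : ℂ} (h : Sz f r s c)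
    (h' : Sz g r' s' c') : Sz (fun u => f u / g u) (r - r') (s - s') (c * c'⁻¹) := by
  have h1 := h.mul h'.inv
  simpa [div_eq_mul_inv, sub_eq_add_neg] using h1

private theorem po1_mono {p : Polynomial (Polynomial ℂ)} {t : ℕ} (h1 : p.natDegree ≤ t)
    (h2 : t ≤ p.natTrailingDegree) : p = Polynomial.C (p.coeff t) * Polynomial.X ^ t := by
  ext1 i
  rw [Polynomial.coeff_C_mul_X_pow]
  split_ifs with h
  · rw [h]
  · rcases lt_or_gt_of_ne h with h3 | h3
    · exact Polynomial.coeff_eq_zero_of_lt_natTrailingDegree (by omega)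
    · exact Polynomial.coeff_eq_zero_of_natDegree_lt (by omega)

private theorem po1_fac {q : Polynomial (Polynomial ℂ)} (hq : q ≠ 0)
    (h : q.natTrailingDegree < q.natDegree) :
    ∃ l : Polynomial (Polynomial ℂ), l ∣ q ∧ 0 < l.natDegree ∧ l.coeff 0 ≠ 0 := by
  obtain ⟨q', hq'⟩ : Polynomial.X ^ q.natTrailingDegree ∣ q := by
    rw [Polynomial.X_pow_dvd_iff]
    intro d hd
    exact Polynomial.coeff_eq_zero_of_lt_natTrailingDegree hd
  have hq'0 : q' ≠ 0 := by
    rintro rfl
    apply hq
    rw [hq', mul_zero]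
  have hc : q'.coeff 0 ≠ 0 := by
    have h1 : q.coeff q.natTrailingDegree = q'.coeff 0 := by
      conv_lhs => rw [hq']
      rw [Polynomial.coeff_X_pow_mul']
      simp [← hq']
    rw [← h1]
    exact Polynomial.trailingCoeff_nonzero_iff_nonzero.2 hq
  have hd : 0 < q'.natDegree := by
    have h1 : q.natDegree = q.natTrailingDegree + q'.natDegree := by
      conv_lhs => rw [hq']
      rw [Polynomial.natDegree_mul (pow_ne_zero _ Polynomial.X_ne_zero) hq'0,
        Polynomial.natDegree_X_pow]
    omega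
  obtain ⟨f, hf, hass⟩ := UniqueFactorizationMonoid.exists_prime_factors q' hq'0
  have hex : ∃ l ∈ f, 0 < l.natDegree := by
    by_contra hno
    push Not at hno
    have h1 : f.prod.natDegree = q'.natDegree :=
      Polynomial.natDegree_eq_of_degree_eq (Polynomial.degree_eq_degree_of_associated hass)
    have h2 : f.prod.natDegree = (f.map Polynomial.natDegree).sum := by
      refine Polynomial.natDegree_multiset_prod f ?_
      intro h0
      exact (hf 0 h0).ne_zero rfl
    have h3 : (f.map Polynomial.natDegree).sum = 0 := by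
      rw [Multiset.sum_eq_zero_iff]
      intro x hx
      rw [Multiset.mem_map] at hx
      obtain ⟨l, hl, rfl⟩ := hx
      have := hno l hl
      omega
    omega
  obtain ⟨l, hl, hl0⟩ := hex
  have hlq : l ∣ q' := (Multiset.dvd_prod hl).trans hass.dvd
  refine ⟨l, ?_, hl0, ?_⟩
  · rw [hq']
    exact Dvd.dvd.mul_left hlq _
  · intro h0
    obtain ⟨m, hm⟩ := hlq
    apply hc
    rw [hm, Polynomial.mul_coeff_zero, h0, zero_mul]

private theorem po1_eval {l q : Polynomial (Polynomial ℂ)} (h : l ∣ q) {x y : ℂ}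
    (hl : l.evalEval x y = 0) : q.evalEval x y = 0 := by
  obtain ⟨m, rfl⟩ := h
  rw [Polynomial.evalEval_mul, hl, zero_mul]

theorem pole_kind {p q : Polynomial (Polynomial ℂ)} (hq : q ≠ 0) (hpq : IsRelPrime p q)
    (hnot : ∀ a b : Polynomial ℂ, b ≠ 0 → Polynomial.C b * p ≠ Polynomial.C a * q) :
    ∃ (k : Kd) (r s : ℝ) (c : ℂ), 0 < r ∧
      Sz (fun u => p.evalEval (KU k u) (KY k u) / q.evalEval (KU k u) (KY k u)) r s c := by
  have hp : p ≠ 0 := by
    rintro rfl
    exact hnot 0 1 one_ne_zero (by simp)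
  by_cases h1 : q.natDegree < p.natDegree
  · obtain ⟨s, c, hs⟩ := sz_pos hp
    obtain ⟨s', c', hs'⟩ := sz_pos hq
    refine ⟨Kd.pos, _, _, _, ?_, po1_div hs hs'⟩
    have : (q.natDegree : ℝ) < p.natDegree := by exact_mod_cast h1
    linarith
  by_cases h2 : p.natTrailingDegree < q.natTrailingDegree
  · obtain ⟨s, c, hs⟩ := sz_neg hp
    obtain ⟨s', c', hs'⟩ := sz_neg hq
    refine ⟨Kd.neg, _, _, _, ?_, po1_div hs hs'⟩
    have : (p.natTrailingDegree : ℝ) < q.natTrailingDegree := by exact_mod_cast h2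
    linarith
  by_cases h3 : q.natTrailingDegree < q.natDegree
  · obtain ⟨l, hlq, hl1, hl0⟩ := po1_fac hq h3
    have hinf := exp_pts hl1 hl0
    have hfin := fin_common (p := p) (q := l) (fun d hd1 hd2 => hpq hd1 (hd2.trans hlq))
    obtain ⟨b, hb1, hb2⟩ := (hinf.sdiff hfin).nonempty
    have hlb : l.evalEval b (exp b) = 0 := hb1
    have hpb : p.evalEval b (exp b) ≠ 0 := fun h0 => hb2 ⟨exp b, h0, hlb⟩
    have hqb : q.evalEval b (exp b) = 0 := po1_eval hlq hlb
    obtain ⟨n, c, hs, hn⟩ := sz_pt b hp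
    obtain ⟨n', c', hs', hn'⟩ := sz_pt b hq
    refine ⟨Kd.pt b, _, _, _, ?_, po1_div hs hs'⟩
    have e1 : n = 0 := hn.2 hpb
    have e2 : n' ≠ 0 := fun h0 => (hn'.1 h0) hqb
    have e3 : (0 : ℝ) < n' := by
      have : 0 < n' := Nat.pos_of_ne_zero e2
      exact_mod_cast this
    rw [e1, Nat.cast_zero]
    linarith
  · exfalso
    have e1 := Polynomial.natTrailingDegree_le_natDegree q
    have e2 := Polynomial.natTrailingDegree_le_natDegree p
    have hpe := po1_mono (p := p) (t := q.natDegree) (by omega) (by omega)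
    have hqe := po1_mono (p := q) (t := q.natDegree) le_rfl (by omega)
    refine hnot (p.coeff q.natDegree) (q.coeff q.natDegree) ?_ ?_
    · exact Polynomial.leadingCoeff_ne_zero.2 hq
    · calc Polynomial.C (q.coeff q.natDegree) * p = Polynomial.C (q.coeff q.natDegree) *
            (Polynomial.C (p.coeff q.natDegree) * Polynomial.X ^ q.natDegree) := congrArg _ hpe
        _ = Polynomial.C (p.coeff q.natDegree) *
            (Polynomial.C (q.coeff q.natDegree) * Polynomial.X ^ q.natDegree) := by ring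
        _ = Polynomial.C (p.coeff q.natDegree) * q := congrArg _ hqe.symm

end XD
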