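import Pool.Agent.Lib.MP_228259_lc.D.KC

/-!
XD-TRa: embeddings of the fields of places commute with the derivation `d/dU`.

PROOF. `fder_comm`: let `δ a = fder a / fder (kU)` in `FK k` and `FK k'`: derivations with `δ kU = 1`,
`δ kY = kY` (`fder_kY`). `a ↦ φ (δ a) - δ (φ a)` vanishes on `adjoin ℂ {kU, kY}` and satisfies the Leibniz rule, so for
`a` algebraic over it, with a polynomial `Q ≠ 0` of minimal degree over `adjoin ℂ {kU, kY}` with `Q(a) = 0`:
`0 = φ(δ(Q a)) = Q^δ(φ a) + Q'(φ a) φ(δ a)` and `0 = δ(φ(Q a)) = Q^δ(φ a) + Q'(φ a) δ(φ a)` with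
`φ (Q'(a)) ≠ 0` (minimality, characteristic 0; `φ` is injective), so they agree (`fk_alg`).
-/

set_option autoImplicit false

namespace XD

open Complex Filter Topology Metric

theorem TRa_aeval {F F' : Type*} [Field F] [Field F'] [Algebra ℂ F] (A : Subalgebra ℂ F)
    (φ : F →+* F') (D : F → F') (hadd : ∀ a b, D (a + b) = D a + D b)
    (hmul : ∀ a b, D (a * b) = φ a * D b + φ b * D a) (hA : ∀ a ∈ A, D a = 0) (a : F)
    (P : Polynomial A) :
    D (Polynomial.aeval a P) = φ (Polynomial.aeval a (Polynomial.derivative P)) * D a := by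
  have hpow : ∀ n : ℕ, D (a ^ n) = φ ((n : F) * a ^ (n - 1)) * D a := by
    intro n
    induction n with
    | zero =>
      have h1 : D 1 = 0 := hA 1 A.one_mem
      simp [h1]
    | succ n ih =>
      rw [pow_succ, hmul, ih]
      rcases Nat.eq_zero_or_pos n with rfl | hn
      · simp
      · have e : a ^ n = a ^ (n - 1) * a := by
          rw [← pow_succ]
          congr 1
          omega
        rw [Nat.add_sub_cancel, e]
        simp only [map_mul, map_natCast, Nat.cast_add, Nat.cast_one, map_add, map_one]
        ring
  induction P using Polynomial.induction_on' with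
  | add p q hp hq =>
    rw [map_add, hadd, hp, hq, Polynomial.derivative_add, map_add, map_add, add_mul]
  | monomial n c =>
    rw [Polynomial.aeval_monomial, hmul, hpow, Polynomial.derivative_monomial,
      Polynomial.aeval_monomial, show D (algebraMap A F c) = 0 from hA _ c.2]
    simp only [map_mul, map_natCast, mul_zero, add_zero]
    ring

theorem TRa_alg {F F' : Type*} [Field F] [Field F'] [Algebra ℂ F] (A : Subalgebra ℂ F)
    (φ : F →+* F') (D : F → F') (hadd : ∀ a b, D (a + b) = D a + D b)
    (hmul : ∀ a b, D (a * b) = φ a * D b + φ b * D a) (hA : ∀ a ∈ A, D a = 0) (a : F)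
    (ha : IsAlgebraic A a) : D a = 0 := by
  have hD0 : D 0 = 0 := hA 0 A.zero_mem
  have hF : CharZero F := charZero_of_injective_algebraMap (algebraMap ℂ F).injective
  have key : ∀ n : ℕ, ∀ P : Polynomial A, P.natDegree = n → P ≠ 0 →
      Polynomial.aeval a P = 0 → D a = 0 := by
    intro n
    induction n using Nat.strong_induction_on with
    | _ n ih =>
      intro P hn hP hPa
      by_cases hd : P.natDegree = 0
      · exfalso
        rw [Polynomial.eq_C_of_natDegree_eq_zero hd] at hPa hP
        rw [Polynomial.aeval_C] at hPa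
        apply hP
        have h1 : ((P.coeff 0 : A) : F) = 0 := hPa
        have h2 : P.coeff 0 = 0 := by
          apply Subtype.ext
          exact h1
        rw [h2, map_zero]
      · set Q := Polynomial.derivative P with hQ
        have hlt : Q.natDegree < P.natDegree := Polynomial.natDegree_derivative_lt hd
        have hQ0 : Q ≠ 0 := by
          intro h0
          have h1 : Q.coeff (P.natDegree - 1) = 0 := by rw [h0, Polynomial.coeff_zero]
          rw [hQ, Polynomial.coeff_derivative, Nat.sub_add_cancel (Nat.pos_of_ne_zero hd)] at h1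
          have h2 : (((P.coeff P.natDegree * (((P.natDegree - 1 : ℕ) : A) + 1) : A)) : F) = 0 := by
            rw [h1]
            rfl
          rw [Polynomial.coeff_natDegree] at h2
          push_cast at h2
          rcases mul_eq_zero.mp h2 with h3 | h3
          · apply hP
            rw [← Polynomial.leadingCoeff_eq_zero]
            exact Subtype.ext h3
          · have h4 : (((P.natDegree - 1 : ℕ) : F) + 1) ≠ 0 := by
              exact_mod_cast Nat.succ_ne_zero (P.natDegree - 1)
            exact h4 h3
        by_cases hQa : Polynomial.aeval a Q = 0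
        · exact ih Q.natDegree (hn ▸ hlt) Q rfl hQ0 hQa
        · have h1 := TRa_aeval A φ D hadd hmul hA a P
          rw [hPa, hD0] at h1
          rcases mul_eq_zero.mp h1.symm with h2 | h2
          · exact absurd ((map_eq_zero φ).mp h2) hQa
          · exact h2
  obtain ⟨P, hP, hPa⟩ := ha
  exact key _ P rfl hP hPa

theorem fder_comm {k k' : Kd} (φ : FK k →ₐ[ℂ] FK k') (hu : φ (kU k) = kU k')
    (hy : φ (kY k) = kY k') (a : FK k) :
    φ (fder _ a / fder _ (kU k)) = fder _ (φ a) / fder _ (kU k') := by
  have hne := fder_kU_ne k
  have hne' := fder_kU_ne k'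
  set D : FK k → FK k' := fun b =>
    φ (fder _ b / fder _ (kU k)) - fder _ (φ b) / fder _ (kU k') with hD
  have hadd : ∀ b c, D (b + c) = D b + D c := by
    intro b c
    simp only [hD, map_add, add_div]
    ring
  have hmul : ∀ b c, D (b * c) = φ.toRingHom b * D c + φ.toRingHom c * D b := by
    intro b c
    have e1 : fder _ (b * c) = b * fder _ c + c * fder _ b := by
      rw [Derivation.leibniz]
      rfl
    have e2 : fder _ (φ b * φ c) = φ b * fder _ (φ c) + φ c * fder _ (φ b) := by
      rw [Derivation.leibniz]
      rfl
    have e3 : φ.toRingHom b = φ b := rfl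
    have e4 : φ.toRingHom c = φ c := rfl
    simp only [hD]
    rw [e3, e4, e1, map_mul φ b c, e2, add_div, map_add, mul_div_assoc, mul_div_assoc, map_mul,
      map_mul, add_div, mul_div_assoc, mul_div_assoc]
    ring
  have hA : ∀ b ∈ Algebra.adjoin ℂ ({kU k, kY k} : Set (FK k)), D b = 0 := by
    intro b hb
    induction hb using Algebra.adjoin_induction with
    | mem x hx =>
      rcases hx with rfl | hx
      · simp only [hD]
        rw [div_self hne, map_one, hu, div_self hne', sub_self]
      · rw [Set.mem_singleton_iff] at hx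
        subst hx
        simp only [hD]
        rw [fder_kY, mul_div_cancel_left₀ _ hne, hy, fder_kY, mul_div_cancel_left₀ _ hne',
          sub_self]
    | algebraMap c =>
      simp only [hD]
      rw [Derivation.map_algebraMap, AlgHom.commutes, Derivation.map_algebraMap]
      simp
    | add x y _ _ hx hy => rw [hadd, hx, hy, add_zero]
    | mul x y _ _ hx hy => rw [hmul, hx, hy, mul_zero, mul_zero, add_zero]
  have h := TRa_alg (Algebra.adjoin ℂ ({kU k, kY k} : Set (FK k))) φ.toRingHom D hadd hmul hA a
    (fk_alg k a)
  exact sub_eq_zero.mp h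

end XD
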