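import Pool.Agent.Lib.MP_228259_lc.D.PO
import Pool.Agent.Lib.MP_228259_lc.D.TRa

/-!
XD-TRb: in the field of a place, `v' = b' / b` implies that `v` is algebraic over `ℂ(kU)`.

PROOF. `v ∈ cl {kU}`): otherwise `pole` for `A = FK k`, `u = kU`, `y = kY`, `ζ = v` (`fk_ind`, `fk_alg`) gives `φ : FK k → FK k'`
with `φ v` of size `(r, s)`, `r > 0`. By `fder_comm`: `fder (φ v) * φ b = fder (φ b)`. `ff_logder`:
`rep (fder (φ b) / φ b)` converges, and it is `rep (fder (φ v))`; but `rep (fder (φ v) / φ v) → r ≠ 0` and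
`‖rep (φ v)‖ → ∞` (`phi_large`), a contradiction.
-/

set_option autoImplicit false

namespace XD

open Complex Filter Topology Metric

theorem tr2a {k : Kd} {v b : FK k} (hb : b ≠ 0) (h : fder _ v * b = fder _ b) :
    v ∈ XA.cl ({kU k} : Set (FK k)) := by
  by_contra hv
  obtain ⟨k', φ, hu, hy, r, s, c, hr, hs⟩ := pole (fk_ind k) (fk_alg k) hv
  have hU : fder _ (kU k) ≠ 0 := fder_kU_ne k
  have hU' : fder _ (kU k') ≠ 0 := fder_kU_ne k'
  have h1 := fder_comm φ hu hy v
  have h2 := fder_comm φ hu hy b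
  have h3 : fder _ v / fder _ (kU k) * b = fder _ b / fder _ (kU k) := by
    rw [← h]; ring
  have h4 : fder _ (φ v) / fder _ (kU k') * φ b = fder _ (φ b) / fder _ (kU k') := by
    rw [← h1, ← h2, ← map_mul, h3]
  have h5 : fder _ (φ v) * φ b = fder _ (φ b) := by
    have h6 : fder _ (φ v) / fder _ (kU k') * φ b * fder _ (kU k') =
        fder _ (φ b) / fder _ (kU k') * fder _ (kU k') := by rw [h4]
    rw [div_mul_cancel₀ _ hU'] at h6
    rw [← h6]
    field_simp
  have hb' : φ b ≠ 0 := (map_ne_zero φ).2 hb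
  obtain ⟨r', s', c', hs'⟩ := rep_sz hb'
  have h6 := ff_logder hs'
  have h7 : fder _ (φ b) / φ b = fder _ (φ v) := by
    rw [← h5, mul_div_cancel_right₀ _ hb']
  rw [h7] at h6
  have h8 := ff_logder hs
  have hp : Tendsto (fun u => (phi r s u)⁻¹) lom (𝓝 0) := by
    rw [tendsto_zero_iff_norm_tendsto_zero]
    refine (tendsto_inv_atTop_zero.comp (phi_large (r := r) (s := s) (Or.inl hr))).congr fun u => ?_
    rw [Function.comp_apply, norm_inv]
  have hq : Tendsto (fun u => (rep (φ v) u)⁻¹) lom (𝓝 0) := by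
    have h9 : Tendsto (fun u => (rep (φ v) u / phi r s u)⁻¹ * (phi r s u)⁻¹) lom
        (𝓝 (c⁻¹ * 0)) := (hs.2.inv₀ hs.1).mul hp
    rw [mul_zero] at h9
    refine h9.congr fun u => ?_
    have : phi r s u ≠ 0 := by unfold phi; exact exp_ne_zero _
    rw [inv_div, div_eq_mul_inv, mul_comm (phi r s u), mul_assoc, mul_inv_cancel₀ this, mul_one]
  have h10 : Tendsto (rep (fder _ (φ v) / φ v)) lom (𝓝 ((r' : ℂ) * 0)) := by
    refine (h6.mul hq).congr' ?_
    rw [div_eq_mul_inv]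
    filter_upwards [rep_mul (fder _ (φ v)) (φ v)⁻¹, rep_inv (φ v)] with u hu1 hu2
    rw [hu1, hu2]
  rw [mul_zero] at h10
  have h11 := tendsto_nhds_unique h8 h10
  exact hr.ne' (by exact_mod_cast h11)

end XD
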