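import Pool.Agent.Lib.MP_228259_lc.D.WDefs

/-!
XD-W1: asymptotics in a window around a large real point.

PROOF. `lam_pos` for `U > 0`. `lam_large`: `U / lam r s U = U ^ (1 - s) e^{-rU} → 0`. `win_phi`: with
`u = U + w + ϑ`, `phi r s u / lam r s U = exp (r (w + ϑ)) * exp (s (log u - log U))` for `U > 0`
(`Complex.ofReal_log`, `Real.rpow_def_of_pos`, `Complex.ofReal_exp`), and
`log u - log U = log (1 + (w + ϑ) / U)` (`U` large) tends to `0` uniformly. `win_lim`: `f / lam =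
(f / phi) * (phi / lam)`, the first factor tends to `C` uniformly (`ev_ball`), the second is bounded and
converges uniformly.
-/

set_option autoImplicit false

namespace XD

open Complex Filter Topology Metric

theorem lam_pos (r s : ℝ) {U : ℝ} (hU : 0 < U) : 0 < lam r s U := by
  unfold lam
  exact mul_pos (Real.rpow_pos_of_pos hU s) (Real.exp_pos _)

theorem lam_large {r : ℝ} (hr : 0 < r) (s K ε : ℝ) (hε : 0 < ε) :
    ∀ᶠ U : ℝ in atTop, K * (U + K) ≤ ε * lam r s U := by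
  have h1 := tendsto_rpow_mul_exp_neg_mul_atTop_nhds_zero (1 - s) r hr
  have h2 := tendsto_rpow_mul_exp_neg_mul_atTop_nhds_zero (-s) r hr
  have h3 : Tendsto (fun U : ℝ => K * (U ^ (1 - s) * Real.exp (-r * U)) +
      K * K * (U ^ (-s) * Real.exp (-r * U))) atTop (𝓝 (K * 0 + K * K * 0)) :=
    (h1.const_mul K).add (h2.const_mul (K * K))
  have h4 : K * 0 + K * K * 0 < ε := by
    rw [mul_zero, mul_zero, add_zero]
    exact hε
  filter_upwards [h3.eventually (gt_mem_nhds h4), eventually_gt_atTop 0] with U hU hU0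
  have hl := lam_pos r s hU0
  have h5 : K * (U ^ (1 - s) * Real.exp (-r * U)) + K * K * (U ^ (-s) * Real.exp (-r * U)) =
      K * (U + K) / lam r s U := by
    have e1 : U ^ (1 - s) = U / U ^ s := by
      rw [Real.rpow_sub hU0, Real.rpow_one]
    have e2 : U ^ (-s) = 1 / U ^ s := by
      rw [Real.rpow_neg hU0.le, one_div]
    have e3 : Real.exp (-r * U) = 1 / Real.exp (r * U) := by
      rw [neg_mul, Real.exp_neg, one_div]
    have hs0 : U ^ s ≠ 0 := (Real.rpow_pos_of_pos hU0 s).ne'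
    have he0 : Real.exp (r * U) ≠ 0 := (Real.exp_pos _).ne'
    rw [e1, e2, e3]
    unfold lam
    field_simp
  rw [h5, div_lt_iff₀ hl] at hU
  exact hU.le

private theorem phi_div_lam (r s : ℝ) {U : ℝ} (hU : 0 < U) {z : ℂ} (hz : 1 + z / U ≠ 0) :
    phi r s (U + z) / (lam r s U : ℂ) = exp (r * z) * exp (s * log (1 + z / U)) := by
  have hU0 : (U : ℂ) ≠ 0 := by exact_mod_cast hU.ne'
  have h1 : (U : ℂ) + z = U * (1 + z / U) := by
    field_simp
  have h2 : log ((U : ℂ) + z) = Real.log U + log (1 + z / U) := by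
    rw [h1, Complex.log_ofReal_mul hU hz]
  have h3 : (lam r s U : ℂ) = exp (s * Real.log U + r * U) := by
    unfold lam
    rw [Real.rpow_def_of_pos hU, ← Real.exp_add]
    push_cast
    congr 1
    ring
  unfold phi
  rw [h2, h3, ← Complex.exp_sub, ← Complex.exp_add]
  congr 1
  ring

private theorem win_bd (r : ℝ) (w : ℂ) (ρ : ℝ) {ϑ : ℂ} (h : ϑ ∈ closedBall (0 : ℂ) ρ) :
    ‖exp (r * (w + ϑ))‖ ≤ Real.exp (|r| * (‖w‖ + ρ)) := by
  rw [mem_closedBall_zero_iff] at h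
  rw [Complex.norm_exp]
  apply Real.exp_le_exp.2
  have h1 : ((r : ℂ) * (w + ϑ)).re ≤ ‖(r : ℂ) * (w + ϑ)‖ := Complex.re_le_norm _
  have h2 : ‖(r : ℂ) * (w + ϑ)‖ = |r| * ‖w + ϑ‖ := by
    rw [norm_mul, Complex.norm_real, Real.norm_eq_abs]
  have h3 : ‖w + ϑ‖ ≤ ‖w‖ + ρ := (norm_add_le _ _).trans (by linarith)
  rw [h2] at h1
  exact h1.trans (mul_le_mul_of_nonneg_left h3 (abs_nonneg r))

theorem win_phi (r s : ℝ) (w : ℂ) (ρ : ℝ) :
    TendstoUniformlyOn (fun (U : ℝ) (ϑ : ℂ) => phi r s (U + w + ϑ) / (lam r s U : ℂ))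
      (fun ϑ => exp (r * (w + ϑ))) atTop (closedBall 0 ρ) := by
  rw [Metric.tendstoUniformlyOn_iff]
  intro ε hε
  have hM : 0 < Real.exp (|r| * (‖w‖ + ρ)) := Real.exp_pos _
  have hc : ContinuousAt (fun z : ℂ => exp (s * log (1 + z))) 0 := by
    have h1 : ContinuousAt (fun z : ℂ => log (1 + z)) 0 := by
      apply ContinuousAt.clog
      · fun_prop
      · simp
    exact (continuousAt_const.mul h1).cexp
  have hc2 := Metric.continuousAt_iff.1 hc (ε / Real.exp (|r| * (‖w‖ + ρ))) (div_pos hε hM)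
  obtain ⟨δ, hδ, hδ2⟩ := hc2
  have hlim : ∀ᶠ U : ℝ in atTop, (‖w‖ + |ρ|) / min δ 1 < U := eventually_gt_atTop _
  have hm : 0 < min δ 1 := lt_min hδ one_pos
  filter_upwards [hlim, eventually_gt_atTop 0] with U hU hU0
  intro ϑ hϑ
  have hz : ‖(w + ϑ) / U‖ < min δ 1 := by
    rw [norm_div, Complex.norm_real, Real.norm_eq_abs, abs_of_pos hU0, div_lt_iff₀ hU0]
    rw [div_lt_iff₀ hm] at hU
    have h1 : ‖w + ϑ‖ ≤ ‖w‖ + |ρ| := by
      refine (norm_add_le _ _).trans ?_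
      have h2 := mem_closedBall_zero_iff.1 hϑ
      have h3 := le_abs_self ρ
      linarith
    linarith [mul_comm U (min δ 1)]
  have hne : 1 + (w + ϑ) / U ≠ 0 := by
    intro h0
    have h1 : (w + ϑ) / U = -1 := by
      linear_combination h0
    rw [h1, norm_neg, norm_one] at hz
    exact absurd (lt_of_lt_of_le hz (min_le_right _ _)) (lt_irrefl _)
  have hsum : (U : ℂ) + w + ϑ = U + (w + ϑ) := add_assoc _ _ _
  rw [hsum, phi_div_lam r s hU0 hne, dist_comm, dist_eq_norm]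
  have h2 : exp (r * (w + ϑ)) * exp (s * log (1 + (w + ϑ) / U)) - exp (r * (w + ϑ)) =
      exp (r * (w + ϑ)) * (exp (s * log (1 + (w + ϑ) / U)) - 1) := by ring
  rw [h2, norm_mul]
  have h3 : dist ((w + ϑ) / (U : ℂ)) 0 < δ := by
    rw [dist_zero_right]
    exact lt_of_lt_of_le hz (min_le_left _ _)
  have h4 := hδ2 h3
  simp only [add_zero, Complex.log_one, mul_zero, Complex.exp_zero, dist_eq_norm] at h4
  have h5 := win_bd r w ρ hϑ
  calc ‖exp (r * (w + ϑ))‖ * ‖exp (s * log (1 + (w + ϑ) / U)) - 1‖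
      ≤ Real.exp (|r| * (‖w‖ + ρ)) * ‖exp (s * log (1 + (w + ϑ) / U)) - 1‖ :=
        mul_le_mul_of_nonneg_right h5 (norm_nonneg _)
    _ < Real.exp (|r| * (‖w‖ + ρ)) * (ε / Real.exp (|r| * (‖w‖ + ρ))) :=
        mul_lt_mul_of_pos_left h4 hM
    _ = ε := by field_simp

theorem win_lim {r s : ℝ} {f : ℂ → ℂ} {C : ℂ}
    (h : Tendsto (fun u => f u / phi r s u) lom (𝓝 C)) (w : ℂ) (ρ : ℝ) :
    TendstoUniformlyOn (fun (U : ℝ) (ϑ : ℂ) => f (U + w + ϑ) / (lam r s U : ℂ))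
      (fun ϑ => C * exp (r * (w + ϑ))) atTop (closedBall 0 ρ) := by
  rw [Metric.tendstoUniformlyOn_iff]
  intro ε hε
  obtain ⟨M, hMdef⟩ : ∃ M : ℝ, M = Real.exp (|r| * (‖w‖ + ρ)) := ⟨_, rfl⟩
  have hM : 0 < M := by rw [hMdef]; exact Real.exp_pos _
  have hC : 0 ≤ ‖C‖ := norm_nonneg C
  have h1 := Metric.tendstoUniformlyOn_iff.1 (win_phi r s w ρ)
  have hε1 : 0 < ε / (2 * (‖C‖ + 1)) := by positivity
  have hε2 : 0 < ε / (2 * (M + 1)) := by positivity
  have h2 := h1 (min 1 (ε / (2 * (‖C‖ + 1)))) (lt_min one_pos hε1)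
  have h3 : ∀ᶠ u in lom, dist (f u / phi r s u) C < ε / (2 * (M + 1)) :=
    (Metric.tendsto_nhds.1 h) _ hε2
  have h4 := ev_ball h3 w ρ
  filter_upwards [h2, h4, eventually_gt_atTop 0] with U hU2 hU4 hU0
  intro ϑ hϑ
  have h5 := hU2 ϑ hϑ
  have h6 : (U : ℂ) + w + ϑ ∈ closedBall ((U : ℂ) + w) ρ := by
    rw [mem_closedBall, dist_eq_norm]
    have h7 := mem_closedBall_zero_iff.1 hϑ
    have h8 : (U : ℂ) + w + ϑ - (U + w) = ϑ := by ring
    rw [h8]
    exact h7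
  have h7 := hU4 _ h6
  have hMb := win_bd r w ρ hϑ
  rw [← hMdef] at hMb
  obtain ⟨A, hA⟩ : ∃ A : ℂ, A = f (U + w + ϑ) / phi r s (U + w + ϑ) := ⟨_, rfl⟩
  obtain ⟨B, hB⟩ : ∃ B : ℂ, B = phi r s (U + w + ϑ) / (lam r s U : ℂ) := ⟨_, rfl⟩
  obtain ⟨D, hD⟩ : ∃ D : ℂ, D = exp (r * (w + ϑ)) := ⟨_, rfl⟩
  have hAB : f (U + w + ϑ) / (lam r s U : ℂ) = A * B := by
    rw [hA, hB]
    have := phi_ne r s (U + w + ϑ)
    field_simp
  rw [← hA] at h7
  rw [← hB, ← hD] at h5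
  rw [← hD] at hMb
  rw [hAB, ← hD, dist_comm, dist_eq_norm]
  rw [dist_comm, dist_eq_norm] at h5
  rw [dist_eq_norm] at h7
  have h8 : A * B - C * D = (A - C) * B + C * (B - D) := by ring
  rw [h8]
  have h9 : ‖B‖ ≤ M + 1 := by
    have h10 : B = D + (B - D) := by ring
    rw [h10]
    refine (norm_add_le _ _).trans ?_
    have h11 := lt_of_lt_of_le h5 (min_le_left _ _)
    linarith
  have h12 := lt_of_lt_of_le h5 (min_le_right _ _)
  have h13 : ‖(A - C) * B‖ ≤ ε / (2 * (M + 1)) * (M + 1) := by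
    rw [norm_mul]
    exact mul_le_mul h7.le h9 (norm_nonneg _) hε2.le
  have h14 : ‖C * (B - D)‖ ≤ ‖C‖ * (ε / (2 * (‖C‖ + 1))) := by
    rw [norm_mul]
    exact mul_le_mul_of_nonneg_left h12.le hC
  have h15 : ε / (2 * (M + 1)) * (M + 1) = ε / 2 := by
    field_simp
  have h16 : ‖C‖ * (ε / (2 * (‖C‖ + 1))) < ε / 2 := by
    have h17 : ‖C‖ * (ε / (2 * (‖C‖ + 1))) = ε / 2 * (‖C‖ / (‖C‖ + 1)) := by
      field_simp
    have h18 : ‖C‖ / (‖C‖ + 1) < 1 := by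
      rw [div_lt_one (by positivity)]
      linarith
    rw [h17]
    calc ε / 2 * (‖C‖ / (‖C‖ + 1)) < ε / 2 * 1 := mul_lt_mul_of_pos_left h18 (by positivity)
      _ = ε / 2 := mul_one _
  calc ‖(A - C) * B + C * (B - D)‖ ≤ ‖(A - C) * B‖ + ‖C * (B - D)‖ := norm_add_le _ _
    _ < ε := by linarith

/-- the real part of `f` in the window -/
theorem win_re {r s : ℝ} {f : ℂ → ℂ} {C : ℂ}
    (h : Tendsto (fun u => f u / phi r s u) lom (𝓝 C)) (w : ℂ) (ρ ε : ℝ) (hε : 0 < ε) :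
    ∀ᶠ U : ℝ in atTop, ∀ ϑ ∈ closedBall (0 : ℂ) ρ,
      |(f (U + w + ϑ)).re - lam r s U * (C * exp (r * (w + ϑ))).re| ≤ ε * lam r s U := by
  have h1 := Metric.tendstoUniformlyOn_iff.1 (win_lim h w ρ) ε hε
  filter_upwards [h1, eventually_gt_atTop 0] with U hU hU0
  intro ϑ hϑ
  have hl := lam_pos r s hU0
  have hl0 : (lam r s U : ℂ) ≠ 0 := by exact_mod_cast hl.ne'
  have h2 := hU ϑ hϑ
  rw [dist_comm, dist_eq_norm] at h2
  have h3 : (f (U + w + ϑ)).re - lam r s U * (C * exp (r * (w + ϑ))).re =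
      ((lam r s U : ℂ) * (f (U + w + ϑ) / (lam r s U : ℂ) - C * exp (r * (w + ϑ)))).re := by
    rw [mul_sub, mul_div_cancel₀ _ hl0, Complex.sub_re, Complex.re_ofReal_mul]
  rw [h3]
  refine (Complex.abs_re_le_norm _).trans ?_
  rw [norm_mul, Complex.norm_real, Real.norm_eq_abs, abs_of_pos hl, mul_comm]
  exact mul_le_mul_of_nonneg_right h2.le hl.le

end XD
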