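import Pool.Agent.Lib.MP_228259_lc.D.WDefs

/-!
XD-W3: annihilation of all terms but one.

PROOF. Induction on `m`. `m = 0`: `b = c 0`, `K = 0`. Step (`m + 1` to `m + 2` terms): let
`η = deriv (c 0) / c 0 + deriv (P 0)` (in `L`), `c' i = deriv (c i) + c i * (deriv (P i) - η)` for
`i ≠ 0` (in `L`). Then `deriv F - η * F = ∑_{i ≠ 0} c' i * exp (P i)` near infinity (`c 0` has no zeros far
out, `Sz.ne`). `c' i` is not eventually `0`: otherwise `g = c i / c 0 ∈ L`, `g' = g (c i' / c i - c 0' / c 0) =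
(P 0' - P i') g`, contradicting `NEx` for `(0, i)`. Apply the induction hypothesis with the radius `ρ / 2`
to `P ∘ Fin.succ`, `c' ∘ Fin.succ`: it gives `i, b, K', R'`. Let `‖η u‖ ≤ exp (K₁ * u.re)` far out
(`Tame.up`). If `‖F‖ ≤ δ` on `closedBall u₀ ρ ⊆ Om R` then on `closedBall u₀ (ρ / 2)`:
`‖deriv F‖ ≤ 2 δ / ρ` (`Complex.norm_deriv_le_of_forall_mem_sphere_norm_le`), `‖η F‖ ≤ exp (K₁ (u₀.re + ρ)) δ`. So
`‖deriv F - η F‖ ≤ δ' = (2 / ρ + exp (K₁ (u₀.re + ρ))) δ ≤ exp (K₂ * u₀.re) δ` for `u₀.re ≥ 1`, and `K = K' + K₂`.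
-/

set_option autoImplicit false

namespace XD

open Complex Filter Topology Metric

private theorem W3_ev {f : ℂ → ℂ} (hf : EA f) : ∀ᶠ u in lom, DifferentiableAt ℂ f u := by
  obtain ⟨R, hR⟩ := hf
  filter_upwards [om_mem R] with u hu
  exact (hR u hu).differentiableAt ((om_open R).mem_nhds hu)

private theorem W3_hasDeriv {m : ℕ} {P c : Fin m → ℂ → ℂ} {u : ℂ}
    (hP : ∀ i, DifferentiableAt ℂ (P i) u) (hc : ∀ i, DifferentiableAt ℂ (c i) u) :
    HasDerivAt (Fs P c) (∑ i, (deriv (c i) u + c i u * deriv (P i) u) * exp (P i u)) u := by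
  have h : ∀ i ∈ (Finset.univ : Finset (Fin m)), HasDerivAt (fun u => c i u * exp (P i u))
      ((deriv (c i) u + c i u * deriv (P i) u) * exp (P i u)) u := by
    intro i _
    have h1 := (hc i).hasDerivAt
    have h2 := (hP i).hasDerivAt.cexp
    have h3 := h1.mul h2
    have h4 : deriv (c i) u * exp (P i u) + c i u * (exp (P i u) * deriv (P i) u) =
      (deriv (c i) u + c i u * deriv (P i) u) * exp (P i u) := by ring
    rw [h4] at h3
    exact h3
  exact HasDerivAt.fun_sum h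

private theorem W3_aux {L : Set (ℂ → ℂ)} (h : TF L) : ∀ (m : ℕ) (P c : Fin (m + 1) → ℂ → ℂ),
    (∀ i, P i ∈ L) → (∀ i, c i ∈ L) → (∀ i, ¬ c i =ᶠ[lom] 0) → NEx L P → ∀ ρ : ℝ, 0 < ρ →
    ∃ (i : Fin (m + 1)) (b : ℂ → ℂ) (K R : ℝ), b ∈ L ∧ ¬ b =ᶠ[lom] 0 ∧
      ∀ u₀ : ℂ, closedBall u₀ ρ ⊆ Om R → ∀ δ : ℝ, 0 ≤ δ →
        (∀ u ∈ closedBall u₀ ρ, ‖Fs P c u‖ ≤ δ) →
        ‖b u₀ * exp (P i u₀)‖ ≤ Real.exp (K * u₀.re) * δ := by
  intro m
  induction m with
  | zero =>
    intro P c hP hc hc0 ne ρ hρ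
    refine ⟨0, c 0, 0, 0, hc 0, hc0 0, fun u₀ _ δ _ hF => ?_⟩
    have h1 := hF u₀ (mem_closedBall_self hρ.le)
    unfold Fs at h1
    rw [Fin.sum_univ_one] at h1
    rw [zero_mul, Real.exp_zero, one_mul]
    exact h1
  | succ m ih =>
    intro P c hP hc hc0 ne ρ hρ
    set η : ℂ → ℂ := fun u => deriv (c 0) u * (c 0 u)⁻¹ + deriv (P 0) u with hη
    have hηL : η ∈ L := h.add _ (h.mul _ (h.der _ (hc 0)) _ (h.inv _ (hc 0))) _ (h.der _ (hP 0))
    set c' : Fin (m + 1) → ℂ → ℂ := fun i u =>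
      deriv (c i.succ) u + c i.succ u * (deriv (P i.succ) u + (-1) * η u) with hc'
    have hc'L : ∀ i, c' i ∈ L := fun i =>
      h.add _ (h.der _ (hc _)) _ (h.mul _ (hc _) _ (h.add _ (h.der _ (hP _)) _
        (h.mul _ (h.cst (-1)) _ hηL)))
    -- regularity near infinity
    have hdP : ∀ᶠ u in lom, ∀ i, DifferentiableAt ℂ (P i) u :=
      Filter.eventually_all.2 fun i => W3_ev (h.ea _ (hP i))
    have hdc : ∀ᶠ u in lom, ∀ i, DifferentiableAt ℂ (c i) u :=
      Filter.eventually_all.2 fun i => W3_ev (h.ea _ (hc i))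
    have hne : ∀ᶠ u in lom, c 0 u ≠ 0 := by
      rcases h.tame _ (hc 0) with h1 | ⟨r, s, C, h1⟩
      · exact absurd h1 (hc0 0)
      · exact h1.ne
    have hc'0 : ∀ i, ¬ c' i =ᶠ[lom] 0 := by
      intro i hi
      have hgL : (fun u => c i.succ u * (c 0 u)⁻¹) ∈ L := h.mul _ (hc _) _ (h.inv _ (hc 0))
      have hg0 : ¬ (fun u => c i.succ u * (c 0 u)⁻¹) =ᶠ[lom] 0 := by
        intro h0
        apply hc0 i.succ
        filter_upwards [h0, hne] with u h1 h2
        have h3 : c i.succ u * (c 0 u)⁻¹ = 0 := h1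
        rcases mul_eq_zero.1 h3 with h4 | h4
        · exact h4
        · exact absurd (inv_eq_zero.1 h4) h2
      refine ne 0 i.succ (Fin.succ_ne_zero i).symm _ hgL hg0 ?_
      filter_upwards [hi, hdc, hne] with u h1 h2 h3
      have h4 : c' i u = 0 := h1
      have h5 : HasDerivAt (fun u => c i.succ u * (c 0 u)⁻¹)
          (deriv (c i.succ) u * (c 0 u)⁻¹ + c i.succ u * (-deriv (c 0) u / (c 0 u) ^ 2)) u :=
        (h2 i.succ).hasDerivAt.mul ((h2 0).hasDerivAt.inv h3)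
      rw [h5.deriv]
      simp only [hc', hη] at h4
      have h6 : deriv (c i.succ) u = -(c i.succ u * (deriv (P i.succ) u +
          (-1) * (deriv (c 0) u * (c 0 u)⁻¹ + deriv (P 0) u))) := by
        linear_combination h4
      rw [h6]
      field_simp
      ring
    have hne' : NEx L (fun i : Fin (m + 1) => P i.succ) := by
      intro a b hab
      exact ne a.succ b.succ (fun h0 => hab (Fin.succ_injective _ h0))
    obtain ⟨i, b, K', R', hbL, hb0, hb⟩ := ih (fun i => P i.succ) c' (fun i => hP _) hc'L hc'0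
      hne' (ρ / 2) (by positivity)
    obtain ⟨K₁, hK₁, hηK⟩ := (h.tame _ hηL).up
    obtain ⟨R₁, hR₁⟩ := ev_iff.1 (hdP.and (hdc.and (hne.and hηK)))
    set M : ℝ := 2 / ρ + Real.exp (K₁ * ρ) with hM
    have hM0 : 0 < M := by positivity
    refine ⟨i.succ, b, K' + (M + K₁), max (max R₁ R') 1, hbL, hb0, fun u₀ hu₀ δ hδ hF => ?_⟩
    have hsub1 : closedBall u₀ ρ ⊆ Om R₁ :=
      hu₀.trans (om_mono ((le_max_left _ _).trans (le_max_left _ _)))
    have hsub2 : closedBall u₀ ρ ⊆ Om R' :=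
      hu₀.trans (om_mono ((le_max_right _ _).trans (le_max_left _ _)))
    have hre : 1 < u₀.re :=
      lt_of_le_of_lt (le_max_right _ _) (hu₀ (mem_closedBall_self hρ.le)).1
    have hhalf : closedBall u₀ (ρ / 2) ⊆ closedBall u₀ ρ := closedBall_subset_closedBall (by linarith)
    have hdF : DifferentiableOn ℂ (Fs P c) (Om R₁) := fun u hu =>
      (W3_hasDeriv (hR₁ u hu).1 (hR₁ u hu).2.1).differentiableAt.differentiableWithinAt
    have hexp : 2 / ρ + Real.exp (K₁ * (u₀.re + ρ)) ≤ Real.exp ((M + K₁) * u₀.re) := by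
      have h1 : (1 : ℝ) ≤ Real.exp (K₁ * u₀.re) := Real.one_le_exp (by positivity)
      have h2 : Real.exp (K₁ * (u₀.re + ρ)) = Real.exp (K₁ * ρ) * Real.exp (K₁ * u₀.re) := by
        rw [← Real.exp_add]
        ring_nf
      have h3 : (0 : ℝ) < 2 / ρ := by positivity
      have h4 : 2 / ρ + Real.exp (K₁ * (u₀.re + ρ)) ≤ M * Real.exp (K₁ * u₀.re) := by
        rw [h2, hM]
        nlinarith
      have h5 : M ≤ Real.exp (M * u₀.re) := by
        calc M ≤ M + 1 := by linarith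
          _ ≤ Real.exp M := Real.add_one_le_exp M
          _ ≤ Real.exp (M * u₀.re) := Real.exp_le_exp.2 (by nlinarith)
      calc 2 / ρ + Real.exp (K₁ * (u₀.re + ρ)) ≤ M * Real.exp (K₁ * u₀.re) := h4
        _ ≤ Real.exp (M * u₀.re) * Real.exp (K₁ * u₀.re) :=
          mul_le_mul_of_nonneg_right h5 (by positivity)
        _ = Real.exp ((M + K₁) * u₀.re) := by
          rw [← Real.exp_add]
          ring_nf
    have hFs' : ∀ u ∈ Om R₁, Fs (fun i : Fin (m + 1) => P i.succ) c' u =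
        deriv (Fs P c) u - η u * Fs P c u := by
      intro u hu
      obtain ⟨h1, h2, h3, -⟩ := hR₁ u hu
      rw [(W3_hasDeriv h1 h2).deriv]
      unfold Fs
      have e1 := Fin.sum_univ_succ (fun i : Fin (m + 1 + 1) =>
        (deriv (c i) u + c i u * deriv (P i) u) * exp (P i u))
      have e2 := Fin.sum_univ_succ (fun i : Fin (m + 1 + 1) => c i u * exp (P i u))
      rw [e1, e2, mul_add, Finset.mul_sum]
      have h4 : η u * (c 0 u * exp (P 0 u)) =
          (deriv (c 0) u + c 0 u * deriv (P 0) u) * exp (P 0 u) := by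
        simp only [hη]
        field_simp
      rw [h4, add_sub_add_left_eq_sub, ← Finset.sum_sub_distrib]
      refine Finset.sum_congr rfl fun j _ => ?_
      simp only [hc']
      ring
    have hmain := hb u₀ (hhalf.trans hsub2) (Real.exp ((M + K₁) * u₀.re) * δ) (by positivity) (by
      intro u hu
      have huR : u ∈ Om R₁ := hsub1 (hhalf hu)
      rw [hFs' u huR]
      have hball : closedBall u (ρ / 2) ⊆ closedBall u₀ ρ := by
        intro w hw
        rw [mem_closedBall] at *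
        calc dist w u₀ ≤ dist w u + dist u u₀ := dist_triangle _ _ _
          _ ≤ ρ := by linarith
      have h1 : ‖deriv (Fs P c) u‖ ≤ δ / (ρ / 2) := by
        refine Complex.norm_deriv_le_of_forall_mem_sphere_norm_le (by positivity)
          (hdF.diffContOnCl_ball (hball.trans hsub1)) ?_
        intro w hw
        exact hF w (hball (sphere_subset_closedBall hw))
      have hur : u.re ≤ u₀.re + ρ := by
        have h2 := mem_closedBall.1 hu
        rw [dist_eq_norm] at h2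
        have h3 := (Complex.abs_re_le_norm (u - u₀)).trans h2
        rw [Complex.sub_re] at h3
        have h4 := le_abs_self (u.re - u₀.re)
        linarith
      have h5 : ‖η u‖ ≤ Real.exp (K₁ * (u₀.re + ρ)) :=
        ((hR₁ u huR).2.2.2).trans (Real.exp_le_exp.2 (mul_le_mul_of_nonneg_left hur hK₁.le))
      calc ‖deriv (Fs P c) u - η u * Fs P c u‖ ≤ ‖deriv (Fs P c) u‖ + ‖η u * Fs P c u‖ :=
            norm_sub_le _ _
        _ ≤ δ / (ρ / 2) + Real.exp (K₁ * (u₀.re + ρ)) * δ := by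
            rw [norm_mul]
            exact add_le_add h1 (mul_le_mul h5 (hF u (hhalf hu)) (norm_nonneg _) (by positivity))
        _ = (2 / ρ + Real.exp (K₁ * (u₀.re + ρ))) * δ := by
            field_simp
        _ ≤ Real.exp ((M + K₁) * u₀.re) * δ := mul_le_mul_of_nonneg_right hexp hδ)
    calc ‖b u₀ * exp (P i.succ u₀)‖ ≤ Real.exp (K' * u₀.re) * (Real.exp ((M + K₁) * u₀.re) * δ) :=
          hmain
      _ = Real.exp ((K' + (M + K₁)) * u₀.re) * δ := by
          rw [← mul_assoc, ← Real.exp_add]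
          ring_nf

theorem annih {L : Set (ℂ → ℂ)} (h : TF L) {m : ℕ} {P c : Fin (m + 1) → ℂ → ℂ}
    (hP : ∀ i, P i ∈ L) (hc : ∀ i, c i ∈ L) (hc0 : ∀ i, ¬ c i =ᶠ[lom] 0) (ne : NEx L P)
    {ρ : ℝ} (hρ : 0 < ρ) :
    ∃ (i : Fin (m + 1)) (b : ℂ → ℂ) (K R : ℝ), b ∈ L ∧ ¬ b =ᶠ[lom] 0 ∧
      ∀ u₀ : ℂ, closedBall u₀ ρ ⊆ Om R → ∀ δ : ℝ, 0 ≤ δ →
        (∀ u ∈ closedBall u₀ ρ, ‖Fs P c u‖ ≤ δ) →
        ‖b u₀ * exp (P i u₀)‖ ≤ Real.exp (K * u₀.re) * δ :=
  W3_aux h m P c hP hc hc0 ne ρ hρ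

end XD
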