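import Pool.Agent.Lib.MP_228259_lc.D.W1
import Pool.Agent.Lib.MP_228259_lc.D.W3

/-!
XD-W4: lower bound for the sum of the terms with the same leading constant.

PROOF. `ι` is not empty; transport to `Fin (m + 1)` (`Fintype.equivFin`) and apply `annih` with a radius
`ρ₃ ≤ ρ₂` such that `|Re (C₁ e^{r(w + ϑ)}) - Re (C₁ e^{rw})| ≤ ε / 4` for `‖ϑ‖ ≤ ρ₃` (continuity). Suppose that for
arbitrarily large `U` the claim fails: `‖Fs (U + w + ϑ)‖ < exp (λ (Re (C₁ e^{r(w + ϑ)}) - ε)) ≤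
exp (λ (Re (C₁ e^{rw}) - 3 ε / 4)) = δ` for `‖ϑ‖ ≤ ρ₃`, `λ = lam r s U > 0`. For `U` large
`closedBall (U + w) ρ₃ ⊆ Om R` (`ball_sub`), so `annih` at `u₀ = U + w` gives
`‖b u₀ exp (P i u₀)‖ ≤ exp (K (U + w.re)) δ`. But `‖b u₀‖ ≥ exp (-K' (U + w.re))` (`Sz.low`, `b` has a size)
and `‖exp (P i u₀)‖ = exp (Re P i u₀) ≥ exp (λ (Re (C₁ e^{rw}) - ε / 4))` (`win_re`, `ϑ = 0`). So
`λ ε / 2 ≤ (K + K') (U + w.re)`, a contradiction to `lam_large` for `U` large.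
-/

set_option autoImplicit false

namespace XD

open Complex Filter Topology Metric

theorem low_group {L : Set (ℂ → ℂ)} {ι : Type} [Fintype ι] [Nonempty ι] {P c : ι → ℂ → ℂ}
    {r s : ℝ} {C : ι → ℂ} (h : ES L P c r s C) {C₁ : ℂ} (hC : ∀ a, C a = C₁) (w : ℂ)
    {ε ρ : ℝ} (hε : 0 < ε) (hρ : 0 < ρ) :
    ∀ᶠ U : ℝ in atTop, ∃ ϑ ∈ closedBall (0 : ℂ) ρ,
      Real.exp (lam r s U * ((C₁ * exp (r * (w + ϑ))).re - ε)) ≤ ‖Fs P c (U + w + ϑ)‖ := by
  classical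
  obtain ⟨m, hm⟩ : ∃ m, Fintype.card ι = m + 1 :=
    ⟨Fintype.card ι - 1, (Nat.succ_pred_eq_of_pos Fintype.card_pos).symm⟩
  obtain ⟨e⟩ : Nonempty (Fin (m + 1) ≃ ι) := ⟨(Fintype.equivFinOfCardEq hm).symm⟩
  have hFs : ∀ u, Fs (fun i => P (e i)) (fun i => c (e i)) u = Fs P c u := by
    intro u
    unfold Fs
    exact Equiv.sum_comp e (fun a => c a u * exp (P a u))
  have hne : NEx L (fun i => P (e i)) := by
    intro a b hab g hg hg0
    exact h.ne (e a) (e b) (fun hh => hab (e.injective hh)) g hg hg0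
  -- the radius
  have hcont : ContinuousAt (fun ϑ : ℂ => (C₁ * exp (r * (w + ϑ))).re) 0 := by fun_prop
  obtain ⟨ρ₁, hρ₁, hρ₁'⟩ := Metric.continuousAt_iff.1 hcont (ε / 4) (by positivity)
  obtain ⟨ρ₃, hρ₃, hρ₃a, hρ₃b⟩ : ∃ ρ₃ : ℝ, 0 < ρ₃ ∧ ρ₃ ≤ ρ ∧ ρ₃ < ρ₁ :=
    ⟨min ρ (ρ₁ / 2), lt_min hρ (half_pos hρ₁), min_le_left _ _,
      lt_of_le_of_lt (min_le_right _ _) (half_lt_self hρ₁)⟩
  have hA : ∀ ϑ ∈ closedBall (0 : ℂ) ρ₃,
      (C₁ * exp (r * (w + ϑ))).re ≤ (C₁ * exp (r * w)).re + ε / 4 := by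
    intro ϑ hϑ
    have h1 := hρ₁' (show dist ϑ 0 < ρ₁ from lt_of_le_of_lt (mem_closedBall.1 hϑ) hρ₃b)
    rw [Real.dist_eq] at h1
    have h2 := (abs_lt.1 h1).2
    simp only [add_zero] at h2
    linarith
  obtain ⟨i, b, K, R, hb, hb0, hann⟩ := annih h.tf (P := fun i => P (e i)) (c := fun i => c (e i))
    (fun i => h.hP (e i)) (fun i => h.hc (e i)) (fun i => h.hc0 (e i)) hne hρ₃
  obtain ⟨K', hK'⟩ : ∃ K' : ℝ, ∀ᶠ u in lom, Real.exp (-(K' * u.re)) ≤ ‖b u‖ := by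
    rcases h.tf.tame b hb with h0 | ⟨r', s', c', hsz⟩
    · exact absurd h0 hb0
    · obtain ⟨K', _, hK'⟩ := hsz.low
      exact ⟨K', hK'⟩
  have hlim : Tendsto (fun u => P (e i) u / phi r s u) lom (𝓝 C₁) := by
    have := h.lim (e i)
    rwa [hC (e i)] at this
  have ev1 := ball_sub w ρ₃ R
  have ev2 := ev_ball hK' w ρ₃
  have ev3 := win_re hlim w ρ₃ (ε / 4) (by positivity)
  have ev4 := lam_large h.hr s (|K| + |K'| + |w.re| + 1) (ε / 4) (by positivity)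
  filter_upwards [ev1, ev2, ev3, ev4, eventually_gt_atTop 0] with U h1 h2 h3 h4 hU0
  have hl := lam_pos r s hU0
  by_contra hcon
  push Not at hcon
  set A : ℝ := (C₁ * exp (r * w)).re with hAdef
  have hδ : ∀ u ∈ closedBall ((U : ℂ) + w) ρ₃,
      ‖Fs (fun i => P (e i)) (fun i => c (e i)) u‖ ≤
        Real.exp (lam r s U * (A - 3 * ε / 4)) := by
    intro u hu
    obtain ⟨ϑ, rfl⟩ : ∃ ϑ : ℂ, u = U + w + ϑ := ⟨u - (U + w), by ring⟩
    have hϑ : ϑ ∈ closedBall (0 : ℂ) ρ₃ := by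
      rw [mem_closedBall, dist_eq_norm] at hu ⊢
      rwa [sub_zero, show ϑ = (U : ℂ) + w + ϑ - (U + w) by ring]
    have h5 := hcon ϑ (closedBall_subset_closedBall hρ₃a hϑ)
    rw [hFs]
    refine h5.le.trans (Real.exp_le_exp.2 (mul_le_mul_of_nonneg_left ?_ hl.le))
    have h6 := hA ϑ hϑ
    linarith
  have h7 := hann (U + w) h1 _ (Real.exp_pos _).le hδ
  have h8 := h2 (U + w) (mem_closedBall_self hρ₃.le)
  have h9 := h3 0 (mem_closedBall_self hρ₃.le)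
  simp only [add_zero] at h9
  rw [← hAdef] at h9
  have h10 : lam r s U * A - ε / 4 * lam r s U ≤ (P (e i) (U + w)).re := by
    have := (abs_le.1 h9).1
    linarith
  have hre : ((U : ℂ) + w).re = U + w.re := by simp
  rw [hre] at h7 h8
  have h11 : Real.exp (-(K' * (U + w.re))) * Real.exp (lam r s U * A - ε / 4 * lam r s U) ≤
      ‖b (U + w) * exp (P (e i) (U + w))‖ := by
    rw [norm_mul, Complex.norm_exp]
    exact mul_le_mul h8 (Real.exp_le_exp.2 h10) (Real.exp_pos _).le (norm_nonneg _)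
  have h12 := h11.trans h7
  rw [← Real.exp_add, ← Real.exp_add, Real.exp_le_exp] at h12
  have h13 : (K + K') * (U + w.re) ≤ (|K| + |K'| + |w.re| + 1) * (U + (|K| + |K'| + |w.re| + 1)) := by
    have e1 : K + K' ≤ |K| + |K'| := add_le_add (le_abs_self K) (le_abs_self K')
    have e1' : -(|K| + |K'|) ≤ K + K' := by
      have := neg_abs_le K
      have := neg_abs_le K'
      linarith
    have e2 : |U + w.re| ≤ U + |w.re| := by
      refine (abs_add_le _ _).trans ?_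
      rw [abs_of_pos hU0]
    have e3 : (K + K') * (U + w.re) ≤ |K + K'| * |U + w.re| := by
      rw [← abs_mul]
      exact le_abs_self _
    have e4 : |K + K'| ≤ |K| + |K'| := abs_add_le _ _
    have e5 : 0 ≤ |K| := abs_nonneg _
    have e6 : 0 ≤ |K'| := abs_nonneg _
    have e7 : 0 ≤ |w.re| := abs_nonneg _
    refine e3.trans (mul_le_mul (by linarith) (by linarith) (abs_nonneg _) (by linarith))
  nlinarith [mul_pos hl hε]

end XD
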