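import Pool.Agent.Lib.MP_228259_lc.D.W4

/-!
XD-W5: lower bound for the whole sum where one constant dominates; upper bound everywhere.

PROOF. `up_bound`: each term is at most `exp (K U) exp (λ (Re (C a e^{r(w + ϑ)}) + ε / 3))`
(`Tame.up`, `win_re`), `≤ exp (λ (M + 2 ε / 3))` with `M ≥ Re (C a e^{r(w + ϑ)})`, and `card ι ≤ exp (λ ε / 3)`
(`lam_large`).
`low_bound`: by continuity there are `ρ₁ ≤ ρ`, `η > 0` with
`Re (C a e^{r(w + ϑ)}) + η ≤ Re (C₁ e^{r(w + ϑ)})` for `‖ϑ‖ ≤ ρ₁` and all `a` with `C a ≠ C₁` (finitely many).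
Apply `low_group` to the subtype `{a | C a = C₁}` with the radius `ρ₁` and `ε' = min (ε / 2) (η / 4)`: the point `ϑ`.
The sum of the other terms is at most `card ι * exp (K U) * exp (λ (Re (C₁ e^{r(w + ϑ)}) - η + η / 4)) ≤
exp (λ (Re (C₁ e^{r(w+ϑ)}) - η / 2))`, which is at most half of `exp (λ (Re (C₁ e^{r(w + ϑ)}) - ε'))` for `U`
large. So `‖Fs‖ ≥ (1 / 2) exp (λ (.. - ε')) ≥ exp (λ (.. - ε))`.
-/

set_option autoImplicit false

namespace XD

open Complex Filter Topology Metric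

private theorem w5_card {r : ℝ} (hr : 0 < r) (s N δ : ℝ) (hδ : 0 < δ) :
    ∀ᶠ U : ℝ in atTop, N ≤ Real.exp (lam r s U * δ) := by
  filter_upwards [lam_large hr s (|N| + 1) δ hδ, eventually_ge_atTop 0] with U h1 h2
  have h0 := abs_nonneg N
  have h3 : (|N| + 1) * (|N| + 1) ≤ (|N| + 1) * (U + (|N| + 1)) :=
    mul_le_mul_of_nonneg_left (by linarith) (by linarith)
  have h4 : N ≤ (|N| + 1) * (|N| + 1) := by
    have := le_abs_self N
    nlinarith
  have h5 := Real.add_one_le_exp (lam r s U * δ)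
  linarith

private theorem w5_term {r s : ℝ} {f c : ℂ → ℂ} {C : ℂ} (hr : 0 < r) (hc : Tame c)
    (h : Tendsto (fun u => f u / phi r s u) lom (𝓝 C)) (w : ℂ) (ρ : ℝ) {ε : ℝ} (hε : 0 < ε) :
    ∀ᶠ U : ℝ in atTop, ∀ ϑ ∈ closedBall (0 : ℂ) ρ,
      ‖c (U + w + ϑ) * exp (f (U + w + ϑ))‖ ≤
        Real.exp (lam r s U * ((C * exp (r * (w + ϑ))).re + ε)) := by
  obtain ⟨K, hK0, hK⟩ := hc.up
  filter_upwards [ev_ball hK w ρ, win_re h w ρ (ε / 2) (by positivity),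
    lam_large hr s (K + ‖w‖ + |ρ|) (ε / 2) (by positivity), eventually_ge_atTop 0] with
    U h1 h2 h3 h4
  intro ϑ hϑ
  have hϑ' : ‖ϑ‖ ≤ ρ := by rwa [mem_closedBall, dist_zero_right] at hϑ
  have hu : (U : ℂ) + w + ϑ ∈ closedBall ((U : ℂ) + w) ρ := by
    rw [mem_closedBall, dist_eq_norm]
    simpa using hϑ'
  have h5 := h1 _ hu
  have h6 := (abs_le.1 (h2 ϑ hϑ)).2
  rw [norm_mul, Complex.norm_exp]
  have h7 : K * ((U : ℂ) + w + ϑ).re ≤ ε / 2 * lam r s U := by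
    refine le_trans ?_ h3
    have h8 : ((U : ℂ) + w + ϑ).re ≤ U + (K + ‖w‖ + |ρ|) := by
      simp only [add_re, ofReal_re]
      have a1 := Complex.re_le_norm w
      have a2 := Complex.re_le_norm ϑ
      have a3 := le_abs_self ρ
      linarith
    have h9 : 0 ≤ U + (K + ‖w‖ + |ρ|) := by positivity
    calc K * ((U : ℂ) + w + ϑ).re ≤ K * (U + (K + ‖w‖ + |ρ|)) :=
          mul_le_mul_of_nonneg_left h8 hK0.le
      _ ≤ (K + ‖w‖ + |ρ|) * (U + (K + ‖w‖ + |ρ|)) := by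
          refine mul_le_mul_of_nonneg_right ?_ h9
          have a1 := norm_nonneg w
          have a3 := abs_nonneg ρ
          linarith
  calc ‖c (U + w + ϑ)‖ * Real.exp (f (U + w + ϑ)).re
      ≤ Real.exp (K * ((U : ℂ) + w + ϑ).re) * Real.exp (f (U + w + ϑ)).re :=
        mul_le_mul_of_nonneg_right h5 (Real.exp_pos _).le
    _ = Real.exp (K * ((U : ℂ) + w + ϑ).re + (f (U + w + ϑ)).re) := (Real.exp_add _ _).symm
    _ ≤ Real.exp (lam r s U * ((C * exp (r * (w + ϑ))).re + ε)) := by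
        apply Real.exp_le_exp.2
        nlinarith

theorem up_bound {L : Set (ℂ → ℂ)} {ι : Type} [Fintype ι] {P c : ι → ℂ → ℂ}
    {r s : ℝ} {C : ι → ℂ} (h : ES L P c r s C) (w : ℂ) {ε ρ : ℝ} (hε : 0 < ε) :
    ∀ᶠ U : ℝ in atTop, ∀ ϑ ∈ closedBall (0 : ℂ) ρ, ∀ M : ℝ,
      (∀ a, (C a * exp (r * (w + ϑ))).re ≤ M) →
      ‖Fs P c (U + w + ϑ)‖ ≤ Real.exp (lam r s U * (M + ε)) := by
  have h1 : ∀ᶠ U : ℝ in atTop, ∀ a, ∀ ϑ ∈ closedBall (0 : ℂ) ρ,
      ‖c a (U + w + ϑ) * exp (P a (U + w + ϑ))‖ ≤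
        Real.exp (lam r s U * ((C a * exp (r * (w + ϑ))).re + ε / 2)) :=
    eventually_all.2 fun a =>
      w5_term h.hr (h.tf.tame _ (h.hc a)) (h.lim a) w ρ (by positivity)
  filter_upwards [h1, w5_card h.hr s (Fintype.card ι) (ε / 2) (by positivity),
    eventually_gt_atTop 0] with U h2 h3 h4
  intro ϑ hϑ M hM
  have hlam := lam_pos r s h4
  unfold Fs
  calc ‖∑ a, c a (U + w + ϑ) * exp (P a (U + w + ϑ))‖
      ≤ ∑ a, ‖c a (U + w + ϑ) * exp (P a (U + w + ϑ))‖ := norm_sum_le _ _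
    _ ≤ ∑ _a : ι, Real.exp (lam r s U * (M + ε / 2)) := by
        refine Finset.sum_le_sum fun a _ => (h2 a ϑ hϑ).trans ?_
        apply Real.exp_le_exp.2
        have := hM a
        exact mul_le_mul_of_nonneg_left (by linarith) hlam.le
    _ = (Fintype.card ι : ℝ) * Real.exp (lam r s U * (M + ε / 2)) := by
        rw [Finset.sum_const, Finset.card_univ, nsmul_eq_mul]
    _ ≤ Real.exp (lam r s U * (ε / 2)) * Real.exp (lam r s U * (M + ε / 2)) :=
        mul_le_mul_of_nonneg_right h3 (Real.exp_pos _).le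
    _ = Real.exp (lam r s U * (M + ε)) := by
        rw [← Real.exp_add]
        congr 1
        ring

theorem low_bound {L : Set (ℂ → ℂ)} {ι : Type} [Fintype ι] {P c : ι → ℂ → ℂ}
    {r s : ℝ} {C : ι → ℂ} (h : ES L P c r s C) {w C₁ : ℂ} (ht : Tp C r w C₁)
    {ε ρ : ℝ} (hε : 0 < ε) (hρ : 0 < ρ) :
    ∀ᶠ U : ℝ in atTop, ∃ ϑ ∈ closedBall (0 : ℂ) ρ,
      Real.exp (lam r s U * ((C₁ * exp (r * (w + ϑ))).re - ε)) ≤ ‖Fs P c (U + w + ϑ)‖ := by
  classical
  obtain ⟨⟨a₁, ha₁⟩, ht2⟩ := ht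
  -- the gap
  obtain ⟨η, ⟨hη0, hη⟩⟩ : ∃ η : ℝ, 0 < η ∧ ∀ a, C a ≠ C₁ →
      η < (C₁ * exp (r * w)).re - (C a * exp (r * w)).re := by
    have h1 : ∀ᶠ η : ℝ in 𝓝[>] 0, ∀ a, C a ≠ C₁ →
        η < (C₁ * exp (r * w)).re - (C a * exp (r * w)).re := by
      refine eventually_all.2 fun a => ?_
      by_cases hCa : C a = C₁
      · exact Eventually.of_forall fun η h => absurd hCa h
      · have h2 := ht2 a hCa
        have h3 : ∀ᶠ η : ℝ in 𝓝 0, η < (C₁ * exp (r * w)).re - (C a * exp (r * w)).re :=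
          gt_mem_nhds (by linarith)
        filter_upwards [nhdsWithin_le_nhds h3] with η h4 _ using h4
    obtain ⟨η, h2, h3⟩ := (h1.and self_mem_nhdsWithin).exists
    exact ⟨η, h3, h2⟩
  obtain ⟨ρ₁, hρ₁, hρ₁ρ, hgap⟩ : ∃ ρ₁ : ℝ, 0 < ρ₁ ∧ ρ₁ ≤ ρ ∧ ∀ a, C a ≠ C₁ →
      ∀ ϑ ∈ closedBall (0 : ℂ) ρ₁,
        (C a * exp (r * (w + ϑ))).re + η ≤ (C₁ * exp (r * (w + ϑ))).re := by
    have h1 : ∀ᶠ ϑ : ℂ in 𝓝 0, ∀ a, C a ≠ C₁ →
        (C a * exp (r * (w + ϑ))).re + η ≤ (C₁ * exp (r * (w + ϑ))).re := by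
      refine eventually_all.2 fun a => ?_
      by_cases hCa : C a = C₁
      · exact Eventually.of_forall fun ϑ h => absurd hCa h
      · have hcont : Continuous fun ϑ : ℂ =>
            (C₁ * exp (r * (w + ϑ))).re - (C a * exp (r * (w + ϑ))).re := by fun_prop
        have h3 : ∀ᶠ ϑ : ℂ in 𝓝 0,
            η < (C₁ * exp (r * (w + ϑ))).re - (C a * exp (r * (w + ϑ))).re := by
          refine hcont.continuousAt.eventually (lt_mem_nhds ?_)
          have := hη a hCa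
          simpa using this
        filter_upwards [h3] with ϑ h4 _
        linarith
    obtain ⟨ρ₀, hρ₀, h2⟩ := Metric.eventually_nhds_iff_ball.1 h1
    refine ⟨min (ρ₀ / 2) ρ, lt_min (by positivity) hρ, min_le_right _ _, fun a ha ϑ hϑ => ?_⟩
    refine h2 ϑ ?_ a ha
    rw [mem_ball]
    rw [mem_closedBall] at hϑ
    have := hϑ.trans (min_le_left _ _)
    linarith
  -- the main group
  let ι₁ := {a : ι // C a = C₁}
  have : Nonempty ι₁ := ⟨⟨a₁, ha₁⟩⟩
  have hES : ES L (fun a : ι₁ => P a.1) (fun a : ι₁ => c a.1) r s (fun a : ι₁ => C a.1) :=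
    { tf := h.tf
      hP := fun a => h.hP a.1
      hc := fun a => h.hc a.1
      hc0 := fun a => h.hc0 a.1
      ne := fun a b hab => h.ne a.1 b.1 (fun h' => hab (Subtype.ext h'))
      hr := h.hr
      lim := fun a => h.lim a.1 }
  have hε' : 0 < min (ε / 2) (η / 4) := lt_min (by positivity) (by positivity)
  have hmain := low_group hES (C₁ := C₁) (fun a => a.2) w hε' hρ₁
  have hoth : ∀ᶠ U : ℝ in atTop, ∀ a, ∀ ϑ ∈ closedBall (0 : ℂ) ρ₁,
      ‖c a (U + w + ϑ) * exp (P a (U + w + ϑ))‖ ≤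
        Real.exp (lam r s U * ((C a * exp (r * (w + ϑ))).re + η / 4)) :=
    eventually_all.2 fun a =>
      w5_term h.hr (h.tf.tame _ (h.hc a)) (h.lim a) w ρ₁ (by positivity)
  filter_upwards [hmain, hoth, w5_card h.hr s (2 * Fintype.card ι) (η / 2) (by positivity),
    w5_card h.hr s 2 (ε / 2) (by positivity), eventually_gt_atTop 0] with U h1 h2 h3 h4 h5
  obtain ⟨ϑ, hϑ, h6⟩ := h1
  have hlam := lam_pos r s h5
  refine ⟨ϑ, closedBall_subset_closedBall hρ₁ρ hϑ, ?_⟩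
  set m := (C₁ * exp (r * (w + ϑ))).re with hm
  set l := lam r s U with hl
  set e' := min (ε / 2) (η / 4) with he'
  have he1 : e' ≤ ε / 2 := min_le_left _ _
  have he2 : e' ≤ η / 4 := min_le_right _ _
  have hsplit : Fs P c (U + w + ϑ) = Fs (fun a : ι₁ => P a.1) (fun a : ι₁ => c a.1) (U + w + ϑ) +
      ∑ a : {a : ι // ¬ C a = C₁}, c a.1 (U + w + ϑ) * exp (P a.1 (U + w + ϑ)) := by
    unfold Fs
    exact (Fintype.sum_subtype_add_sum_subtype (fun a => C a = C₁)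
      (fun a => c a (U + w + ϑ) * exp (P a (U + w + ϑ)))).symm
  have hrest : ‖∑ a : {a : ι // ¬ C a = C₁}, c a.1 (U + w + ϑ) * exp (P a.1 (U + w + ϑ))‖ ≤
      Real.exp (l * (m - e')) / 2 := by
    calc ‖∑ a : {a : ι // ¬ C a = C₁}, c a.1 (U + w + ϑ) * exp (P a.1 (U + w + ϑ))‖
        ≤ ∑ a : {a : ι // ¬ C a = C₁}, ‖c a.1 (U + w + ϑ) * exp (P a.1 (U + w + ϑ))‖ :=
          norm_sum_le _ _
      _ ≤ ∑ _a : {a : ι // ¬ C a = C₁}, Real.exp (l * (m - 3 * η / 4)) := by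
          refine Finset.sum_le_sum fun a _ => (h2 a.1 ϑ hϑ).trans ?_
          apply Real.exp_le_exp.2
          have := hgap a.1 a.2 ϑ hϑ
          exact mul_le_mul_of_nonneg_left (by linarith) hlam.le
      _ = (Fintype.card {a : ι // ¬ C a = C₁} : ℝ) * Real.exp (l * (m - 3 * η / 4)) := by
          rw [Finset.sum_const, Finset.card_univ, nsmul_eq_mul]
      _ ≤ (Fintype.card ι : ℝ) * Real.exp (l * (m - 3 * η / 4)) := by
          refine mul_le_mul_of_nonneg_right ?_ (Real.exp_pos _).le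
          exact_mod_cast Fintype.card_subtype_le _
      _ ≤ (Real.exp (l * (η / 2)) / 2) * Real.exp (l * (m - 3 * η / 4)) := by
          refine mul_le_mul_of_nonneg_right ?_ (Real.exp_pos _).le
          linarith
      _ = Real.exp (l * (m - η / 4)) / 2 := by
          rw [div_mul_eq_mul_div, ← Real.exp_add]
          congr 2
          ring
      _ ≤ Real.exp (l * (m - e')) / 2 := by
          refine div_le_div_of_nonneg_right (Real.exp_le_exp.2 ?_) (by norm_num)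
          exact mul_le_mul_of_nonneg_left (by linarith) hlam.le
  have hfin : Real.exp (l * (m - ε)) ≤ Real.exp (l * (m - e')) / 2 := by
    rw [le_div_iff₀ (by norm_num : (0 : ℝ) < 2)]
    calc Real.exp (l * (m - ε)) * 2 ≤ Real.exp (l * (m - ε)) * Real.exp (l * (ε / 2)) :=
          mul_le_mul_of_nonneg_left h4 (Real.exp_pos _).le
      _ = Real.exp (l * (m - ε / 2)) := by
          rw [← Real.exp_add]
          congr 1
          ring
      _ ≤ Real.exp (l * (m - e')) :=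
          Real.exp_le_exp.2 (mul_le_mul_of_nonneg_left (by linarith) hlam.le)
  rw [hsplit]
  have h7 := norm_sub_norm_le (Fs (fun a : ι₁ => P a.1) (fun a : ι₁ => c a.1) (U + w + ϑ))
    (-∑ a : {a : ι // ¬ C a = C₁}, c a.1 (U + w + ϑ) * exp (P a.1 (U + w + ϑ)))
  rw [norm_neg, sub_neg_eq_add] at h7
  have h8 : Real.exp (l * (m - e')) ≤
    ‖Fs (fun a : ι₁ => P a.1) (fun a : ι₁ => c a.1) (U + w + ϑ)‖ := h6
  linarith

end XD
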