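import Mathlib

/-!
XD-W6: two lemmas on analytic functions on discs.

PROOF. `bc_local`: `Q₁ ζ = Q (z₀ + ζ) - Q z₀` on `ball 0 (3 ρ / 4)` (`ball z₀ (3 ρ / 4) ⊆ ball c ρ`) has real part
at most `2 ε` and `Q₁ 0 = 0`; `Complex.borelCaratheodory_zero` gives `‖Q₁ ζ‖ ≤ 8 ε` for
`‖ζ‖ ≤ ρ / 2`, so `‖Q z - Q z₀‖ ≤ 8 ε` on `ball c (ρ / 4)`; for `z ∈ ball c (ρ / 8)` Cauchy's estimate on the
circle of radius `ρ / 16` around `z` (`Complex.norm_deriv_le_of_forall_mem_sphere_norm_le` for `Q - Q z₀`):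
`‖deriv Q z‖ ≤ 8 ε / (ρ / 16) = 128 ε / ρ`.
`taylor_prop`: let `‖z‖ < R₂ < R₁`, `q = ‖z‖ / R₂ < 1`. `g z = ∑ a_n z ^ n`
(`DifferentiableOn.hasFPowerSeriesOnBall`, `cauchyPowerSeries`; or `Complex.hasSum_taylorSeries_on_ball`), `‖a_n‖ ≤ M / R₂ ^ n`
and `‖a_n‖ ≤ δ / ρ'' ^ n` (`ρ'' < ρ'`; Cauchy estimates for the coefficients,
`norm_cauchyPowerSeries_le` or `Complex.norm_iteratedDeriv_le_of_forall_mem_sphere_norm_le`). Choose `N` with
`∑_{n ≥ N} M q ^ n ≤ ε / 2` and `δ` with `∑_{n < N} δ (‖z‖ / ρ'') ^ n ≤ ε / 2`.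
-/

set_option autoImplicit false

namespace XD

open Complex Filter Topology Metric

theorem bc_local {c : ℂ} {ρ ε : ℝ} (hρ : 0 < ρ) (hε : 0 < ε) {Q : ℂ → ℂ}
    (hQ : DifferentiableOn ℂ Q (ball c ρ)) (hup : ∀ z ∈ ball c ρ, (Q z).re ≤ ε) {z₀ : ℂ}
    (hz₀ : z₀ ∈ ball c (ρ / 4)) (hlow : -ε ≤ (Q z₀).re) {z : ℂ} (hz : z ∈ ball c (ρ / 8)) :
    ‖deriv Q z‖ ≤ 128 * ε / ρ := by
  have hz₀' : dist z₀ c < ρ / 4 := hz₀
  have hz' : dist z c < ρ / 8 := hz
  have hmem : ∀ ζ ∈ ball (0 : ℂ) (3 * ρ / 4), z₀ + ζ ∈ ball c ρ := by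
    intro ζ hζ
    rw [mem_ball_zero_iff] at hζ
    rw [mem_ball]
    have h1 : dist (z₀ + ζ) c ≤ dist (z₀ + ζ) z₀ + dist z₀ c := dist_triangle _ _ _
    have h2 : dist (z₀ + ζ) z₀ = ‖ζ‖ := by
      rw [dist_eq_norm, add_sub_cancel_left]
    rw [h2] at h1
    linarith
  have hd : DifferentiableOn ℂ (fun ζ => Q (z₀ + ζ) - Q z₀) (ball 0 (3 * ρ / 4)) := by
    have h1 : DifferentiableOn ℂ (fun ζ => Q (z₀ + ζ)) (ball 0 (3 * ρ / 4)) := by
      refine hQ.comp (f := fun ζ => z₀ + ζ) ?_ hmem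
      exact (differentiable_const z₀).add differentiable_id |>.differentiableOn
    exact h1.sub_const _
  have hb : ∀ w ∈ ball c (ρ / 4), ‖Q w - Q z₀‖ ≤ 8 * ε := by
    intro w hw
    have hw' : dist w c < ρ / 4 := hw
    have hn : ‖w - z₀‖ < ρ / 2 := by
      rw [← dist_eq_norm]
      have := dist_triangle_right w z₀ c
      linarith
    have h1 := borelCaratheodory_zero (f := fun ζ => Q (z₀ + ζ) - Q z₀) (M := 2 * ε)
      (R := 3 * ρ / 4) (z := w - z₀) (by positivity) hd (by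
        intro ζ hζ
        show (Q (z₀ + ζ) - Q z₀).re ≤ 2 * ε
        have := hup _ (hmem ζ hζ)
        rw [sub_re]
        linarith) (by positivity) (by
        rw [mem_ball_zero_iff]
        linarith) (by simp)
    simp only [add_sub_cancel] at h1
    refine h1.trans ?_
    rw [div_le_iff₀ (by linarith)]
    have h0 : 0 ≤ ‖w - z₀‖ := norm_nonneg _
    nlinarith
  have hsph : ∀ w ∈ closedBall z (ρ / 16), w ∈ ball c (ρ / 4) := by
    intro w hw
    have hw' : dist w z ≤ ρ / 16 := hw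
    rw [mem_ball]
    have := dist_triangle w z c
    linarith
  have hdQ : DifferentiableOn ℂ (fun w => Q w - Q z₀) (ball c ρ) := hQ.sub_const _
  have hdc : DiffContOnCl ℂ (fun w => Q w - Q z₀) (ball z (ρ / 16)) := by
    refine DifferentiableOn.diffContOnCl ?_
    rw [closure_ball _ (by positivity)]
    refine hdQ.mono fun w hw => ?_
    exact ball_subset_ball (by linarith) (hsph w hw)
  have h2 := norm_deriv_le_of_forall_mem_sphere_norm_le (c := z) (R := ρ / 16) (C := 8 * ε)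
    (by positivity) hdc (fun w hw => hb w (hsph w (sphere_subset_closedBall hw)))
  rw [deriv_sub_const] at h2
  refine h2.trans (le_of_eq ?_)
  field_simp
  norm_num

theorem taylor_prop {R₁ ρ' M : ℝ} (h0 : 0 < ρ') (h1 : ρ' ≤ R₁) {z : ℂ}
    (hz : z ∈ ball (0 : ℂ) R₁) {ε : ℝ} (hε : 0 < ε) :
    ∃ δ : ℝ, 0 < δ ∧ ∀ g : ℂ → ℂ, DifferentiableOn ℂ g (ball 0 R₁) →
      (∀ ζ ∈ ball (0 : ℂ) R₁, ‖g ζ‖ ≤ M) → (∀ ζ ∈ ball (0 : ℂ) ρ', ‖g ζ‖ ≤ δ) → ‖g z‖ ≤ ε := by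
  rw [mem_ball_zero_iff] at hz
  have hz0 : 0 ≤ ‖z‖ := norm_nonneg z
  obtain ⟨R₂, hR2, hR2'⟩ := exists_between hz
  have hR2p : 0 < R₂ := lt_of_le_of_lt hz0 hR2
  set q : ℝ := ‖z‖ / R₂ with hq
  have hq0 : 0 ≤ q := by positivity
  have hq1 : q < 1 := by
    rw [hq, div_lt_one hR2p]
    exact hR2
  have hlim : Tendsto (fun N : ℕ => M * q ^ N / (1 - q)) atTop (𝓝 (M * 0 / (1 - q))) :=
    ((tendsto_pow_atTop_nhds_zero_of_lt_one hq0 hq1).const_mul M).div_const _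
  rw [mul_zero, zero_div] at hlim
  obtain ⟨N, hN⟩ := (hlim.eventually_lt_const (half_pos hε)).exists
  set S : ℝ := ∑ n ∈ Finset.range N, (‖z‖ / (ρ' / 2)) ^ n with hS
  have hS0 : 0 ≤ S := Finset.sum_nonneg fun n _ => by positivity
  refine ⟨ε / 2 / (S + 1), by positivity, fun g hg hM hδ => ?_⟩
  set δ : ℝ := ε / 2 / (S + 1) with hδd
  have hsum := hasSum_taylorSeries_on_ball (c := (0 : ℂ)) (r := R₁) (f := g) hg (z := z) (by
    rw [mem_ball_zero_iff]; exact hz)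
  rw [sub_zero] at hsum
  set t : ℕ → ℂ := fun n => ((n.factorial : ℂ))⁻¹ • z ^ n • iteratedDeriv n g 0 with ht
  have hcoef : ∀ (R C : ℝ), 0 < R → R < R₁ → (∀ ζ ∈ sphere (0 : ℂ) R, ‖g ζ‖ ≤ C) → ∀ n : ℕ,
      ‖t n‖ ≤ C * (‖z‖ / R) ^ n := by
    intro R C hR hR1 hC n
    have hdc : DiffContOnCl ℂ g (ball 0 R) := by
      refine DifferentiableOn.diffContOnCl ?_
      rw [closure_ball _ hR.ne']
      exact hg.mono (closedBall_subset_ball hR1)
    have h2 := norm_iteratedDeriv_le_of_forall_mem_sphere_norm_le n hR hdc hC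
    have hf : (0 : ℝ) < n.factorial := by exact_mod_cast n.factorial_pos
    rw [ht]
    simp only [norm_smul, norm_inv, norm_pow, Complex.norm_natCast]
    calc (n.factorial : ℝ)⁻¹ * (‖z‖ ^ n * ‖iteratedDeriv n g 0‖)
        ≤ (n.factorial : ℝ)⁻¹ * (‖z‖ ^ n * (n.factorial * C / R ^ n)) := by gcongr
      _ = C * (‖z‖ / R) ^ n := by
        rw [div_pow]
        field_simp
  have hA : ∀ n, ‖t n‖ ≤ M * q ^ n := hcoef R₂ M hR2p hR2' (fun ζ hζ => hM ζ (by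
    rw [mem_ball_zero_iff]
    rw [mem_sphere_zero_iff_norm] at hζ
    linarith))
  have hB : ∀ n, ‖t n‖ ≤ δ * (‖z‖ / (ρ' / 2)) ^ n :=
    hcoef (ρ' / 2) δ (by positivity) (by linarith) (fun ζ hζ => hδ ζ (by
      rw [mem_ball_zero_iff]
      rw [mem_sphere_zero_iff_norm] at hζ
      linarith))
  rw [← hsum.tsum_eq, ← hsum.summable.sum_add_tsum_nat_add N]
  have hgeo : HasSum (fun n : ℕ => M * q ^ N * q ^ n) (M * q ^ N * (1 - q)⁻¹) :=
    (hasSum_geometric_of_lt_one hq0 hq1).mul_left _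
  have htail : ‖∑' n, t (n + N)‖ ≤ M * q ^ N * (1 - q)⁻¹ := by
    refine tsum_of_norm_bounded hgeo fun n => (hA (n + N)).trans (le_of_eq ?_)
    rw [pow_add]
    ring
  have hhead : ‖∑ n ∈ Finset.range N, t n‖ ≤ δ * S := by
    rw [hS, Finset.mul_sum]
    exact norm_sum_le_of_le _ fun n _ => hB n
  have hδS : δ * S ≤ ε / 2 := by
    rw [hδd, div_mul_eq_mul_div, div_le_iff₀ (by linarith)]
    nlinarith
  rw [div_eq_mul_inv] at hN
  calc ‖∑ n ∈ Finset.range N, t n + ∑' n, t (n + N)‖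
      ≤ ‖∑ n ∈ Finset.range N, t n‖ + ‖∑' n, t (n + N)‖ := norm_add_le _ _
    _ ≤ ε := by linarith

/-- an angle separating the real parts of finitely many numbers -/
theorem exists_angle {ι : Type} [Finite ι] (C : ι → ℂ) :
    ∃ θ : ℝ, ∀ a b, C a ≠ C b → (C a * exp (θ * I)).re ≠ (C b * exp (θ * I)).re := by
  have hf : (Set.range fun p : ι × ι => (C p.1 - C p.2).re / (C p.1 - C p.2).im).Finite :=
    Set.finite_range _
  obtain ⟨t, ht⟩ := hf.infinite_compl.nonempty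
  refine ⟨Real.arctan t, fun a b hab h => ?_⟩
  have hc : 0 < Real.cos (Real.arctan t) := Real.cos_arctan_pos t
  have hre : ∀ w : ℂ, (w * exp ((Real.arctan t : ℝ) * I)).re =
      w.re * Real.cos (Real.arctan t) - w.im * Real.sin (Real.arctan t) := by
    intro w
    rw [mul_re, exp_ofReal_mul_I_re, exp_ofReal_mul_I_im]
  rw [hre, hre] at h
  have hs : Real.sin (Real.arctan t) = t * Real.cos (Real.arctan t) := by
    rw [← Real.tan_mul_cos hc.ne', Real.tan_arctan]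
  rw [hs] at h
  have h3 : (C a - C b).re = (C a - C b).im * t := by
    rw [sub_re, sub_im]
    have : ((C a).re - (C b).re - ((C a).im - (C b).im) * t) * Real.cos (Real.arctan t) = 0 := by
      linarith
    rcases mul_eq_zero.1 this with h4 | h4
    · linarith
    · exact absurd h4 hc.ne'
  by_cases him : (C a - C b).im = 0
  · apply hab
    rw [him, zero_mul] at h3
    exact sub_eq_zero.1 (Complex.ext h3 him)
  · apply ht
    refine ⟨(a, b), ?_⟩
    show (C a - C b).re / (C a - C b).im = t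
    rw [h3]
    field_simp

end XD
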