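import Pool.Agent.Lib.MP_228259_lc.D.W5
import Pool.Agent.Lib.MP_228259_lc.D.W6

/-!
XD-W7: the logarithmic derivative of a zero-free exponential sum in a window.

PROOF. `loc_lim`: by continuity choose `ρ₀ > 0` such that for `‖ϑ‖ ≤ ρ₀` and all `a` with `C a ≠ C₁`:
`Re (C a e^{r(w + ϑ)}) ≤ Re (C₁ e^{r(w + ϑ)})`. Given `ρ ≤ ρ₀`, `ε > 0` let `ε' = ε ρ / 128`. For `U` large: `up_bound` with
`M = Re (C₁ e^{r(w + ϑ)})` and `low_bound` with the radius `ρ / 8` (both with `ε'`). As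
`‖Fs (U + w + ϑ)‖ = exp (λ Re (G ϑ))`, the function `Q = G - C₁ e^{r(w + ·)}` has `Re Q ≤ ε'` on `ball 0 ρ` and
`Re Q ≥ -ε'` at a point of `ball 0 (ρ / 4)`. `bc_local`: `‖deriv Q‖ ≤ ε` on `ball 0 (ρ / 8)`, and
`deriv Q = deriv G - C₁ r e^{r(w + ·)}`.
`glob_bd`: let `M₀ ≥ 1` bound `|Re (C a e^{r(w + ϑ)})| + 1` for `‖ϑ‖ ≤ ρ` and all `a` (and `C₁`). For `U` large
`Re G ≤ M₀` on `ball 0 ρ` (`up_bound`, `ε = 1`) and `Re G ≥ -M₀` at a point of `ball 0 (ρ / 4)` (`low_bound`,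
radius `ρ / 8`, `ε = 1`). `bc_local` with `ε = M₀`.
-/

set_option autoImplicit false

namespace XD

open Complex Filter Topology Metric

theorem w7_up {x y b : ℝ} (hx : 0 < x) {z F : ℂ} (h1 : exp ((x : ℂ) * z) = F)
    (h2 : ‖F‖ ≤ Real.exp (x * b)) (hy : b ≤ y) : z.re ≤ y := by
  rw [← h1, Complex.norm_exp, Real.exp_le_exp, Complex.re_ofReal_mul] at h2
  exact (le_of_mul_le_mul_left h2 hx).trans hy

theorem w7_low {x y b : ℝ} (hx : 0 < x) {z F : ℂ} (h1 : exp ((x : ℂ) * z) = F)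
    (h2 : Real.exp (x * b) ≤ ‖F‖) (hy : y ≤ b) : y ≤ z.re := by
  rw [← h1, Complex.norm_exp, Real.exp_le_exp, Complex.re_ofReal_mul] at h2
  exact hy.trans (le_of_mul_le_mul_left h2 hx)

theorem loc_lim {L : Set (ℂ → ℂ)} {ι : Type} [Fintype ι] {P c : ι → ℂ → ℂ}
    {r s : ℝ} {C : ι → ℂ} (h : ES L P c r s C) {w C₁ : ℂ} (ht : Tp C r w C₁) :
    ∃ ρ₀ : ℝ, 0 < ρ₀ ∧ ∀ ρ : ℝ, 0 < ρ → ρ ≤ ρ₀ → ∀ ε : ℝ, 0 < ε →
      ∀ᶠ U : ℝ in atTop, ∀ G : ℂ → ℂ, DifferentiableOn ℂ G (ball 0 ρ) →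
      (∀ ϑ ∈ ball (0 : ℂ) ρ, exp (lam r s U * G ϑ) = Fs P c (U + w + ϑ)) →
      ∀ ϑ ∈ ball (0 : ℂ) (ρ / 8), ‖deriv G ϑ - C₁ * r * exp (r * (w + ϑ))‖ ≤ ε := by
  have hev : ∀ᶠ ϑ : ℂ in 𝓝 0, ∀ a, C a ≠ C₁ →
      (C a * exp (r * (w + ϑ))).re ≤ (C₁ * exp (r * (w + ϑ))).re := by
    rw [Filter.eventually_all]
    intro a
    by_cases ha : C a = C₁
    · exact Filter.Eventually.of_forall fun ϑ h1 => absurd ha h1
    · have hc : Continuous fun ϑ : ℂ =>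
          (C₁ * exp (r * (w + ϑ))).re - (C a * exp (r * (w + ϑ))).re := by
        fun_prop
      have h0 : 0 < (C₁ * exp (r * (w + (0 : ℂ)))).re - (C a * exp (r * (w + (0 : ℂ)))).re := by
        rw [add_zero]
        linarith [ht.2 a ha]
      filter_upwards [hc.continuousAt.eventually_const_lt h0] with ϑ h1 _
      linarith
  obtain ⟨ρ₁, hρ₁, hball⟩ := Metric.eventually_nhds_iff.mp hev
  refine ⟨ρ₁ / 2, by positivity, fun ρ hρ hρ0 ε hε => ?_⟩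
  have hε' : 0 < ε * ρ / 128 := by positivity
  filter_upwards [up_bound h w (ρ := ρ) hε', low_bound h ht hε' (ρ := ρ / 8) (by positivity),
    eventually_gt_atTop (0 : ℝ)] with U hup hlow hU G hG hGF ϑ hϑ
  have hl : 0 < lam r s U := lam_pos r s hU
  have hsub8 : ball (0 : ℂ) (ρ / 8) ⊆ ball 0 ρ := ball_subset_ball (by linarith)
  have hexpd : Differentiable ℂ fun ϑ : ℂ => C₁ * exp (r * (w + ϑ)) := by fun_prop
  have hQ : DifferentiableOn ℂ (fun ϑ => G ϑ - C₁ * exp (r * (w + ϑ))) (ball 0 ρ) :=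
    hG.sub hexpd.differentiableOn
  have hQup : ∀ z ∈ ball (0 : ℂ) ρ, (G z - C₁ * exp (r * (w + z))).re ≤ ε * ρ / 128 := by
    intro z hz
    have hM : ∀ a, (C a * exp (r * (w + z))).re ≤ (C₁ * exp (r * (w + z))).re := by
      intro a
      by_cases ha : C a = C₁
      · rw [ha]
      · refine hball ?_ a ha
        rw [mem_ball] at hz
        linarith
    have h1 := hup z (ball_subset_closedBall hz) _ hM
    have h2 := w7_up hl (hGF z hz) h1 le_rfl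
    rw [Complex.sub_re]
    linarith
  obtain ⟨ϑ₀, hϑ₀, hlow₀⟩ := hlow
  have hϑ₀' : ϑ₀ ∈ ball (0 : ℂ) (ρ / 4) := closedBall_subset_ball (by linarith) hϑ₀
  have hϑ₀'' : ϑ₀ ∈ ball (0 : ℂ) ρ := ball_subset_ball (by linarith) hϑ₀'
  have hQlow : -(ε * ρ / 128) ≤ (G ϑ₀ - C₁ * exp (r * (w + ϑ₀))).re := by
    have h2 := w7_low hl (hGF ϑ₀ hϑ₀'') hlow₀ le_rfl
    rw [Complex.sub_re]
    linarith
  have h3 := bc_local hρ hε' hQ hQup hϑ₀' hQlow hϑ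
  have h4 : deriv (fun ϑ => G ϑ - C₁ * exp (r * (w + ϑ))) ϑ =
      deriv G ϑ - C₁ * r * exp (r * (w + ϑ)) := by
    have h5 : DifferentiableAt ℂ G ϑ :=
      hG.differentiableAt (isOpen_ball.mem_nhds (hsub8 hϑ))
    have h6 : HasDerivAt (fun ϑ : ℂ => C₁ * exp (r * (w + ϑ))) (C₁ * r * exp (r * (w + ϑ))) ϑ := by
      have h7 : HasDerivAt (fun ϑ : ℂ => (r : ℂ) * (w + ϑ)) ((r : ℂ) * 1) ϑ :=
        ((hasDerivAt_id ϑ).const_add w).const_mul (r : ℂ)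
      have h8 := (h7.cexp).const_mul C₁
      have h9 : C₁ * (cexp (↑r * (w + ϑ)) * (↑r * 1)) = C₁ * r * exp (r * (w + ϑ)) := by ring
      rw [← h9]
      exact h8
    rw [deriv_fun_sub h5 h6.differentiableAt, h6.deriv]
  rw [h4] at h3
  refine h3.trans (le_of_eq ?_)
  field_simp

theorem glob_bd {L : Set (ℂ → ℂ)} {ι : Type} [Fintype ι] {P c : ι → ℂ → ℂ}
    {r s : ℝ} {C : ι → ℂ} (h : ES L P c r s C) {w C₁ : ℂ} (ht : Tp C r w C₁) {ρ : ℝ}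
    (hρ : 0 < ρ) :
    ∃ M : ℝ, ∀ᶠ U : ℝ in atTop, ∀ G : ℂ → ℂ, DifferentiableOn ℂ G (ball 0 ρ) →
      (∀ ϑ ∈ ball (0 : ℂ) ρ, exp (lam r s U * G ϑ) = Fs P c (U + w + ϑ)) →
      ∀ ϑ ∈ ball (0 : ℂ) (ρ / 8), ‖deriv G ϑ‖ ≤ M := by
  set M₁ : ℝ := (∑ a, ‖C a‖) * Real.exp (|r| * (‖w‖ + ρ)) with hM₁
  have hM₁0 : 0 ≤ M₁ := by positivity
  have hb : ∀ a, ∀ ϑ ∈ closedBall (0 : ℂ) ρ, |(C a * exp (r * (w + ϑ))).re| ≤ M₁ := by
    intro a ϑ hϑ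
    rw [mem_closedBall_zero_iff] at hϑ
    refine (Complex.abs_re_le_norm _).trans ?_
    rw [norm_mul, Complex.norm_exp, hM₁]
    refine mul_le_mul (Finset.single_le_sum (f := fun a => ‖C a‖) (fun _ _ => norm_nonneg _)
      (Finset.mem_univ a)) ?_ (Real.exp_pos _).le (Finset.sum_nonneg fun _ _ => norm_nonneg _)
    rw [Real.exp_le_exp]
    refine (Complex.re_le_norm _).trans ?_
    rw [norm_mul, Complex.norm_real, Real.norm_eq_abs]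
    refine mul_le_mul_of_nonneg_left ?_ (abs_nonneg _)
    exact (norm_add_le _ _).trans (by linarith)
  refine ⟨128 * (M₁ + 1) / ρ, ?_⟩
  filter_upwards [up_bound h w (ρ := ρ) one_pos, low_bound h ht one_pos (ρ := ρ / 8) (by positivity),
    eventually_gt_atTop (0 : ℝ)] with U hup hlow hU G hG hGF ϑ hϑ
  have hl : 0 < lam r s U := lam_pos r s hU
  have hGup : ∀ z ∈ ball (0 : ℂ) ρ, (G z).re ≤ M₁ + 1 := by
    intro z hz
    have h1 := hup z (ball_subset_closedBall hz) M₁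
      fun a => (abs_le.mp (hb a z (ball_subset_closedBall hz))).2
    exact w7_up hl (hGF z hz) h1 le_rfl
  obtain ⟨ϑ₀, hϑ₀, hlow₀⟩ := hlow
  have hϑ₀' : ϑ₀ ∈ ball (0 : ℂ) (ρ / 4) := closedBall_subset_ball (by linarith) hϑ₀
  have hϑ₀'' : ϑ₀ ∈ ball (0 : ℂ) ρ := ball_subset_ball (by linarith) hϑ₀'
  have hGlow : -(M₁ + 1) ≤ (G ϑ₀).re := by
    obtain ⟨a, ha⟩ := ht.1
    have h1 := (abs_le.mp (hb a ϑ₀ (ball_subset_closedBall hϑ₀''))).1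
    rw [ha] at h1
    exact w7_low hl (hGF ϑ₀ hϑ₀'') hlow₀ (by linarith)
  exact bc_local hρ (by linarith) hG hGup hϑ₀' hGlow hϑ

end XD
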