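import Pool.Agent.Lib.MP_228259_lc.D.W7
import Pool.Agent.Lib.MP_228259_lc.V.F2

/-!
XD-W8: an exponential sum with at least two leading constants has zeros.

PROOF. Suppose `Fs P c` has no zero in `Om R`. Take `θ` from `exists_angle`, `w = i θ / r`, so
`e^{rw} = e^{iθ}`. Let `C₊`, `C₋` be the values of `C` with the largest and the smallest
`Re (C e^{iθ})` (`ι` is finite; `C₊ ≠ C₋` as `C` has two values): `Tp C r w C₊`, and with
`w' = w + i π / r`, `e^{rw'} = -e^{rw}`: `Tp C r w' C₋`. Let `ρ` = 64 π / r. For `U` large: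
`closedBall (U + w) ρ ⊆ Om R'` with `R' ≥ R` such that all `P a`, `c a` are differentiable on `Om R'` (`ball_sub`), so
`ϑ ↦ Fs (U + w + ϑ)` is differentiable and zero-free on the convex open set `ball 0 ρ`: `XV.exists_log` gives `H` with
`exp H = Fs`; `G = H / λ`, `λ = lam r s U > 0`.
`glob_bd`: `‖deriv G‖ ≤ M` on `ball 0 (8 π / r)`. `loc_lim` for `w, C₊` (radius `ρ₁`) and for `w', C₋` (radius
`ρ₂`; the function `ϑ ↦ G (ϑ + i π / r)` on `ball 0 ρ₂`; take `ρ₁, ρ₂ ≤ π / r`): for all `ε > 0` and `U` large `g = deriv G - C₊ r e^{r(w + ·)}` is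
bounded by `M'` on `ball 0 (8 π / r)`, by `ε` on `ball 0 (ρ₁ / 8)`, and
`‖deriv G (iπ/r) - C₋ r e^{rw'}‖ ≤ ε`. `taylor_prop` with `z = i π / r`: `‖g (i π / r)‖ ≤ ε'`. So
`‖C₊ r e^{rw'} - C₋ r e^{rw'}‖ ≤ ε + ε'` for all `ε, ε' > 0`: `C₊ = C₋`, a contradiction. (Note
`e^{r(w + iπ/r)} = e^{rw'}`.)
-/

set_option autoImplicit false

namespace XD

open Complex Filter Topology Metric

private theorem w8_G {L : Set (ℂ → ℂ)} {ι : Type} [Fintype ι] {P c : ι → ℂ → ℂ}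
    {r s : ℝ} {C : ι → ℂ} (h : ES L P c r s C) {R : ℝ} (h0 : ∀ u ∈ Om R, Fs P c u ≠ 0)
    (w : ℂ) (ρ : ℝ) :
    ∀ᶠ U : ℝ in atTop, ∃ G : ℂ → ℂ, DifferentiableOn ℂ G (ball 0 ρ) ∧
      ∀ ϑ ∈ ball (0 : ℂ) ρ, exp (lam r s U * G ϑ) = Fs P c (U + w + ϑ) := by
  have hea : ∀ f ∈ L, ∀ᶠ u in lom, DifferentiableAt ℂ f u := by
    intro f hf
    obtain ⟨R', hR'⟩ := h.tf.ea f hf
    filter_upwards [om_mem R'] with u hu
    exact (hR' u hu).differentiableAt ((om_open R').mem_nhds hu)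
  have h1 : ∀ᶠ u in lom, ∀ a, DifferentiableAt ℂ (P a) u :=
    Filter.eventually_all.2 fun a => hea _ (h.hP a)
  have h2 : ∀ᶠ u in lom, ∀ a, DifferentiableAt ℂ (c a) u :=
    Filter.eventually_all.2 fun a => hea _ (h.hc a)
  have h3 : ∀ᶠ u in lom, DifferentiableAt ℂ (Fs P c) u ∧ Fs P c u ≠ 0 := by
    filter_upwards [h1, h2, om_mem R] with u h4 h5 h6
    refine ⟨?_, h0 u h6⟩
    have h7 : DifferentiableAt ℂ (fun u => ∑ a, c a u * exp (P a u)) u :=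
      DifferentiableAt.fun_sum fun a _ => (h5 a).mul (h4 a).cexp
    exact h7
  filter_upwards [ev_ball h3 w ρ, eventually_gt_atTop (0 : ℝ)] with U hU hU0
  have hl : (lam r s U : ℂ) ≠ 0 := by exact_mod_cast (lam_pos r s hU0).ne'
  have hmem : ∀ ϑ ∈ ball (0 : ℂ) ρ, (U : ℂ) + w + ϑ ∈ closedBall ((U : ℂ) + w) ρ := by
    intro ϑ hϑ
    rw [mem_ball_zero_iff] at hϑ
    rw [mem_closedBall, dist_eq_norm]
    simpa using hϑ.le
  have hd : DifferentiableOn ℂ (fun ϑ => Fs P c (U + w + ϑ)) (ball 0 ρ) := by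
    intro ϑ hϑ
    have h4 := (hU _ (hmem ϑ hϑ)).1
    have h5 : DifferentiableAt ℂ (fun ϑ : ℂ => (U : ℂ) + w + ϑ) ϑ := by fun_prop
    exact (DifferentiableAt.comp ϑ h4 h5).differentiableWithinAt
  obtain ⟨H, hH, hHe⟩ := XV.exists_log isOpen_ball (convex_ball (0 : ℂ) ρ) _ hd
    (fun ϑ hϑ => (hU _ (hmem ϑ hϑ)).2)
  refine ⟨fun ϑ => H ϑ / (lam r s U : ℂ), hH.div_const _, fun ϑ hϑ => ?_⟩
  rw [← hHe ϑ hϑ]
  congr 1
  field_simp

theorem es_zero {L : Set (ℂ → ℂ)} {ι : Type} [Fintype ι] {P c : ι → ℂ → ℂ}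
    {r s : ℝ} {C : ι → ℂ} (h : ES L P c r s C) {a b : ι} (hab : C a ≠ C b) (R : ℝ) :
    ∃ u ∈ Om R, Fs P c u = 0 := by
  by_contra hne
  push Not at hne
  have : Nonempty ι := ⟨a⟩
  have hr := h.hr
  have hrc : (r : ℂ) ≠ 0 := by exact_mod_cast hr.ne'
  obtain ⟨θ, hθ⟩ := exists_angle C
  obtain ⟨a₁, ha₁⟩ := Finite.exists_max (fun a => (C a * exp (θ * I)).re)
  obtain ⟨a₂, ha₂⟩ := Finite.exists_min (fun a => (C a * exp (θ * I)).re)
  have h12 : C a₁ ≠ C a₂ := by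
    intro h12
    apply hab
    by_contra hab'
    apply hθ a b hab'
    have e1 := ha₁ a
    have e2 := ha₁ b
    have e3 := ha₂ a
    have e4 := ha₂ b
    rw [h12] at e1 e2
    exact (le_antisymm e1 e3).trans (le_antisymm e2 e4).symm
  set w : ℂ := θ * I / r with hw
  set z : ℂ := Real.pi * I / r with hz
  have hrw : exp ((r : ℂ) * w) = exp (θ * I) := by
    congr 1
    rw [hw]
    field_simp
  have hrw' : exp ((r : ℂ) * (w + z)) = -exp (θ * I) := by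
    have h1 : (r : ℂ) * (w + z) = θ * I + Real.pi * I := by
      rw [hw, hz]
      field_simp
    rw [h1, Complex.exp_add, Complex.exp_pi_mul_I]
    ring
  have ht₁ : Tp C r w (C a₁) := by
    refine ⟨⟨a₁, rfl⟩, fun a ha => ?_⟩
    rw [hrw]
    exact lt_of_le_of_ne (ha₁ a) (hθ a a₁ ha)
  have ht₂ : Tp C r (w + z) (C a₂) := by
    refine ⟨⟨a₂, rfl⟩, fun a ha => ?_⟩
    rw [hrw', mul_neg, mul_neg, Complex.neg_re, Complex.neg_re]
    exact neg_lt_neg (lt_of_le_of_ne (ha₂ a) (hθ a₂ a ha.symm))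
  have hpr : 0 < Real.pi / r := div_pos Real.pi_pos hr
  have hzn : ‖z‖ = Real.pi / r := by
    rw [hz, norm_div, norm_mul, Complex.norm_I, mul_one, Complex.norm_real, Complex.norm_real,
      Real.norm_eq_abs, Real.norm_eq_abs, abs_of_pos Real.pi_pos, abs_of_pos hr]
  set R₁ : ℝ := 8 * (Real.pi / r) with hR₁
  set ρ : ℝ := 64 * (Real.pi / r) with hρ
  have hρ0 : 0 < ρ := by positivity
  have hρ8 : ρ / 8 = R₁ := by rw [hρ, hR₁]; ring
  obtain ⟨M, hM⟩ := glob_bd h ht₁ hρ0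
  obtain ⟨ρ₀₁, hρ₀₁, hloc₁⟩ := loc_lim h ht₁
  obtain ⟨ρ₀₂, hρ₀₂, hloc₂⟩ := loc_lim h ht₂
  set ρ₁ : ℝ := min ρ₀₁ (Real.pi / r) with hρ₁
  set ρ₂ : ℝ := min ρ₀₂ (Real.pi / r) with hρ₂
  have hρ₁0 : 0 < ρ₁ := lt_min hρ₀₁ hpr
  have hρ₂0 : 0 < ρ₂ := lt_min hρ₀₂ hpr
  have hρ₁r : ρ₁ ≤ Real.pi / r := min_le_right _ _
  have hρ₂r : ρ₂ ≤ Real.pi / r := min_le_right _ _
  set M₂ : ℝ := ‖C a₁ * r‖ * Real.exp (r * (‖w‖ + R₁)) with hM₂
  set D : ℂ := (C a₁ - C a₂) * r * exp (r * (w + z)) with hD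
  have hD0 : 0 < ‖D‖ := by
    rw [norm_pos_iff, hD]
    exact mul_ne_zero (mul_ne_zero (sub_ne_zero.2 h12) hrc) (exp_ne_zero _)
  have hε : 0 < ‖D‖ / 3 := by positivity
  have hzR : z ∈ ball (0 : ℂ) R₁ := by
    rw [mem_ball_zero_iff, hzn, hR₁]
    linarith
  obtain ⟨δ, hδ, hT⟩ := taylor_prop (R₁ := R₁) (ρ' := ρ₁ / 8) (M := M + M₂) (by positivity)
    (by rw [hR₁]; linarith) hzR hε
  have ev1 := hloc₁ ρ₁ hρ₁0 (min_le_left _ _) δ hδ
  have ev2 := hloc₂ ρ₂ hρ₂0 (min_le_left _ _) _ hε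
  have ev3 := w8_G h hne w ρ
  obtain ⟨U, hU1, hU2, ⟨G, hG, hGF⟩, hU4⟩ := (ev1.and (ev2.and (ev3.and hM))).exists
  have hb1 := hU1 G (hG.mono (ball_subset_ball (by rw [hρ]; linarith)))
    (fun ϑ hϑ => hGF ϑ (ball_subset_ball (by rw [hρ]; linarith) hϑ))
  have hb4 := hU4 G hG hGF
  rw [hρ8] at hb4
  have hexpd : Differentiable ℂ fun ϑ : ℂ => C a₁ * r * exp (r * (w + ϑ)) := by fun_prop
  have hdG : DifferentiableOn ℂ (deriv G) (ball 0 ρ) := hG.deriv isOpen_ball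
  have hg := hT (fun ϑ => deriv G ϑ - C a₁ * r * exp (r * (w + ϑ)))
    ((hdG.mono (ball_subset_ball (by rw [hρ, hR₁]; linarith))).sub hexpd.differentiableOn)
    (by
      intro ζ hζ
      refine (norm_sub_le _ _).trans (add_le_add (hb4 ζ hζ) ?_)
      rw [norm_mul, hM₂]
      refine mul_le_mul_of_nonneg_left ?_ (norm_nonneg _)
      rw [Complex.norm_exp]
      apply Real.exp_le_exp.2
      rw [mem_ball_zero_iff] at hζ
      refine (Complex.re_le_norm _).trans ?_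
      rw [norm_mul, Complex.norm_real, Real.norm_eq_abs, abs_of_pos hr]
      exact mul_le_mul_of_nonneg_left ((norm_add_le _ _).trans (by linarith)) hr.le)
    (fun ζ hζ => hb1 ζ hζ)
  have hzb : ∀ ϑ ∈ ball (0 : ℂ) ρ₂, z + ϑ ∈ ball (0 : ℂ) ρ := by
    intro ϑ hϑ
    rw [mem_ball_zero_iff] at hϑ ⊢
    refine (norm_add_le _ _).trans_lt ?_
    rw [hzn, hρ]
    linarith
  have hb2 := hU2 (fun ϑ => G (z + ϑ))
    (by
      intro ϑ hϑ
      have h4 : DifferentiableAt ℂ G (z + ϑ) :=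
        hG.differentiableAt (isOpen_ball.mem_nhds (hzb ϑ hϑ))
      have h5 : DifferentiableAt ℂ (fun ϑ : ℂ => z + ϑ) ϑ := by fun_prop
      exact (DifferentiableAt.comp ϑ h4 h5).differentiableWithinAt)
    (fun ϑ hϑ => by
      rw [hGF _ (hzb ϑ hϑ)]
      congr 1
      ring)
    0 (mem_ball_self (by positivity))
  rw [deriv_comp_const_add, add_zero, add_zero] at hb2
  have hfin : D = (deriv G z - C a₂ * r * exp (r * (w + z))) -
      (deriv G z - C a₁ * r * exp (r * (w + z))) := by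
    rw [hD]
    ring
  have hlast : ‖D‖ ≤ ‖D‖ / 3 + ‖D‖ / 3 := by
    calc ‖D‖ = ‖(deriv G z - C a₂ * r * exp (r * (w + z))) -
          (deriv G z - C a₁ * r * exp (r * (w + z)))‖ := by rw [← hfin]
      _ ≤ _ := (norm_sub_le _ _).trans (add_le_add hb2 hg)
  linarith

end XD
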