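import Pool.Agent.Lib.MP_228259_lc.D.W8
import Pool.Agent.Lib.MP_228259_lc.D.FD

/-!
XD-W9: Theorem 2: zeros of exponential sums over a tame field.

PROOF of `expsum`. For `a ≠ b` the function `P a - P b ∈ L` is not eventually `0` (`ne` with `g = 1`,
`deriv_congr`), so it has a size `(r a b, s a b)`. Among the finitely many ordered pairs `a ≠ b` let
`(r, s)` be the lexicographically largest; `r > 0` by `hgr` (`Sz.unique`). Fix `a₀ : ι`. Put
`P' a = P a - P a₀`; `NEx L P'` (derivatives of differences, `deriv_congr`, `deriv_add`). `P' a / phi r s`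
converges (`lim_of_sz`; for `a = a₀` it is `0`) to `C a`. For the maximal pair `(a, b)`:
`(P a - P b) / phi r s` tends to a non-zero number, so `C a ≠ C b`. `es_zero` for `P'`; and
`Fs P c u = exp (P a₀ u) * Fs P' c u`.
PROOF of `expsum_ff`: apply `expsum` to `rep (P a)`, `rep (c a)`: `NEx`: for `g ∈ L` take `toF g`
(`rep_toF`, `rep_fder`, `rep_mul`, `rep_sub`, `rep_inj`).
-/

set_option autoImplicit false

namespace XD

open Complex Filter Topology Metric

private theorem w9_dsub {f g : ℂ → ℂ} (hf : EA f) (hg : EA g) :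
    deriv (fun u => f u - g u) =ᶠ[lom] fun u => deriv f u - deriv g u := by
  obtain ⟨R1, h1⟩ := hf
  obtain ⟨R2, h2⟩ := hg
  filter_upwards [om_mem (max R1 R2)] with u hu
  have hu1 : u ∈ Om R1 := om_mono (le_max_left _ _) hu
  have hu2 : u ∈ Om R2 := om_mono (le_max_right _ _) hu
  exact _root_.deriv_fun_sub (h1.differentiableAt ((om_open _).mem_nhds hu1))
    (h2.differentiableAt ((om_open _).mem_nhds hu2))

private theorem w9_sub {L : Set (ℂ → ℂ)} (h : TF L) {f g : ℂ → ℂ} (hf : f ∈ L) (hg : g ∈ L) :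
    (fun u => f u - g u) ∈ L := by
  have h1 := h.add f hf _ (h.mul _ (h.cst (-1)) g hg)
  have h2 : (fun u => f u - g u) = fun u => f u + -1 * g u := by
    funext u
    ring
  rw [h2]
  exact h1

private theorem w9_ne {L : Set (ℂ → ℂ)} (h : TF L) {ι : Type} {P : ι → ℂ → ℂ}
    (hP : ∀ a, P a ∈ L) (ne : NEx L P) {a b : ι} (hab : a ≠ b) :
    ∃ r s c, Sz (fun u => P a u - P b u) r s c := by
  rcases h.tame _ (w9_sub h (hP a) (hP b)) with h0 | h0
  · exfalso
    refine ne a b hab (fun _ => 1) (h.cst 1) ?_ ?_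
    · intro h1
      obtain ⟨u, hu⟩ := h1.exists
      simp at hu
    · have h1 := deriv_congr h0
      have h2 := w9_dsub (h.ea _ (hP a)) (h.ea _ (hP b))
      filter_upwards [h1, h2] with u h3 h4
      rw [← h4, h3]
      have h5 : (deriv (0 : ℂ → ℂ) u) = 0 := by
        have : (0 : ℂ → ℂ) = fun _ => 0 := rfl
        rw [this, _root_.deriv_const]
      rw [h5, _root_.deriv_const, zero_mul]
  · exact h0

theorem expsum {L : Set (ℂ → ℂ)} (h : TF L) {ι : Type} [Fintype ι] {P c : ι → ℂ → ℂ}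
    (hP : ∀ a, P a ∈ L) (hc : ∀ a, c a ∈ L) (hc0 : ∀ a, ¬ c a =ᶠ[lom] 0) (ne : NEx L P)
    {a b : ι} {r s : ℝ} {c' : ℂ} (hr : 0 < r) (hgr : Sz (fun u => P a u - P b u) r s c') (R : ℝ) :
    ∃ u ∈ Om R, Fs P c u = 0 := by
  classical
  have hab : a ≠ b := by
    rintro rfl
    refine hgr.not_zero ?_
    filter_upwards with u
    simp
  have hsz : ∀ p : ι × ι, ∃ q : ℝ × ℝ × ℂ, p.1 ≠ p.2 →
      Sz (fun u => P p.1 u - P p.2 u) q.1 q.2.1 q.2.2 := by
    intro p
    by_cases hp : p.1 = p.2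
    · exact ⟨0, fun h => absurd hp h⟩
    · obtain ⟨r, s, c, h1⟩ := w9_ne h hP ne hp
      exact ⟨(r, s, c), fun _ => h1⟩
  choose q hq using hsz
  set S : Finset (ι × ι) := Finset.univ.filter (fun p => p.1 ≠ p.2) with hS
  have hmem : ∀ x y : ι, x ≠ y → (x, y) ∈ S := by
    intro x y hxy
    rw [hS, Finset.mem_filter]
    exact ⟨Finset.mem_univ _, hxy⟩
  obtain ⟨p0, hp0, hmax⟩ := Finset.exists_max_image S
    (fun p => (toLex ((q p).1, (q p).2.1) : ℝ ×ₗ ℝ)) ⟨(a, b), hmem a b hab⟩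
  obtain ⟨x0, y0⟩ := p0
  have hxy : x0 ≠ y0 := (Finset.mem_filter.1 hp0).2
  have hmax' : ∀ x y : ι, x ≠ y → (q (x, y)).1 < (q (x0, y0)).1 ∨
      ((q (x, y)).1 = (q (x0, y0)).1 ∧ (q (x, y)).2.1 ≤ (q (x0, y0)).2.1) := by
    intro x y hxy'
    have h1 := hmax (x, y) (hmem x y hxy')
    rw [Prod.Lex.toLex_le_toLex] at h1
    exact h1
  have h0 := hq (x0, y0) hxy
  set r0 := (q (x0, y0)).1 with hr0
  set s0 := (q (x0, y0)).2.1 with hs0
  have hr0p : 0 < r0 := by
    have h1 := (hgr.unique (hq (a, b) hab)).1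
    rcases hmax' a b hab with h2 | h2
    · rw [← h1] at h2
      linarith
    · rw [← h2.1, ← h1]
      exact hr
  -- the limits
  have hlim : ∀ x : ι, ∃ C : ℂ, Tendsto (fun u => (P x u - P y0 u) / phi r0 s0 u) lom (𝓝 C) := by
    intro x
    by_cases hx : x = y0
    · refine ⟨0, ?_⟩
      rw [hx]
      simp
    · exact ⟨_, lim_of_sz (hq (x, y0) hx) (hmax' x y0 hx)⟩
  choose C hC using hlim
  have hCy : C y0 = 0 := by
    refine tendsto_nhds_unique (hC y0) ?_
    simp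
  have hCx : C x0 ≠ C y0 := by
    rw [hCy, tendsto_nhds_unique (hC x0) h0.2]
    exact h0.1
  have hes : ES L (fun x u => P x u - P y0 u) c r0 s0 C := by
    refine ⟨h, fun x => w9_sub h (hP x) (hP y0), hc, hc0, ?_, hr0p, hC⟩
    intro x y hxy' g hg hg0 hd
    refine ne x y hxy' g hg hg0 ?_
    have h1 := w9_dsub (h.ea _ (hP x)) (h.ea _ (hP y0))
    have h2 := w9_dsub (h.ea _ (hP y)) (h.ea _ (hP y0))
    filter_upwards [hd, h1, h2] with u h3 h4 h5
    rw [h3, h4, h5]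
    ring
  obtain ⟨u, hu, hz⟩ := es_zero hes hCx R
  refine ⟨u, hu, ?_⟩
  have h1 : Fs P c u = exp (P y0 u) * Fs (fun x u => P x u - P y0 u) c u := by
    unfold Fs
    rw [Finset.mul_sum]
    refine Finset.sum_congr rfl fun x _ => ?_
    rw [Complex.exp_sub]
    field_simp [Complex.exp_ne_zero]
  rw [h1, hz, mul_zero]

theorem expsum_ff {L : Set (ℂ → ℂ)} {h : TF L} {ι : Type} [Fintype ι] (P c : ι → FF h)
    (hc0 : ∀ a, c a ≠ 0)
    (ne : ∀ a b, a ≠ b → ∀ g : FF h, g ≠ 0 → fder h g ≠ fder h (P a - P b) * g)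
    {a b : ι} {r s : ℝ} {c' : ℂ} (hr : 0 < r) (hgr : Sz (rep (P a - P b)) r s c') (R : ℝ) :
    ∃ u ∈ Om R, ∑ i, rep (c i) u * exp (rep (P i) u) = 0 := by
  refine expsum h (P := fun a => rep (P a)) (c := fun a => rep (c a)) (fun a => rep_mem _)
    (fun a => rep_mem _) (fun a ha => hc0 a (rep_zero.2 ha)) ?_ hr
    (hgr.congr (rep_sub (P a) (P b)).symm) R
  intro x y hxy g hg hg0 hd
  have hG : toF h g hg ≠ 0 := by
    intro h0
    apply hg0
    exact (rep_toF hg).symm.trans (rep_zero.1 h0)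
  refine ne x y hxy (toF h g hg) hG ?_
  rw [rep_inj]
  have e1 : rep (fder h (toF h g hg)) =ᶠ[lom] deriv g :=
    (rep_fder _).trans (deriv_congr (rep_toF hg))
  have e2 : rep (fder h (P x - P y)) =ᶠ[lom] fun u => deriv (rep (P x)) u - deriv (rep (P y)) u :=
    (rep_fder _).trans ((deriv_congr (rep_sub (P x) (P y))).trans
      (w9_dsub (h.ea _ (rep_mem _)) (h.ea _ (rep_mem _))))
  filter_upwards [e1, e2, hd, rep_mul (fder h (P x - P y)) (toF h g hg), rep_toF (h := h) hg]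
    with u h1 h2 h3 h4 h5
  rw [h1, h4, h2, h5, h3]

end XD
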