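import Pool.Agent.Lib.MP_228259_lc.D.O3

/-!
Definitions for the theorem on exponential sums (Theorem 2 of MP_228259_DEG_h4.md).
-/

set_option autoImplicit false

namespace XD

open Complex Filter Topology Metric

/-- the size of `phi r s` near the real point `U` -/
noncomputable def lam (r s U : ℝ) : ℝ := U ^ s * Real.exp (r * U)

/-- the exponential sum -/
noncomputable def Fs {ι : Type} [Fintype ι] (P c : ι → ℂ → ℂ) (u : ℂ) : ℂ :=
  ∑ a, c a u * exp (P a u)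

/-- `e^{P a - P b}` is not in `L` -/
def NEx (L : Set (ℂ → ℂ)) {ι : Type} (P : ι → ℂ → ℂ) : Prop :=
  ∀ a b, a ≠ b → ∀ g ∈ L, ¬ g =ᶠ[lom] 0 →
    ¬ (deriv g =ᶠ[lom] fun u => (deriv (P a) u - deriv (P b) u) * g u)

/-- the data of an exponential sum over `L`, `P a = (C a + o(1)) phi r s` -/
structure ES (L : Set (ℂ → ℂ)) {ι : Type} (P c : ι → ℂ → ℂ) (r s : ℝ) (C : ι → ℂ) : Prop where
  tf : TF L
  hP : ∀ a, P a ∈ L
  hc : ∀ a, c a ∈ L
  hc0 : ∀ a, ¬ c a =ᶠ[lom] 0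
  ne : NEx L P
  hr : 0 < r
  lim : ∀ a, Tendsto (fun u => P a u / phi r s u) lom (𝓝 (C a))

/-- `C₁` is the unique value with maximal `Re (C e^{rw})` -/
def Tp {ι : Type} (C : ι → ℂ) (r : ℝ) (w C₁ : ℂ) : Prop :=
  (∃ a, C a = C₁) ∧ ∀ a, C a ≠ C₁ → (C a * exp (r * w)).re < (C₁ * exp (r * w)).re

end XD
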